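import Pool.Agent.Lib_helper59.MF.Defs
/-! MF : block G4a (the arcs). -/

set_option autoImplicit false

namespace Pool.Agent.MF

open Finset Complex Filter Topology MeasureTheory Pool.Agent.Var35 Pool.Agent.Var73 Pool.Agent.HC
open scoped ArithmeticFunction ArithmeticFunction.Moebius

/-- the centres -/
theorem arc_ct_pr (R : ℕ) (hR : 1 ≤ R) (x : ℕ × ℕ) (hx : x ∈ CT R) :
    x.1 ∈ Icc 1 R ∧ IsCoprime (x.2 : ℤ) (x.1 : ℤ) := by
  unfold CT at hx
  rw [mem_insert, mem_filter, mem_product] at hx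
  rcases hx with hx | ⟨⟨h1, -⟩, h2⟩
  · rw [hx]
    exact ⟨mem_Icc.2 ⟨le_rfl, hR⟩, isCoprime_one_left⟩
  · unfold Cd at h2
    exact ⟨h1, Nat.isCoprime_iff_coprime.2 (mem_filter.1 h2).2⟩

/-- two arcs do not meet -/
theorem g4a_disj (R : ℕ) (hR : 2 ≤ R) (Δ : ℕ → ℝ)
    (hΔ : ∀ q ∈ Icc 1 R, 2 * Δ q * q * R ≤ 1) (t : ℝ) (x y : ℕ × ℕ)
    (hx : x ∈ CT R) (hy : y ∈ CT R) (ht : |t - (x.2 : ℝ) / x.1| ≤ Δ x.1)
    (hs : |t - (y.2 : ℝ) / y.1| ≤ Δ y.1) : y = x := by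
  obtain ⟨hx1, hxc⟩ := arc_ct_pr R (by omega) x hx
  obtain ⟨hy1, hyc⟩ := arc_ct_pr R (by omega) y hy
  have hdx := hΔ _ hx1
  have hdy := hΔ _ hy1
  obtain ⟨q, c⟩ := x
  obtain ⟨q', c'⟩ := y
  simp only at hx1 hy1 hxc hyc ht hs hdx hdy
  have hq := mem_Icc.1 hx1
  have hq' := mem_Icc.1 hy1
  have hqp : (0 : ℝ) < q := by exact_mod_cast hq.1
  have hqp' : (0 : ℝ) < q' := by exact_mod_cast hq'.1
  have hRp : (0 : ℝ) < R := by exact_mod_cast (by omega : 0 < R)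
  have hqR : (q : ℝ) ≤ R := by exact_mod_cast hq.2
  have hqR' : (q' : ℝ) ≤ R := by exact_mod_cast hq'.2
  -- the distance of the centres
  have h1 : |(c : ℝ) / q - (c' : ℝ) / q'| ≤ Δ q + Δ q' := by
    have h2 : (c : ℝ) / q - (c' : ℝ) / q' = (t - (c' : ℝ) / q') - (t - (c : ℝ) / q) := by ring
    rw [h2]
    refine (abs_sub _ _).trans ?_
    linarith
  have h2 : |(c : ℝ) * q' - c' * q| ≤ (Δ q + Δ q') * (q * q') := by
    have h3 : (c : ℝ) * q' - c' * q = ((c : ℝ) / q - (c' : ℝ) / q') * (q * q') := by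
      field_simp
    rw [h3, abs_mul, abs_of_pos (mul_pos hqp hqp')]
    exact mul_le_mul_of_nonneg_right h1 (mul_pos hqp hqp').le
  have h3 : |(c : ℝ) * q' - c' * q| * (2 * R) ≤ q + q' := by
    calc |(c : ℝ) * q' - c' * q| * (2 * R) ≤ (Δ q + Δ q') * (q * q') * (2 * R) :=
          mul_le_mul_of_nonneg_right h2 (by positivity)
      _ = (2 * Δ q * q * R) * q' + (2 * Δ q' * q' * R) * q := by ring
      _ ≤ 1 * q' + 1 * q := add_le_add (mul_le_mul_of_nonneg_right hdx hqp'.le)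
          (mul_le_mul_of_nonneg_right hdy hqp.le)
      _ = q + q' := by ring
  -- the integer
  by_cases h0 : (c : ℤ) * q' - c' * q = 0
  · have h4 : (c : ℤ) * q' = c' * q := sub_eq_zero.1 h0
    have h5 : (q : ℤ) ∣ q' := hxc.symm.dvd_of_dvd_mul_left (Dvd.intro_left _ h4.symm)
    have h6 : (q' : ℤ) ∣ q := hyc.symm.dvd_of_dvd_mul_left (Dvd.intro_left _ h4)
    have h7 : q = q' := Nat.dvd_antisymm (Int.natCast_dvd_natCast.1 h5)
      (Int.natCast_dvd_natCast.1 h6)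
    subst h7
    have h8 : (c : ℤ) = c' := by
      have : (q : ℤ) ≠ 0 := by
        have := hq.1
        omega
      exact mul_right_cancel₀ this h4
    have h9 : c = c' := by exact_mod_cast h8
    rw [h9]
  · exfalso
    have h4 : (1 : ℤ) ≤ |(c : ℤ) * q' - c' * q| := Int.one_le_abs h0
    have h5 : (1 : ℝ) ≤ |(c : ℝ) * q' - c' * q| := by
      have : ((1 : ℤ) : ℝ) ≤ ((|(c : ℤ) * q' - c' * q| : ℤ) : ℝ) := Int.cast_le.2 h4
      push_cast at this
      exact this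
    have h6 : (2 : ℝ) * R ≤ q + q' := by nlinarith
    have h7 : (q : ℝ) = R := by linarith
    have h8 : (q' : ℝ) = R := by linarith
    have h9 : q = R := by exact_mod_cast h7
    have h10 : q' = R := by exact_mod_cast h8
    rw [h9, h10] at h0 h3
    have h11 : (c : ℤ) - c' ≠ 0 := by
      intro h
      apply h0
      have : (c : ℤ) * R - c' * R = (c - c') * R := by ring
      rw [this, h, zero_mul]
    have h12 : (1 : ℤ) ≤ |(c : ℤ) - c'| := Int.one_le_abs h11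
    have h13 : (1 : ℝ) ≤ |(c : ℝ) - c'| := by
      have : ((1 : ℤ) : ℝ) ≤ ((|(c : ℤ) - c'| : ℤ) : ℝ) := Int.cast_le.2 h12
      push_cast at this
      exact this
    have h14 : |(c : ℝ) * R - c' * R| = |(c : ℝ) - c'| * R := by
      have : (c : ℝ) * R - c' * R = (c - c') * R := by ring
      rw [this, abs_mul, abs_of_pos hRp]
    rw [h14] at h3
    have h15 : (2 : ℝ) ≤ R := by exact_mod_cast hR
    have h16 : (2 : ℝ) ≤ |(c : ℝ) - c'| * R := by
      calc (2 : ℝ) ≤ R := h15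
        _ = 1 * R := (one_mul _).symm
        _ ≤ |(c : ℝ) - c'| * R := mul_le_mul_of_nonneg_right h13 hRp.le
    have h17 : (2 : ℝ) * (2 * R) ≤ |(c : ℝ) - c'| * R * (2 * R) :=
      mul_le_mul_of_nonneg_right h16 (by positivity)
    linarith

/-- at most one arc contains `t` -/
theorem arc_one_pr (R : ℕ) (hR : 2 ≤ R) (Δ : ℕ → ℝ) (hΔ0 : ∀ q ∈ Icc 1 R, 0 ≤ Δ q)
    (hΔ : ∀ q ∈ Icc 1 R, 2 * Δ q * q * R ≤ 1) (K : ℕ → ℝ → ℝ) (t : ℝ) (x : ℕ × ℕ)
    (hx : x ∈ CT R) (ht : |t - (x.2 : ℝ) / x.1| ≤ Δ x.1) :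
    AR R Δ K t = K x.1 (t - (x.2 : ℝ) / x.1) := by
  unfold AR
  rw [Finset.sum_eq_single_of_mem x hx]
  · rw [if_pos ht]
  · intro y hy hyx
    exact if_neg fun h => hyx (g4a_disj R hR Δ hΔ t x y hx hy ht h)

/-- outside the arcs -/
theorem arc_zero_pr (R : ℕ) (Δ : ℕ → ℝ) (K : ℕ → ℝ → ℝ) (t : ℝ)
    (ht : ∀ x ∈ CT R, Δ x.1 < |t - (x.2 : ℝ) / x.1|) : AR R Δ K t = 0 := by
  unfold AR
  exact Finset.sum_eq_zero fun x hx => if_neg (not_le.2 (ht x hx))

/-- every arc is one of the arcs of the list -/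
theorem arc_cover_pr (R : ℕ) (hR : 2 ≤ R) (Δ : ℕ → ℝ) (hΔ : ∀ q ∈ Icc 1 R, 2 * Δ q * q * R ≤ 1)
    (t : ℝ) (h0 : 0 ≤ t) (h1 : t ≤ 1) (q : ℕ) (hq : q ∈ Icc 1 R) (c : ℤ)
    (hc : IsCoprime c (q : ℤ)) (ht : |t - c / q| ≤ Δ q) :
    ∃ x ∈ CT R, x.1 = q ∧ (x.2 : ℤ) = c := by
  have hd := hΔ q hq
  have hq1 := mem_Icc.1 hq
  have hqp : (0 : ℝ) < q := by exact_mod_cast hq1.1
  have hRp : (0 : ℝ) < R := by exact_mod_cast (by omega : 0 < R)
  have hR2 : (2 : ℝ) ≤ R := by exact_mod_cast hR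
  have h2 : |t * q - c| ≤ Δ q * q := by
    have h3 : t * q - c = (t - c / q) * q := by field_simp
    rw [h3, abs_mul, abs_of_pos hqp]
    exact mul_le_mul_of_nonneg_right ht hqp.le
  have h3 : |t * q - c| < 1 := by
    have h4 : 0 ≤ |t * q - c| := abs_nonneg _
    have h5 : |t * q - c| * (2 * R) ≤ 1 := by
      calc |t * q - c| * (2 * R) ≤ Δ q * q * (2 * R) :=
            mul_le_mul_of_nonneg_right h2 (by positivity)
        _ = 2 * Δ q * q * R := by ring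
        _ ≤ 1 := hd
    nlinarith
  obtain ⟨h4, h5⟩ := abs_lt.1 h3
  have h6 : 0 ≤ t * q := mul_nonneg h0 hqp.le
  have h7 : t * q ≤ q := by nlinarith
  have h8 : (-1 : ℝ) < c := by linarith
  have h9 : (c : ℝ) < q + 1 := by linarith
  have h10 : (-1 : ℤ) < c := by exact_mod_cast h8
  have h11 : c < q + 1 := by exact_mod_cast h9
  obtain ⟨n, rfl⟩ := Int.eq_ofNat_of_zero_le (by omega : 0 ≤ c)
  have h12 : n ≤ q := by omega
  have h13 : Nat.Coprime n q := Nat.isCoprime_iff_coprime.1 hc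
  rcases Nat.lt_or_ge n q with h14 | h14
  · refine ⟨(q, n), ?_, rfl, rfl⟩
    unfold CT
    rw [mem_insert, mem_filter, mem_product]
    right
    refine ⟨⟨hq, mem_range.2 (by omega)⟩, ?_⟩
    unfold Cd
    exact mem_filter.2 ⟨mem_range.2 h14, h13⟩
  · have h15 : n = q := le_antisymm h12 h14
    subst h15
    have h16 : n = 1 := (Nat.coprime_self n).1 h13
    subst h16
    exact ⟨(1, 1), mem_insert_self _ _, rfl, rfl⟩

alias arc_ct := arc_ct_pr

alias arc_one := arc_one_pr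

alias arc_zero := arc_zero_pr

alias arc_cover := arc_cover_pr

end Pool.Agent.MF
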