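import Pool.Agent.Lib_helper59.MF.Defs
import Pool.Agent.Lib_helper59.MFF.G4a
/-! MF, block G4b: the integral over the arcs. -/

set_option autoImplicit false

namespace Pool.Agent.MF

open Finset Complex Filter Topology MeasureTheory Pool.Agent.Var35 Pool.Agent.Var73 Pool.Agent.HC
open scoped ArithmeticFunction ArithmeticFunction.Moebius

/-- one arc -/
lemma g4b_arc (f K : ℝ → ℝ) (x Δ : ℝ) (hΔ : 0 ≤ Δ) (h0 : Δ ≤ x) (h1 : x + Δ ≤ 1) :
    ∫ t in (0 : ℝ)..1, f t * (if |t - x| ≤ Δ then K (t - x) else 0) =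
      ∫ β in (-Δ)..Δ, f (x + β) * K β := by
  have hm : MeasurableSet (Set.Icc (x - Δ) (x + Δ)) := measurableSet_Icc
  have e1 : (fun t => f t * (if |t - x| ≤ Δ then K (t - x) else 0)) =
      (Set.Icc (x - Δ) (x + Δ)).indicator (fun t => f t * K (t - x)) := by
    funext t
    by_cases ht : |t - x| ≤ Δ
    · have : t ∈ Set.Icc (x - Δ) (x + Δ) := by
        rw [abs_le] at ht
        exact ⟨by linarith [ht.1], by linarith [ht.2]⟩
      rw [if_pos ht, Set.indicator_of_mem this]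
    · have : t ∉ Set.Icc (x - Δ) (x + Δ) := by
        intro hh
        exact ht (abs_le.mpr ⟨by linarith [hh.1], by linarith [hh.2]⟩)
      rw [if_neg ht, Set.indicator_of_notMem this, mul_zero]
  rw [e1, intervalIntegral.integral_of_le zero_le_one, ← integral_Icc_eq_integral_Ioc,
    setIntegral_indicator hm]
  have e2 : Set.Icc (0 : ℝ) 1 ∩ Set.Icc (x - Δ) (x + Δ) = Set.Icc (x - Δ) (x + Δ) := by
    rw [Set.inter_eq_right]
    exact Set.Icc_subset_Icc (by linarith) h1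
  rw [e2, integral_Icc_eq_integral_Ioc, ← intervalIntegral.integral_of_le (by linarith)]
  have e3 : x - Δ = -Δ + x := by ring
  have e4 : x + Δ = Δ + x := by ring
  rw [e3, e4, ← intervalIntegral.integral_comp_add_right (fun t => f t * K (t - x)) x]
  refine intervalIntegral.integral_congr (fun β _ => ?_)
  simp only [add_sub_cancel_right]
  rw [add_comm]

/-- the arc around zero and one -/
lemma g4b_arc0 (f K : ℝ → ℝ) (Δ : ℝ) (hΔ : 0 ≤ Δ)
    (hi : ∀ a b : ℝ, IntervalIntegrable (fun β => f β * K β) volume a b)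
    (h1 : Δ ≤ 1) (hp : ∀ t, f (t + 1) = f t) :
    (∫ t in (0 : ℝ)..1, f t * (if |t - 0| ≤ Δ then K (t - 0) else 0)) +
      (∫ t in (0 : ℝ)..1, f t * (if |t - 1| ≤ Δ then K (t - 1) else 0)) =
      ∫ β in (-Δ)..Δ, f β * K β := by
  have a1 : ∫ t in (0 : ℝ)..1, f t * (if |t - 0| ≤ Δ then K (t - 0) else 0) =
      ∫ β in (0 : ℝ)..Δ, f β * K β := by
    have e1 : (fun t => f t * (if |t - 0| ≤ Δ then K (t - 0) else 0)) =
        (Set.Icc (-Δ) Δ).indicator (fun t => f t * K t) := by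
      funext t
      rw [sub_zero]
      by_cases ht : |t| ≤ Δ
      · have hmem : t ∈ Set.Icc (-Δ) Δ := abs_le.mp ht
        rw [if_pos ht, Set.indicator_of_mem hmem]
      · have hmem : t ∉ Set.Icc (-Δ) Δ := fun hh => ht (abs_le.mpr hh)
        rw [if_neg ht, Set.indicator_of_notMem hmem, mul_zero]
    rw [e1, intervalIntegral.integral_of_le zero_le_one, ← integral_Icc_eq_integral_Ioc,
      setIntegral_indicator measurableSet_Icc]
    have e2 : Set.Icc (0 : ℝ) 1 ∩ Set.Icc (-Δ) Δ = Set.Icc 0 Δ := by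
      ext t
      constructor
      · rintro ⟨ha, hb⟩
        exact ⟨ha.1, hb.2⟩
      · rintro ha
        exact ⟨⟨ha.1, ha.2.trans h1⟩, ⟨by linarith [ha.1], ha.2⟩⟩
    rw [e2, integral_Icc_eq_integral_Ioc, ← intervalIntegral.integral_of_le hΔ]
  have a2 : ∫ t in (0 : ℝ)..1, f t * (if |t - 1| ≤ Δ then K (t - 1) else 0) =
      ∫ β in (-Δ)..(0 : ℝ), f β * K β := by
    have e1 : (fun t => f t * (if |t - 1| ≤ Δ then K (t - 1) else 0)) =
        (Set.Icc (1 - Δ) (1 + Δ)).indicator (fun t => f t * K (t - 1)) := by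
      funext t
      by_cases ht : |t - 1| ≤ Δ
      · have : t ∈ Set.Icc (1 - Δ) (1 + Δ) := by
          rw [abs_le] at ht
          exact ⟨by linarith [ht.1], by linarith [ht.2]⟩
        rw [if_pos ht, Set.indicator_of_mem this]
      · have : t ∉ Set.Icc (1 - Δ) (1 + Δ) := by
          intro hh
          exact ht (abs_le.mpr ⟨by linarith [hh.1], by linarith [hh.2]⟩)
        rw [if_neg ht, Set.indicator_of_notMem this, mul_zero]
    rw [e1, intervalIntegral.integral_of_le zero_le_one, ← integral_Icc_eq_integral_Ioc,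
      setIntegral_indicator measurableSet_Icc]
    have e2 : Set.Icc (0 : ℝ) 1 ∩ Set.Icc (1 - Δ) (1 + Δ) = Set.Icc (1 - Δ) 1 := by
      ext t
      constructor
      · rintro ⟨ha, hb⟩
        exact ⟨hb.1, ha.2⟩
      · rintro ha
        exact ⟨⟨by linarith [ha.1], ha.2⟩, ⟨ha.1, by linarith [ha.2]⟩⟩
    rw [e2, integral_Icc_eq_integral_Ioc, ← intervalIntegral.integral_of_le (by linarith)]
    have e3 : (1 : ℝ) - Δ = -Δ + 1 := by ring
    have e4 : ∫ t in (-Δ + 1)..(1 : ℝ), f t * K (t - 1) =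
        ∫ t in (-Δ + 1)..((0 : ℝ) + 1), f t * K (t - 1) := by rw [zero_add]
    rw [e3, e4, ← intervalIntegral.integral_comp_add_right (fun t => f t * K (t - 1)) 1]
    refine intervalIntegral.integral_congr (fun β _ => ?_)
    simp only [add_sub_cancel_right]
    rw [hp]
  rw [a1, a2, add_comm]
  exact intervalIntegral.integral_add_adjacent_intervals (hi _ _) (hi _ _)

/-- a continuous function times a bounded measurable one -/
lemma g4b_int {f K : ℝ → ℝ} (hf : Continuous f) (hK : Measurable K) {B : ℝ}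
    (hB : ∀ β, |K β| ≤ B) (a b : ℝ) : IntervalIntegrable (fun β => f β * K β) volume a b := by
  refine IntervalIntegrable.continuousOn_mul (f := K) ?_ hf.continuousOn
  refine IntervalIntegrable.mono_fun (f := fun _ => (B : ℝ)) intervalIntegrable_const
    hK.aestronglyMeasurable ?_
  refine Filter.Eventually.of_forall (fun t => ?_)
  show ‖K t‖ ≤ ‖(B : ℝ)‖
  rw [Real.norm_eq_abs, Real.norm_eq_abs]
  exact (hB t).trans (le_abs_self B)

/-- the same on an arc -/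
lemma g4b_int' {f K : ℝ → ℝ} (hf : Continuous f) (hK : Measurable K) {B : ℝ}
    (hB : ∀ β, |K β| ≤ B) (x Δ : ℝ) :
    IntervalIntegrable (fun t => f t * (if |t - x| ≤ Δ then K (t - x) else 0)) volume 0 1 := by
  have hm : Measurable fun t : ℝ => if |t - x| ≤ Δ then K (t - x) else 0 := by
    refine Measurable.ite ?_ (hK.comp (measurable_id.sub_const x)) measurable_const
    exact measurableSet_le (by fun_prop) measurable_const
  have hB0 : 0 ≤ B := (abs_nonneg _).trans (hB 0)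
  refine g4b_int hf hm (B := B) (fun t => ?_) 0 1
  split_ifs
  · exact hB _
  · rw [abs_zero]
    exact hB0

/-- the index set -/
lemma g4b_mem (R : ℕ) (x : ℕ × ℕ) :
    x ∈ ((Icc 1 R) ×ˢ (range (R + 1))).filter (fun x => x.2 ∈ Cd x.1) ↔
      x.1 ∈ Icc 1 R ∧ x.2 ∈ Cd x.1 := by
  rw [Finset.mem_filter, Finset.mem_product]
  constructor
  · rintro ⟨⟨h1, _⟩, h2⟩
    exact ⟨h1, h2⟩
  · rintro ⟨h1, h2⟩
    refine ⟨⟨h1, ?_⟩, h2⟩
    have h3 := (Finset.mem_filter.mp h2).1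
    rw [Finset.mem_range] at h3 ⊢
    have := (Finset.mem_Icc.mp h1).2
    omega

/-- the integral over the arcs -/
theorem arc_sum_pr (f : ℝ → ℝ) (hf : Continuous f) (hp : ∀ t, f (t + 1) = f t) (R : ℕ)
    (hR : 2 ≤ R)
    (Δ : ℕ → ℝ) (hΔ0 : ∀ q ∈ Icc 1 R, 0 ≤ Δ q) (hΔ : ∀ q ∈ Icc 1 R, 2 * Δ q * q * R ≤ 1)
    (K : ℕ → ℝ → ℝ) (hK : ∀ q ∈ Icc 1 R, Measurable (K q)) (B : ℝ)
    (hB : ∀ q ∈ Icc 1 R, ∀ β, |K q β| ≤ B) :
    IntervalIntegrable (fun t => f t * AR R Δ K t) volume 0 1 ∧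
      ∫ t in (0 : ℝ)..1, f t * AR R Δ K t = SA f R Δ K := by
  classical
  have hR1 : 1 ≤ R := by omega
  set P : Finset (ℕ × ℕ) := ((Icc 1 R) ×ˢ (range (R + 1))).filter (fun x => x.2 ∈ Cd x.1) with hP
  have hPm : ∀ x, x ∈ P ↔ x.1 ∈ Icc 1 R ∧ x.2 ∈ Cd x.1 := fun x => g4b_mem R x
  have hCT : CT R = insert (1, 1) P := by
    rw [hP]
    ext x
    simp only [CT, Finset.mem_insert]
  have hnot : ((1, 1) : ℕ × ℕ) ∉ P := by
    rw [hPm]
    rintro ⟨_, h2⟩
    have h3 := (Finset.mem_filter.mp h2).1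
    simp at h3
  have h1R : 1 ∈ Icc 1 R := Finset.mem_Icc.mpr ⟨le_refl 1, hR1⟩
  set κ : ℕ × ℕ → ℝ → ℝ := fun x t =>
    if |t - (x.2 : ℝ) / x.1| ≤ Δ x.1 then K x.1 (t - (x.2 : ℝ) / x.1) else 0 with hκ
  have hARk : ∀ t, AR R Δ K t = ∑ x ∈ CT R, κ x t := fun t => rfl
  have hCTm : ∀ x ∈ CT R, x.1 ∈ Icc 1 R := by
    intro x hx
    rw [hCT, Finset.mem_insert] at hx
    rcases hx with hx | hx
    · rw [hx]
      exact h1R
    · exact ((hPm x).1 hx).1
  have hκi : ∀ x ∈ CT R, IntervalIntegrable (fun t => f t * κ x t) volume 0 1 := fun x hx =>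
    g4b_int' hf (hK x.1 (hCTm x hx)) (hB x.1 (hCTm x hx)) _ _
  have hfun : (fun t => f t * AR R Δ K t) = fun t => ∑ x ∈ CT R, f t * κ x t := by
    funext t
    rw [hARk, Finset.mul_sum]
  refine ⟨?_, ?_⟩
  · rw [hfun]
    have : (fun t => ∑ x ∈ CT R, f t * κ x t) = ∑ x ∈ CT R, fun t => f t * κ x t := by
      funext t
      rw [Finset.sum_apply]
    rw [this]
    exact IntervalIntegrable.sum (CT R) hκi
  rw [hfun, intervalIntegral.integral_finsetSum hκi]
  -- the right side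
  have hsum : SA f R Δ K =
      ∑ x ∈ P, ∫ β in (-(Δ x.1))..(Δ x.1), f ((x.2 : ℝ) / x.1 + β) * K x.1 β := by
    have h1 : ∀ q ∈ Icc 1 R,
        ∫ β in (-(Δ q))..(Δ q), CS f q β * K q β =
        ∑ c ∈ Cd q, ∫ β in (-(Δ q))..(Δ q), f ((c : ℝ) / q + β) * K q β := by
      intro q hq
      rw [← intervalIntegral.integral_finsetSum]
      · refine intervalIntegral.integral_congr (fun β _ => ?_)
        exact Finset.sum_mul _ _ _
      · intro c _
        exact g4b_int (hf.comp (continuous_const.add continuous_id)) (hK q hq) (hB q hq) _ _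
    unfold SA
    rw [Finset.sum_congr rfl h1]
    refine (Finset.sum_finset_product' P (Icc 1 R) (fun q => Cd q) ?_).symm
    intro x
    exact hPm x
  have hΔq : ∀ q ∈ Icc 1 R, Δ q ≤ 1 / q := by
    intro q hq
    have hq1 := (Finset.mem_Icc.mp hq).1
    have hq0 : (0 : ℝ) < q := by exact_mod_cast hq1
    rw [le_div_iff₀ hq0]
    have h2 := hΔ q hq
    have h3 := hΔ0 q hq
    have hR2 : (2 : ℝ) ≤ R := by exact_mod_cast hR
    have h4 : 0 ≤ Δ q * q := mul_nonneg h3 hq0.le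
    nlinarith
  have harc : ∀ x ∈ P, x ≠ (1, 0) → ∫ t in (0 : ℝ)..1, f t * κ x t =
      ∫ β in (-(Δ x.1))..(Δ x.1), f ((x.2 : ℝ) / x.1 + β) * K x.1 β := by
    intro x hx hne
    have h1 := (hPm x).mp hx
    have h2 := Finset.mem_Icc.mp h1.1
    have h3 := Finset.mem_filter.mp h1.2
    have h4 : x.2 < x.1 := Finset.mem_range.mp h3.1
    have hx2 : 2 ≤ x.1 := by
      by_contra hlt
      have h5 : x.1 = 1 := by omega
      have h6 : x.2 = 0 := by omega
      exact hne (Prod.ext h5 h6)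
    have hx0 : 1 ≤ x.2 := by
      by_contra hlt
      have h6 : x.2 = 0 := by omega
      have h7 := h3.2
      rw [h6, Nat.coprime_zero_left] at h7
      omega
    have hq : (0 : ℝ) < x.1 := by exact_mod_cast (by omega : 0 < x.1)
    have hΔx := hΔq x.1 h1.1
    have h11 : (1 : ℝ) ≤ x.2 := by exact_mod_cast hx0
    have h12 : (x.2 : ℝ) + 1 ≤ x.1 := by exact_mod_cast h4
    refine g4b_arc f (K x.1) ((x.2 : ℝ) / x.1) (Δ x.1) (hΔ0 x.1 h1.1) ?_ ?_
    · refine hΔx.trans ?_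
      exact div_le_div_of_nonneg_right h11 hq.le
    · have h13 : (x.2 : ℝ) / x.1 + 1 / x.1 ≤ 1 := by
        rw [← add_div, div_le_one hq]
        exact h12
      linarith
  have h10 : ((1, 0) : ℕ × ℕ) ∈ P := by
    rw [hPm]
    refine ⟨h1R, ?_⟩
    simp [Cd]
  have hΔ1 : Δ 1 ≤ 1 := by
    have := hΔq 1 h1R
    simpa using this
  have hzero := g4b_arc0 f (K 1) (Δ 1) (hΔ0 1 h1R) (fun a b => g4b_int hf (hK 1 h1R) (hB 1 h1R) a b)
    hΔ1 hp
  rw [hsum, hCT, Finset.sum_insert hnot, ← Finset.add_sum_erase P _ h10,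
    ← Finset.add_sum_erase P (fun x => ∫ β in (-(Δ x.1))..(Δ x.1),
      f ((x.2 : ℝ) / x.1 + β) * K x.1 β) h10]
  have h14 : ∑ x ∈ P.erase (1, 0), ∫ t in (0 : ℝ)..1, f t * κ x t =
      ∑ x ∈ P.erase (1, 0), ∫ β in (-(Δ x.1))..(Δ x.1), f ((x.2 : ℝ) / x.1 + β) * K x.1 β :=
    Finset.sum_congr rfl (fun x hx => harc x (Finset.mem_of_mem_erase hx)
      (Finset.ne_of_mem_erase hx))
  rw [h14, ← add_assoc]
  congr 1
  simp only [hκ, Nat.cast_one, Nat.cast_zero, div_one, zero_add]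
  rw [add_comm]
  exact hzero

/-- the arcs are disjoint -/
theorem arc_le_pr (f : ℝ → ℝ) (hf : Continuous f) (hp : ∀ t, f (t + 1) = f t)
    (h0 : ∀ x, 0 ≤ f x)
    (R : ℕ) (hR : 2 ≤ R) (Δ : ℕ → ℝ) (hΔ0 : ∀ q ∈ Icc 1 R, 0 ≤ Δ q)
    (hΔ : ∀ q ∈ Icc 1 R, 2 * Δ q * q * R ≤ 1) :
    ∑ q ∈ Icc 1 R, ∫ β in (-(Δ q))..(Δ q), CS f q β ≤ ∫ t in (0 : ℝ)..1, f t := by
  obtain ⟨h1, h2⟩ := arc_sum_pr f hf hp R hR Δ hΔ0 hΔ (fun _ _ => 1)
    (fun q _ => measurable_const) 1 (fun q _ β => by simp)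
  have h3 : SA f R Δ (fun _ _ => 1) = ∑ q ∈ Icc 1 R, ∫ β in (-(Δ q))..(Δ q), CS f q β := by
    unfold SA
    refine Finset.sum_congr rfl fun q _ => ?_
    refine intervalIntegral.integral_congr (fun β _ => ?_)
    simp only [mul_one]
  rw [← h3, ← h2]
  refine intervalIntegral.integral_mono_on zero_le_one h1 (hf.intervalIntegrable _ _)
    (fun t _ => ?_)
  have h4 : AR R Δ (fun _ _ => 1) t ≤ 1 := by
    by_cases hex : ∃ x ∈ CT R, |t - (x.2 : ℝ) / x.1| ≤ Δ x.1
    · obtain ⟨x, hx, ht⟩ := hex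
      rw [arc_one R hR Δ hΔ0 hΔ (fun _ _ => 1) t x hx ht]
    · push Not at hex
      rw [arc_zero R Δ (fun _ _ => 1) t hex]
      exact zero_le_one
  have h5 := h0 t
  nlinarith

alias arc_sum := arc_sum_pr

alias arc_le := arc_le_pr

end Pool.Agent.MF
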