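import Pool.Agent.Lib_helper59.MF.Defs
import Pool.Agent.Lib_helper59.MFF.G4b
/-! MF, block G8: the kernel, longer arcs. -/

set_option autoImplicit false

namespace Pool.Agent.MF

open Finset Complex Filter Topology MeasureTheory Pool.Agent.Var35 Pool.Agent.Var73 Pool.Agent.HC
open scoped ArithmeticFunction ArithmeticFunction.Moebius

theorem kk_basic_pr (v : ℝ) (hv : 0 ≤ v) : 0 ≤ kk v ∧ kk v ≤ 1 ∧ (0 < v → kk v ≤ 1 / v) := by
  unfold kk
  refine ⟨?_, ?_, fun h => ?_⟩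
  · have := div_le_one_of_le₀ (Nat.floor_le hv) hv
    linarith
  · have : 0 ≤ (⌊v⌋₊ : ℝ) / v := by positivity
    linarith
  · rw [le_div_iff₀ h, sub_mul, div_mul_cancel₀ _ h.ne']
    have := Nat.lt_floor_add_one v
    linarith

theorem g8_cs_cont {f : ℝ → ℝ} (hf : Continuous f) (q : ℕ) : Continuous (CS f q) := by
  unfold CS
  exact continuous_finsetSum _ fun c _ => hf.comp (continuous_const.add continuous_id)

theorem g8_cs_nonneg {f : ℝ → ℝ} (h0 : ∀ x, 0 ≤ f x) (q : ℕ) (β : ℝ) : 0 ≤ CS f q β :=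
  Finset.sum_nonneg fun _ _ => h0 _

theorem g8_kk_meas : Measurable kk := by
  unfold kk
  exact measurable_const.sub ((measurable_from_nat.comp Nat.measurable_floor).div measurable_id)

theorem g8_int {f : ℝ → ℝ} (hf : Continuous f) (q : ℕ) {Y : ℝ} (hY : 0 < Y) (a b : ℝ) :
    IntervalIntegrable (fun β => CS f q β * kk (q * Y * |β|)) volume a b := by
  refine IntervalIntegrable.continuousOn_mul (f := fun β => kk (q * Y * |β|)) ?_
    (g8_cs_cont hf q).continuousOn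
  refine IntervalIntegrable.mono_fun (f := fun _ => (1 : ℝ)) intervalIntegrable_const ?_ ?_
  · exact (g8_kk_meas.comp (by fun_prop)).aestronglyMeasurable
  · refine Filter.Eventually.of_forall (fun β => ?_)
    obtain ⟨h1, h2, -⟩ := kk_basic_pr (q * Y * |β|) (by positivity)
    show ‖kk (q * Y * |β|)‖ ≤ ‖(1 : ℝ)‖
    rw [Real.norm_of_nonneg h1, norm_one]
    exact h2

theorem g8_mono {f : ℝ → ℝ} (hf : Continuous f) (h0 : ∀ x, 0 ≤ f x) (q : ℕ) (hq : 1 ≤ q)
    {Y κ : ℝ} (hY : 0 < Y) {a c d : ℝ} (ha : 0 < a) (hκ : 1 / (q * Y * a) ≤ κ) (hcd : c ≤ d)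
    (h : ∀ β ∈ Set.Icc c d, a ≤ |β|) :
    0 ≤ ∫ β in c..d, CS f q β * kk (q * Y * |β|) ∧
      ∫ β in c..d, CS f q β * kk (q * Y * |β|) ≤ κ * ∫ β in c..d, CS f q β := by
  have hqp : (0 : ℝ) < q := by exact_mod_cast hq
  constructor
  · refine intervalIntegral.integral_nonneg hcd fun β _ => ?_
    exact mul_nonneg (g8_cs_nonneg h0 q β) (kk_basic_pr _ (by positivity)).1
  · rw [← intervalIntegral.integral_const_mul]
    refine intervalIntegral.integral_mono_on hcd (g8_int hf q hY c d)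
      (((g8_cs_cont hf q).intervalIntegrable _ _).const_mul _) fun β hβ => ?_
    have h1 := h β hβ
    have h2 : 0 < |β| := ha.trans_le h1
    have h3 := (kk_basic_pr (q * Y * |β|) (by positivity)).2.2 (by positivity)
    have h4 : 1 / (q * Y * |β|) ≤ 1 / (q * Y * a) :=
      one_div_le_one_div_of_le (by positivity) (mul_le_mul_of_nonneg_left h1 (by positivity))
    rw [mul_comm κ]
    exact mul_le_mul_of_nonneg_left ((h3.trans h4).trans hκ) (g8_cs_nonneg h0 q β)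

theorem sa_ext_pr (f : ℝ → ℝ) (hf : Continuous f) (hp : ∀ t, f (t + 1) = f t) (h0 : ∀ x, 0 ≤ f x)
    (R : ℕ) (hR : 2 ≤ R) (Y κ : ℝ) (hY : 0 < Y) (Δ Δ' : ℕ → ℝ)
    (hΔ0 : ∀ q ∈ Icc 1 R, 0 < Δ q ∧ Δ q ≤ Δ' q) (hΔ : ∀ q ∈ Icc 1 R, 2 * Δ' q * q * R ≤ 1)
    (hκ : ∀ q ∈ Icc 1 R, 1 / (q * Y * Δ q) ≤ κ) :
    |SA f R Δ' (fun q β => kk (q * Y * |β|)) - SA f R Δ (fun q β => kk (q * Y * |β|))| ≤
      κ * ∫ t in (0 : ℝ)..1, f t := by
  have hκ0 : 0 ≤ κ := by
    have h1 : (1 : ℕ) ∈ Icc 1 R := Finset.mem_Icc.mpr ⟨le_refl 1, by omega⟩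
    have h2 := (hΔ0 1 h1).1
    refine le_trans ?_ (hκ 1 h1)
    positivity
  have key : ∀ q ∈ Icc 1 R,
      0 ≤ (∫ β in (-(Δ' q))..(Δ' q), CS f q β * kk (q * Y * |β|)) -
        (∫ β in (-(Δ q))..(Δ q), CS f q β * kk (q * Y * |β|)) ∧
      (∫ β in (-(Δ' q))..(Δ' q), CS f q β * kk (q * Y * |β|)) -
        (∫ β in (-(Δ q))..(Δ q), CS f q β * kk (q * Y * |β|)) ≤
        κ * ∫ β in (-(Δ' q))..(Δ' q), CS f q β := by
    intro q hq
    obtain ⟨ha, hab⟩ := hΔ0 q hq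
    have hq1 := (Finset.mem_Icc.mp hq).1
    have hk := hκ q hq
    have hi : ∀ a b : ℝ, IntervalIntegrable (fun β => CS f q β * kk (q * Y * |β|)) volume a b :=
      fun a b => g8_int hf q hY a b
    have hj : ∀ a b : ℝ, IntervalIntegrable (CS f q) volume a b := fun a b =>
      (g8_cs_cont hf q).intervalIntegrable _ _
    obtain ⟨l1, l2⟩ := g8_mono hf h0 q hq1 hY ha hk (c := -(Δ' q)) (d := -(Δ q)) (by linarith)
      (fun β hβ => by
        rw [abs_of_nonpos (by linarith [hβ.2])]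
        linarith [hβ.2])
    obtain ⟨r1, r2⟩ := g8_mono hf h0 q hq1 hY ha hk (c := Δ q) (d := Δ' q) hab
      (fun β hβ => by
        rw [abs_of_nonneg (by linarith [hβ.1])]
        exact hβ.1)
    have s1 := intervalIntegral.integral_add_adjacent_intervals (hi (-(Δ' q)) (-(Δ q)))
      (hi (-(Δ q)) (Δ q))
    have s2 := intervalIntegral.integral_add_adjacent_intervals (hi (-(Δ' q)) (Δ q))
      (hi (Δ q) (Δ' q))
    have t1 := intervalIntegral.integral_add_adjacent_intervals (hj (-(Δ' q)) (-(Δ q)))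
      (hj (-(Δ q)) (Δ q))
    have t2 := intervalIntegral.integral_add_adjacent_intervals (hj (-(Δ' q)) (Δ q))
      (hj (Δ q) (Δ' q))
    have m0 : 0 ≤ ∫ β in (-(Δ q))..(Δ q), CS f q β :=
      intervalIntegral.integral_nonneg (by linarith) fun β _ => g8_cs_nonneg h0 q β
    have m1 := mul_nonneg hκ0 m0
    constructor
    · linarith
    · rw [← t2, ← t1]
      have e1 : κ * (((∫ β in (-(Δ' q))..(-(Δ q)), CS f q β) + ∫ β in (-(Δ q))..(Δ q), CS f q β) +
          ∫ β in (Δ q)..(Δ' q), CS f q β) = κ * (∫ β in (-(Δ' q))..(-(Δ q)), CS f q β) +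
          κ * (∫ β in (-(Δ q))..(Δ q), CS f q β) + κ * ∫ β in (Δ q)..(Δ' q), CS f q β := by ring
      rw [e1]
      linarith
  have h1 : SA f R Δ' (fun q β => kk (q * Y * |β|)) - SA f R Δ (fun q β => kk (q * Y * |β|)) =
      ∑ q ∈ Icc 1 R, ((∫ β in (-(Δ' q))..(Δ' q), CS f q β * kk (q * Y * |β|)) -
        (∫ β in (-(Δ q))..(Δ q), CS f q β * kk (q * Y * |β|))) := by
    unfold SA
    rw [Finset.sum_sub_distrib]
  rw [h1, abs_of_nonneg (Finset.sum_nonneg fun q hq => (key q hq).1)]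
  refine (Finset.sum_le_sum fun q hq => (key q hq).2).trans ?_
  rw [← Finset.mul_sum]
  refine mul_le_mul_of_nonneg_left ?_ hκ0
  exact arc_le f hf hp h0 R hR Δ' (fun q hq => ((hΔ0 q hq).1.trans_le (hΔ0 q hq).2).le) hΔ

alias kk_basic := kk_basic_pr

alias sa_ext := sa_ext_pr

end Pool.Agent.MF
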