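import Pool.Agent.Lib_helper59.MF.Defs
import Pool.Agent.Lib_helper92.HCF.CSU
/-! MF, block X1 : the square is expanded around the principal part. -/

set_option autoImplicit false

namespace Pool.Agent.MF

open Finset Complex Filter Topology MeasureTheory Pool.Agent.Var35 Pool.Agent.Var73 Pool.Agent.HC
open scoped ArithmeticFunction ArithmeticFunction.Moebius

/-- `|A|² - |A - P|² = 2 Re(A conj P) - |P|²` -/
theorem x1_one (A P : ℂ) :
    ‖A‖ ^ 2 - ‖A - P‖ ^ 2 = 2 * (A * (starRingEnd ℂ) P).re - ‖P‖ ^ 2 := by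
  rw [← Complex.normSq_eq_norm_sq, ← Complex.normSq_eq_norm_sq, ← Complex.normSq_eq_norm_sq,
    Complex.normSq_sub]
  ring

theorem x1_sum (s : Finset ℕ) (A : ℕ → ℂ) (P : ℂ) :
    ∑ c ∈ s, ‖A c‖ ^ 2 - ∑ c ∈ s, ‖A c - P‖ ^ 2 =
      2 * ((∑ c ∈ s, A c) * (starRingEnd ℂ) P).re - s.card * ‖P‖ ^ 2 := by
  rw [← sum_sub_distrib, sum_mul, Complex.re_sum, mul_sum, ← nsmul_eq_mul, ← sum_const,
    ← sum_sub_distrib]
  exact sum_congr rfl fun c _ => x1_one (A c) P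

theorem xterm_pr (X : ℝ) (hX : 2 ≤ X) (q : ℕ) (hq : 1 ≤ q) (β : ℝ) :
    |CS (Sq Lam ⌊X⌋₊) q β - EQ X q β - mp q * (‖Ic X β‖ ^ 2 +
      2 * ((S Lam ⌊X⌋₊ β - Ic X β) * (starRingEnd ℂ) (Ic X β)).re)| ≤
      2 * (q * mp q) * Real.log X * ‖Ic X β‖ := by
  set I0 : ℂ := Ic X β with hI0
  set S0 : ℂ := S Lam ⌊X⌋₊ β with hS0
  have hlX : 0 ≤ Real.log X := Real.log_nonneg (by linarith)
  have hphi : (0 : ℝ) < (Nat.totient q : ℝ) := by
    exact_mod_cast Nat.totient_pos.2 hq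
  have h1 : CS (Sq Lam ⌊X⌋₊) q β - EQ X q β =
      2 * ((∑ c ∈ Cd q, S Lam ⌊X⌋₊ ((c : ℝ) / q + β)) *
        (starRingEnd ℂ) (((μ q : ℝ) / (Nat.totient q : ℝ) : ℝ) * I0)).re -
      (Nat.totient q : ℝ) * ‖(((μ q : ℝ) / (Nat.totient q : ℝ) : ℝ) : ℂ) * I0‖ ^ 2 := by
    have h := x1_sum (Cd q) (fun c => S Lam ⌊X⌋₊ ((c : ℝ) / q + β))
      ((((μ q : ℝ) / (Nat.totient q : ℝ) : ℝ) : ℂ) * I0)
    rw [card_Cd] at h
    exact h
  by_cases hsq : Squarefree q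
  · have hmp : mp q = 1 / (Nat.totient q : ℝ) := by rw [mp, if_pos hsq]
    have hmu : ((μ q : ℤ) : ℝ) ^ 2 = 1 := by
      have h6 := ArithmeticFunction.abs_moebius_eq_one_of_squarefree hsq
      have h7 : |((μ q : ℤ) : ℝ)| = 1 := by exact_mod_cast h6
      rw [← sq_abs, h7, one_pow]
    set m : ℝ := ((μ q : ℤ) : ℝ) with hm
    set φ : ℝ := (Nat.totient q : ℝ) with hφ
    set E : ℂ := ∑ c ∈ Cd q, S Lam ⌊X⌋₊ ((c : ℝ) / q + β) - ((μ q : ℤ) : ℂ) * S0 with hE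
    have hEb : ‖E‖ ≤ q * Real.log X := by
      refine (CSU_err ⌊X⌋₊ q hsq β).trans ?_
      refine mul_le_mul_of_nonneg_left ?_ (Nat.cast_nonneg q)
      exact Real.log_le_log (by exact_mod_cast Nat.floor_pos.2 (by linarith))
        (Nat.floor_le (by linarith))
    have hsum : ∑ c ∈ Cd q, S Lam ⌊X⌋₊ ((c : ℝ) / q + β) = (m : ℂ) * S0 + E := by
      rw [hE, hm]
      push_cast
      ring
    have hconj : (starRingEnd ℂ) (((m / φ : ℝ) : ℂ) * I0) =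
        ((m / φ : ℝ) : ℂ) * (starRingEnd ℂ) I0 := by
      rw [map_mul, Complex.conj_ofReal]
    have h2 : (((m : ℂ) * S0 + E) * (((m / φ : ℝ) : ℂ) * (starRingEnd ℂ) I0)).re =
        (1 / φ) * (S0 * (starRingEnd ℂ) I0).re + (m / φ) * (E * (starRingEnd ℂ) I0).re := by
      have e1 : ((m : ℂ) * S0 + E) * (((m / φ : ℝ) : ℂ) * (starRingEnd ℂ) I0) =
          ((m ^ 2 / φ : ℝ) : ℂ) * (S0 * (starRingEnd ℂ) I0) +
            ((m / φ : ℝ) : ℂ) * (E * (starRingEnd ℂ) I0) := by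
        push_cast
        ring
      rw [e1, Complex.add_re, Complex.re_ofReal_mul, Complex.re_ofReal_mul, hmu]
    have h3 : ‖((m / φ : ℝ) : ℂ) * I0‖ ^ 2 = (1 / φ ^ 2) * ‖I0‖ ^ 2 := by
      rw [norm_mul, mul_pow, Complex.norm_real, Real.norm_eq_abs, sq_abs, div_pow, hmu]
    have h4 : ((S0 - I0) * (starRingEnd ℂ) I0).re = (S0 * (starRingEnd ℂ) I0).re - ‖I0‖ ^ 2 := by
      rw [sub_mul, Complex.sub_re, Complex.mul_conj, Complex.normSq_eq_norm_sq, Complex.ofReal_re]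
    have h5 : CS (Sq Lam ⌊X⌋₊) q β - EQ X q β - mp q * (‖I0‖ ^ 2 +
        2 * ((S0 - I0) * (starRingEnd ℂ) I0).re) = 2 * (m / φ) * (E * (starRingEnd ℂ) I0).re := by
      rw [h1, hsum, hconj, h2, h3, h4, hmp]
      field_simp
      ring
    rw [h5, abs_mul, abs_mul, abs_of_pos (two_pos : (0 : ℝ) < 2), abs_div, abs_of_pos hphi]
    have hm1 : |m| = 1 := by
      have := hmu
      rw [← sq_abs] at this
      exact (pow_eq_one_iff_of_nonneg (abs_nonneg _) two_ne_zero).1 this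
    have h6 : |(E * (starRingEnd ℂ) I0).re| ≤ q * Real.log X * ‖I0‖ := by
      refine (Complex.abs_re_le_norm _).trans ?_
      rw [norm_mul, RCLike.norm_conj]
      exact mul_le_mul_of_nonneg_right hEb (norm_nonneg _)
    rw [hm1, hmp]
    calc 2 * (1 / φ) * |(E * (starRingEnd ℂ) I0).re| ≤ 2 * (1 / φ) * (q * Real.log X * ‖I0‖) :=
          mul_le_mul_of_nonneg_left h6 (by positivity)
      _ = 2 * (q * (1 / φ)) * Real.log X * ‖I0‖ := by ring
  · have hmp : mp q = 0 := by rw [mp, if_neg hsq]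
    have hmu : μ q = 0 := ArithmeticFunction.moebius_eq_zero_of_not_squarefree hsq
    rw [h1, hmp, hmu]
    simp

alias xterm := xterm_pr

end Pool.Agent.MF
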