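import Pool.Agent.Lib_helper59.MF.Defs
import Pool.Agent.Lib_helper92.HCF.SCA
import Pool.Agent.Lib_helper92.HCF.MJR
/-! MF : block X2a (helper37) -/

set_option autoImplicit false

namespace Pool.Agent.MF

open Finset Complex Filter Topology MeasureTheory Pool.Agent.Var35 Pool.Agent.Var73 Pool.Agent.HC
open scoped ArithmeticFunction ArithmeticFunction.Moebius

theorem ic_inv_pr (X β : ℝ) (hX : 0 ≤ X) (hβ : β ≠ 0) : ‖Ic X β‖ ≤ 1 / (Real.pi * |β|) := by
  have hβ0 : 0 < |β| := abs_pos.2 hβ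
  have hπ := Real.pi_pos
  rcases hX.eq_or_lt with h0 | h0
  · subst h0
    have : Ic 0 β = 0 := by unfold Ic; simp
    rw [this, norm_zero]
    positivity
  · have h1 := SCA_Ic X β h0 hβ
    have h2 : X ^ 2 * sc (X * β) = (Real.sin (Real.pi * (X * β)) / (Real.pi * β)) ^ 2 := by
      unfold sc
      have hX' := h0.ne'
      field_simp
    rw [h2, ← sq_abs (Real.sin (Real.pi * (X * β)) / (Real.pi * β))] at h1
    have h3 : ‖Ic X β‖ = |Real.sin (Real.pi * (X * β)) / (Real.pi * β)| :=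
      (sq_eq_sq₀ (norm_nonneg _) (abs_nonneg _)).1 h1
    rw [h3, abs_div, abs_mul, abs_of_pos hπ]
    exact div_le_div_of_nonneg_right (Real.abs_sin_le_one _) (by positivity)

theorem x2a_le (X β : ℝ) (hX : 0 ≤ X) : ‖Ic X β‖ ≤ X := by
  unfold Ic
  refine (intervalIntegral.norm_integral_le_of_norm_le_const (C := 1) fun t _ => ?_).trans ?_
  · rw [norm_e]
  · rw [one_mul, sub_zero, abs_of_nonneg hX]

theorem x2a_far (X : ℝ) (hX : 2 ≤ X) (f : ℝ → ℝ) (hc : Continuous f)
    (hf : ∀ β, 0 < β → f β ≤ 1 / (Real.pi * β)) :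
    ∫ β in (1 / X)..(1 / 2), f β ≤ Real.log X := by
  have hX0 : 0 < X := by linarith
  have h1X : 1 / X ≤ 1 / 2 := one_div_le_one_div_of_le (by norm_num) hX
  have h1X0 : 0 < 1 / X := by positivity
  have hπ := Real.pi_gt_three
  have hnot : (0 : ℝ) ∉ Set.uIcc (1 / X) (1 / 2) := by
    rw [Set.uIcc_of_le h1X]
    intro h
    exact absurd h.1 (not_le.2 h1X0)
  have hi : IntervalIntegrable (fun β : ℝ => β⁻¹) volume (1 / X) (1 / 2) :=
    intervalIntegral.intervalIntegrable_inv (fun x hx h => hnot (h ▸ hx)) continuousOn_id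
  have h2 : ∫ β in (1 / X)..(1 / 2), f β ≤ ∫ β in (1 / X)..(1 / 2), β⁻¹ := by
    refine intervalIntegral.integral_mono_on h1X (hc.intervalIntegrable _ _) hi ?_
    intro β hβ
    have hβ0 : 0 < β := h1X0.trans_le hβ.1
    refine (hf β hβ0).trans ?_
    rw [one_div]
    refine inv_anti₀ hβ0 ?_
    nlinarith
  refine h2.trans ?_
  rw [integral_inv hnot]
  refine Real.log_le_log (by positivity) ?_
  rw [div_div_eq_mul_div, one_div, div_one]
  nlinarith

theorem ic_l1_pr (X : ℝ) (hX : 2 ≤ X) :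
    ∫ β in (-(1 / 2) : ℝ)..(1 / 2), ‖Ic X β‖ ≤ 4 * (1 + Real.log X) := by
  have hX0 : 0 < X := by linarith
  have hc : Continuous (fun β => ‖Ic X β‖) := (MJR_Ic_cont X).norm
  have hlog : 0 ≤ Real.log X := Real.log_nonneg (by linarith)
  have h1 : ∫ β in (1 / X)..(1 / 2), ‖Ic X β‖ ≤ Real.log X := by
    refine x2a_far X hX _ hc fun β hβ => ?_
    have := ic_inv_pr X β hX0.le hβ.ne'
    rwa [abs_of_pos hβ] at this
  have h2 : ∫ β in (-(1 / 2) : ℝ)..(-(1 / X)), ‖Ic X β‖ ≤ Real.log X := by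
    have h3 : ∫ β in (1 / X)..(1 / 2), ‖Ic X (-β)‖ =
        ∫ β in (-(1 / 2) : ℝ)..(-(1 / X)), ‖Ic X β‖ :=
      intervalIntegral.integral_comp_neg (fun β => ‖Ic X β‖)
    rw [← h3]
    refine x2a_far X hX _ (hc.comp continuous_neg) fun β hβ => ?_
    have := ic_inv_pr X (-β) hX0.le (neg_ne_zero.2 hβ.ne')
    rwa [abs_neg, abs_of_pos hβ] at this
  have h3 : ∫ β in (-(1 / X))..(1 / X), ‖Ic X β‖ ≤ 2 := by
    have h4 : -(1 / X) ≤ 1 / X := by
      have : 0 < 1 / X := by positivity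
      linarith
    have h5 : ∫ β in (-(1 / X))..(1 / X), ‖Ic X β‖ ≤ ∫ β in (-(1 / X))..(1 / X), X :=
      intervalIntegral.integral_mono_on h4 (hc.intervalIntegrable _ _)
        (continuous_const.intervalIntegrable _ _) fun β _ => x2a_le X β hX0.le
    refine h5.trans (le_of_eq ?_)
    rw [intervalIntegral.integral_const, smul_eq_mul]
    field_simp
    ring
  have i1 : IntervalIntegrable (fun β => ‖Ic X β‖) volume (-(1 / 2)) (-(1 / X)) :=
    hc.intervalIntegrable _ _
  have i2 : IntervalIntegrable (fun β => ‖Ic X β‖) volume (-(1 / X)) (1 / X) :=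
    hc.intervalIntegrable _ _
  have i3 : IntervalIntegrable (fun β => ‖Ic X β‖) volume (1 / X) (1 / 2) :=
    hc.intervalIntegrable _ _
  rw [← intervalIntegral.integral_add_adjacent_intervals (i1.trans i2) i3,
    ← intervalIntegral.integral_add_adjacent_intervals i1 i2]
  linarith

alias ic_inv := ic_inv_pr

alias ic_l1 := ic_l1_pr

end Pool.Agent.MF
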