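import Pool.Agent.Lib_helper59.MF.Defs
import Pool.Agent.Lib_helper92.HCF.DIA
import Pool.Agent.Lib_helper92.HCF.PAR
import Pool.Agent.Lib_helper92.HCF.SIN
import Pool.Agent.Lib_helper92.HCF.SPG
import Pool.Agent.Lib_helper92.HCF.MJR
import Pool.Agent.Lib_helper59.MFF.X2a
/-! MF : block X2b, the cross term. -/

set_option autoImplicit false

namespace Pool.Agent.MF

open Finset Complex Filter Topology MeasureTheory Pool.Agent.Var35 Pool.Agent.Var73 Pool.Agent.HC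
open scoped ArithmeticFunction ArithmeticFunction.Moebius

/-- the integral of `1 / (β² + b²)` -/
theorem x2b_arctan (b : ℝ) (hb : 0 < b) :
    ∫ β in (-(1 / 2) : ℝ)..(1 / 2), 1 / (β ^ 2 + b ^ 2) ≤ Real.pi / b := by
  have h1 : ∀ β : ℝ, 1 / (β ^ 2 + b ^ 2) = (b ^ 2)⁻¹ * (1 + (β / b) ^ 2)⁻¹ := by
    intro β
    have h2 : 0 < β ^ 2 + b ^ 2 := by positivity
    field_simp
    ring
  simp_rw [h1]
  rw [intervalIntegral.integral_const_mul,
    intervalIntegral.integral_comp_div (fun x => (1 + x ^ 2)⁻¹) hb.ne',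
    integral_inv_one_add_sq, smul_eq_mul]
  have h3 := Real.arctan_lt_pi_div_two (1 / 2 / b)
  have h4 := Real.neg_pi_div_two_lt_arctan (-(1 / 2) / b)
  have h5 : Real.arctan (1 / 2 / b) - Real.arctan (-(1 / 2) / b) ≤ Real.pi := by linarith
  calc (b ^ 2)⁻¹ * (b * (Real.arctan (1 / 2 / b) - Real.arctan (-(1 / 2) / b))) =
      (Real.arctan (1 / 2 / b) - Real.arctan (-(1 / 2) / b)) / b := by
        field_simp
    _ ≤ Real.pi / b := by gcongr

/-- the pointwise bound -/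
theorem x2b_point (X E b l β : ℝ) (hX : 1 ≤ X) (hE : ∀ x, 0 ≤ x → x ≤ X → |psi x - x| ≤ E)
    (hb : 0 < b) (hl : 0 < l) :
    ‖S Lam ⌊X⌋₊ β - Ic X β‖ * ‖Ic X β‖ ≤ E * ‖Ic X β‖ +
      l / 2 * ‖S Lam ⌊X⌋₊ β - Ic X β‖ ^ 2 +
      (4 * X * E * b ^ 2 + 1 / l) * (1 / (β ^ 2 + b ^ 2)) := by
  have hX0 : 0 ≤ X := by linarith
  have hE0 : 0 ≤ E := (abs_nonneg _).trans (hE 0 le_rfl hX0)
  set s : ℝ := ‖S Lam ⌊X⌋₊ β - Ic X β‖ with hs
  set i : ℝ := ‖Ic X β‖ with hi
  have hs0 : 0 ≤ s := norm_nonneg _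
  have hi0 : 0 ≤ i := norm_nonneg _
  have hden : 0 < β ^ 2 + b ^ 2 := by positivity
  have hprod : |β| * i ≤ 1 / Real.pi := by
    by_cases hβ : β = 0
    · rw [hβ, abs_zero, zero_mul]; positivity
    · have h1 := ic_inv X β hX0 hβ
      have h2 : 0 < |β| := abs_pos.mpr hβ
      calc |β| * i ≤ |β| * (1 / (Real.pi * |β|)) := mul_le_mul_of_nonneg_left h1 h2.le
        _ = 1 / Real.pi := by field_simp
  have hpi := Real.pi_gt_three
  by_cases hc : |β| ≤ b
  · have h1 : s ≤ (1 + 2 * Real.pi * |β| * X) * E := si_pr X β E hX hE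
    have h2 : s * i ≤ E * i + 2 * X * E := by
      calc s * i ≤ ((1 + 2 * Real.pi * |β| * X) * E) * i := mul_le_mul_of_nonneg_right h1 hi0
        _ = E * i + 2 * Real.pi * X * E * (|β| * i) := by ring
        _ ≤ E * i + 2 * Real.pi * X * E * (1 / Real.pi) := by
            have : 0 ≤ 2 * Real.pi * X * E := by positivity
            have := mul_le_mul_of_nonneg_left hprod this
            linarith
        _ = E * i + 2 * X * E := by
            field_simp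
    have h3 : 1 ≤ 2 * b ^ 2 * (1 / (β ^ 2 + b ^ 2)) := by
      rw [mul_one_div, le_div_iff₀ hden, one_mul]
      have : β ^ 2 ≤ b ^ 2 := sq_le_sq' (by linarith [neg_abs_le β]) (le_trans (le_abs_self β) hc)
      linarith
    have h4 : 2 * X * E ≤ 4 * X * E * b ^ 2 * (1 / (β ^ 2 + b ^ 2)) := by
      have h5 : 0 ≤ 2 * X * E := by positivity
      calc 2 * X * E = 2 * X * E * 1 := by ring
        _ ≤ 2 * X * E * (2 * b ^ 2 * (1 / (β ^ 2 + b ^ 2))) := mul_le_mul_of_nonneg_left h3 h5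
        _ = _ := by ring
    have h5 : 0 ≤ l / 2 * s ^ 2 := by positivity
    have h6 : 0 ≤ 1 / l * (1 / (β ^ 2 + b ^ 2)) := by positivity
    have h7 : (4 * X * E * b ^ 2 + 1 / l) * (1 / (β ^ 2 + b ^ 2)) =
      4 * X * E * b ^ 2 * (1 / (β ^ 2 + b ^ 2)) + 1 / l * (1 / (β ^ 2 + b ^ 2)) := by ring
    rw [h7]
    linarith
  · have hc' : b < |β| := not_le.mp hc
    have hβ2 : b ^ 2 ≤ β ^ 2 := by
      rw [← sq_abs β]
      exact pow_le_pow_left₀ hb.le hc'.le 2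
    have hβp : 0 < β ^ 2 := lt_of_lt_of_le (by positivity) hβ2
    have h1 : s * i ≤ l / 2 * s ^ 2 + 1 / (2 * l) * i ^ 2 := by
      have h2 : 0 ≤ (l * s - i) ^ 2 / (2 * l) := by positivity
      have h3 : (l * s - i) ^ 2 / (2 * l) = l / 2 * s ^ 2 + 1 / (2 * l) * i ^ 2 - s * i := by
        field_simp
        ring
      linarith
    have h4 : i ^ 2 ≤ 2 * (1 / (β ^ 2 + b ^ 2)) := by
      have h5 : β ^ 2 * i ^ 2 ≤ 1 := by
        calc β ^ 2 * i ^ 2 = (|β| * i) ^ 2 := by rw [mul_pow, sq_abs]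
          _ ≤ (1 / Real.pi) ^ 2 := pow_le_pow_left₀ (by positivity) hprod 2
          _ ≤ 1 := by
              rw [div_pow, one_pow, div_le_one (by positivity)]
              nlinarith
      rw [mul_one_div, le_div_iff₀ hden]
      have h6 : i ^ 2 * b ^ 2 ≤ i ^ 2 * β ^ 2 := mul_le_mul_of_nonneg_left hβ2 (by positivity)
      nlinarith
    have h5 : 1 / (2 * l) * i ^ 2 ≤ 1 / l * (1 / (β ^ 2 + b ^ 2)) := by
      calc 1 / (2 * l) * i ^ 2 ≤ 1 / (2 * l) * (2 * (1 / (β ^ 2 + b ^ 2))) :=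
            mul_le_mul_of_nonneg_left h4 (by positivity)
        _ = _ := by field_simp
    have h6 : 0 ≤ 4 * X * E * b ^ 2 * (1 / (β ^ 2 + b ^ 2)) := by positivity
    have h7 : (4 * X * E * b ^ 2 + 1 / l) * (1 / (β ^ 2 + b ^ 2)) =
      4 * X * E * b ^ 2 * (1 / (β ^ 2 + b ^ 2)) + 1 / l * (1 / (β ^ 2 + b ^ 2)) := by ring
    have h8 : 0 ≤ E * i := by positivity
    rw [h7]
    linarith

/-- the cross term -/
theorem jint_pr : ∃ C : ℝ, 0 < C ∧ ∀ X : ℝ, C ≤ X →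
    ∫ β in (-(1 / 2) : ℝ)..(1 / 2), ‖S Lam ⌊X⌋₊ β - Ic X β‖ * ‖Ic X β‖ ≤
      C * X / Real.log X ^ 2 := by
  obtain ⟨C, hC, hpnt⟩ := pnt_sup_pr 7
  obtain ⟨X₀, hdiag⟩ := diag_pr 1 one_pos
  refine ⟨21 * C + 13 + max X₀ 0, by positivity, fun X hX => ?_⟩
  have hm0 : 0 ≤ max X₀ 0 := le_max_right _ _
  have hX13 : 13 ≤ X := by linarith
  have hXX : X₀ ≤ X := by linarith [le_max_left X₀ 0]
  have hX0 : 0 < X := by linarith
  set L : ℝ := Real.log X with hL
  have hL1 : 1 ≤ L := by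
    rw [hL, Real.le_log_iff_exp_le hX0]
    linarith [Real.exp_one_lt_d9]
  have hL0 : 0 < L := by linarith
  set E : ℝ := C * X / L ^ 7 with hE
  have hE0 : 0 < E := by positivity
  set b : ℝ := L ^ 5 / X with hb
  have hb0 : 0 < b := by positivity
  set l : ℝ := 1 / L ^ 3 with hl
  have hl0 : 0 < l := by positivity
  have hpi3 := Real.pi_gt_three
  have hpi4 := Real.pi_lt_four
  -- the integrals
  have cS : Continuous (fun β => S Lam ⌊X⌋₊ β) := par_contS Lam ⌊X⌋₊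
  have cI : Continuous (fun β => Ic X β) := MJR_Ic_cont X
  have cD : Continuous (fun β => ‖S Lam ⌊X⌋₊ β - Ic X β‖) := (cS.sub cI).norm
  have cH : Continuous (fun β : ℝ => 1 / (β ^ 2 + b ^ 2)) :=
    continuous_const.div ((continuous_id.pow 2).add continuous_const) fun β => by positivity
  have i1 : ∫ β in (-(1 / 2) : ℝ)..(1 / 2), ‖Ic X β‖ ≤ 4 * (1 + L) := ic_l1 X (by linarith)
  have i2 : ∫ β in (-(1 / 2) : ℝ)..(1 / 2), ‖Ic X β‖ ^ 2 ≤ X * (4 * (1 + L)) := by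
    calc ∫ β in (-(1 / 2) : ℝ)..(1 / 2), ‖Ic X β‖ ^ 2 ≤
        ∫ β in (-(1 / 2) : ℝ)..(1 / 2), X * ‖Ic X β‖ := by
          refine intervalIntegral.integral_mono_on (by norm_num)
            ((cI.norm.pow 2).intervalIntegrable _ _)
            ((continuous_const.mul cI.norm).intervalIntegrable _ _) fun β _ => ?_
          rw [pow_two]
          exact mul_le_mul_of_nonneg_right (MJR_Ic_le X β hX0.le) (norm_nonneg _)
      _ = X * ∫ β in (-(1 / 2) : ℝ)..(1 / 2), ‖Ic X β‖ :=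
          intervalIntegral.integral_const_mul _ _
      _ ≤ X * (4 * (1 + L)) := mul_le_mul_of_nonneg_left i1 hX0.le
  have i3 : ∫ β in (-(1 / 2) : ℝ)..(1 / 2), ‖S Lam ⌊X⌋₊ β‖ ^ 2 ≤ X * L := by
    have h1 : Function.Periodic (Sq Lam ⌊X⌋₊) 1 := (sq_basic_pr Lam ⌊X⌋₊).1
    have h2 : ∫ β in (-(1 / 2) : ℝ)..(1 / 2), ‖S Lam ⌊X⌋₊ β‖ ^ 2 = A2 Lam ⌊X⌋₊ := by
      rw [← (sq_basic_pr Lam ⌊X⌋₊).2]
      have h3 := h1.intervalIntegral_add_eq (-(1 / 2)) 0
      rw [show (-(1 / 2) : ℝ) + 1 = 1 / 2 by norm_num, zero_add] at h3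
      exact h3
    rw [h2]
    have h3 := hdiag X hXX
    linarith
  have i4 : ∫ β in (-(1 / 2) : ℝ)..(1 / 2), ‖S Lam ⌊X⌋₊ β - Ic X β‖ ^ 2 ≤
      2 * (X * L) + 2 * (X * (4 * (1 + L))) := by
    calc ∫ β in (-(1 / 2) : ℝ)..(1 / 2), ‖S Lam ⌊X⌋₊ β - Ic X β‖ ^ 2 ≤
        ∫ β in (-(1 / 2) : ℝ)..(1 / 2), (2 * ‖S Lam ⌊X⌋₊ β‖ ^ 2 + 2 * ‖Ic X β‖ ^ 2) := by
          refine intervalIntegral.integral_mono_on (by norm_num)
            ((cD.pow 2).intervalIntegrable _ _)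
            (((continuous_const.mul (cS.norm.pow 2)).add
              (continuous_const.mul (cI.norm.pow 2))).intervalIntegrable _ _) fun β _ => ?_
          have h1 := norm_sub_le (S Lam ⌊X⌋₊ β) (Ic X β)
          have h2 : ‖S Lam ⌊X⌋₊ β - Ic X β‖ ^ 2 ≤ (‖S Lam ⌊X⌋₊ β‖ + ‖Ic X β‖) ^ 2 :=
            pow_le_pow_left₀ (norm_nonneg _) h1 2
          nlinarith [sq_nonneg (‖S Lam ⌊X⌋₊ β‖ - ‖Ic X β‖)]
      _ = 2 * (∫ β in (-(1 / 2) : ℝ)..(1 / 2), ‖S Lam ⌊X⌋₊ β‖ ^ 2) +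
          2 * ∫ β in (-(1 / 2) : ℝ)..(1 / 2), ‖Ic X β‖ ^ 2 := by
          have j1 : Continuous fun β => 2 * ‖S Lam ⌊X⌋₊ β‖ ^ 2 :=
            continuous_const.mul (cS.norm.pow 2)
          have j2 : Continuous fun β => 2 * ‖Ic X β‖ ^ 2 := continuous_const.mul (cI.norm.pow 2)
          rw [intervalIntegral.integral_add (j1.intervalIntegrable _ _)
            (j2.intervalIntegrable _ _),
            intervalIntegral.integral_const_mul, intervalIntegral.integral_const_mul]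
      _ ≤ _ := by linarith
  have i5 := x2b_arctan b hb0
  -- the sum
  have hmain : ∫ β in (-(1 / 2) : ℝ)..(1 / 2), ‖S Lam ⌊X⌋₊ β - Ic X β‖ * ‖Ic X β‖ ≤
      E * (4 * (1 + L)) + l / 2 * (2 * (X * L) + 2 * (X * (4 * (1 + L)))) +
        (4 * X * E * b ^ 2 + 1 / l) * (Real.pi / b) := by
    calc ∫ β in (-(1 / 2) : ℝ)..(1 / 2), ‖S Lam ⌊X⌋₊ β - Ic X β‖ * ‖Ic X β‖ ≤
        ∫ β in (-(1 / 2) : ℝ)..(1 / 2), (E * ‖Ic X β‖ +
          l / 2 * ‖S Lam ⌊X⌋₊ β - Ic X β‖ ^ 2 +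
          (4 * X * E * b ^ 2 + 1 / l) * (1 / (β ^ 2 + b ^ 2))) := by
          refine intervalIntegral.integral_mono_on (by norm_num)
            ((cD.mul cI.norm).intervalIntegrable _ _)
            ((((continuous_const.mul cI.norm).add (continuous_const.mul (cD.pow 2))).add
              (continuous_const.mul cH)).intervalIntegrable _ _) fun β _ => ?_
          exact x2b_point X E b l β (by linarith) (hpnt X (by linarith)) hb0 hl0
      _ = E * (∫ β in (-(1 / 2) : ℝ)..(1 / 2), ‖Ic X β‖) +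
          l / 2 * (∫ β in (-(1 / 2) : ℝ)..(1 / 2), ‖S Lam ⌊X⌋₊ β - Ic X β‖ ^ 2) +
          (4 * X * E * b ^ 2 + 1 / l) *
            ∫ β in (-(1 / 2) : ℝ)..(1 / 2), 1 / (β ^ 2 + b ^ 2) := by
          have j1 : Continuous fun β => E * ‖Ic X β‖ := continuous_const.mul cI.norm
          have j2 : Continuous fun β => l / 2 * ‖S Lam ⌊X⌋₊ β - Ic X β‖ ^ 2 :=
            continuous_const.mul (cD.pow 2)
          have j3 : Continuous fun β => (4 * X * E * b ^ 2 + 1 / l) * (1 / (β ^ 2 + b ^ 2)) :=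
            continuous_const.mul cH
          have j12 : Continuous fun β => E * ‖Ic X β‖ +
              l / 2 * ‖S Lam ⌊X⌋₊ β - Ic X β‖ ^ 2 := j1.add j2
          rw [intervalIntegral.integral_add (j12.intervalIntegrable _ _)
            (j3.intervalIntegrable _ _),
            intervalIntegral.integral_add (j1.intervalIntegrable _ _)
            (j2.intervalIntegrable _ _),
            intervalIntegral.integral_const_mul, intervalIntegral.integral_const_mul,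
            intervalIntegral.integral_const_mul]
      _ ≤ _ := by
          have a1 := mul_le_mul_of_nonneg_left i1 hE0.le
          have a2 := mul_le_mul_of_nonneg_left i4 (show 0 ≤ l / 2 by positivity)
          have a3 := mul_le_mul_of_nonneg_left i5
            (show 0 ≤ 4 * X * E * b ^ 2 + 1 / l by positivity)
          linarith
  refine hmain.trans ?_
  -- numbers
  have n1 : E * (4 * (1 + L)) ≤ 8 * C * X / L ^ 2 := by
    rw [hE, div_mul_eq_mul_div, div_le_div_iff₀ (by positivity) (by positivity)]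
    have h1 : (1 + L) * L ^ 2 ≤ 2 * L ^ 7 := by
      have h2 : L ^ 3 ≤ L ^ 7 := pow_le_pow_right₀ hL1 (by norm_num)
      have h3 : L ^ 2 ≤ L ^ 7 := pow_le_pow_right₀ hL1 (by norm_num)
      calc (1 + L) * L ^ 2 = L ^ 2 + L ^ 3 := by ring
        _ ≤ 2 * L ^ 7 := by linarith
    have h4 : 0 < 4 * C * X := by positivity
    calc C * X * (4 * (1 + L)) * L ^ 2 = 4 * C * X * ((1 + L) * L ^ 2) := by ring
      _ ≤ 4 * C * X * (2 * L ^ 7) := mul_le_mul_of_nonneg_left h1 h4.le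
      _ = 8 * C * X * L ^ 7 := by ring
  have n2 : l / 2 * (2 * (X * L) + 2 * (X * (4 * (1 + L)))) ≤ 9 * X / L ^ 2 := by
    have h1 : l / 2 * (2 * (X * L) + 2 * (X * (4 * (1 + L)))) = X * (5 * L + 4) / L ^ 3 := by
      rw [hl]
      field_simp
      ring
    rw [h1, div_le_div_iff₀ (by positivity) (by positivity)]
    have h2 : (5 * L + 4) * L ^ 2 ≤ 9 * L ^ 3 := by
      have h3 : 0 ≤ L ^ 2 * (L - 1) := by
        have : 0 ≤ L - 1 := by linarith
        positivity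
      nlinarith
    calc X * (5 * L + 4) * L ^ 2 = X * ((5 * L + 4) * L ^ 2) := by ring
      _ ≤ X * (9 * L ^ 3) := mul_le_mul_of_nonneg_left h2 hX0.le
      _ = 9 * X * L ^ 3 := by ring
  have n3 : (4 * X * E * b ^ 2 + 1 / l) * (Real.pi / b) = (4 * C + 1) * Real.pi * X / L ^ 2 := by
    rw [hE, hb, hl]
    field_simp
  rw [n3]
  have n4 : (4 * C + 1) * Real.pi * X / L ^ 2 ≤ (4 * C + 1) * (3.15) * X / L ^ 2 := by
    have := Real.pi_lt_d2
    gcongr
  have n5 : 8 * C * X / L ^ 2 + 9 * X / L ^ 2 + (4 * C + 1) * (3.15) * X / L ^ 2 ≤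
      (21 * C + 13 + max X₀ 0) * X / L ^ 2 := by
    rw [← add_div, ← add_div]
    gcongr
    have h1 : 0 ≤ C * X := by positivity
    have h2 : 0 ≤ max X₀ 0 * X := by positivity
    nlinarith
  linarith

alias jint := jint_pr

end Pool.Agent.MF
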