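import Pool.Agent.Lib_helper59.MF.Defs
import Pool.Agent.Lib_helper92.HCF.PHS
import Pool.Agent.Lib_helper59.MFF.G8
import Pool.Agent.Lib_helper59.MFF.X1
import Pool.Agent.Lib_helper59.MFF.X2a
import Pool.Agent.Lib_helper59.MFF.X2b
/-! MF, block X3 : the principal part is separated. -/

set_option autoImplicit false

namespace Pool.Agent.MF

open Finset Complex Filter Topology MeasureTheory Pool.Agent.Var35 Pool.Agent.Var73 Pool.Agent.HC
open scoped ArithmeticFunction ArithmeticFunction.Moebius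

theorem x3_kk_meas : Measurable kk := by
  have h1 : Measurable fun v : ℝ => ((⌊v⌋₊ : ℕ) : ℝ) :=
    (measurable_from_nat (f := fun n : ℕ => (n : ℝ))).comp Nat.measurable_floor
  show Measurable fun v : ℝ => 1 - ((⌊v⌋₊ : ℕ) : ℝ) / v
  exact measurable_const.sub (h1.div measurable_id)

theorem x3_Ic_cont (X : ℝ) : Continuous (Ic X) := by
  unfold Ic e
  refine intervalIntegral.continuous_parametric_intervalIntegral_of_continuous' ?_ 0 X
  fun_prop

theorem x3_S_cont (N : ℕ) : Continuous (S Lam N) := by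
  unfold S e
  fun_prop

theorem x3_CS_cont (N q : ℕ) : Continuous (CS (Sq Lam N) q) := by
  unfold CS Sq
  refine continuous_finsetSum _ fun c _ => ?_
  exact (((x3_S_cont N).comp (continuous_const.add continuous_id)).norm).pow 2

theorem x3_EQ_cont (X : ℝ) (q : ℕ) : Continuous (EQ X q) := by
  unfold EQ
  refine continuous_finsetSum _ fun c _ => ?_
  refine ((Continuous.sub ?_ ?_).norm).pow 2
  · exact (x3_S_cont _).comp (continuous_const.add continuous_id)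
  · exact continuous_const.mul (x3_Ic_cont X)

theorem x3_mp_nonneg (q : ℕ) : 0 ≤ mp q := PHS_mp_nonneg q

theorem x3_ii (c : ℝ) (hc : 0 ≤ c) {g : ℝ → ℝ} (hg : Continuous g) (a b : ℝ) :
    IntervalIntegrable (fun β => kk (c * |β|) * g β) volume a b := by
  refine (hg.intervalIntegrable a b).mono_fun ?_ ?_
  · refine Measurable.aestronglyMeasurable ?_
    refine Measurable.mul ?_ hg.measurable
    refine x3_kk_meas.comp ?_
    exact (measurable_const.mul (continuous_abs.measurable))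
  · refine Eventually.of_forall fun β => ?_
    obtain ⟨h1, h2, -⟩ := kk_basic (c * |β|) (by positivity)
    simp only [norm_mul, Real.norm_eq_abs]
    rw [abs_of_nonneg h1]
    exact mul_le_of_le_one_left (abs_nonneg _) h2

/-- one denominator -/
theorem x3_one (X : ℝ) (hX : 2 ≤ X) (Y q : ℕ) (hq : 1 ≤ q) (w : ℝ) (h0 : 0 ≤ w)
    (h1 : w ≤ 1 / 2) :
    |(∫ β in (-w)..w, CS (Sq Lam ⌊X⌋₊) q β * kk (q * Y * |β|)) -
      (∫ β in (-w)..w, kk (q * Y * |β|) * EQ X q β) -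
      mp q * ∫ β in (-w)..w, kk (q * Y * |β|) * ‖Ic X β‖ ^ 2| ≤
      2 * (q * mp q) * Real.log X * (∫ β in (-(1 / 2) : ℝ)..(1 / 2), ‖Ic X β‖) +
      2 * mp q * ∫ β in (-(1 / 2) : ℝ)..(1 / 2), ‖S Lam ⌊X⌋₊ β - Ic X β‖ * ‖Ic X β‖ := by
  have hc0 : (0 : ℝ) ≤ (q : ℝ) * Y := by positivity
  have hm := x3_mp_nonneg q
  have hlX : 0 ≤ Real.log X := Real.log_nonneg (by linarith)
  have cI := x3_Ic_cont X
  have cS := x3_S_cont ⌊X⌋₊
  have cC := x3_CS_cont ⌊X⌋₊ q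
  have cE := x3_EQ_cont X q
  have e1 : (∫ β in (-w)..w, CS (Sq Lam ⌊X⌋₊) q β * kk (q * Y * |β|)) -
      (∫ β in (-w)..w, kk (q * Y * |β|) * EQ X q β) -
      mp q * ∫ β in (-w)..w, kk (q * Y * |β|) * ‖Ic X β‖ ^ 2 =
      ∫ β in (-w)..w, kk (q * Y * |β|) *
        (CS (Sq Lam ⌊X⌋₊) q β - EQ X q β - mp q * ‖Ic X β‖ ^ 2) := by
    have i1 := x3_ii _ hc0 cC (-w) w
    have i2 := x3_ii _ hc0 cE (-w) w
    have i3 : IntervalIntegrable (fun β => kk (q * Y * |β|) * ‖Ic X β‖ ^ 2) volume (-w) w :=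
      x3_ii _ hc0 (cI.norm.pow 2) (-w) w
    have i1' : (∫ β in (-w)..w, CS (Sq Lam ⌊X⌋₊) q β * kk (q * Y * |β|)) =
        ∫ β in (-w)..w, kk (q * Y * |β|) * CS (Sq Lam ⌊X⌋₊) q β := by
      refine intervalIntegral.integral_congr fun β _ => ?_
      ring
    rw [i1', ← intervalIntegral.integral_sub i1 i2, ← intervalIntegral.integral_const_mul,
      ← intervalIntegral.integral_sub (i1.sub i2) (i3.const_mul _)]
    refine intervalIntegral.integral_congr fun β _ => ?_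
    show kk (q * Y * |β|) * CS (Sq Lam ⌊X⌋₊) q β - kk (q * Y * |β|) * EQ X q β -
      mp q * (kk (q * Y * |β|) * ‖Ic X β‖ ^ 2) = kk (q * Y * |β|) *
        (CS (Sq Lam ⌊X⌋₊) q β - EQ X q β - mp q * ‖Ic X β‖ ^ 2)
    ring
  rw [e1]
  have e2 : ∀ β : ℝ, ‖kk (q * Y * |β|) *
        (CS (Sq Lam ⌊X⌋₊) q β - EQ X q β - mp q * ‖Ic X β‖ ^ 2)‖ ≤
      2 * (q * mp q) * Real.log X * ‖Ic X β‖ +
        2 * mp q * (‖S Lam ⌊X⌋₊ β - Ic X β‖ * ‖Ic X β‖) := by
    intro β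
    obtain ⟨k1, k2, -⟩ := kk_basic (q * Y * |β|) (by positivity)
    rw [norm_mul, Real.norm_eq_abs, Real.norm_eq_abs, abs_of_nonneg k1]
    refine (mul_le_of_le_one_left (abs_nonneg _) k2).trans ?_
    have h3 := xterm X hX q hq β
    set Z : ℝ := ((S Lam ⌊X⌋₊ β - Ic X β) * (starRingEnd ℂ) (Ic X β)).re with hZ
    have h4 : |Z| ≤ ‖S Lam ⌊X⌋₊ β - Ic X β‖ * ‖Ic X β‖ := by
      refine (Complex.abs_re_le_norm _).trans ?_
      rw [norm_mul, Complex.norm_conj]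
    have h5 : CS (Sq Lam ⌊X⌋₊) q β - EQ X q β - mp q * ‖Ic X β‖ ^ 2 =
        (CS (Sq Lam ⌊X⌋₊) q β - EQ X q β - mp q * (‖Ic X β‖ ^ 2 + 2 * Z)) +
          2 * mp q * Z := by ring
    rw [h5]
    refine (abs_add_le _ _).trans (add_le_add h3 ?_)
    rw [abs_mul, abs_of_nonneg (by positivity : 0 ≤ 2 * mp q)]
    exact mul_le_mul_of_nonneg_left h4 (by positivity)
  have cB1 : Continuous fun β : ℝ => 2 * (q * mp q) * Real.log X * ‖Ic X β‖ :=
    continuous_const.mul cI.norm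
  have cB2 : Continuous fun β : ℝ => 2 * mp q * (‖S Lam ⌊X⌋₊ β - Ic X β‖ * ‖Ic X β‖) :=
    continuous_const.mul ((cS.sub cI).norm.mul cI.norm)
  have cB : Continuous fun β : ℝ => 2 * (q * mp q) * Real.log X * ‖Ic X β‖ +
        2 * mp q * (‖S Lam ⌊X⌋₊ β - Ic X β‖ * ‖Ic X β‖) := cB1.add cB2
  have e3 : |∫ β in (-w)..w, kk (q * Y * |β|) *
        (CS (Sq Lam ⌊X⌋₊) q β - EQ X q β - mp q * ‖Ic X β‖ ^ 2)| ≤
      ∫ β in (-w)..w, (2 * (q * mp q) * Real.log X * ‖Ic X β‖ +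
        2 * mp q * (‖S Lam ⌊X⌋₊ β - Ic X β‖ * ‖Ic X β‖)) := by
    rw [← Real.norm_eq_abs]
    exact intervalIntegral.norm_integral_le_of_norm_le (by linarith : -w ≤ w)
      (Eventually.of_forall fun β _ => e2 β) (cB.intervalIntegrable (-w) w)
  refine e3.trans ?_
  have e4 : (∫ β in (-w)..w, (2 * (q * mp q) * Real.log X * ‖Ic X β‖ +
        2 * mp q * (‖S Lam ⌊X⌋₊ β - Ic X β‖ * ‖Ic X β‖))) ≤
      ∫ β in (-(1 / 2) : ℝ)..(1 / 2), (2 * (q * mp q) * Real.log X * ‖Ic X β‖ +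
        2 * mp q * (‖S Lam ⌊X⌋₊ β - Ic X β‖ * ‖Ic X β‖)) := by
    refine intervalIntegral.integral_mono_interval (by linarith) (by linarith) h1
      (Eventually.of_forall fun β => ?_) (cB.intervalIntegrable _ _)
    simp only [Pi.zero_apply]
    positivity
  refine e4.trans (le_of_eq ?_)
  rw [intervalIntegral.integral_add (cB1.intervalIntegrable _ _) (cB2.intervalIntegrable _ _),
    intervalIntegral.integral_const_mul, intervalIntegral.integral_const_mul]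

/-- the principal part is separated -/
theorem xsum_pr (η : ℝ) (hη : 0 < η) : ∃ C : ℝ, ∀ (X : ℝ) (Y Z T U : ℕ), C ≤ X →
    Par X (Real.log X) Y Z T (RR X Y) U →
    |Y * SA (Sq Lam ⌊X⌋₊) (RR X Y) (wd X Y) (fun q β => kk (q * Y * |β|)) - DD X Y -
      Y * ∑ q ∈ Icc 1 (RR X Y), mp q * ∫ β in (-(wd X Y q))..(wd X Y q),
        kk (q * Y * |β|) * ‖Ic X β‖ ^ 2| ≤ η * X * Y := by
  obtain ⟨C1, hC1, hJ⟩ := jint
  obtain ⟨C2, hC2, hP⟩ := phi_sum_pr
  refine ⟨max (max C1 2) (Real.exp ((16 * C2 + 4 * C2 * C1) / η)), fun X Y Z T U hX h => ?_⟩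
  have hX1 : C1 ≤ X := ((le_max_left _ _).trans (le_max_left _ _)).trans hX
  have hX2 : 2 ≤ X := ((le_max_right _ _).trans (le_max_left _ _)).trans hX
  have hX3 : Real.exp ((16 * C2 + 4 * C2 * C1) / η) ≤ X := (le_max_right _ _).trans hX
  have hX0 : 0 < X := by linarith
  set L : ℝ := Real.log X with hLd
  have hL : 100 ≤ L := h.hL
  have hL0 : 0 < L := by linarith
  have hL1 : 1 ≤ L := by linarith
  have hLη : (16 * C2 + 4 * C2 * C1) / η ≤ L := by
    rw [hLd, Real.le_log_iff_exp_le hX0]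
    exact hX3
  have hY := h.hY
  have hY0 : (0 : ℝ) < Y := lt_of_lt_of_le (by positivity) hY
  have hR := h.hR
  have hR1 := h.hR1
  set R : ℕ := RR X Y with hRd
  have hJ' := hJ X hX1
  have hI' := ic_l1 X hX2
  obtain ⟨hP1, hP2⟩ := hP R hR
  set J1 : ℝ := ∫ β in (-(1 / 2) : ℝ)..(1 / 2), ‖Ic X β‖ with hJ1
  set J2 : ℝ := ∫ β in (-(1 / 2) : ℝ)..(1 / 2), ‖S Lam ⌊X⌋₊ β - Ic X β‖ * ‖Ic X β‖ with hJ2
  -- the difference as a sum
  have e1 : Y * SA (Sq Lam ⌊X⌋₊) R (wd X Y) (fun q β => kk (q * Y * |β|)) - DD X Y -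
      Y * ∑ q ∈ Icc 1 R, mp q * ∫ β in (-(wd X Y q))..(wd X Y q),
        kk (q * Y * |β|) * ‖Ic X β‖ ^ 2 =
      Y * ∑ q ∈ Icc 1 R, ((∫ β in (-(wd X Y q))..(wd X Y q),
          CS (Sq Lam ⌊X⌋₊) q β * kk (q * Y * |β|)) -
        (∫ β in (-(wd X Y q))..(wd X Y q), kk (q * Y * |β|) * EQ X q β) -
        mp q * ∫ β in (-(wd X Y q))..(wd X Y q), kk (q * Y * |β|) * ‖Ic X β‖ ^ 2) := by
    unfold SA DD
    rw [sum_sub_distrib, sum_sub_distrib]
    ring
  rw [e1, abs_mul, abs_of_pos hY0]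
  have e2 : |∑ q ∈ Icc 1 R, ((∫ β in (-(wd X Y q))..(wd X Y q),
          CS (Sq Lam ⌊X⌋₊) q β * kk (q * Y * |β|)) -
        (∫ β in (-(wd X Y q))..(wd X Y q), kk (q * Y * |β|) * EQ X q β) -
        mp q * ∫ β in (-(wd X Y q))..(wd X Y q), kk (q * Y * |β|) * ‖Ic X β‖ ^ 2)| ≤
      ∑ q ∈ Icc 1 R, (2 * (q * mp q) * L * J1 + 2 * mp q * J2) := by
    refine (abs_sum_le_sum_abs _ _).trans (sum_le_sum fun q hq => ?_)
    have hq1 : 1 ≤ q := (mem_Icc.1 hq).1
    have hq1' : (1 : ℝ) ≤ q := by exact_mod_cast hq1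
    have hL8 : (1 : ℝ) ≤ L ^ 8 := one_le_pow₀ hL1
    refine x3_one X hX2 Y q hq1 (wd X Y q) ?_ ?_
    · unfold wd
      positivity
    · unfold wd
      rw [div_le_iff₀ (by positivity)]
      have hYX := h.hYX
      have h3 : X ≤ q * (X * L ^ 8) := by
        have h4 : X ≤ X * L ^ 8 := le_mul_of_one_le_right hX0.le hL8
        exact h4.trans (le_mul_of_one_le_left (by positivity) hq1')
      have h5 : (1 : ℝ) / 2 * (2 * q * (X * L ^ 8)) = q * (X * L ^ 8) := by ring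
      rw [← hLd, h5]
      linarith
  have hJ10 : 0 ≤ J1 := intervalIntegral.integral_nonneg (by norm_num) fun β _ => norm_nonneg _
  have hJ20 : 0 ≤ J2 := intervalIntegral.integral_nonneg (by norm_num) fun β _ => by positivity
  -- the two sums
  have e3 : ∑ q ∈ Icc 1 R, (q * mp q) ≤ C2 * R := by
    refine le_trans (sum_le_sum fun q hq => ?_) hP1
    have hq1 : 1 ≤ q := (mem_Icc.1 hq).1
    have hphi : (0 : ℝ) < (Nat.totient q : ℝ) := by exact_mod_cast Nat.totient_pos.2 hq1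
    unfold mp
    split_ifs
    · rw [mul_one_div]
    · rw [mul_zero]
      positivity
  have hRX : (R : ℝ) ≤ X := by
    refine hR1.trans ?_
    rw [div_mul_eq_mul_div, div_le_iff₀ hY0]
    refine mul_le_mul_of_nonneg_left ?_ hX0.le
    exact (pow_le_pow_right₀ hL1 (by norm_num)).trans hY
  have hR0 : (0 : ℝ) < R := by exact_mod_cast hR
  have hlR : Real.log R ≤ L := Real.log_le_log hR0 hRX
  have e4 : ∑ q ∈ Icc 1 R, mp q ≤ C2 * (2 * L) := by
    refine hP2.trans (mul_le_mul_of_nonneg_left (by linarith) hC2.le)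
  have e5 : ∑ q ∈ Icc 1 R, (2 * (q * mp q) * L * J1 + 2 * mp q * J2) =
      2 * L * J1 * (∑ q ∈ Icc 1 R, (q * mp q)) + 2 * J2 * ∑ q ∈ Icc 1 R, mp q := by
    rw [sum_add_distrib, mul_sum, mul_sum]
    congr 1
    · exact sum_congr rfl fun q _ => by ring
    · exact sum_congr rfl fun q _ => by ring
  have e6 : 2 * L * J1 * (∑ q ∈ Icc 1 R, (q * mp q)) ≤
      2 * L * (4 * (1 + L)) * (C2 * (X / Y * L ^ 8)) := by
    refine mul_le_mul (mul_le_mul_of_nonneg_left hI' (by positivity))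
      (e3.trans (mul_le_mul_of_nonneg_left hR1 hC2.le)) ?_ (by positivity)
    exact sum_nonneg fun q _ => mul_nonneg (Nat.cast_nonneg q) (x3_mp_nonneg q)
  have e7 : 2 * J2 * ∑ q ∈ Icc 1 R, mp q ≤ 2 * (C1 * X / L ^ 2) * (C2 * (2 * L)) := by
    refine mul_le_mul (mul_le_mul_of_nonneg_left hJ' (by norm_num)) e4
      (sum_nonneg fun q _ => x3_mp_nonneg q) (by positivity)
  have e8 : Y * (2 * L * (4 * (1 + L)) * (C2 * (X / Y * L ^ 8))) ≤
      16 * C2 / L * (X * Y) := by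
    have h1 : Y * (2 * L * (4 * (1 + L)) * (C2 * (X / Y * L ^ 8))) =
        8 * C2 * X * (L ^ 9 * (1 + L)) := by
      field_simp
      ring
    rw [h1]
    have h2 : L ^ 9 * (1 + L) ≤ 2 * L ^ 10 := by
      have : L ^ 9 * (1 + L) ≤ L ^ 9 * (2 * L) :=
        mul_le_mul_of_nonneg_left (by linarith) (by positivity)
      calc L ^ 9 * (1 + L) ≤ L ^ 9 * (2 * L) := this
        _ = 2 * L ^ 10 := by ring
    have h3 : L ^ 10 ≤ Y / L := by
      rw [le_div_iff₀ hL0]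
      calc L ^ 10 * L = L ^ 11 := by ring
        _ ≤ L ^ 24 := pow_le_pow_right₀ hL1 (by norm_num)
        _ ≤ Y := hY
    calc 8 * C2 * X * (L ^ 9 * (1 + L)) ≤ 8 * C2 * X * (2 * (Y / L)) := by
          refine mul_le_mul_of_nonneg_left ?_ (by positivity)
          linarith
      _ = 16 * C2 / L * (X * Y) := by ring
  have e9 : Y * (2 * (C1 * X / L ^ 2) * (C2 * (2 * L))) = 4 * C2 * C1 / L * (X * Y) := by
    field_simp
    ring
  have e10 : 16 * C2 / L * (X * Y) + 4 * C2 * C1 / L * (X * Y) ≤ η * X * Y := by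
    have h1 : 16 * C2 / L * (X * Y) + 4 * C2 * C1 / L * (X * Y) =
        (16 * C2 + 4 * C2 * C1) / L * (X * Y) := by ring
    have h2 : (16 * C2 + 4 * C2 * C1) / L ≤ η := by
      rw [div_le_iff₀ hη] at hLη
      rw [div_le_iff₀ hL0]
      linarith
    rw [h1, mul_assoc η]
    exact mul_le_mul_of_nonneg_right h2 (by positivity)
  calc Y * |∑ q ∈ Icc 1 R, ((∫ β in (-(wd X Y q))..(wd X Y q),
          CS (Sq Lam ⌊X⌋₊) q β * kk (q * Y * |β|)) -
        (∫ β in (-(wd X Y q))..(wd X Y q), kk (q * Y * |β|) * EQ X q β) -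
        mp q * ∫ β in (-(wd X Y q))..(wd X Y q), kk (q * Y * |β|) * ‖Ic X β‖ ^ 2)|
      ≤ Y * (2 * L * (4 * (1 + L)) * (C2 * (X / Y * L ^ 8)) +
          2 * (C1 * X / L ^ 2) * (C2 * (2 * L))) := by
        refine mul_le_mul_of_nonneg_left (e2.trans ?_) hY0.le
        rw [e5]
        exact add_le_add e6 e7
    _ ≤ 16 * C2 / L * (X * Y) + 4 * C2 * C1 / L * (X * Y) := by
        rw [mul_add, e9]
        exact add_le_add e8 (le_refl _)
    _ ≤ η * X * Y := e10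

alias xsum := xsum_pr

end Pool.Agent.MF
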