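import Pool.Agent.Lib_helper59.MF.Defs
import Pool.Agent.Lib_helper92.HCF.CHZ
/-! MF block C1: Gauss sums of imprimitive characters (MP_5dd4bb_nt). -/

set_option autoImplicit false

namespace Pool.Agent.MF

open Finset Complex Filter Topology MeasureTheory Pool.Agent.Var35 Pool.Agent.Var73 Pool.Agent.HC
open scoped ArithmeticFunction ArithmeticFunction.Moebius

/-- the Gauss sums of an imprimitive character -/
theorem tau_zero_pr (Q : ℕ) (hQ : 1 ≤ Q) (χ : DirichletCharacter ℂ Q) (l : ℕ)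
    (h : ¬ χ.conductor ∣ den l Q) : tau χ l = 0 := by
  unfold tau
  have h1 := HC.char_zero_pr Q hQ χ (l : ℤ) h
  simpa using h1

theorem c1_cop {d m : ℕ} [NeZero (d * m)] (hc : Nat.Coprime d m) (ψ : DirichletCharacter ℂ d)
    (hψ : ψ.IsPrimitive) :
    ‖gaussSum (DirichletCharacter.changeLevel (Nat.dvd_mul_right d m) ψ)
      (ZMod.stdAddChar (N := d * m))‖ ^ 2 ≤ d := by
  have hd0 : NeZero d := ⟨fun h => NeZero.ne (d * m) (by rw [h, zero_mul])⟩
  have hm0 : NeZero m := ⟨fun h => NeZero.ne (d * m) (by rw [h, mul_zero])⟩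
  obtain ⟨u, v, huv⟩ : ∃ u v : ℤ, (d:ℤ) * u + m * v = 1 := by
    have h1 : IsCoprime (d:ℤ) (m:ℤ) := Nat.isCoprime_iff_coprime.mpr hc
    obtain ⟨u, v, h2⟩ := h1
    exact ⟨u, v, by linarith⟩
  rw [gauss_crt d m hc u v huv ψ, sum_unit_std m u ⟨d, v, by linarith⟩, gauss_shift_eq ψ hψ,
    norm_mul, norm_mul, mul_pow, mul_pow, gauss_norm_prim ψ hψ]
  have h2 : ‖((μ m : ℤ) : ℂ)‖ ≤ 1 := by
    rw [Complex.norm_intCast]
    exact_mod_cast ArithmeticFunction.abs_moebius_le_one (n := m)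
  have h3 : ‖ψ⁻¹ (v : ZMod d)‖ ≤ 1 := DirichletCharacter.norm_le_one _ _
  have h4 : ‖((μ m : ℤ) : ℂ)‖ ^ 2 ≤ 1 := pow_le_one₀ (norm_nonneg _) h2
  have h5 : ‖ψ⁻¹ (v : ZMod d)‖ ^ 2 ≤ 1 := pow_le_one₀ (norm_nonneg _) h3
  have hd1 : (0:ℝ) ≤ d := Nat.cast_nonneg d
  calc ‖ψ⁻¹ (v : ZMod d)‖ ^ 2 * d * ‖((μ m : ℤ) : ℂ)‖ ^ 2 ≤ 1 * d * 1 := by
        refine mul_le_mul (mul_le_mul_of_nonneg_right h5 hd1) h4 (by positivity) (by positivity)
    _ = d := by ring

theorem c1_shift {r d p : ℕ} [NeZero d] (hrd : r ∣ d) (hp : p.Prime) (h1 : r * p ∣ d)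
    (h2 : p * p ∣ d) (ψ : DirichletCharacter ℂ r) :
    gaussSum (DirichletCharacter.changeLevel hrd ψ) (ZMod.stdAddChar (N := d)) = 0 := by
  obtain ⟨s, hs⟩ : p ∣ d := (dvd_mul_right p p).trans h2
  have hd0 : 0 < d := Nat.pos_of_ne_zero (NeZero.ne d)
  have hs0 : 0 < s := by
    rcases Nat.eq_zero_or_pos s with h | h
    · rw [h, mul_zero] at hs; omega
    · exact h
  have hps : p ∣ s := by
    rw [hs] at h2
    exact Nat.dvd_of_mul_dvd_mul_left hp.pos h2
  have hrs : r ∣ s := by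
    rw [hs, mul_comm r p] at h1
    exact Nat.dvd_of_mul_dvd_mul_left hp.pos h1
  have hss : d ∣ s * s := by
    obtain ⟨t, ht⟩ := hps
    refine ⟨t, ?_⟩
    conv_lhs => rw [ht]
    rw [hs]; ring_nf
    rw [ht]; ring
  set S : ZMod d := (s : ZMod d) with hS
  have hSS : S * S = 0 := by
    rw [hS, ← Nat.cast_mul, ZMod.natCast_eq_zero_iff]
    exact hss
  have hSne : S ≠ 0 := by
    rw [hS, Ne, ZMod.natCast_eq_zero_iff]
    intro h
    have h3 := Nat.le_of_dvd hs0 h
    rw [hs] at h3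
    have := hp.two_le
    nlinarith
  have hcast : ((S : ZMod d).cast : ZMod r) = 0 := by
    rw [hS, ZMod.cast_natCast hrd, ZMod.natCast_eq_zero_iff]
    exact hrs
  have hun : ∀ a : ZMod d, IsUnit a → IsUnit (a + S) := by
    intro a ha
    have h4 : (a + S) * (a - S) = a * a := by
      have : (a + S) * (a - S) = a * a - S * S := by ring
      rw [this, hSS, sub_zero]
    exact isUnit_of_mul_isUnit_left (h4 ▸ ha.mul ha)
  have hun2 : ∀ a : ZMod d, IsUnit (a + S) → IsUnit a := by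
    intro a ha
    have h4 : (a + S - S) * (a + S + S) = (a + S) * (a + S) := by
      have : (a + S - S) * (a + S + S) = (a + S) * (a + S) - S * S := by ring
      rw [this, hSS, sub_zero]
    have h5 : IsUnit (a + S - S) := isUnit_of_mul_isUnit_left (h4 ▸ ha.mul ha)
    rwa [add_sub_cancel_right] at h5
  have hinv : ∀ a : ZMod d, DirichletCharacter.changeLevel hrd ψ (a + S) =
      DirichletCharacter.changeLevel hrd ψ a := by
    intro a
    by_cases ha : IsUnit a
    · obtain ⟨u, rfl⟩ := ha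
      obtain ⟨v, hv⟩ := hun _ u.isUnit
      rw [← hv, DirichletCharacter.changeLevel_eq_cast_of_dvd,
        DirichletCharacter.changeLevel_eq_cast_of_dvd, hv, ZMod.cast_add hrd, hcast, add_zero]
    · rw [MulChar.map_nonunit _ ha, MulChar.map_nonunit _ (fun h => ha (hun2 a h))]
  have hG : gaussSum (DirichletCharacter.changeLevel hrd ψ) (ZMod.stdAddChar (N := d)) =
      ZMod.stdAddChar (N := d) S *
        gaussSum (DirichletCharacter.changeLevel hrd ψ) (ZMod.stdAddChar (N := d)) := by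
    unfold gaussSum
    conv_lhs => rw [← Equiv.sum_comp (Equiv.addRight S)]
    rw [Finset.mul_sum]
    refine Finset.sum_congr rfl fun a _ => ?_
    rw [Equiv.coe_addRight, hinv, AddChar.map_add_eq_mul]
    ring
  have hne : ZMod.stdAddChar (N := d) S ≠ 1 := by
    intro h
    apply hSne
    apply ZMod.injective_stdAddChar (N := d)
    rw [h, AddChar.map_zero_eq_one]
  have h6 : (1 - ZMod.stdAddChar (N := d) S) *
      gaussSum (DirichletCharacter.changeLevel hrd ψ) (ZMod.stdAddChar (N := d)) = 0 := by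
    linear_combination hG
  rcases mul_eq_zero.mp h6 with h7 | h7
  · exact absurd (sub_eq_zero.mp h7).symm hne
  · exact h7

theorem c1_level {r d : ℕ} [NeZero d] (hrd : r ∣ d) (ψ : DirichletCharacter ℂ r)
    (hψ : ψ.IsPrimitive) :
    ‖gaussSum (DirichletCharacter.changeLevel hrd ψ) (ZMod.stdAddChar (N := d))‖ ^ 2 ≤ r := by
  obtain ⟨m, rfl⟩ := hrd
  by_cases hc : Nat.Coprime r m
  · exact c1_cop hc ψ hψ
  · obtain ⟨p, hp, hpr, hpm⟩ := Nat.Prime.not_coprime_iff_dvd.1 hc
    rw [c1_shift _ hp (mul_dvd_mul_left r hpm) (mul_dvd_mul hpr hpm) ψ]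
    simp

/-- sums over the units -/
theorem c1_units {Q : ℕ} [NeZero Q] (F : ZMod Q → ℂ) (hF : ∀ b, ¬ IsUnit b → F b = 0) :
    ∑ b : ZMod Q, F b = ∑ u : (ZMod Q)ˣ, F u := by
  classical
  have h1 : ∑ u : (ZMod Q)ˣ, F u =
      ∑ b ∈ (univ : Finset (ZMod Q)ˣ).map ⟨Units.val, Units.val_injective⟩, F b := by
    rw [Finset.sum_map]
    rfl
  rw [h1]
  symm
  refine Finset.sum_subset (Finset.subset_univ _) fun b _ hb => hF b fun hu => hb ?_
  obtain ⟨u, rfl⟩ := hu
  exact Finset.mem_map.2 ⟨u, Finset.mem_univ _, rfl⟩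

theorem c1_red {Q d : ℕ} [NeZero Q] [NeZero d] (hdQ : d ∣ Q) (ψ : DirichletCharacter ℂ d)
    (c l : ℕ) (hl : l * d = c * Q) :
    tau (DirichletCharacter.changeLevel hdQ ψ) l =
      ((Nat.totient Q : ℝ) / Nat.totient d : ℝ) *
        ∑ a : ZMod d, ψ a * ZMod.stdAddChar (N := d) ((c : ZMod d) * a) := by
  classical
  have hQ0 : (Q : ℝ) ≠ 0 := by exact_mod_cast NeZero.ne Q
  have hd0 : (d : ℝ) ≠ 0 := by exact_mod_cast NeZero.ne d
  have hlR : (l : ℝ) / Q = (c : ℝ) / d := by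
    rw [div_eq_div_iff hQ0 hd0]
    exact_mod_cast hl
  set f : ZMod d → ℂ := fun a => ψ a * ZMod.stdAddChar (N := d) ((c : ZMod d) * a) with hf
  set F : ZMod Q → ℂ := fun b =>
    DirichletCharacter.changeLevel hdQ ψ b * ZMod.stdAddChar (N := Q) (b * (l : ZMod Q)) with hF
  have h1 : tau (DirichletCharacter.changeLevel hdQ ψ) l = ∑ b : ZMod Q, F b := by
    rw [← HC.CHZ_sum_range Q F]
    unfold tau
    refine Finset.sum_congr rfl fun b _ => ?_
    simp only [hF]
    congr 1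
    have h5 := std_eq_nat Q (b * l)
    push_cast at h5
    rw [h5]
    congr 1
    ring
  have h2 : ∀ u : (ZMod Q)ˣ, F u = f ((ZMod.unitsMap hdQ u : (ZMod d)ˣ) : ZMod d) := by
    intro u
    simp only [hF, hf]
    rw [DirichletCharacter.changeLevel_eq_cast_of_dvd, ZMod.unitsMap_val]
    congr 1
    have h3 : (u : ZMod Q) = ((u : ZMod Q).val : ZMod Q) := (ZMod.natCast_zmod_val _).symm
    have h4 : ((u : ZMod Q).cast : ZMod d) = ((u : ZMod Q).val : ZMod d) :=
      (ZMod.natCast_val _).symm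
    rw [h4]
    conv_lhs => rw [h3]
    have h5 := std_eq_nat Q ((u : ZMod Q).val * l)
    have h6 := std_eq_nat d (c * (u : ZMod Q).val)
    push_cast at h5 h6
    rw [h5, h6]
    congr 1
    rw [mul_div_assoc, hlR]
    ring
  have hsurj : Function.Surjective (ZMod.unitsMap hdQ) := ZMod.unitsMap_surjective hdQ
  have hN : ∀ v : (ZMod d)ˣ, (univ.filter fun u : (ZMod Q)ˣ => ZMod.unitsMap hdQ u = v).card =
      (univ.filter fun u : (ZMod Q)ˣ => ZMod.unitsMap hdQ u = 1).card := fun v =>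
    MonoidHom.card_fiber_eq_of_mem_range (ZMod.unitsMap hdQ) (hsurj v) (hsurj 1)
  set N : ℕ := (univ.filter fun u : (ZMod Q)ˣ => ZMod.unitsMap hdQ u = 1).card with hNdef
  have hcard : Nat.totient Q = Nat.totient d * N := by
    have h3 := Finset.card_eq_sum_card_fiberwise (f := ZMod.unitsMap hdQ)
      (s := (univ : Finset (ZMod Q)ˣ)) (t := (univ : Finset (ZMod d)ˣ)) (fun _ _ => by simp)
    simp_rw [hN] at h3
    rw [Finset.sum_const, smul_eq_mul, Finset.card_univ, Finset.card_univ,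
      ZMod.card_units_eq_totient, ZMod.card_units_eq_totient] at h3
    exact h3
  have hphi : (Nat.totient d : ℝ) ≠ 0 := by
    have := Nat.totient_pos.mpr (Nat.pos_of_ne_zero (NeZero.ne d))
    exact_mod_cast this.ne'
  have hNR : ((Nat.totient Q : ℝ) / Nat.totient d : ℝ) = N := by
    rw [hcard]; push_cast; field_simp
  have h3 : ∑ u : (ZMod Q)ˣ, f ((ZMod.unitsMap hdQ u : (ZMod d)ˣ) : ZMod d) =
      N * ∑ v : (ZMod d)ˣ, f v := by
    rw [← Finset.sum_fiberwise univ (fun u : (ZMod Q)ˣ => ZMod.unitsMap hdQ u), Finset.mul_sum]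
    refine Finset.sum_congr rfl fun v _ => ?_
    rw [Finset.sum_congr rfl (g := fun _ => f v) (fun u hu => by
      rw [(Finset.mem_filter.1 hu).2]), Finset.sum_const, hN v, nsmul_eq_mul]
  rw [h1, c1_units F ?_, Finset.sum_congr rfl (fun u _ => h2 u), h3, hNR, ← c1_units f ?_]
  · push_cast
    rfl
  · intro b hb
    simp only [hf]
    rw [MulChar.map_nonunit _ hb, zero_mul]
  · intro b hb
    simp only [hF]
    rw [MulChar.map_nonunit _ hb, zero_mul]

theorem tau_sq_pr (Q : ℕ) (hQ : 1 ≤ Q) (χ : DirichletCharacter ℂ Q) (l : ℕ) :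
    ‖tau χ l‖ ^ 2 ≤ ((Nat.totient Q : ℝ) / Nat.totient (den l Q)) ^ 2 * χ.conductor := by
  by_cases h : χ.conductor ∣ den l Q
  · have hQ0 : NeZero Q := ⟨by omega⟩
    have hden : den l Q = Q / Nat.gcd l Q := rfl
    have hgQ : Nat.gcd l Q ∣ Q := Nat.gcd_dvd_right l Q
    have hg0 : 0 < Nat.gcd l Q := Nat.gcd_pos_of_pos_right _ (by omega)
    have hdQ : den l Q ∣ Q := by
      rw [hden]; exact Nat.div_dvd_of_dvd hgQ
    have hd0 : NeZero (den l Q) := ⟨fun h0 => by
      rw [h0] at hdQ; exact NeZero.ne Q (Nat.eq_zero_of_zero_dvd hdQ)⟩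
    set c : ℕ := l / Nat.gcd l Q with hc
    have hcop : Nat.Coprime c (den l Q) := by
      rw [hden, hc]; exact Nat.coprime_div_gcd_div_gcd hg0
    have hlc : l * den l Q = c * Q := by
      have h1 : l = c * Nat.gcd l Q := (Nat.div_mul_cancel (Nat.gcd_dvd_left l Q)).symm
      have h2 : Q = den l Q * Nat.gcd l Q := (Nat.div_mul_cancel hgQ).symm
      calc l * den l Q = (c * Nat.gcd l Q) * den l Q := by rw [← h1]
        _ = c * (den l Q * Nat.gcd l Q) := by ring
        _ = c * Q := by rw [← h2]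
    set ψ : DirichletCharacter ℂ (den l Q) :=
      DirichletCharacter.changeLevel h χ.primitiveCharacter with hψ
    have hχ : χ = DirichletCharacter.changeLevel hdQ ψ := by
      rw [hψ, ← DirichletCharacter.changeLevel_trans]
      exact (DirichletCharacter.changeLevel_primitiveCharacter χ).symm
    have hG : ‖∑ a : ZMod (den l Q), ψ a *
        ZMod.stdAddChar (N := den l Q) ((c : ZMod (den l Q)) * a)‖ ^ 2 ≤ χ.conductor := by
      have h1 := gaussSum_mulShift ψ (ZMod.stdAddChar (N := den l Q))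
        (ZMod.unitOfCoprime c hcop)
      have h2 : ‖ψ (ZMod.unitOfCoprime c hcop : (ZMod (den l Q))ˣ)‖ = 1 := ψ.unit_norm_eq_one _
      have h3 : ∑ a : ZMod (den l Q), ψ a *
          ZMod.stdAddChar (N := den l Q) ((c : ZMod (den l Q)) * a) =
          gaussSum ψ ((ZMod.stdAddChar (N := den l Q)).mulShift
            ((ZMod.unitOfCoprime c hcop : (ZMod (den l Q))ˣ) : ZMod (den l Q))) := by
        unfold gaussSum
        refine Finset.sum_congr rfl fun a _ => ?_
        rw [AddChar.mulShift_apply, ZMod.coe_unitOfCoprime]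
      have h4 : ‖gaussSum ψ ((ZMod.stdAddChar (N := den l Q)).mulShift
            ((ZMod.unitOfCoprime c hcop : (ZMod (den l Q))ˣ) : ZMod (den l Q)))‖ =
          ‖gaussSum ψ (ZMod.stdAddChar (N := den l Q))‖ := by
        rw [← h1, norm_mul, h2, one_mul]
      rw [h3, h4]
      exact c1_level h χ.primitiveCharacter
        (DirichletCharacter.primitiveCharacter_isPrimitive χ)
    have h5 := c1_red hdQ ψ c l hlc
    rw [← hχ] at h5
    rw [h5, norm_mul, mul_pow, Complex.norm_real, Real.norm_of_nonneg (by positivity)]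
    exact mul_le_mul_of_nonneg_left hG (by positivity)
  · rw [tau_zero_pr Q hQ χ l h, norm_zero, zero_pow two_ne_zero]
    positivity

alias tau_zero := tau_zero_pr

alias tau_sq := tau_sq_pr

end Pool.Agent.MF
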