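import Pool.Agent.Lib_helper59.MF.Defs
import Pool.Agent.Lib_helper73.Var.Char
import Pool.Agent.Lib_helper92.HCF.CHZ
import Pool.Agent.Lib_helper92.HCF.CHL
set_option autoImplicit false

namespace Pool.Agent.MF

open Finset Complex Filter Topology MeasureTheory Pool.Agent.Var35 Pool.Agent.Var73 Pool.Agent.HC
open scoped ArithmeticFunction ArithmeticFunction.Moebius

section
variable {Q : ℕ} [NeZero Q]

/-- the Gauss sum on `ZMod Q` -/
noncomputable def c2a_T (χ : DirichletCharacter ℂ Q) (x : ZMod Q) : ℂ :=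
  ∑ a : ZMod Q, χ a * ZMod.stdAddChar (N := Q) (a * x)

lemma c2a_e (n l : ℕ) : e ((n : ℝ) * ((l : ℝ) / Q)) =
    ZMod.stdAddChar (N := Q) ((n : ZMod Q) * (l : ZMod Q)) := by
  have h := std_eq_nat Q (n * l)
  push_cast at h
  rw [h]
  congr 1; ring

lemma c2a_tau (χ : DirichletCharacter ℂ Q) (l : ℕ) : tau χ l = c2a_T χ (l : ZMod Q) := by
  unfold tau c2a_T
  rw [← CHZ_sum_range Q (fun a : ZMod Q => χ a * ZMod.stdAddChar (N := Q) (a * (l : ZMod Q)))]
  exact Finset.sum_congr rfl (fun b _ => by rw [c2a_e])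

lemma c2a_unit (χ : DirichletCharacter ℂ Q) (u : (ZMod Q)ˣ) (x : ZMod Q) :
    c2a_T χ x = χ (u : ZMod Q) * c2a_T χ ((u : ZMod Q) * x) := by
  unfold c2a_T
  conv_lhs => rw [← Equiv.sum_comp (Units.mulLeft u)]
  rw [Finset.mul_sum]
  refine Finset.sum_congr rfl (fun a _ => ?_)
  rw [Units.mulLeft_apply, map_mul, mul_assoc]
  congr 2
  have : (u : ZMod Q) * a * x = a * ((u : ZMod Q) * x) := by ring
  rw [this]

lemma c2a_expand (m x : ZMod Q) (hm : IsUnit m) :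
    ∑ χ : DirichletCharacter ℂ Q, (starRingEnd ℂ) (χ m) * c2a_T χ x =
      (Nat.totient Q : ℂ) * ZMod.stdAddChar (N := Q) (m * x) := by
  have h2 : ∀ χ : DirichletCharacter ℂ Q, (starRingEnd ℂ) (χ m) * c2a_T χ x =
      ∑ a : ZMod Q, ZMod.stdAddChar (N := Q) (a * x) * (χ m⁻¹ * χ a) := by
    intro χ
    unfold c2a_T
    rw [conj_char χ hm, mul_sum]
    refine sum_congr rfl fun a _ => by ring
  rw [sum_congr rfl fun χ _ => h2 χ, sum_comm]
  have h3 : ∀ a : ZMod Q, ∑ χ : DirichletCharacter ℂ Q,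
        ZMod.stdAddChar (N := Q) (a * x) * (χ m⁻¹ * χ a)
      = if m = a then ZMod.stdAddChar (N := Q) (m * x) * (Nat.totient Q : ℂ) else 0 := by
    intro a
    rw [← mul_sum, DirichletCharacter.sum_char_inv_mul_char_eq ℂ hm a]
    by_cases h : m = a
    · rw [if_pos h, if_pos h, h]
    · rw [if_neg h, if_neg h, mul_zero]
  rw [sum_congr rfl fun a _ => h3 a, Finset.sum_ite_eq univ m, if_pos (mem_univ _)]
  ring

lemma c2a_F (N : ℕ) (x : ZMod Q) :
    (Nat.totient Q : ℂ) * ∑ n ∈ (Icc 1 N).filter (fun n => Nat.Coprime n Q),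
      (Lam n : ℂ) * ZMod.stdAddChar (N := Q) ((n : ZMod Q) * x) =
    ∑ χ : DirichletCharacter ℂ Q, (starRingEnd ℂ) (cc N χ) * c2a_T χ x := by
  have h1 : ∀ χ : DirichletCharacter ℂ Q, (starRingEnd ℂ) (cc N χ) * c2a_T χ x =
      ∑ n ∈ (Icc 1 N).filter (fun n => Nat.Coprime n Q),
        (Lam n : ℂ) * ((starRingEnd ℂ) (χ (n : ZMod Q)) * c2a_T χ x) := by
    intro χ
    unfold cc
    rw [map_sum, sum_mul, sum_filter]
    refine sum_congr rfl fun n _ => ?_
    split_ifs with h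
    · rw [map_mul, Complex.conj_ofReal]; ring
    · have h0 : χ (n : ZMod Q) = 0 := by
        apply MulChar.map_nonunit
        rw [ZMod.isUnit_iff_coprime]; exact h
      rw [h0]; simp
  rw [sum_congr rfl fun χ _ => h1 χ, sum_comm, mul_sum]
  refine sum_congr rfl fun n hn => ?_
  rw [← mul_sum, c2a_expand (n : ZMod Q) x ((ZMod.isUnit_iff_coprime n Q).mpr (mem_filter.mp hn).2)]
  ring

lemma c2a_den (l : ℕ) : den (l : ℤ) Q = addOrderOf ((l : ℕ) : ZMod Q) := by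
  rw [ZMod.addOrderOf_coe l (NeZero.ne Q)]
  unfold den
  rw [Int.gcd_natCast_natCast, Nat.gcd_comm]

lemma c2a_sum {M : Type*} [AddCommMonoid M] (R : ℕ) (f : ZMod Q → M) :
    ∑ l ∈ (range Q).filter (fun l : ℕ => R < den l Q), f (l : ZMod Q) =
      ∑ x ∈ univ.filter (fun x : ZMod Q => R < addOrderOf x), f x := by
  rw [sum_filter, sum_filter, CHL_sum (fun x : ZMod Q => if R < addOrderOf x then f x else 0)]
  refine sum_congr rfl fun l _ => ?_
  rw [c2a_den]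

omit [NeZero Q] in
lemma c2a_order (u : (ZMod Q)ˣ) (x : ZMod Q) : addOrderOf ((u : ZMod Q) * x) = addOrderOf x := by
  have h : Function.Injective (AddMonoidHom.mulLeft (u : ZMod Q)) := by
    intro a b hab
    simp only [AddMonoidHom.coe_mulLeft] at hab
    exact u.isUnit.mul_left_cancel hab
  exact addOrderOf_injective (AddMonoidHom.mulLeft (u : ZMod Q)) h x

lemma c2a_orth (R : ℕ) (χ χ' : DirichletCharacter ℂ Q) (h : χ ≠ χ') :
    ∑ x ∈ univ.filter (fun x : ZMod Q => R < addOrderOf x),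
      c2a_T χ x * (starRingEnd ℂ) (c2a_T χ' x) = 0 := by
  by_contra hT
  apply h
  ext u
  set g : ZMod Q → ℂ := fun x => c2a_T χ x * (starRingEnd ℂ) (c2a_T χ' x) with hg
  have h1 : ∀ x, g x = χ (u : ZMod Q) * (starRingEnd ℂ) (χ' (u : ZMod Q)) *
      g ((u : ZMod Q) * x) := by
    intro x
    simp only [hg]
    rw [c2a_unit χ u x, c2a_unit χ' u x, map_mul]
    ring
  have h2 : ∑ x ∈ univ.filter (fun x : ZMod Q => R < addOrderOf x), g ((u : ZMod Q) * x) =
      ∑ x ∈ univ.filter (fun x : ZMod Q => R < addOrderOf x), g x := by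
    rw [sum_filter, sum_filter]
    rw [← Equiv.sum_comp (Units.mulLeft u) (fun x => if R < addOrderOf x then g x else 0)]
    refine sum_congr rfl fun x _ => ?_
    rw [Units.mulLeft_apply, c2a_order]
  have h3 : ∑ x ∈ univ.filter (fun x : ZMod Q => R < addOrderOf x), g x =
      χ (u : ZMod Q) * (starRingEnd ℂ) (χ' (u : ZMod Q)) *
        ∑ x ∈ univ.filter (fun x : ZMod Q => R < addOrderOf x), g x := by
    conv_lhs => rw [sum_congr rfl fun x _ => h1 x]
    rw [← mul_sum, h2]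
  have h4 : χ (u : ZMod Q) * (starRingEnd ℂ) (χ' (u : ZMod Q)) = 1 := by
    have := mul_right_cancel₀ hT ((one_mul _).trans h3)
    exact this.symm
  have h5 : χ' (u : ZMod Q) * (starRingEnd ℂ) (χ' (u : ZMod Q)) = 1 := by
    rw [Complex.mul_conj, Complex.normSq_eq_norm_sq, χ'.unit_norm_eq_one u]; norm_num
  have h6 : (starRingEnd ℂ) (χ' (u : ZMod Q)) ≠ 0 := by
    intro h0; rw [h0, mul_zero] at h5; exact zero_ne_one h5
  exact mul_right_cancel₀ h6 (h4.trans h5.symm)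

end

/-- expansion in characters: the characters stay orthogonal on the frequencies of denominator
greater than `R` -/
theorem orth_den_pr (Q : ℕ) (hQ : 1 ≤ Q) (N R : ℕ) :
    (1 / (Q : ℝ)) * ∑ l ∈ (range Q).filter (fun l : ℕ => R < den l Q),
      ‖∑ n ∈ (Icc 1 N).filter (fun n => Nat.Coprime n Q), (Lam n : ℂ) * e (n * ((l : ℝ) / Q))‖ ^ 2 =
    (1 / (Q * (Nat.totient Q : ℝ) ^ 2)) * ∑ χ : DirichletCharacter ℂ Q, ‖cc N χ‖ ^ 2 *
      ∑ l ∈ (range Q).filter (fun l : ℕ => R < den l Q), ‖tau χ l‖ ^ 2 := by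
  have : NeZero Q := ⟨by omega⟩
  have hφ : (0 : ℝ) < (Nat.totient Q : ℝ) := by exact_mod_cast Nat.totient_pos.mpr (by omega)
  have hQ0 : (0 : ℝ) < Q := by exact_mod_cast hQ
  -- transfer to `ZMod Q`
  have e1 : ∑ l ∈ (range Q).filter (fun l : ℕ => R < den l Q),
      ‖∑ n ∈ (Icc 1 N).filter (fun n => Nat.Coprime n Q), (Lam n : ℂ) * e (n * ((l : ℝ) / Q))‖ ^ 2 =
      ∑ x ∈ univ.filter (fun x : ZMod Q => R < addOrderOf x),
        ‖∑ n ∈ (Icc 1 N).filter (fun n => Nat.Coprime n Q),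
          (Lam n : ℂ) * ZMod.stdAddChar (N := Q) ((n : ZMod Q) * x)‖ ^ 2 := by
    rw [← c2a_sum R (fun x : ZMod Q => ‖∑ n ∈ (Icc 1 N).filter (fun n => Nat.Coprime n Q),
          (Lam n : ℂ) * ZMod.stdAddChar (N := Q) ((n : ZMod Q) * x)‖ ^ 2)]
    refine sum_congr rfl fun l _ => ?_
    simp only [c2a_e]
  have e2 : ∀ χ : DirichletCharacter ℂ Q,
      ∑ l ∈ (range Q).filter (fun l : ℕ => R < den l Q), ‖tau χ l‖ ^ 2 =
      ∑ x ∈ univ.filter (fun x : ZMod Q => R < addOrderOf x), ‖c2a_T χ x‖ ^ 2 := by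
    intro χ
    rw [← c2a_sum R (fun x : ZMod Q => ‖c2a_T χ x‖ ^ 2)]
    refine sum_congr rfl fun l _ => ?_
    rw [c2a_tau]
  rw [e1]
  simp only [e2]
  set DZ := univ.filter (fun x : ZMod Q => R < addOrderOf x) with hDZ
  set F : ZMod Q → ℂ := fun x => ∑ n ∈ (Icc 1 N).filter (fun n => Nat.Coprime n Q),
          (Lam n : ℂ) * ZMod.stdAddChar (N := Q) ((n : ZMod Q) * x) with hF
  have key : (Nat.totient Q : ℝ) ^ 2 * ∑ x ∈ DZ, ‖F x‖ ^ 2 =
      ∑ χ : DirichletCharacter ℂ Q, ‖cc N χ‖ ^ 2 * ∑ x ∈ DZ, ‖c2a_T χ x‖ ^ 2 := by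
    have hc : (((Nat.totient Q : ℝ) ^ 2 * ∑ x ∈ DZ, ‖F x‖ ^ 2 : ℝ) : ℂ) =
        ((∑ χ : DirichletCharacter ℂ Q, ‖cc N χ‖ ^ 2 * ∑ x ∈ DZ, ‖c2a_T χ x‖ ^ 2 : ℝ) : ℂ) := by
      have hsq : ∀ z : ℂ, ((‖z‖ : ℂ)) ^ 2 = z * (starRingEnd ℂ) z := by
        intro z
        rw [Complex.mul_conj, Complex.normSq_eq_norm_sq]; push_cast; rfl
      push_cast
      rw [mul_sum]
      have h1 : ∀ x, ((Nat.totient Q : ℂ)) ^ 2 * ((‖F x‖ : ℂ)) ^ 2 =
          ∑ χ : DirichletCharacter ℂ Q, ∑ χ' : DirichletCharacter ℂ Q,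
            (starRingEnd ℂ) (cc N χ) * cc N χ' * (c2a_T χ x * (starRingEnd ℂ) (c2a_T χ' x)) := by
        intro x
        have hFx := c2a_F (Q := Q) N x
        have : ((Nat.totient Q : ℂ)) ^ 2 * ((‖F x‖ : ℂ)) ^ 2 =
            ((Nat.totient Q : ℂ) * F x) * (starRingEnd ℂ) ((Nat.totient Q : ℂ) * F x) := by
          rw [hsq, map_mul, Complex.conj_natCast]; ring
        rw [this]
        simp only [hF]
        rw [hFx, map_sum, sum_mul_sum]
        refine sum_congr rfl fun χ _ => sum_congr rfl fun χ' _ => ?_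
        rw [map_mul, Complex.conj_conj]; ring
      rw [sum_congr rfl fun x _ => h1 x, sum_comm]
      refine sum_congr rfl fun χ _ => ?_
      rw [sum_comm, sum_eq_single χ]
      · rw [hsq, mul_sum]
        refine sum_congr rfl fun x _ => ?_
        rw [hsq]; ring
      · intro χ' _ hne
        rw [← mul_sum, hDZ, c2a_orth R χ χ' hne.symm, mul_zero]
      · intro h; exact absurd (mem_univ _) h
    exact_mod_cast hc
  rw [← key]
  field_simp
  rfl

alias orth_den := orth_den_pr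

end Pool.Agent.MF
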