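import Pool.Agent.Lib_helper59.MF.Defs
import Pool.Agent.Lib_helper92.HCF.SML
set_option autoImplicit false

namespace Pool.Agent.MF

open Finset Complex Filter Topology MeasureTheory Pool.Agent.Var35 Pool.Agent.Var73 Pool.Agent.HC
open scoped ArithmeticFunction ArithmeticFunction.Moebius

theorem c2b_range {M : Type*} [AddCommMonoid M] (Q : ℕ) [NeZero Q] (f : ZMod Q → M) :
    ∑ b ∈ range Q, f (b : ZMod Q) = ∑ a : ZMod Q, f a := by
  refine Finset.sum_bij' (fun b _ => (b : ZMod Q)) (fun a _ => a.val) ?_ ?_ ?_ ?_ ?_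
  · intro b _; exact mem_univ _
  · intro a _; exact mem_range.2 (ZMod.val_lt a)
  · intro b hb; exact ZMod.val_cast_of_lt (mem_range.1 hb)
  · intro a _; exact ZMod.natCast_zmod_val a
  · intro b _; rfl

/-- the total of the squares of the Gauss sums -/
theorem tau_total_pr (Q : ℕ) (hQ : 1 ≤ Q) (χ : DirichletCharacter ℂ Q) :
    ∑ l ∈ range Q, ‖tau χ l‖ ^ 2 = Q * (Nat.totient Q : ℝ) := by
  have : NeZero Q := ⟨by omega⟩
  have h1 : ∀ l : ℕ, tau χ l =
      ∑ a : ZMod Q, χ a * ZMod.stdAddChar (N := Q) ((l : ZMod Q) * a) := by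
    intro l
    rw [tau, ← c2b_range Q (fun a : ZMod Q => χ a * ZMod.stdAddChar (N := Q) ((l : ZMod Q) * a))]
    refine sum_congr rfl fun b _ => ?_
    have h2 := std_eq_nat Q (l * b)
    push_cast at h2
    rw [h2]
    congr 2
    ring
  simp_rw [h1]
  rw [c2b_range Q (fun m : ZMod Q =>
    ‖∑ a : ZMod Q, χ a * ZMod.stdAddChar (N := Q) (m * a)‖ ^ 2),
    sum_norm_sq_shift (fun a => χ a), sum_norm_char]

/-- sums over the fractions `l / Q` of a function of the denominator -/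
theorem den_sum_pr (Q : ℕ) (hQ : 1 ≤ Q) (R : ℕ) (g : ℕ → ℝ) :
    ∑ l ∈ (range Q).filter (fun l : ℕ => R < den l Q), g (den l Q) =
      ∑ d ∈ Q.divisors.filter (fun d => R < d), (Nat.totient d : ℝ) * g d := by
  classical
  set f : ℝ → ℝ := fun x => if h : ∃ q : ℚ, (q : ℝ) = x then g h.choose.den else 0 with hf
  have hfq : ∀ q : ℚ, f (q : ℝ) = g q.den := by
    intro q
    have h : ∃ q' : ℚ, (q' : ℝ) = (q : ℝ) := ⟨q, rfl⟩
    rw [hf]
    simp only [dif_pos h]
    rw [Rat.cast_injective h.choose_spec]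
  have h1 := sml_reindex f R Q hQ
  have hden : ∀ l d : ℕ, 1 ≤ d → f ((l : ℝ) / d) = g (d / Nat.gcd l d) := by
    intro l d hd
    have h2 : ((l : ℝ) / d) = (((l : ℚ) / (d : ℚ) : ℚ) : ℝ) := by push_cast; rfl
    have h3 : ((l : ℚ) / (d : ℚ)) = Rat.divInt (l : ℤ) (d : ℤ) := by
      rw [Rat.divInt_eq_div]
      push_cast
      rfl
    rw [h2, hfq, h3, Rat.den_divInt, if_neg (by exact_mod_cast (by omega : d ≠ 0))]
    congr 1
    simp [Int.gcd_comm]
  have h4 : ∑ l ∈ (range Q).filter (fun l : ℕ => R < den l Q), f ((l : ℝ) / Q) =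
      ∑ l ∈ (range Q).filter (fun l : ℕ => R < den l Q), g (den l Q) := by
    refine sum_congr rfl fun l _ => ?_
    rw [hden l Q hQ, den, Int.gcd_natCast_natCast]
  rw [← h4, h1]
  refine sum_congr rfl fun r hr => ?_
  have hr0 : 0 < r := by
    rw [mem_filter, Nat.mem_divisors] at hr
    exact Nat.pos_of_dvd_of_pos hr.1.1 (by omega)
  rw [← card_Cd r, ← nsmul_eq_mul, ← sum_const]
  refine sum_congr rfl fun c hc => ?_
  rw [hden c r hr0]
  have hc2 : Nat.Coprime c r := by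
    rw [Cd, mem_filter] at hc
    exact hc.2
  rw [Nat.Coprime] at hc2
  rw [hc2, Nat.div_one]

alias tau_total := tau_total_pr

alias den_sum := den_sum_pr

end Pool.Agent.MF
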