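import Pool.Agent.Lib_helper59.MF.Defs
/-! MF, block C3a: the integers not prime to `Q` -/

set_option autoImplicit false

namespace Pool.Agent.MF

open Finset Complex Filter Topology MeasureTheory Pool.Agent.Var35 Pool.Agent.Var73 Pool.Agent.HC
open scoped ArithmeticFunction ArithmeticFunction.Moebius

theorem c3a_fib (N Q p : ℕ) (hp : p.Prime) (hN : 1 ≤ N) :
    ∑ n ∈ ((Icc 1 N).filter (fun n => ¬ Nat.Coprime n Q ∧ IsPrimePow n)).filter
      (fun n => n.minFac = p), Lam n ≤ Real.log N := by
  have h1 : ∀ n ∈ ((Icc 1 N).filter (fun n => ¬ Nat.Coprime n Q ∧ IsPrimePow n)).filter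
      (fun n => n.minFac = p), Lam n = Real.log p := by
    intro n hn
    rw [mem_filter, mem_filter] at hn
    show ArithmeticFunction.vonMangoldt n = _
    rw [ArithmeticFunction.vonMangoldt_apply, if_pos hn.1.2.2, hn.2]
  rw [sum_congr rfl h1, sum_const, nsmul_eq_mul]
  have h2 : (((Icc 1 N).filter (fun n => ¬ Nat.Coprime n Q ∧ IsPrimePow n)).filter
      (fun n => n.minFac = p)).card ≤ Nat.log p N := by
    calc _ ≤ ((Icc 1 (Nat.log p N)).image (fun k => p ^ k)).card := by
          apply card_le_card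
          intro n hn
          rw [mem_filter, mem_filter, mem_Icc] at hn
          have h3 : n.minFac ^ n.factorization n.minFac = n :=
            (isPrimePow_iff_minFac_pow_factorization_eq
              (by rintro rfl; exact not_isPrimePow_one hn.1.2.2)).1 hn.1.2.2
          rw [hn.2] at h3
          rw [mem_image]
          refine ⟨n.factorization p, ?_, h3⟩
          rw [mem_Icc]
          refine ⟨?_, ?_⟩
          · rcases Nat.eq_zero_or_pos (n.factorization p) with h0 | h0
            · rw [h0, pow_zero] at h3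
              exact absurd hn.1.2.2 (h3 ▸ not_isPrimePow_one)
            · exact h0
          · apply Nat.le_log_of_pow_le hp.one_lt
            rw [h3]
            exact hn.1.1.2
      _ ≤ (Icc 1 (Nat.log p N)).card := card_image_le
      _ = Nat.log p N := by simp
  have h3 : (Nat.log p N : ℝ) * Real.log p ≤ Real.log N := by
    rw [← Real.log_pow]
    apply Real.log_le_log (by have := hp.pos; positivity)
    exact_mod_cast Nat.pow_log_le_self p (by omega)
  have hlp : 0 ≤ Real.log p := Real.log_nonneg (by exact_mod_cast hp.one_lt.le)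
  exact (mul_le_mul_of_nonneg_right (by exact_mod_cast h2) hlp).trans h3

theorem c3a_omega (Q : ℕ) (hQ : 1 ≤ Q) : 2 ^ Q.primeFactors.card ≤ Q := by
  calc 2 ^ Q.primeFactors.card = ∏ _p ∈ Q.primeFactors, 2 := by rw [prod_const]
    _ ≤ ∏ p ∈ Q.primeFactors, p := prod_le_prod' fun p hp => (Nat.prime_of_mem_primeFactors hp).two_le
    _ ≤ Q := Nat.le_of_dvd (by omega) (Nat.prod_primeFactors_dvd Q)

theorem non_cop_pr (X : ℝ) (hX : 3 ≤ X) (Q : ℕ) (hQ : 1 ≤ Q) (hQX : (Q : ℝ) ≤ X) :
    ∑ n ∈ (Icc 1 ⌊X⌋₊).filter (fun n => ¬ Nat.Coprime n Q), Lam n ≤ 2 * Real.log X ^ 2 := by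
  classical
  have hX0 : 0 < X := by linarith
  have hN : 1 ≤ ⌊X⌋₊ := Nat.le_floor (by push_cast; linarith)
  have hlX : 1 ≤ Real.log X := by
    rw [Real.le_log_iff_exp_le hX0]
    have := Real.exp_one_lt_d9
    linarith
  have e1 : ∑ n ∈ (Icc 1 ⌊X⌋₊).filter (fun n => ¬ Nat.Coprime n Q), Lam n =
      ∑ n ∈ (Icc 1 ⌊X⌋₊).filter (fun n => ¬ Nat.Coprime n Q ∧ IsPrimePow n), Lam n := by
    rw [← filter_filter]
    refine (sum_filter_of_ne ?_).symm
    intro n _ hne
    by_contra h
    apply hne
    show ArithmeticFunction.vonMangoldt n = 0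
    rw [ArithmeticFunction.vonMangoldt_apply, if_neg h]
  rw [e1]
  have hmap : ∀ n ∈ (Icc 1 ⌊X⌋₊).filter (fun n => ¬ Nat.Coprime n Q ∧ IsPrimePow n),
      n.minFac ∈ Q.primeFactors := by
    intro n hn
    rw [mem_filter] at hn
    have hn1 : n ≠ 1 := by rintro rfl; exact not_isPrimePow_one hn.2.2
    have hp := Nat.minFac_prime hn1
    have h3 : n.minFac ^ n.factorization n.minFac = n :=
      (isPrimePow_iff_minFac_pow_factorization_eq hn1).1 hn.2.2
    rw [Nat.mem_primeFactors]
    refine ⟨hp, ?_, by omega⟩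
    by_contra h
    apply hn.2.1
    rw [← h3]
    exact Nat.Coprime.pow_left _ ((Nat.Prime.coprime_iff_not_dvd hp).2 h)
  rw [← sum_fiberwise_of_maps_to hmap]
  calc ∑ p ∈ Q.primeFactors, ∑ n ∈ ((Icc 1 ⌊X⌋₊).filter
        (fun n => ¬ Nat.Coprime n Q ∧ IsPrimePow n)).filter (fun n => n.minFac = p), Lam n
      ≤ ∑ p ∈ Q.primeFactors, Real.log ⌊X⌋₊ :=
        sum_le_sum fun p hp => c3a_fib _ _ _ (Nat.prime_of_mem_primeFactors hp) hN
    _ = Q.primeFactors.card * Real.log ⌊X⌋₊ := by rw [sum_const, nsmul_eq_mul]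
    _ ≤ (2 * Real.log X) * Real.log X := by
        have h1 : Real.log ⌊X⌋₊ ≤ Real.log X :=
          Real.log_le_log (by exact_mod_cast hN) (Nat.floor_le hX0.le)
        have h2 : (Q.primeFactors.card : ℝ) ≤ 2 * Real.log X := by
          have h3 : ((2 ^ Q.primeFactors.card : ℕ) : ℝ) ≤ X :=
            (by exact_mod_cast c3a_omega Q hQ : ((2 ^ Q.primeFactors.card : ℕ) : ℝ) ≤ Q).trans hQX
          have h4 : (Q.primeFactors.card : ℝ) * Real.log 2 ≤ Real.log X := by
            rw [← Real.log_pow]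
            apply Real.log_le_log (by positivity)
            exact_mod_cast h3
          have h5 := Real.log_two_gt_d9
          have h6 : (0 : ℝ) ≤ Q.primeFactors.card := by positivity
          nlinarith
        have h3 : (0 : ℝ) ≤ Real.log ⌊X⌋₊ := Real.log_nonneg (by exact_mod_cast hN)
        exact mul_le_mul h2 h1 h3 (by linarith)
    _ = 2 * Real.log X ^ 2 := by ring

alias non_cop := non_cop_pr

end Pool.Agent.MF
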