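import Pool.Agent.Lib_helper59.MF.Defs
import Pool.Agent.Lib_helper59.MFF.C1
import Pool.Agent.Lib_helper59.MFF.C2a
import Pool.Agent.Lib_helper59.MFF.C2b
import Pool.Agent.Lib_helper59.MFF.C3a
/-! MF, block C3b: one modulus -/

set_option autoImplicit false

namespace Pool.Agent.MF

open Finset Complex Filter Topology MeasureTheory Pool.Agent.Var35 Pool.Agent.Var73 Pool.Agent.HC
open scoped ArithmeticFunction ArithmeticFunction.Moebius

theorem c3b_sq (K x y : ℝ) (hK : 1 ≤ K) :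
    (x + y) ^ 2 ≤ (1 + 1 / K) * x ^ 2 + (1 + K) * y ^ 2 := by
  have hK0 : 0 < K := by linarith
  have h1 : 2 * (x * y) ≤ x ^ 2 / K + K * y ^ 2 := by
    have h2 : 0 ≤ (x - K * y) ^ 2 / K := by positivity
    have h3 : (x - K * y) ^ 2 / K = x ^ 2 / K - 2 * (x * y) + K * y ^ 2 := by
      field_simp
      ring
    rw [h3] at h2
    linarith
  have h4 : (1 + 1 / K) * x ^ 2 = x ^ 2 + x ^ 2 / K := by ring
  rw [h4]
  nlinarith

theorem c3b_e (θ : ℝ) : ‖e θ‖ = 1 := by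
  unfold Pool.Agent.Var35.e
  exact Complex.norm_exp_ofReal_mul_I _

theorem c3b_split (N Q : ℕ) (t K : ℝ) (hK : 1 ≤ K) :
    Sq Lam N t ≤ (1 + 1 / K) *
      ‖∑ n ∈ (Icc 1 N).filter (fun n => Nat.Coprime n Q), (Lam n : ℂ) * e (n * t)‖ ^ 2 +
      (1 + K) * (∑ n ∈ (Icc 1 N).filter (fun n => ¬ Nat.Coprime n Q), Lam n) ^ 2 := by
  have hK0 : 0 < K := by linarith
  unfold Sq Pool.Agent.HC.S
  rw [← sum_filter_add_sum_filter_not (Icc 1 N) (fun n => Nat.Coprime n Q)]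
  set A := ∑ n ∈ (Icc 1 N).filter (fun n => Nat.Coprime n Q), (Lam n : ℂ) * e (n * t) with hA
  set B := ∑ n ∈ (Icc 1 N).filter (fun n => ¬ Nat.Coprime n Q), (Lam n : ℂ) * e (n * t) with hB
  have hBn : ‖B‖ ≤ ∑ n ∈ (Icc 1 N).filter (fun n => ¬ Nat.Coprime n Q), Lam n := by
    rw [hB]
    refine (norm_sum_le _ _).trans (sum_le_sum fun n _ => ?_)
    rw [norm_mul, c3b_e, mul_one, Complex.norm_real, Real.norm_eq_abs,
      abs_of_nonneg ArithmeticFunction.vonMangoldt_nonneg]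
  calc ‖A + B‖ ^ 2 ≤ (‖A‖ + ‖B‖) ^ 2 :=
        pow_le_pow_left₀ (norm_nonneg _) (norm_add_le A B) 2
    _ ≤ (1 + 1 / K) * ‖A‖ ^ 2 + (1 + K) * ‖B‖ ^ 2 := c3b_sq K _ _ hK
    _ ≤ _ := by
        have h1 : ‖B‖ ^ 2 ≤ (∑ n ∈ (Icc 1 N).filter (fun n => ¬ Nat.Coprime n Q), Lam n) ^ 2 :=
          pow_le_pow_left₀ (norm_nonneg _) hBn 2
        have h2 : (1 + K) * ‖B‖ ^ 2 ≤
            (1 + K) * (∑ n ∈ (Icc 1 N).filter (fun n => ¬ Nat.Coprime n Q), Lam n) ^ 2 :=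
          mul_le_mul_of_nonneg_left h1 (by linarith)
        linarith

theorem c3b_chi (Q R : ℕ) (hQ : 1 ≤ Q) (D : ℝ) (χ : DirichletCharacter ℂ Q) :
    ∑ l ∈ (range Q).filter (fun l : ℕ => R < den l Q), ‖tau χ l‖ ^ 2 ≤
      (if D < (χ.conductor : ℝ) then (Q : ℝ) * (Nat.totient Q : ℝ) else 0) +
      (if (χ.conductor : ℝ) ≤ D then (Nat.totient Q : ℝ) ^ 2 *
        ∑ d ∈ Q.divisors.filter (fun d => R < d ∧ χ.conductor ∣ d),
          (χ.conductor : ℝ) / Nat.totient d else 0) := by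
  classical
  by_cases hD : D < (χ.conductor : ℝ)
  · rw [if_pos hD, if_neg (not_le.2 hD), add_zero, ← tau_total Q hQ χ]
    exact sum_le_sum_of_subset_of_nonneg (filter_subset _ _) fun _ _ _ => by positivity
  · rw [if_neg hD, if_pos (not_lt.1 hD), zero_add]
    set g : ℕ → ℝ := fun d => if χ.conductor ∣ d then
      ((Nat.totient Q : ℝ) / Nat.totient d) ^ 2 * χ.conductor else 0 with hg
    have h1 : ∀ l ∈ (range Q).filter (fun l : ℕ => R < den l Q), ‖tau χ l‖ ^ 2 ≤ g (den l Q) := by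
      intro l _
      rw [hg]
      dsimp only
      by_cases h : χ.conductor ∣ den l Q
      · rw [if_pos h]
        exact tau_sq Q hQ χ l
      · rw [if_neg h, tau_zero Q hQ χ l h]
        simp
    refine (sum_le_sum h1).trans ?_
    rw [den_sum Q hQ R g]
    have h2 : Q.divisors.filter (fun d => R < d ∧ χ.conductor ∣ d) =
        (Q.divisors.filter (fun d => R < d)).filter (fun d => χ.conductor ∣ d) := by
      rw [filter_filter]
    have h3 : ∑ d ∈ (Q.divisors.filter (fun d => R < d)).filter (fun d => χ.conductor ∣ d),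
        (χ.conductor : ℝ) / Nat.totient d =
        ∑ d ∈ Q.divisors.filter (fun d => R < d),
          if χ.conductor ∣ d then (χ.conductor : ℝ) / Nat.totient d else 0 := sum_filter _ _
    rw [h2, h3, mul_sum]
    apply le_of_eq
    refine sum_congr rfl fun d hd => ?_
    rw [mem_filter] at hd
    have hd0 : (Nat.totient d : ℝ) ≠ 0 := by
      have : 0 < Nat.totient d := Nat.totient_pos.2 (Nat.pos_of_mem_divisors hd.1)
      positivity
    rw [hg]
    dsimp only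
    split_ifs
    · field_simp
    · simp

theorem c3b_cop (X : ℝ) (Q R : ℕ) (hQ : 1 ≤ Q) (D : ℝ) :
    (1 / (Q : ℝ)) * ∑ l ∈ (range Q).filter (fun l : ℕ => R < den l Q),
      ‖∑ n ∈ (Icc 1 ⌊X⌋₊).filter (fun n => Nat.Coprime n Q),
        (Lam n : ℂ) * e (n * ((l : ℝ) / Q))‖ ^ 2 ≤ HH X Q D + SUR X Q R D := by
  classical
  rw [orth_den Q hQ ⌊X⌋₊ R]
  have hQ0 : (0 : ℝ) < Q := by exact_mod_cast hQ
  have hφ : (0 : ℝ) < Nat.totient Q := by exact_mod_cast Nat.totient_pos.2 hQ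
  have h1 : ∑ χ : DirichletCharacter ℂ Q, ‖cc ⌊X⌋₊ χ‖ ^ 2 *
      ∑ l ∈ (range Q).filter (fun l : ℕ => R < den l Q), ‖tau χ l‖ ^ 2 ≤
      ∑ χ : DirichletCharacter ℂ Q, ‖cc ⌊X⌋₊ χ‖ ^ 2 *
        ((if D < (χ.conductor : ℝ) then (Q : ℝ) * (Nat.totient Q : ℝ) else 0) +
        (if (χ.conductor : ℝ) ≤ D then (Nat.totient Q : ℝ) ^ 2 *
          ∑ d ∈ Q.divisors.filter (fun d => R < d ∧ χ.conductor ∣ d),
            (χ.conductor : ℝ) / Nat.totient d else 0)) :=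
    sum_le_sum fun χ _ => mul_le_mul_of_nonneg_left (c3b_chi Q R hQ D χ) (by positivity)
  refine (mul_le_mul_of_nonneg_left h1 (by positivity)).trans (le_of_eq ?_)
  unfold HH SUR
  simp only [mul_add, sum_add_distrib]
  congr 1
  · rw [mul_sum, mul_sum]
    refine sum_congr rfl fun χ _ => ?_
    split_ifs
    · unfold cc
      field_simp
    · simp
  · rw [mul_sum, mul_sum]
    refine sum_congr rfl fun χ _ => ?_
    split_ifs
    · field_simp
    · simp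

theorem per_q_pr (X : ℝ) (hX : 3 ≤ X) (Q R : ℕ) (hQ : 1 ≤ Q) (hQX : (Q : ℝ) ≤ X) (D K : ℝ)
    (hK : 1 ≤ K) :
    (1 / (Q : ℝ)) * ∑ l ∈ (range Q).filter (fun l : ℕ => R < den l Q), Sq Lam ⌊X⌋₊ (l / Q) ≤
      (1 + 1 / K) * (HH X Q D + SUR X Q R D) + (1 + K) * (4 * Real.log X ^ 4) := by
  have hK0 : 0 < K := by linarith
  have hQ0 : (0 : ℝ) < Q := by exact_mod_cast hQ
  set V := ∑ n ∈ (Icc 1 ⌊X⌋₊).filter (fun n => ¬ Nat.Coprime n Q), Lam n with hV
  have hV0 : 0 ≤ V := sum_nonneg fun n _ => ArithmeticFunction.vonMangoldt_nonneg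
  have hVle : V ≤ 2 * Real.log X ^ 2 := non_cop X hX Q hQ hQX
  have hV2 : V ^ 2 ≤ 4 * Real.log X ^ 4 := by
    calc V ^ 2 ≤ (2 * Real.log X ^ 2) ^ 2 := pow_le_pow_left₀ hV0 hVle 2
      _ = _ := by ring
  have h1 : ∑ l ∈ (range Q).filter (fun l : ℕ => R < den l Q), Sq Lam ⌊X⌋₊ (l / Q) ≤
      ∑ l ∈ (range Q).filter (fun l : ℕ => R < den l Q), ((1 + 1 / K) *
        ‖∑ n ∈ (Icc 1 ⌊X⌋₊).filter (fun n => Nat.Coprime n Q),
          (Lam n : ℂ) * e (n * ((l : ℝ) / Q))‖ ^ 2 + (1 + K) * V ^ 2) :=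
    sum_le_sum fun l _ => c3b_split ⌊X⌋₊ Q ((l : ℝ) / Q) K hK
  refine (mul_le_mul_of_nonneg_left h1 (by positivity)).trans ?_
  rw [sum_add_distrib, ← mul_sum, sum_const, nsmul_eq_mul, mul_add]
  refine add_le_add ?_ ?_
  · have h2 := mul_le_mul_of_nonneg_left (c3b_cop X Q R hQ D) (by positivity : 0 ≤ 1 + 1 / K)
    refine le_trans (le_of_eq ?_) h2
    ring
  · have hc : (((range Q).filter (fun l : ℕ => R < den l Q)).card : ℝ) ≤ Q := by
      have : ((range Q).filter (fun l : ℕ => R < den l Q)).card ≤ Q := by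
        simpa using card_filter_le (range Q) (fun l : ℕ => R < den l Q)
      exact_mod_cast this
    have h3 : (1 / (Q : ℝ)) * (((range Q).filter (fun l : ℕ => R < den l Q)).card : ℝ) ≤ 1 := by
      rw [one_div, inv_mul_le_iff₀ hQ0, mul_one]
      exact hc
    have h4 : 0 ≤ (1 + K) * V ^ 2 := by positivity
    calc 1 / (Q : ℝ) * ((((range Q).filter (fun l : ℕ => R < den l Q)).card : ℝ) *
          ((1 + K) * V ^ 2))
        = (1 / (Q : ℝ) * (((range Q).filter (fun l : ℕ => R < den l Q)).card : ℝ)) *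
          ((1 + K) * V ^ 2) := by ring
      _ ≤ 1 * ((1 + K) * V ^ 2) := mul_le_mul_of_nonneg_right h3 h4
      _ ≤ (1 + K) * (4 * Real.log X ^ 4) := by
          rw [one_mul]
          exact mul_le_mul_of_nonneg_left hV2 (by linarith)

alias per_q := per_q_pr

end Pool.Agent.MF
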