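import Pool.Agent.Lib_helper59.MF.Defs
import Pool.Agent.Lib_helper92.HCF.PHS
/-! MF, block X4 : tails by summation by parts. -/

set_option autoImplicit false

namespace Pool.Agent.MF

open Finset Complex Filter Topology MeasureTheory Pool.Agent.Var35 Pool.Agent.Var73 Pool.Agent.HC
open scoped ArithmeticFunction ArithmeticFunction.Moebius

theorem abel_far_pr (a : ℕ → ℝ) (h0 : ∀ n, 0 ≤ a n) (C : ℝ) (hC : 0 ≤ C)
    (hA : ∀ R : ℕ, 1 ≤ R → ∑ q ∈ Icc 1 R, a q ≤ C * R) (V : ℝ) (hV : 1 ≤ V) (R : ℕ) :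
    ∑ q ∈ (Icc 1 R).filter (fun q : ℕ => V < q), a q / (q : ℝ) ^ 2 ≤ 4 * C / V := by
  have hV0 : 0 ≤ V := by linarith
  have hVp : 0 < V := by linarith
  have hV1 : 1 ≤ ⌊V⌋₊ := (Nat.one_le_floor_iff V).2 hV
  have hlt : V < (⌊V⌋₊ : ℝ) + 1 := Nat.lt_floor_add_one V
  have key : ∀ R : ℕ, ⌊V⌋₊ ≤ R →
      ∑ q ∈ (Icc 1 R).filter (fun q : ℕ => V < q), a q / (q : ℝ) ^ 2 ≤
        (∑ q ∈ Icc 1 R, a q) / ((R : ℝ) + 1) ^ 2 + 2 * C / ((⌊V⌋₊ : ℝ) + 1)
          - 2 * C / ((R : ℝ) + 1) := by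
    intro R hR
    induction R, hR using Nat.le_induction with
    | base =>
      have h1 : (Icc 1 ⌊V⌋₊).filter (fun q : ℕ => V < q) = ∅ := by
        apply filter_eq_empty_iff.2
        intro q hq hq2
        have h2 := (Nat.floor_lt hV0).2 hq2
        have h3 := (mem_Icc.1 hq).2
        omega
      rw [h1, sum_empty]
      have h2 : 0 ≤ (∑ q ∈ Icc 1 ⌊V⌋₊, a q) / ((⌊V⌋₊ : ℝ) + 1) ^ 2 :=
        div_nonneg (sum_nonneg fun q _ => h0 q) (by positivity)
      linarith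
    | succ R hR ih =>
      have hVR : V < ((R + 1 : ℕ) : ℝ) := by
        have : (⌊V⌋₊ : ℝ) ≤ R := by exact_mod_cast hR
        push_cast
        linarith
      have hR1 : (1 : ℝ) ≤ R := by exact_mod_cast hV1.trans hR
      have hs := hA (R + 1) (by omega)
      rw [sum_filter] at ih ⊢
      rw [sum_Icc_succ_top (by omega : 1 ≤ R + 1), if_pos hVR]
      rw [sum_Icc_succ_top (by omega : 1 ≤ R + 1)] at hs ⊢
      set A := ∑ q ∈ Icc 1 R, a q with hAdef
      have hAn : 0 ≤ A := sum_nonneg fun q _ => h0 q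
      have ha := h0 (R + 1)
      push_cast at hs ⊢
      set x : ℝ := (R : ℝ) + 1 with hx
      have hx1 : 1 ≤ x := by linarith
      have hx0 : 0 < x := by linarith
      have e1 : A / x ^ 2 + a (R + 1) / x ^ 2 = (A + a (R + 1)) / x ^ 2 := by
        rw [add_div]
      have e2 : (A + a (R + 1)) / x ^ 2 - (A + a (R + 1)) / (x + 1) ^ 2 ≤
          2 * C / x - 2 * C / (x + 1) := by
        have e3 : (A + a (R + 1)) / x ^ 2 - (A + a (R + 1)) / (x + 1) ^ 2 =
            (A + a (R + 1)) * ((2 * x + 1) / (x ^ 2 * (x + 1) ^ 2)) := by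
          field_simp
          ring
        have e4 : 2 * C / x - 2 * C / (x + 1) = 2 * C / (x * (x + 1)) := by
          field_simp
          ring
        rw [e3, e4]
        have e5 : (A + a (R + 1)) * ((2 * x + 1) / (x ^ 2 * (x + 1) ^ 2)) ≤
            C * x * ((2 * x + 1) / (x ^ 2 * (x + 1) ^ 2)) := by
          apply mul_le_mul_of_nonneg_right hs
          positivity
        refine e5.trans ?_
        have e6 : C * x * ((2 * x + 1) / (x ^ 2 * (x + 1) ^ 2)) =
            C * (2 * x + 1) / (x * (x + 1) ^ 2) := by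
          field_simp
        rw [e6, div_le_div_iff₀ (by positivity) (by positivity)]
        have e7 : 0 ≤ C * (x * (x + 1)) := by positivity
        nlinarith
      linarith
  rcases le_or_gt ⌊V⌋₊ R with hR | hR
  · have h1 := key R hR
    have hR1 : 1 ≤ R := hV1.trans hR
    have h2 := hA R hR1
    have h3 : (∑ q ∈ Icc 1 R, a q) / ((R : ℝ) + 1) ^ 2 ≤ C / ((R : ℝ) + 1) := by
      rw [div_le_div_iff₀ (by positivity) (by positivity)]
      have h4 : (0 : ℝ) ≤ R := Nat.cast_nonneg R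
      have h5 : (∑ q ∈ Icc 1 R, a q) * ((R : ℝ) + 1) ≤ C * R * ((R : ℝ) + 1) :=
        mul_le_mul_of_nonneg_right h2 (by positivity)
      nlinarith
    have h6 : 2 * C / ((⌊V⌋₊ : ℝ) + 1) ≤ 2 * C / V := by
      apply div_le_div_of_nonneg_left (by positivity) hVp hlt.le
    have h7 : C / ((R : ℝ) + 1) ≤ 2 * C / ((R : ℝ) + 1) := by
      apply div_le_div_of_nonneg_right _ (by positivity)
      linarith
    have h8 : 2 * C / V ≤ 4 * C / V := by
      apply div_le_div_of_nonneg_right _ hV0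
      linarith
    linarith
  · have h1 : (Icc 1 R).filter (fun q : ℕ => V < q) = ∅ := by
      apply filter_eq_empty_iff.2
      intro q hq hq2
      have h2 := (Nat.floor_lt hV0).2 hq2
      have h3 := (mem_Icc.1 hq).2
      omega
    rw [h1, sum_empty]
    positivity

theorem x4_mp_nonneg (q : ℕ) : 0 ≤ mp q := by
  unfold mp
  split_ifs
  · positivity
  · exact le_rfl

theorem mp_far_pr : ∃ C : ℝ, 1 ≤ C ∧ ∀ V : ℝ, 1 ≤ V → ∀ R : ℕ,
    ∑ q ∈ (Icc 1 R).filter (fun q : ℕ => V < q), mp q / q ≤ C / V := by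
  obtain ⟨C, hC, h⟩ := phi_sum_pr
  refine ⟨max 1 (4 * C), le_max_left _ _, fun V hV R => ?_⟩
  have hA : ∀ R : ℕ, 1 ≤ R → ∑ q ∈ Icc 1 R, (q : ℝ) * mp q ≤ C * R := by
    intro R hR
    refine le_trans (sum_le_sum fun q hq => ?_) (h R hR).1
    unfold mp
    split_ifs
    · rw [mul_one_div]
    · rw [mul_zero]
      positivity
  have h1 := abel_far_pr (fun q => (q : ℝ) * mp q)
    (fun q => mul_nonneg (Nat.cast_nonneg q) (x4_mp_nonneg q)) C hC.le hA V hV R
  have h2 : ∑ q ∈ (Icc 1 R).filter (fun q : ℕ => V < q), mp q / q =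
      ∑ q ∈ (Icc 1 R).filter (fun q : ℕ => V < q), (q : ℝ) * mp q / (q : ℝ) ^ 2 := by
    refine sum_congr rfl fun q hq => ?_
    have hq1 : 1 ≤ q := (mem_Icc.1 (mem_filter.1 hq).1).1
    have hq0 : (q : ℝ) ≠ 0 := by positivity
    field_simp
  rw [h2]
  refine h1.trans ?_
  apply div_le_div_of_nonneg_right (le_max_right _ _) (by linarith)

theorem phi_far_pr : ∃ C : ℝ, 1 ≤ C ∧ ∀ V : ℝ, 1 ≤ V → ∀ R : ℕ,
    ∑ m ∈ (Icc 1 R).filter (fun m : ℕ => V < m), 1 / ((m : ℝ) * Nat.totient m) ≤ C / V := by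
  obtain ⟨C, hC, h⟩ := phi_sum_pr
  refine ⟨max 1 (4 * C), le_max_left _ _, fun V hV R => ?_⟩
  have h1 := abel_far_pr (fun q => (q : ℝ) / (Nat.totient q : ℝ))
    (fun q => by positivity) C hC.le (fun R hR => (h R hR).1) V hV R
  have h2 : ∑ m ∈ (Icc 1 R).filter (fun m : ℕ => V < m), 1 / ((m : ℝ) * Nat.totient m) =
      ∑ q ∈ (Icc 1 R).filter (fun q : ℕ => V < q),
        (q : ℝ) / (Nat.totient q : ℝ) / (q : ℝ) ^ 2 := by
    refine sum_congr rfl fun q hq => ?_
    have hq1 : 1 ≤ q := (mem_Icc.1 (mem_filter.1 hq).1).1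
    have hq0 : (q : ℝ) ≠ 0 := by positivity
    have hq2 : (Nat.totient q : ℝ) ≠ 0 := by
      have := Nat.totient_pos.2 hq1
      positivity
    field_simp
  rw [h2]
  refine h1.trans ?_
  apply div_le_div_of_nonneg_right (le_max_right _ _) (by linarith)

alias abel_far := abel_far_pr

alias mp_far := mp_far_pr

alias phi_far := phi_far_pr

end Pool.Agent.MF
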