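import Pool.Agent.Lib_helper59.MF.Defs
import Pool.Agent.Lib_helper59.MFF.X4
set_option autoImplicit false

namespace Pool.Agent.MF

open Finset Complex Filter Topology MeasureTheory Pool.Agent.Var35 Pool.Agent.Var73 Pool.Agent.HC
open scoped ArithmeticFunction ArithmeticFunction.Moebius

/-- the harmonic sum over the multiples of `d` -/
theorem c4a_harm (Y d : ℕ) (hY : 1 ≤ Y) (hd : 1 ≤ d) :
    ∑ Q ∈ (Icc 1 Y).filter (fun Q => d ∣ Q), 1 / (Q : ℝ) ≤ 1 / (d : ℝ) * (1 + Real.log Y) := by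
  have hd0 : (0 : ℝ) < d := by exact_mod_cast hd
  have h1 : ∑ Q ∈ (Icc 1 Y).filter (fun Q => d ∣ Q), 1 / (Q : ℝ) ≤
      ∑ m ∈ Icc 1 Y, 1 / ((d : ℝ) * m) := by
    have h2 : (Icc 1 Y).filter (fun Q => d ∣ Q) ⊆ (Icc 1 Y).image (fun m => d * m) := by
      intro Q hQ
      rw [mem_filter, mem_Icc] at hQ
      obtain ⟨m, rfl⟩ := hQ.2
      rw [mem_image]
      refine ⟨m, ?_, rfl⟩
      rw [mem_Icc]
      constructor
      · rcases Nat.eq_zero_or_pos m with h | h
        · subst h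
          simp at hQ
        · exact h
      · exact le_trans (Nat.le_mul_of_pos_left m hd) hQ.1.2
    refine (sum_le_sum_of_subset_of_nonneg h2 fun _ _ _ => by positivity).trans (le_of_eq ?_)
    rw [sum_image]
    · refine sum_congr rfl fun m _ => ?_
      push_cast
      rfl
    · intro x _ y _ hxy
      exact Nat.eq_of_mul_eq_mul_left hd hxy
  refine h1.trans ?_
  have h3 : ∑ m ∈ Icc 1 Y, 1 / ((d : ℝ) * m) = 1 / (d : ℝ) * ∑ m ∈ Icc 1 Y, 1 / (m : ℝ) := by
    rw [mul_sum]
    refine sum_congr rfl fun m _ => ?_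
    rw [one_div_mul_one_div]
  rw [h3]
  have h4 : ∑ m ∈ Icc 1 Y, 1 / (m : ℝ) ≤ 1 + Real.log Y := by
    have := harmonic_le_one_add_log Y
    have e : ((harmonic Y : ℚ) : ℝ) = ∑ m ∈ Icc 1 Y, 1 / (m : ℝ) := by
      rw [harmonic_eq_sum_Icc]
      push_cast
      simp only [one_div]
    rwa [e] at this
  have : 0 < 1 / (d : ℝ) := by positivity
  gcongr

/-- the arithmetical weight of a conductor `r` -/
theorem sur_w_pr : ∃ C : ℝ, 0 < C ∧ ∀ Y R r : ℕ, 1 ≤ Y → 1 ≤ R → 1 ≤ r →
    ∑ Q ∈ (Icc 1 Y).filter (fun Q => r ∣ Q), (1 / (Q : ℝ)) *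
      ∑ d ∈ Q.divisors.filter (fun d => R < d ∧ r ∣ d), (r : ℝ) / Nat.totient d ≤
      C * (1 + Real.log Y) * ((r : ℝ) / Nat.totient r * min (1 / (r : ℝ)) (1 / (R : ℝ))) := by
  obtain ⟨C, hC1, hC⟩ := phi_far
  refine ⟨1 + C, by linarith, fun Y R r hY hR hr => ?_⟩
  have hr0 : (0 : ℝ) < r := by exact_mod_cast hr
  have hR0 : (0 : ℝ) < R := by exact_mod_cast hR
  have hφ : (0 : ℝ) < Nat.totient r := by exact_mod_cast Nat.totient_pos.mpr hr
  have hL : 0 ≤ 1 + Real.log Y := by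
    have : 0 ≤ Real.log (Y : ℝ) := Real.log_nonneg (by exact_mod_cast hY)
    linarith
  set Dd : Finset ℕ := (Icc 1 Y).filter (fun d => R < d ∧ r ∣ d) with hDd
  -- exchange
  have h1 : ∑ Q ∈ (Icc 1 Y).filter (fun Q => r ∣ Q), (1 / (Q : ℝ)) *
      ∑ d ∈ Q.divisors.filter (fun d => R < d ∧ r ∣ d), (r : ℝ) / Nat.totient d ≤
      ∑ d ∈ Dd, (r : ℝ) / Nat.totient d * ∑ Q ∈ (Icc 1 Y).filter (fun Q => d ∣ Q), 1 / (Q : ℝ) := by
    have e1 : ∀ Q ∈ (Icc 1 Y).filter (fun Q => r ∣ Q), (1 / (Q : ℝ)) *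
        ∑ d ∈ Q.divisors.filter (fun d => R < d ∧ r ∣ d), (r : ℝ) / Nat.totient d =
        ∑ d ∈ Dd, if d ∣ Q then (r : ℝ) / Nat.totient d * (1 / (Q : ℝ)) else 0 := by
      intro Q hQ
      rw [mem_filter, mem_Icc] at hQ
      rw [← sum_filter, mul_sum]
      have e2 : Q.divisors.filter (fun d => R < d ∧ r ∣ d) = Dd.filter (fun d => d ∣ Q) := by
        ext d
        simp only [hDd, mem_filter, Nat.mem_divisors, mem_Icc]
        constructor
        · rintro ⟨⟨h2, h3⟩, h4, h5⟩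
          refine ⟨⟨⟨Nat.pos_of_dvd_of_pos h2 hQ.1.1, ?_⟩, h4, h5⟩, h2⟩
          exact (Nat.le_of_dvd hQ.1.1 h2).trans hQ.1.2
        · rintro ⟨⟨_, h4, h5⟩, h2⟩
          exact ⟨⟨h2, by omega⟩, h4, h5⟩
      rw [e2]
      exact sum_congr rfl fun d _ => by ring
    rw [sum_congr rfl e1, sum_comm]
    refine sum_le_sum fun d hd => ?_
    rw [mul_sum, ← sum_filter]
    refine sum_le_sum_of_subset_of_nonneg ?_ fun _ _ _ => by positivity
    intro Q hQ
    rw [mem_filter, mem_filter] at hQ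
    rw [mem_filter]
    exact ⟨hQ.1.1, hQ.2⟩
  have h2 : ∑ d ∈ Dd, (r : ℝ) / Nat.totient d *
      ∑ Q ∈ (Icc 1 Y).filter (fun Q => d ∣ Q), 1 / (Q : ℝ) ≤
      (1 + Real.log Y) * ∑ d ∈ Dd, (r : ℝ) / (Nat.totient d * d) := by
    rw [mul_sum]
    refine sum_le_sum fun d hd => ?_
    rw [hDd, mem_filter, mem_Icc] at hd
    have h3 := c4a_harm Y d hY hd.1.1
    have hd0 : (0 : ℝ) < d := by exact_mod_cast hd.1.1
    have hφd : (0 : ℝ) < Nat.totient d := by exact_mod_cast Nat.totient_pos.mpr hd.1.1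
    calc (r : ℝ) / Nat.totient d * ∑ Q ∈ (Icc 1 Y).filter (fun Q => d ∣ Q), 1 / (Q : ℝ)
        ≤ (r : ℝ) / Nat.totient d * (1 / (d : ℝ) * (1 + Real.log Y)) := by gcongr
      _ = _ := by field_simp
  -- substitute d = r m
  have h3 : ∑ d ∈ Dd, (r : ℝ) / (Nat.totient d * d) ≤
      (1 / (Nat.totient r : ℝ)) * ∑ m ∈ (Icc 1 Y).filter (fun m => R < r * m),
        1 / ((m : ℝ) * Nat.totient m) := by
    have hsub : Dd ⊆ ((Icc 1 Y).filter (fun m => R < r * m)).image (fun m => r * m) := by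
      intro d hd
      rw [hDd, mem_filter, mem_Icc] at hd
      obtain ⟨m, rfl⟩ := hd.2.2
      rw [mem_image]
      refine ⟨m, ?_, rfl⟩
      rw [mem_filter, mem_Icc]
      refine ⟨⟨?_, ?_⟩, hd.2.1⟩
      · rcases Nat.eq_zero_or_pos m with h | h
        · subst h
          simp at hd
        · exact h
      · exact le_trans (Nat.le_mul_of_pos_left m hr) hd.1.2
    refine (sum_le_sum_of_subset_of_nonneg hsub fun _ _ _ => by positivity).trans ?_
    rw [sum_image (fun x _ y _ hxy => Nat.eq_of_mul_eq_mul_left hr hxy), mul_sum]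
    refine sum_le_sum fun m hm => ?_
    rw [mem_filter, mem_Icc] at hm
    have hm0 : (0 : ℝ) < m := by exact_mod_cast hm.1.1
    have hφm : (0 : ℝ) < Nat.totient m := by exact_mod_cast Nat.totient_pos.mpr hm.1.1
    have h4 : (Nat.totient r : ℝ) * Nat.totient m ≤ Nat.totient (r * m) := by
      exact_mod_cast Nat.totient_super_multiplicative r m
    push_cast
    calc (r : ℝ) / (Nat.totient (r * m) * (r * m))
        ≤ (r : ℝ) / ((Nat.totient r * Nat.totient m) * (r * m)) := by gcongr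
      _ = 1 / (Nat.totient r : ℝ) * (1 / (m * Nat.totient m)) := by field_simp
  -- the sum over m
  have h4 : ∑ m ∈ (Icc 1 Y).filter (fun m => R < r * m), 1 / ((m : ℝ) * Nat.totient m) ≤
      (1 + C) * (r * min (1 / (r : ℝ)) (1 / (R : ℝ))) := by
    by_cases hRr : R ≤ r
    · have e1 : min (1 / (r : ℝ)) (1 / (R : ℝ)) = 1 / r := by
        apply min_eq_left
        exact one_div_le_one_div_of_le hR0 (by exact_mod_cast hRr)
      rw [e1, mul_one_div_cancel hr0.ne', mul_one]
      have h5 := hC 1 le_rfl Y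
      have h6 : (Icc 1 Y).filter (fun m => R < r * m) ⊆
          insert 1 ((Icc 1 Y).filter (fun m : ℕ => (1 : ℝ) < m)) := by
        intro m hm
        rw [mem_filter, mem_Icc] at hm
        rw [mem_insert, mem_filter, mem_Icc]
        rcases Nat.eq_or_lt_of_le hm.1.1 with h | h
        · exact Or.inl h.symm
        · exact Or.inr ⟨hm.1, by exact_mod_cast h⟩
      refine (sum_le_sum_of_subset_of_nonneg h6 fun _ _ _ => by positivity).trans ?_
      rw [sum_insert (by simp)]
      simp only [Nat.cast_one, Nat.totient_one, mul_one, div_one] at h5 ⊢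
      linarith
    · push Not at hRr
      have e1 : min (1 / (r : ℝ)) (1 / (R : ℝ)) = 1 / R := by
        apply min_eq_right
        exact one_div_le_one_div_of_le hr0 (by exact_mod_cast hRr.le)
      rw [e1]
      have hV : (1 : ℝ) ≤ (R : ℝ) / r := by
        rw [le_div_iff₀ hr0, one_mul]
        exact_mod_cast hRr.le
      have h5 := hC (R / r) hV Y
      have e2 : (Icc 1 Y).filter (fun m => R < r * m) =
          (Icc 1 Y).filter (fun m : ℕ => (R : ℝ) / r < m) := by
        apply filter_congr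
        intro m _
        rw [div_lt_iff₀ hr0]
        constructor
        · intro h
          have : (R : ℝ) < ((r * m : ℕ) : ℝ) := by exact_mod_cast h
          push_cast at this
          linarith
        · intro h
          have : (R : ℝ) < ((r * m : ℕ) : ℝ) := by push_cast; linarith
          exact_mod_cast this
      rw [e2]
      refine h5.trans ?_
      have e3 : C / ((R : ℝ) / r) = C * (r * (1 / R)) := by field_simp
      rw [e3]
      have : 0 < (r : ℝ) * (1 / R) := by positivity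
      nlinarith
  calc _ ≤ _ := h1
    _ ≤ _ := h2
    _ ≤ (1 + Real.log Y) * ((1 / (Nat.totient r : ℝ)) *
        ((1 + C) * (r * min (1 / (r : ℝ)) (1 / (R : ℝ))))) := by
        refine mul_le_mul_of_nonneg_left (h3.trans ?_) hL
        exact mul_le_mul_of_nonneg_left h4 (by positivity)
    _ = _ := by ring

alias sur_w := sur_w_pr

end Pool.Agent.MF
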