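import Pool.Agent.Lib_helper59.MF.Defs
import Pool.Agent.Lib_helper73.Var.Block
import Pool.Agent.Lib_helper59.MFF.C3a
import Pool.Agent.Lib_helper59.MFF.C4a
/-! MF, block C4b: the surplus in terms of primitive characters -/

set_option autoImplicit false

namespace Pool.Agent.MF

open Finset Complex Filter Topology MeasureTheory Pool.Agent.Var35 Pool.Agent.Var73 Pool.Agent.HC
open scoped ArithmeticFunction ArithmeticFunction.Moebius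

/-- the arithmetical weight -/
noncomputable def c4b_W (R Q r : ℕ) : ℝ :=
  ∑ d ∈ Q.divisors.filter (fun d => R < d ∧ r ∣ d), (r : ℝ) / Nat.totient d

theorem c4b_W_nonneg (R Q r : ℕ) : 0 ≤ c4b_W R Q r := sum_nonneg fun d _ => by positivity

/-- the value at a primitive character -/
noncomputable def c4b_G (X : ℝ) (x : Chr) : ℝ :=
  ‖∑ n ∈ Icc 1 ⌊X⌋₊, (Lam n : ℂ) * ev x n‖ ^ 2 + Real.log X ^ 4

theorem c4b_cc (X : ℝ) (hX : 3 ≤ X) (Q : ℕ) (hQ : 1 ≤ Q) (hQX : (Q : ℝ) ≤ X)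
    (χ : DirichletCharacter ℂ Q) : ‖cc ⌊X⌋₊ χ‖ ^ 2 ≤ 8 * c4b_G X (prm χ) := by
  have : NeZero Q := ⟨by omega⟩
  set N := ⌊X⌋₊ with hN
  have e1 : cc N χ = SS (Icc 1 N) (fun n => (Lam n : ℂ)) (Q / (prm χ).1) (prm χ) :=
    sum_char_prm χ (Icc 1 N) (fun n => (Lam n : ℂ))
  have hev : ∀ n : ℕ, ‖ev (prm χ) n‖ ≤ 1 := fun n => DirichletCharacter.norm_le_one _ _
  have e2 : ∑ n ∈ Icc 1 N, (Lam n : ℂ) * ev (prm χ) n = cc N χ +
      ∑ n ∈ (Icc 1 N).filter (fun n => ¬ Nat.Coprime n (Q / (prm χ).1)),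
        (Lam n : ℂ) * ev (prm χ) n := by
    rw [e1]
    unfold SS
    rw [← sum_filter_add_sum_filter_not (Icc 1 N)
      (fun n => Nat.Coprime n (Q / (prm χ).1)) (fun n => (Lam n : ℂ) * ev (prm χ) n)]
    congr 1
    rw [sum_filter]
    refine sum_congr rfl fun n _ => ?_
    split_ifs <;> simp
  have e3 : ‖∑ n ∈ (Icc 1 N).filter (fun n => ¬ Nat.Coprime n (Q / (prm χ).1)),
      (Lam n : ℂ) * ev (prm χ) n‖ ≤ 2 * Real.log X ^ 2 := by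
    refine (norm_sum_le _ _).trans ?_
    calc ∑ n ∈ (Icc 1 N).filter (fun n => ¬ Nat.Coprime n (Q / (prm χ).1)),
          ‖(Lam n : ℂ) * ev (prm χ) n‖
        ≤ ∑ n ∈ (Icc 1 N).filter (fun n => ¬ Nat.Coprime n (Q / (prm χ).1)), Lam n := by
          refine sum_le_sum fun n _ => ?_
          rw [norm_mul, Complex.norm_real, Real.norm_eq_abs,
            abs_of_nonneg ArithmeticFunction.vonMangoldt_nonneg]
          exact mul_le_of_le_one_right ArithmeticFunction.vonMangoldt_nonneg (hev n)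
      _ ≤ ∑ n ∈ (Icc 1 N).filter (fun n => ¬ Nat.Coprime n Q), Lam n := by
          refine sum_le_sum_of_subset_of_nonneg ?_ fun _ _ _ =>
            ArithmeticFunction.vonMangoldt_nonneg
          intro n hn
          rw [mem_filter] at hn ⊢
          refine ⟨hn.1, fun h => hn.2 ?_⟩
          exact Nat.Coprime.coprime_dvd_right (Nat.div_dvd_of_dvd χ.conductor_dvd_level) h
      _ ≤ _ := non_cop X hX Q hQ hQX
  set A := ∑ n ∈ Icc 1 N, (Lam n : ℂ) * ev (prm χ) n with hA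
  set B := ∑ n ∈ (Icc 1 N).filter (fun n => ¬ Nat.Coprime n (Q / (prm χ).1)),
      (Lam n : ℂ) * ev (prm χ) n with hB
  have e4 : cc N χ = A - B := by
    rw [e2]
    ring
  have e5 : ‖cc N χ‖ ≤ ‖A‖ + 2 * Real.log X ^ 2 := by
    rw [e4]
    exact (norm_sub_le _ _).trans (by linarith)
  have e6 : ‖cc N χ‖ ^ 2 ≤ (‖A‖ + 2 * Real.log X ^ 2) ^ 2 :=
    pow_le_pow_left₀ (norm_nonneg _) e5 2
  refine e6.trans ?_
  unfold c4b_G
  rw [← hN, ← hA]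
  nlinarith [sq_nonneg (‖A‖ - 2 * Real.log X ^ 2), sq_nonneg ‖A‖]

theorem c4b_sur (X : ℝ) (hX : 3 ≤ X) (Q R : ℕ) (D : ℝ) (hQ : 1 ≤ Q) (hQX : (Q : ℝ) ≤ X) :
    SUR X Q R D ≤ ∑ r ∈ Icc 1 ⌊D⌋₊, if r ∣ Q then
      (1 / (Q : ℝ)) * c4b_W R Q r * (8 * ∑ ψ ∈ Pr r, c4b_G X ⟨r, ψ⟩) else 0 := by
  classical
  have : NeZero Q := ⟨by omega⟩
  set H : Chr → ℝ := fun x => if (x.1 : ℝ) ≤ D then 8 * c4b_G X x * c4b_W R Q x.1 else 0 with hH
  have h1 : SUR X Q R D ≤ (1 / (Q : ℝ)) * ∑ χ : DirichletCharacter ℂ Q, H (prm χ) := by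
    unfold SUR
    refine mul_le_mul_of_nonneg_left ?_ (by positivity)
    refine sum_le_sum fun χ _ => ?_
    rw [hH]
    dsimp only
    have hc : (prm χ).1 = χ.conductor := rfl
    rw [hc]
    split_ifs with h
    · exact mul_le_mul_of_nonneg_right (c4b_cc X hX Q hQ hQX χ) (c4b_W_nonneg R Q χ.conductor)
    · exact le_rfl
  refine h1.trans (le_of_eq ?_)
  rw [sum_chars Q H, sum_sigma, mul_sum]
  have h2 : ∀ r ∈ Q.divisors, (1 / (Q : ℝ)) * ∑ ψ ∈ Pr r, H ⟨r, ψ⟩ =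
      if (r : ℝ) ≤ D then (1 / (Q : ℝ)) * c4b_W R Q r * (8 * ∑ ψ ∈ Pr r, c4b_G X ⟨r, ψ⟩)
        else 0 := by
    intro r _
    rw [hH]
    dsimp only
    split_ifs with h
    · rw [mul_sum, mul_sum, mul_sum]
      refine sum_congr rfl fun ψ _ => ?_
      ring
    · simp
  rw [sum_congr rfl h2, ← sum_filter, ← sum_filter]
  refine sum_congr ?_ fun _ _ => rfl
  ext r
  rw [mem_filter, mem_filter, Nat.mem_divisors, mem_Icc]
  constructor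
  · rintro ⟨⟨h3, h4⟩, h5⟩
    exact ⟨⟨Nat.pos_of_dvd_of_pos h3 (by omega), Nat.le_floor h5⟩, h3⟩
  · rintro ⟨⟨h3, h4⟩, h5⟩
    refine ⟨⟨h5, by omega⟩, ?_⟩
    exact (Nat.le_floor_iff' (by omega)).1 h4

theorem sur_prim_pr : ∃ C : ℝ, 0 < C ∧ ∀ (X : ℝ) (Y R : ℕ) (D : ℝ), 3 ≤ X → 1 ≤ R → 1 ≤ Y →
    (Y : ℝ) ≤ X →
    ∑ Q ∈ Icc 1 Y, SUR X Q R D ≤
      C * Real.log X * ∑ r ∈ Icc 1 ⌊D⌋₊, ((r : ℝ) / Nat.totient r *
        min (1 / (r : ℝ)) (1 / (R : ℝ))) * ∑ ψ ∈ Pr r,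
          (‖∑ n ∈ Icc 1 ⌊X⌋₊, (Lam n : ℂ) * ψ (n : ZMod r)‖ ^ 2 + Real.log X ^ 4) := by
  classical
  obtain ⟨C, hC, hw⟩ := sur_w
  refine ⟨16 * C, by positivity, fun X Y R D hX hR hY hYX => ?_⟩
  have hL1 : 1 ≤ Real.log X := by
    rw [Real.le_log_iff_exp_le (by linarith)]
    have := Real.exp_one_lt_d9
    linarith
  have hY1 : (1 : ℝ) ≤ Y := by exact_mod_cast hY
  have hlY : 1 + Real.log Y ≤ 2 * Real.log X := by
    have := Real.log_le_log (by linarith) hYX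
    linarith
  have h1 : ∑ Q ∈ Icc 1 Y, SUR X Q R D ≤ ∑ Q ∈ Icc 1 Y, ∑ r ∈ Icc 1 ⌊D⌋₊, (if r ∣ Q then
      (1 / (Q : ℝ)) * c4b_W R Q r * (8 * ∑ ψ ∈ Pr r, c4b_G X ⟨r, ψ⟩) else 0) := by
    refine sum_le_sum fun Q hQ => ?_
    rw [mem_Icc] at hQ
    refine c4b_sur X hX Q R D hQ.1 ?_
    have : (Q : ℝ) ≤ Y := by exact_mod_cast hQ.2
    linarith
  refine h1.trans ?_
  rw [sum_comm, mul_sum]
  refine sum_le_sum fun r hr => ?_
  rw [mem_Icc] at hr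
  rw [← sum_filter, ← sum_mul]
  have hG : ∑ ψ ∈ Pr r, c4b_G X ⟨r, ψ⟩ = ∑ ψ ∈ Pr r,
      (‖∑ n ∈ Icc 1 ⌊X⌋₊, (Lam n : ℂ) * ψ (n : ZMod r)‖ ^ 2 + Real.log X ^ 4) := rfl
  rw [hG]
  set g := ∑ ψ ∈ Pr r,
      (‖∑ n ∈ Icc 1 ⌊X⌋₊, (Lam n : ℂ) * ψ (n : ZMod r)‖ ^ 2 + Real.log X ^ 4) with hg
  have hg0 : 0 ≤ g := sum_nonneg fun _ _ => by positivity
  have h2 : ∑ Q ∈ (Icc 1 Y).filter (fun Q => r ∣ Q), (1 / (Q : ℝ)) * c4b_W R Q r ≤
      C * (1 + Real.log Y) * ((r : ℝ) / Nat.totient r * min (1 / (r : ℝ)) (1 / (R : ℝ))) :=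
    hw Y R r hY hR hr.1
  have hm0 : 0 ≤ (r : ℝ) / Nat.totient r * min (1 / (r : ℝ)) (1 / (R : ℝ)) :=
    mul_nonneg (by positivity) (le_min (by positivity) (by positivity))
  have h3 : C * (1 + Real.log Y) * ((r : ℝ) / Nat.totient r * min (1 / (r : ℝ)) (1 / (R : ℝ))) ≤
      C * (2 * Real.log X) * ((r : ℝ) / Nat.totient r * min (1 / (r : ℝ)) (1 / (R : ℝ))) :=
    mul_le_mul_of_nonneg_right (mul_le_mul_of_nonneg_left hlY hC.le) hm0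
  refine (mul_le_mul_of_nonneg_right (h2.trans h3) (by positivity)).trans (le_of_eq ?_)
  ring

alias sur_prim := sur_prim_pr

end Pool.Agent.MF
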