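import Pool.Agent.Lib_helper59.MF.Defs
import Pool.Agent.Lib_helper59.MFF.C4b
set_option autoImplicit false

namespace Pool.Agent.MF

open Finset Complex Filter Topology MeasureTheory Pool.Agent.Var35 Pool.Agent.Var73 Pool.Agent.HC
open scoped ArithmeticFunction ArithmeticFunction.Moebius

/-- summation by parts with the weight `min (1 / r) (1 / R)` -/
theorem ls_abel_h31 (T : ℕ → ℝ) (hT : ∀ r, 0 ≤ T r) (N A : ℝ) (R : ℕ) (hR : 1 ≤ R)
    (h : ∀ m : ℕ, R ≤ m → ∑ r ∈ Icc 1 m, T r ≤ 22 * (N + (m : ℝ) ^ 2) * A) (hA : 0 ≤ A) (M : ℕ)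
    (hM : R ≤ M) :
    ∑ r ∈ Icc 1 M, min (1 / (r : ℝ)) (1 / (R : ℝ)) * T r ≤
      (∑ r ∈ Icc 1 M, T r) / M + 22 * A * (N * (1 / R - 1 / M) + (M - R)) := by
  have hR0 : (0 : ℝ) < R := by exact_mod_cast hR
  induction M, hM using Nat.le_induction with
  | base =>
    rw [sub_self, sub_self, mul_zero, add_zero, mul_zero, add_zero, sum_div]
    refine sum_le_sum fun r _ => ?_
    calc min (1 / (r : ℝ)) (1 / (R : ℝ)) * T r ≤ 1 / (R : ℝ) * T r :=
          mul_le_mul_of_nonneg_right (min_le_right _ _) (hT r)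
      _ = T r / R := by ring
  | succ M hM ih =>
    have hM0 : (0 : ℝ) < M := by
      have : 1 ≤ M := hR.trans hM
      exact_mod_cast this
    rw [sum_Icc_succ_top (by omega), sum_Icc_succ_top (by omega)]
    have h1 := h M hM
    set s := ∑ r ∈ Icc 1 M, T r with hs
    have h2 : min (1 / ((M + 1 : ℕ) : ℝ)) (1 / (R : ℝ)) * T (M + 1) ≤
        1 / ((M + 1 : ℕ) : ℝ) * T (M + 1) :=
      mul_le_mul_of_nonneg_right (min_le_left _ _) (hT _)
    have h3 : s / M - s / (M + 1) ≤ 22 * A * (N * (1 / M - 1 / (M + 1)) + 1) := by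
      have e1 : s / M - s / (M + 1) = s * (1 / (M * (M + 1))) := by field_simp; ring
      have e2 : 1 / (M : ℝ) - 1 / (M + 1) = 1 / (M * (M + 1)) := by field_simp; ring
      rw [e1, e2]
      calc s * (1 / (M * (M + 1))) ≤ (22 * (N + (M : ℝ) ^ 2) * A) * (1 / (M * (M + 1))) :=
            mul_le_mul_of_nonneg_right h1 (by positivity)
        _ = 22 * A * (N * (1 / (M * (M + 1))) + M / (M + 1)) := by field_simp
        _ ≤ _ := by
            have : (M : ℝ) / (M + 1) ≤ 1 := by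
              rw [div_le_one (by positivity)]
              linarith
            gcongr
    push_cast at h2 ⊢
    have e3 : (s + T (M + 1)) / ((M : ℝ) + 1) = s / (M + 1) + 1 / ((M : ℝ) + 1) * T (M + 1) := by
      field_simp
    rw [e3]
    nlinarith [ih, h2, h3]

theorem sur_ls_pr : ∃ C : ℝ, 0 < C ∧ ∀ (a : ℕ → ℝ) (N R : ℕ) (D : ℝ), 1 ≤ R → (R : ℝ) ≤ D →
    ∑ r ∈ Icc 1 ⌊D⌋₊, ((r : ℝ) / Nat.totient r * min (1 / (r : ℝ)) (1 / (R : ℝ))) *
      ∑ ψ ∈ Pr r, ‖∑ n ∈ Icc 1 N, (a n : ℂ) * ψ (n : ZMod r)‖ ^ 2 ≤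
      C * (((N : ℝ) / R + D) * A2 a N) := by
  refine ⟨44, by norm_num, fun a N R D hR hRD => ?_⟩
  have hR0 : (0 : ℝ) < R := by exact_mod_cast hR
  have hA : 0 ≤ A2 a N := sum_nonneg fun _ _ => sq_nonneg _
  set T : ℕ → ℝ := fun r => (r : ℝ) / Nat.totient r *
    ∑ ψ ∈ Pr r, ‖∑ n ∈ Icc 1 N, (a n : ℂ) * ψ (n : ZMod r)‖ ^ 2 with hT
  have hT0 : ∀ r, 0 ≤ T r := fun r => by
    have : 0 ≤ ∑ ψ ∈ Pr r, ‖∑ n ∈ Icc 1 N, (a n : ℂ) * ψ (n : ZMod r)‖ ^ 2 :=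
      sum_nonneg fun _ _ => sq_nonneg _
    exact mul_nonneg (by positivity) this
  have hIoc : Finset.Ioc 0 (0 + N) = Icc 1 N := by
    ext m
    simp only [Finset.mem_Ioc, Finset.mem_Icc]
    omega
  have hls : ∀ m : ℕ, 1 ≤ m → ∑ r ∈ Icc 1 m, T r ≤ 22 * ((N : ℝ) + (m : ℝ) ^ 2) * A2 a N := by
    intro m hm
    have h := mlsP (Icc 1 m) m (fun d hd => Finset.mem_Icc.mp hd) hm (fun n => (a n : ℂ)) 0 N
    rw [hIoc] at h
    have e1 : ∑ n ∈ Icc 1 N, ‖((a n : ℝ) : ℂ)‖ ^ 2 = A2 a N := by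
      refine sum_congr rfl fun n _ => ?_
      rw [Complex.norm_real, Real.norm_eq_abs, sq_abs]
    rw [e1] at h
    refine le_trans (le_of_eq ?_) h
    refine sum_congr rfl fun r _ => ?_
    rw [hT]
    simp only
    rw [mul_sum]
  set M := ⌊D⌋₊ with hMdef
  have hMD : (M : ℝ) ≤ D := Nat.floor_le (hR0.le.trans hRD)
  have hRM : R ≤ M := Nat.le_floor hRD
  have hM0 : (0 : ℝ) < M := by
    have : 1 ≤ M := hR.trans hRM
    exact_mod_cast this
  have h1 := ls_abel_h31 T hT0 N (A2 a N) R hR (fun m hm => hls m (hR.trans hm)) hA M hRM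
  have h2 := hls M (hR.trans hRM)
  have h3 : (∑ r ∈ Icc 1 M, T r) / M ≤ 22 * A2 a N * (N * (1 / M) + M) := by
    rw [div_le_iff₀ hM0]
    refine h2.trans (le_of_eq ?_)
    field_simp
  have h4 : ∑ r ∈ Icc 1 M, ((r : ℝ) / Nat.totient r * min (1 / (r : ℝ)) (1 / (R : ℝ))) *
      ∑ ψ ∈ Pr r, ‖∑ n ∈ Icc 1 N, (a n : ℂ) * ψ (n : ZMod r)‖ ^ 2 =
      ∑ r ∈ Icc 1 M, min (1 / (r : ℝ)) (1 / (R : ℝ)) * T r := by
    refine sum_congr rfl fun r _ => ?_
    rw [hT]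
    ring
  rw [h4]
  calc _ ≤ 22 * A2 a N * (N * (1 / M) + M) +
        22 * A2 a N * (N * (1 / R - 1 / M) + (M - R)) := h1.trans (by linarith)
    _ = 22 * A2 a N * (N * (1 / R) + 2 * M - R) := by ring
    _ ≤ 22 * A2 a N * (2 * (N / R + D)) := by
        refine mul_le_mul_of_nonneg_left ?_ (by positivity)
        have : (N : ℝ) * (1 / R) = N / R := by ring
        have h0 : (0 : ℝ) ≤ N / R := by positivity
        rw [this]
        linarith
    _ = _ := by ring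

theorem card_Pr_h31 (r : ℕ) (hr : 1 ≤ r) : ((Pr r).card : ℝ) ≤ Nat.totient r := by
  have : NeZero r := ⟨by omega⟩
  have h1 : (Pr r).card ≤ Fintype.card (DirichletCharacter ℂ r) := Finset.card_le_univ _
  have h2 : Fintype.card (DirichletCharacter ℂ r) = Nat.totient r := by
    rw [← Nat.card_eq_fintype_card]
    exact DirichletCharacter.card_eq_totient_of_hasEnoughRootsOfUnity ℂ r
  rw [h2] at h1
  exact_mod_cast h1

theorem surplus_pr : ∃ C : ℝ, 0 < C ∧ ∀ (X : ℝ) (Y R : ℕ) (D : ℝ), 3 ≤ X → 1 ≤ R → 1 ≤ Y →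
    (Y : ℝ) ≤ X → (R : ℝ) ≤ D → D ≤ X →
    ∑ Q ∈ Icc 1 Y, SUR X Q R D ≤
      C * Real.log X ^ 3 * ((X / R + D) * A2 Lam ⌊X⌋₊) + C * Real.log X ^ 8 * D := by
  obtain ⟨C1, hC1, h1⟩ := sur_prim
  obtain ⟨C2, hC2, h2⟩ := sur_ls_pr
  refine ⟨C1 * (C2 + 1), by positivity, fun X Y R D hX hR hY hYX hRD hDX => ?_⟩
  have hR0 : (0 : ℝ) < R := by exact_mod_cast hR
  have hD0 : 0 < D := hR0.trans_le hRD
  have hL : 1 ≤ Real.log X := by
    rw [Real.le_log_iff_exp_le (by linarith)]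
    exact (Real.exp_one_lt_d9.le.trans (by norm_num)).trans hX
  set L := Real.log X with hLdef
  have hA : 0 ≤ A2 Lam ⌊X⌋₊ := sum_nonneg fun _ _ => sq_nonneg _
  have hN : (⌊X⌋₊ : ℝ) ≤ X := Nat.floor_le (by linarith)
  have e1 := h1 X Y R D hX hR hY hYX
  have e2 := h2 Lam ⌊X⌋₊ R D hR hRD
  rw [← hLdef] at e1
  have e3 : ∑ r ∈ Icc 1 ⌊D⌋₊, ((r : ℝ) / Nat.totient r *
        min (1 / (r : ℝ)) (1 / (R : ℝ))) * ∑ ψ ∈ Pr r,
          (‖∑ n ∈ Icc 1 ⌊X⌋₊, (Lam n : ℂ) * ψ (n : ZMod r)‖ ^ 2 + L ^ 4) ≤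
      C2 * (((⌊X⌋₊ : ℝ) / R + D) * A2 Lam ⌊X⌋₊) + L ^ 4 * D := by
    have e4 : ∑ r ∈ Icc 1 ⌊D⌋₊, ((r : ℝ) / Nat.totient r *
        min (1 / (r : ℝ)) (1 / (R : ℝ))) * ((Pr r).card * L ^ 4) ≤ L ^ 4 * D := by
      have e5 : ∀ r ∈ Icc 1 ⌊D⌋₊, ((r : ℝ) / Nat.totient r *
        min (1 / (r : ℝ)) (1 / (R : ℝ))) * ((Pr r).card * L ^ 4) ≤ L ^ 4 := by
        intro r hr
        have hr1 := (Finset.mem_Icc.mp hr).1
        have hr0 : (0 : ℝ) < r := by exact_mod_cast hr1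
        have hφ : (0 : ℝ) < Nat.totient r := by exact_mod_cast Nat.totient_pos.mpr hr1
        have hc := card_Pr_h31 r hr1
        calc _ ≤ ((r : ℝ) / Nat.totient r * (1 / (r : ℝ))) * (Nat.totient r * L ^ 4) := by
              gcongr
              exact min_le_left _ _
          _ = L ^ 4 := by field_simp
      calc _ ≤ ∑ r ∈ Icc 1 ⌊D⌋₊, L ^ 4 := sum_le_sum e5
        _ = ⌊D⌋₊ * L ^ 4 := by simp
        _ ≤ D * L ^ 4 := by
            gcongr
            exact Nat.floor_le hD0.le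
        _ = _ := by ring
    refine le_trans (le_of_eq ?_) (add_le_add e2 e4)
    rw [← sum_add_distrib]
    refine sum_congr rfl fun r _ => ?_
    rw [sum_add_distrib, sum_const, nsmul_eq_mul]
    ring
  have e6 : (⌊X⌋₊ : ℝ) / R ≤ X / R := by gcongr
  have hXR : 0 ≤ X / R := by positivity
  have hS : 0 ≤ (X / R + D) * A2 Lam ⌊X⌋₊ := by positivity
  have e7 : L ≤ L ^ 3 := by nlinarith [sq_nonneg (L - 1), sq_nonneg L]
  have e8 : L ^ 5 ≤ L ^ 8 := pow_le_pow_right₀ hL (by norm_num)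
  calc _ ≤ C1 * L * (C2 * (((⌊X⌋₊ : ℝ) / R + D) * A2 Lam ⌊X⌋₊) + L ^ 4 * D) :=
        e1.trans (mul_le_mul_of_nonneg_left e3 (by positivity))
    _ ≤ C1 * L * (C2 * ((X / R + D) * A2 Lam ⌊X⌋₊) + L ^ 4 * D) := by gcongr
    _ = C1 * C2 * L * ((X / R + D) * A2 Lam ⌊X⌋₊) + C1 * L ^ 5 * D := by ring
    _ ≤ C1 * (C2 + 1) * L ^ 3 * ((X / R + D) * A2 Lam ⌊X⌋₊) + C1 * (C2 + 1) * L ^ 8 * D := by
        have t1 : C1 * C2 * L ≤ C1 * (C2 + 1) * L ^ 3 := by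
          have : C1 * C2 * L ≤ C1 * (C2 + 1) * L := by
            apply mul_le_mul_of_nonneg_right _ (by linarith)
            nlinarith
          refine this.trans ?_
          exact mul_le_mul_of_nonneg_left e7 (by positivity)
        have t2 : C1 * L ^ 5 ≤ C1 * (C2 + 1) * L ^ 8 := by
          calc C1 * L ^ 5 ≤ C1 * L ^ 8 := by gcongr
            _ ≤ C1 * (C2 + 1) * L ^ 8 := by
                apply mul_le_mul_of_nonneg_right _ (by positivity)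
                nlinarith
        exact add_le_add (mul_le_mul_of_nonneg_right t1 hS)
          (mul_le_mul_of_nonneg_right t2 hD0.le)

alias sur_ls := sur_ls_pr

alias surplus := surplus_pr

end Pool.Agent.MF
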