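import Pool.Agent.Lib_helper59.MF.Defs
import Pool.Agent.Lib_helper92.HCF.FIE
import Pool.Agent.Lib_helper92.HCF.FIF
import Pool.Agent.Lib_helper92.HCF.DIA
import Pool.Agent.Lib_helper92.HCF.HBM
import Pool.Agent.Lib_helper59.MFF.C3b
import Pool.Agent.Lib_helper59.MFF.C4c
set_option autoImplicit false

namespace Pool.Agent.MF

open Finset Complex Filter Topology MeasureTheory Pool.Agent.Var35 Pool.Agent.Var73 Pool.Agent.HC
open scoped ArithmeticFunction ArithmeticFunction.Moebius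

lemma c5a_term {X : ℝ} {Q R : ℕ} (χ : DirichletCharacter ℂ Q) :
    0 ≤ ‖cc ⌊X⌋₊ χ‖ ^ 2 *
      ∑ d ∈ Q.divisors.filter (fun d => R < d ∧ χ.conductor ∣ d),
        (χ.conductor : ℝ) / Nat.totient d := by
  apply mul_nonneg (by positivity)
  apply Finset.sum_nonneg
  intro d _
  positivity

lemma c5a_sur_nonneg (X : ℝ) (Q R : ℕ) (D : ℝ) : 0 ≤ SUR X Q R D := by
  unfold SUR
  apply mul_nonneg (by positivity)
  apply Finset.sum_nonneg
  intro χ _
  split_ifs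
  · exact c5a_term χ
  · exact le_rfl

lemma c5a_sur_mono (X : ℝ) (Q R : ℕ) {D D' : ℝ} (h : D ≤ D') :
    SUR X Q R D ≤ SUR X Q R D' := by
  unfold SUR
  apply mul_le_mul_of_nonneg_left _ (by positivity)
  apply Finset.sum_le_sum
  intro χ _
  by_cases h1 : (χ.conductor : ℝ) ≤ D
  · rw [if_pos h1, if_pos (h1.trans h)]
  · rw [if_neg h1]
    split_ifs
    · exact c5a_term χ
    · exact le_rfl

/-- the arithmetic of the parameters -/
lemma c5a_par {X L : ℝ} {Y Z T R U : ℕ} (h : Par X L Y Z T R U) :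
    (R : ℝ) ≤ X / Z * L ^ 8 ∧ X / Z * L ^ 8 ≤ X ∧ X / Z * L ^ 8 ≤ 2 * Y / L ^ 11 ∧
      X / R ≤ 2 * Y / L ^ 8 := by
  obtain ⟨hX, hL, hXL, hYX, hY2, hY, hZ1, hZ2, hT1, hT2, hR1, hR2, hU1, hU2, hZ, hT, hR, hU, hZY,
    hTZ, hRZ⟩ := h
  have hL1 : 1 ≤ L := by linarith
  have hL0 : 0 < L := by linarith
  have hX0 : 0 < X := by linarith
  have hZ0 : (0 : ℝ) < Z := by exact_mod_cast hZ
  have hR0 : (0 : ℝ) < R := by exact_mod_cast hR
  have hZYr : (Z : ℝ) ≤ Y := by exact_mod_cast hZY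
  have hY0 : (0 : ℝ) < Y := by linarith
  have hLp : ∀ k : ℕ, 1 ≤ L ^ k := fun k => one_le_pow₀ hL1
  refine ⟨?_, ?_, ?_, ?_⟩
  · calc (R : ℝ) ≤ X / Y * L ^ 8 := hR1
      _ ≤ X / Z * L ^ 8 := by gcongr
  · have h1 : L ^ 8 ≤ Z := by
      have h2 : L ^ 8 * (2 * L ^ 5) ≤ Y := by
        calc L ^ 8 * (2 * L ^ 5) = 2 * L ^ 13 := by ring
          _ ≤ L ^ 11 * L ^ 13 := by
            gcongr
            exact le_trans (by linarith) (le_self_pow₀ hL1 (by norm_num))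
          _ = L ^ 24 := by ring
          _ ≤ Y := hY
      have h3 : L ^ 8 ≤ (Y : ℝ) / (2 * L ^ 5) := by
        rw [le_div_iff₀ (by positivity)]
        exact h2
      exact h3.trans hZ2
    calc X / Z * L ^ 8 ≤ X / Z * Z := by gcongr
      _ = X := by field_simp
  · have h1 : X / Z ≤ 2 * L ^ 5 * X / Y := by
      rw [div_le_div_iff₀ hZ0 hY0]
      rw [div_le_iff₀ (by positivity)] at hZ2
      calc X * Y ≤ X * (Z * (2 * L ^ 5)) := by gcongr
        _ = 2 * L ^ 5 * X * Z := by ring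
    have h2 : 2 * L ^ 5 * X / Y * L ^ 8 ≤ 2 * Y / L ^ 11 := by
      rw [div_mul_eq_mul_div, div_le_div_iff₀ hY0 (by positivity)]
      calc 2 * L ^ 5 * X * L ^ 8 * L ^ 11 = 2 * (X * L ^ 24) := by ring
        _ ≤ 2 * (Y : ℝ) ^ 2 := by gcongr
        _ = 2 * Y * Y := by ring
    calc X / Z * L ^ 8 ≤ 2 * L ^ 5 * X / Y * L ^ 8 := by gcongr
      _ ≤ _ := h2
  · rw [div_le_div_iff₀ hR0 (by positivity)]
    have h1 : X * L ^ 8 ≤ R * (2 * Y) := by
      have h2 : X / Y * L ^ 8 / 2 = (X * L ^ 8) / (2 * Y) := by field_simp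
      rw [h2, div_le_iff₀ (by positivity)] at hR2
      exact hR2
    linarith

theorem chi_low_pr (η : ℝ) (hη : 0 < η) : ∃ C : ℝ, ∀ (X : ℝ) (Y Z T U : ℕ), C ≤ X → C * Y ≤ X →
    Par X (Real.log X) Y Z T (RR X Y) U →
    Big Lam ⌊X⌋₊ Z Y (RR X Y) ≤
      ∑ Q ∈ Icc 1 Y, HH X Q (X / Q * Real.log X ^ 8) + η * X * Y := by
  obtain ⟨Cs, hCs, hs⟩ := surplus
  obtain ⟨CA, hCA, hA⟩ := partA 1 one_pos
  obtain ⟨X1, hd⟩ := diag_pr 1 one_pos
  refine ⟨max (max CA X1) (Real.exp ((10 + 12 * Cs) / η)), fun X Y Z T U hCX hCY hP => ?_⟩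
  have hXA : CA ≤ X := le_trans (le_trans (le_max_left _ _) (le_max_left _ _)) hCX
  have hX1 : X1 ≤ X := le_trans (le_trans (le_max_right _ _) (le_max_left _ _)) hCX
  have hXe : Real.exp ((10 + 12 * Cs) / η) ≤ X := le_trans (le_max_right _ _) hCX
  have hYn : (0 : ℝ) ≤ Y := Nat.cast_nonneg _
  have hCAY : CA * Y ≤ X := le_trans (mul_le_mul_of_nonneg_right
    (le_trans (le_max_left _ _) (le_max_left _ _)) hYn) hCY
  obtain ⟨q1, q2, q3, q4⟩ := c5a_par hP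
  have hP' := hP
  set L := Real.log X with hLd
  set R := RR X Y with hRd
  obtain ⟨hX, hL, hXL, hYX, hY2, hY, hZ1, hZ2, hT1, hT2, hR1, hR2, hU1, hU2, hZ, hT, hR, hU, hZY,
    hTZ, hRZ⟩ := hP'
  have hL1 : 1 ≤ L := by linarith
  have hL0 : 0 < L := by linarith
  have hX0 : 0 < X := by linarith
  have hX3 : 3 ≤ X := by linarith
  have hZ0 : (0 : ℝ) < Z := by exact_mod_cast hZ
  have hR0 : (0 : ℝ) < R := by exact_mod_cast hR
  have hZYr : (Z : ℝ) ≤ Y := by exact_mod_cast hZY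
  have hY0 : (0 : ℝ) < Y := by linarith
  have hY1 : 1 ≤ Y := le_trans hZ hZY
  have hXY : 0 < X * Y := by positivity
  have hLp : ∀ k : ℕ, 1 ≤ L ^ k := fun k => one_le_pow₀ hL1
  have hLη : (10 + 12 * Cs) / η ≤ L := by
    rw [hLd, Real.le_log_iff_exp_le hX0]
    exact hXe
  -- the diagonal
  have hA2 : A2 Lam ⌊X⌋₊ ≤ X * L := by
    have := hd X hX1
    linarith
  have hA20 : 0 ≤ A2 Lam ⌊X⌋₊ := Finset.sum_nonneg fun _ _ => sq_nonneg _
  -- part A
  have hsq : Real.sqrt X * L ^ 12 ≤ Y := by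
    have h1 : (Real.sqrt X * L ^ 12) ^ 2 ≤ (Y : ℝ) ^ 2 := by
      rw [mul_pow, Real.sq_sqrt hX0.le]
      calc X * (L ^ 12) ^ 2 = X * L ^ 24 := by ring
        _ ≤ _ := hY2
    exact le_of_sq_le_sq h1 hYn
  have hHH := hA X Y hXA hsq hCAY
  have hHH2 : ∑ Q ∈ Icc 1 Y, (X * Real.log Q - X * CQ Q) ≤ X * Y * L := by
    calc ∑ Q ∈ Icc 1 Y, (X * Real.log Q - X * CQ Q) ≤ ∑ Q ∈ Icc 1 Y, X * L := by
          apply Finset.sum_le_sum
          intro Q hQ
          rw [mem_Icc] at hQ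
          have h1 : 0 ≤ X * CQ Q := mul_nonneg hX0.le (FIF_cq Q)
          have h2 : Real.log Q ≤ L := by
            rw [hLd]
            apply Real.log_le_log
            · exact_mod_cast hQ.1
            · exact le_trans (by exact_mod_cast hQ.2) hYX
          have h3 : X * Real.log Q ≤ X * L := by gcongr
          linarith
      _ = X * Y * L := by
          rw [Finset.sum_const, Nat.card_Icc, nsmul_eq_mul, Nat.add_sub_cancel]
          ring
  set HS := ∑ Q ∈ Icc 1 Y, HH X Q (X / Q * L ^ 8) with hHS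
  have hHS0 : 0 ≤ HS := Finset.sum_nonneg fun Q _ => HBM_hh_nonneg X Q _
  have hHS1 : HS ≤ X * Y * L + X * Y := by linarith
  -- the surplus
  have hS := hs X Y R (X / Z * L ^ 8) hX3 hR hY1 hYX q1 q2
  set SS := ∑ Q ∈ Icc 1 Y, SUR X Q R (X / Z * L ^ 8) with hSS
  have hSS0 : 0 ≤ SS := Finset.sum_nonneg fun Q _ => c5a_sur_nonneg X Q R _
  have hS1 : SS ≤ 6 * Cs * (X * Y) / L := by
    have s1 : L ^ 3 * ((X / R + X / Z * L ^ 8) * A2 Lam ⌊X⌋₊) ≤ 4 * (X * Y) / L := by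
      calc L ^ 3 * ((X / R + X / Z * L ^ 8) * A2 Lam ⌊X⌋₊)
          ≤ L ^ 3 * ((2 * Y / L ^ 8 + 2 * Y / L ^ 11) * (X * L)) := by
            gcongr
        _ ≤ L ^ 3 * ((2 * Y / L ^ 8 + 2 * Y / L ^ 8) * (X * L)) := by
            have : 2 * (Y : ℝ) / L ^ 11 ≤ 2 * Y / L ^ 8 := by
              apply div_le_div_of_nonneg_left (by positivity) (by positivity)
              exact pow_le_pow_right₀ hL1 (by norm_num)
            gcongr
        _ = 4 * (X * Y) / L ^ 4 := by field_simp; ring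
        _ ≤ 4 * (X * Y) / L := by
            apply div_le_div_of_nonneg_left (by positivity) hL0
            exact le_self_pow₀ hL1 (by norm_num)
    have s2 : L ^ 8 * (X / Z * L ^ 8) ≤ 2 * (X * Y) / L := by
      calc L ^ 8 * (X / Z * L ^ 8) ≤ L ^ 8 * (2 * Y / L ^ 11) := by gcongr
        _ = 2 * (1 * Y) / L ^ 3 := by field_simp
        _ ≤ 2 * (X * Y) / L ^ 3 := by
            have : (1 : ℝ) ≤ X := by linarith
            gcongr
        _ ≤ 2 * (X * Y) / L := by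
            apply div_le_div_of_nonneg_left (by positivity) hL0
            exact le_self_pow₀ hL1 (by norm_num)
    calc SS ≤ Cs * L ^ 3 * ((X / R + X / Z * L ^ 8) * A2 Lam ⌊X⌋₊)
          + Cs * L ^ 8 * (X / Z * L ^ 8) := hS
      _ = Cs * (L ^ 3 * ((X / R + X / Z * L ^ 8) * A2 Lam ⌊X⌋₊))
          + Cs * (L ^ 8 * (X / Z * L ^ 8)) := by ring
      _ ≤ Cs * (4 * (X * Y) / L) + Cs * (2 * (X * Y) / L) := by gcongr
      _ = 6 * Cs * (X * Y) / L := by ring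
  -- the sum over the moduli
  have hsub : Ioc Z Y ⊆ Icc 1 Y := by
    intro Q hQ
    rw [mem_Ioc] at hQ
    rw [mem_Icc]
    omega
  have hK : (1 : ℝ) ≤ L ^ 2 := hLp 2
  have hbig : Big Lam ⌊X⌋₊ Z Y R ≤ (1 + 1 / L ^ 2) * (HS + SS) +
      Y * ((1 + L ^ 2) * (4 * L ^ 4)) := by
    unfold Big
    have e1 : ∀ Q ∈ Ioc Z Y, (1 / (Q : ℝ)) *
        ∑ l ∈ (range Q).filter (fun l : ℕ => R < den l Q), Sq Lam ⌊X⌋₊ (l / Q) ≤
        (1 + 1 / L ^ 2) * (HH X Q (X / Q * L ^ 8) + SUR X Q R (X / Z * L ^ 8)) +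
          (1 + L ^ 2) * (4 * L ^ 4) := by
      intro Q hQ
      rw [mem_Ioc] at hQ
      have hQ1 : 1 ≤ Q := by omega
      have hQY : (Q : ℝ) ≤ Y := by exact_mod_cast hQ.2
      have hZQ : (Z : ℝ) ≤ Q := by exact_mod_cast hQ.1.le
      have hQ0 : (0 : ℝ) < Q := by exact_mod_cast hQ1
      have h1 := per_q X hX3 Q R hQ1 (hQY.trans hYX) (X / Q * L ^ 8) (L ^ 2) hK
      have h2 : SUR X Q R (X / Q * L ^ 8) ≤ SUR X Q R (X / Z * L ^ 8) := by
        apply c5a_sur_mono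
        gcongr
      have h3 : (1 + 1 / L ^ 2) * (HH X Q (X / Q * L ^ 8) + SUR X Q R (X / Q * L ^ 8)) ≤
          (1 + 1 / L ^ 2) * (HH X Q (X / Q * L ^ 8) + SUR X Q R (X / Z * L ^ 8)) := by
        gcongr
      linarith
    refine (Finset.sum_le_sum e1).trans ?_
    rw [Finset.sum_add_distrib, ← Finset.mul_sum, Finset.sum_add_distrib, Finset.sum_const,
      Nat.card_Ioc, nsmul_eq_mul]
    have e2 : ∑ Q ∈ Ioc Z Y, HH X Q (X / Q * L ^ 8) ≤ HS :=
      Finset.sum_le_sum_of_subset_of_nonneg hsub fun Q _ _ => HBM_hh_nonneg X Q _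
    have e3 : ∑ Q ∈ Ioc Z Y, SUR X Q R (X / Z * L ^ 8) ≤ SS :=
      Finset.sum_le_sum_of_subset_of_nonneg hsub fun Q _ _ => c5a_sur_nonneg X Q R _
    have e4 : ((Y - Z : ℕ) : ℝ) ≤ Y := by exact_mod_cast Nat.sub_le Y Z
    gcongr
  -- conclusion
  have f1 : 1 / L ^ 2 * HS ≤ 2 * (X * Y) / L := by
    calc 1 / L ^ 2 * HS ≤ 1 / L ^ 2 * (X * Y * L + X * Y) := by gcongr
      _ ≤ 1 / L ^ 2 * (X * Y * L + X * Y * L) := by
          have : X * Y ≤ X * Y * L := le_mul_of_one_le_right hXY.le hL1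
          gcongr
      _ = 2 * (X * Y) / L := by field_simp; ring
  have f2 : (1 + 1 / L ^ 2) * SS ≤ 12 * Cs * (X * Y) / L := by
    have h1 : 1 / L ^ 2 ≤ 1 := by
      rw [div_le_one (by positivity)]
      exact hK
    calc (1 + 1 / L ^ 2) * SS ≤ (1 + 1) * (6 * Cs * (X * Y) / L) := by gcongr
      _ = 12 * Cs * (X * Y) / L := by ring
  have f3 : Y * ((1 + L ^ 2) * (4 * L ^ 4)) ≤ 8 * (X * Y) / L := by
    rw [le_div_iff₀ hL0]
    calc Y * ((1 + L ^ 2) * (4 * L ^ 4)) * L ≤ Y * ((L ^ 2 + L ^ 2) * (4 * L ^ 4)) * L := by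
          gcongr
      _ = 8 * (L ^ 7 * Y) := by ring
      _ ≤ 8 * (L ^ 24 * Y) := by
          gcongr
          norm_num
      _ ≤ 8 * (Y * Y) := by gcongr
      _ ≤ 8 * (X * Y) := by gcongr
  have f4 : (10 + 12 * Cs) * (X * Y) / L ≤ η * X * Y := by
    rw [div_le_iff₀ hL0]
    rw [div_le_iff₀ hη] at hLη
    calc (10 + 12 * Cs) * (X * Y) ≤ (L * η) * (X * Y) := by gcongr
      _ = η * X * Y * L := by ring
  have f5 : (1 + 1 / L ^ 2) * (HS + SS) = HS + 1 / L ^ 2 * HS + (1 + 1 / L ^ 2) * SS := by ring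
  have f6 : 2 * (X * Y) / L + 12 * Cs * (X * Y) / L + 8 * (X * Y) / L =
      (10 + 12 * Cs) * (X * Y) / L := by ring
  linarith

alias chi_low := chi_low_pr

end Pool.Agent.MF
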