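import Pool.Agent.Lib_helper59.MF.Defs
import Pool.Agent.Lib_helper92.HCF.SML
import Pool.Agent.Lib_helper92.HCF.DIA
import Pool.Agent.Lib_helper92.HCF.FID
set_option autoImplicit false

namespace Pool.Agent.MF

open Finset Complex Filter Topology MeasureTheory Pool.Agent.Var35 Pool.Agent.Var73 Pool.Agent.HC
open scoped ArithmeticFunction ArithmeticFunction.Moebius

theorem chi_up_pr (η : ℝ) (hη : 0 < η) : ∃ C : ℝ, ∀ (X : ℝ) (Y Z T U : ℕ), C ≤ X →
    Par X (Real.log X) Y Z T (RR X Y) U →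
    ∑ Q ∈ Icc 1 Y, HH X Q (X / Q * Real.log X ^ 8) ≤
      Big Lam ⌊X⌋₊ Z Y (RR X Y) + η * X * Y := by
  obtain ⟨Cs, hCs, hs⟩ := small
  obtain ⟨X1, hd⟩ := diag 1 one_pos
  have hevX := Real.tendsto_log_atTop.eventually (FID_pow (6 * Cs) 3 (by norm_num) η hη)
  obtain ⟨X2, hX2⟩ := eventually_atTop.mp hevX
  refine ⟨max X1 X2, fun X Y Z T U hCX hP => ?_⟩
  have hX1' : X1 ≤ X := le_trans (le_max_left _ _) hCX
  have hX2' : X2 ≤ X := le_trans (le_max_right _ _) hCX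
  have g1 := hX2 X hX2'
  have hA : A2 Lam ⌊X⌋₊ ≤ X * Real.log X := by
    have := hd X hX1'
    linarith
  have hsm := FIB_small hP Cs hCs hs hA
  obtain ⟨hX, hL, hXL, hYX, hY2, hY, hZ1, hZ2, hT1, hT2, hR1, hR2, hU1, hU2, hZ, hT, hR, hU, hZY,
    hTZ, hRZ⟩ := hP
  have hX0 : 0 < X := by linarith
  have hY0 : (0 : ℝ) < Y := by
    have : (1 : ℝ) ≤ Z := by exact_mod_cast hZ
    have h2 : (Z : ℝ) ≤ Y := by exact_mod_cast hZY
    linarith
  have hsplit : ∑ Q ∈ Icc 1 Y, HH X Q (X / Q * Real.log X ^ 8) =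
      ∑ Q ∈ Icc 1 Z, HH X Q (X / Q * Real.log X ^ 8) +
        ∑ Q ∈ Ioc Z Y, HH X Q (X / Q * Real.log X ^ 8) := by
    rw [← Finset.sum_union]
    · congr 1
      ext Q
      simp only [Finset.mem_union, Finset.mem_Icc, Finset.mem_Ioc]
      omega
    · rw [Finset.disjoint_left]
      intro Q h1 h2
      simp only [Finset.mem_Icc, Finset.mem_Ioc] at h1 h2
      omega
  have hbig : ∑ Q ∈ Ioc Z Y, HH X Q (X / Q * Real.log X ^ 8) ≤ Big Lam ⌊X⌋₊ Z Y (RR X Y) := by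
    unfold Big
    apply Finset.sum_le_sum
    intro Q hQ
    rw [Finset.mem_Ioc] at hQ
    have hQ1 : 1 ≤ Q := by omega
    have hQ0 : (0 : ℝ) < Q := by exact_mod_cast hQ1
    have hQY : (Q : ℝ) ≤ Y := by exact_mod_cast hQ.2
    apply FIB_hh_le X Q (RR X Y) hQ1
    calc ((RR X Y : ℕ) : ℝ) ≤ X / Y * Real.log X ^ 8 := hR1
      _ ≤ X / Q * Real.log X ^ 8 := by gcongr
  have hfin : 6 * Cs * (X * Y) / Real.log X ^ 3 ≤ η * X * Y := by
    calc 6 * Cs * (X * Y) / Real.log X ^ 3 = (6 * Cs / Real.log X ^ 3) * (X * Y) := by ring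
      _ ≤ η * (X * Y) := by gcongr
      _ = η * X * Y := by ring
  rw [hsplit]
  linarith

alias chi_up := chi_up_pr

end Pool.Agent.MF
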