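import Pool.Agent.Lib_helper59.MF.Defs
import Pool.Agent.Lib_helper92.HCF.FIA
set_option autoImplicit false

namespace Pool.Agent.MF

open Finset Complex Filter Topology MeasureTheory Pool.Agent.Var35 Pool.Agent.Var73 Pool.Agent.HC
open scoped ArithmeticFunction ArithmeticFunction.Moebius

theorem par_exists_pr : ∃ C : ℝ, ∀ (X : ℝ) (Y : ℕ), C ≤ X → Real.sqrt X * Real.log X ^ 12 ≤ Y →
    (Y : ℝ) ≤ X → ∃ Z T U : ℕ, Par X (Real.log X) Y Z T (RR X Y) U := by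
  refine ⟨Real.exp 100 + 100, fun X Y hX hY hYX => ?_⟩
  have hX0 : 0 < X := lt_of_lt_of_le (by positivity) hX
  have hL : 100 ≤ Real.log X := by
    rw [Real.le_log_iff_exp_le hX0]; linarith [Real.exp_pos 100]
  set L := Real.log X with hLd
  have hL0 : 0 < L := by linarith
  have hL1 : 1 ≤ L := by linarith
  have hsq : Real.sqrt X ^ 2 = X := Real.sq_sqrt hX0.le
  have hY2 : X * L ^ 24 ≤ (Y : ℝ) ^ 2 := by
    have h0 : 0 ≤ Real.sqrt X * L ^ 12 := by positivity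
    calc X * L ^ 24 = (Real.sqrt X * L ^ 12) ^ 2 := by rw [mul_pow, hsq]; ring
      _ ≤ (Y : ℝ) ^ 2 := pow_le_pow_left₀ h0 hY 2
  have hY0 : (0 : ℝ) < Y := by
    have : 0 < Real.sqrt X * L ^ 12 := by
      have := Real.sqrt_pos.mpr hX0
      positivity
    linarith
  have hYL : L ^ 24 ≤ Y := by
    have h1 : (Y : ℝ) * L ^ 24 ≤ Y * Y := by
      calc (Y : ℝ) * L ^ 24 ≤ X * L ^ 24 := by gcongr
        _ ≤ (Y : ℝ) ^ 2 := hY2
        _ = Y * Y := by ring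
    exact le_of_mul_le_mul_left h1 hY0
  have hLp : ∀ k : ℕ, 1 ≤ L ^ k := fun k => one_le_pow₀ hL1
  have hLL : ∀ k : ℕ, 1 ≤ k → 100 ≤ L ^ k := fun k hk =>
    le_trans hL (le_self_pow₀ hL1 (by omega))
  have hsplit : ∀ k : ℕ, k ≤ 23 → 100 ≤ (Y : ℝ) / L ^ k := by
    intro k hk
    rw [le_div_iff₀ (by positivity)]
    calc 100 * L ^ k ≤ L ^ (24 - k) * L ^ k := by
          gcongr
          exact hLL _ (by omega)
      _ = L ^ 24 := by rw [← pow_add]; congr 1; omega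
      _ ≤ Y := hYL
  have hZ5 := hsplit 5 (by norm_num)
  have hT11 := hsplit 11 (by norm_num)
  set Z := ⌊(Y : ℝ) / L ^ 5⌋₊ with hZd
  set T := ⌊(Y : ℝ) / L ^ 11⌋₊ with hTd
  set R := ⌊X / Y * L ^ 8⌋₊ with hRd
  set U := ⌊X / Z⌋₊ with hUd
  have hXY : 1 ≤ X / Y := by rw [le_div_iff₀ hY0]; linarith
  have hR8 : 100 ≤ X / Y * L ^ 8 := by
    calc (100 : ℝ) ≤ 1 * L ^ 8 := by rw [one_mul]; exact hLL 8 (by norm_num)
      _ ≤ X / Y * L ^ 8 := by gcongr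
  have hZ2 : (Y : ℝ) / (2 * L ^ 5) ≤ Z := by
    have := FIA_floor (x := (Y : ℝ) / L ^ 5) (by linarith)
    calc (Y : ℝ) / (2 * L ^ 5) = (Y : ℝ) / L ^ 5 / 2 := by field_simp
      _ ≤ (Z : ℝ) := this
  have hT2 : (Y : ℝ) / (2 * L ^ 11) ≤ T := by
    have := FIA_floor (x := (Y : ℝ) / L ^ 11) (by linarith)
    calc (Y : ℝ) / (2 * L ^ 11) = (Y : ℝ) / L ^ 11 / 2 := by field_simp
      _ ≤ (T : ℝ) := this
  have hZ1 : (Z : ℝ) ≤ Y / L ^ 5 := Nat.floor_le (by positivity)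
  have hT1 : (T : ℝ) ≤ Y / L ^ 11 := Nat.floor_le (by positivity)
  have hR1 : (R : ℝ) ≤ X / Y * L ^ 8 := Nat.floor_le (by positivity)
  have hR2 : X / Y * L ^ 8 / 2 ≤ R := FIA_floor (by linarith)
  have hZ0 : (0 : ℝ) < Z := by
    refine lt_of_lt_of_le ?_ hZ2
    positivity
  have hZYr : (Z : ℝ) ≤ Y := hZ1.trans (div_le_self hY0.le (hLp 5))
  have hXZ : L ^ 5 ≤ X / Z := by
    rw [le_div_iff₀ hZ0]
    calc L ^ 5 * (Z : ℝ) ≤ L ^ 5 * ((Y : ℝ) / L ^ 5) := by gcongr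
      _ = (Y : ℝ) := by field_simp
      _ ≤ X := hYX
  have hU1 : (U : ℝ) ≤ X / Z := Nat.floor_le (by positivity)
  have hU2 : X / Z / 2 ≤ U := FIA_floor (by linarith [hLL 5 (by norm_num)])
  have hTZ : T ≤ Z := by
    refine Nat.floor_mono ?_
    apply div_le_div_of_nonneg_left hY0.le (by positivity)
    exact pow_le_pow_right₀ hL1 (by norm_num)
  have hRZ : R ≤ Z := by
    rw [hZd, Nat.le_floor_iff (by positivity)]
    refine hR1.trans ?_
    rw [le_div_iff₀ (by positivity)]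
    have : X / Y * L ^ 8 * L ^ 5 = X * L ^ 13 / Y := by field_simp
    rw [this, div_le_iff₀ hY0]
    calc X * L ^ 13 ≤ X * L ^ 24 := by
          gcongr
          · norm_num
      _ ≤ (Y : ℝ) ^ 2 := hY2
      _ = Y * Y := by ring
  have hRR : RR X Y = R := rfl
  rw [hRR]
  refine ⟨Z, T, U, ⟨rfl, hL, by linarith [Real.exp_pos 100], hYX, hY2, hYL, hZ1, hZ2, hT1, hT2,
    hR1, hR2, hU1, hU2, ?_, ?_, ?_, ?_, ?_, hTZ, hRZ⟩⟩
  · exact Nat.one_le_iff_ne_zero.2 (by intro h; rw [h] at hZ0; simp at hZ0)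
  · rw [hTd]; exact Nat.le_floor (by push_cast; linarith)
  · rw [hRd]; exact Nat.le_floor (by push_cast; linarith)
  · rw [hUd]; exact Nat.le_floor (by push_cast; linarith [hLL 5 (by norm_num)])
  · exact_mod_cast hZYr

alias par_exists := par_exists_pr

end Pool.Agent.MF
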