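import Pool.Agent.Lib_helper59.MF.Defs
import Pool.Agent.Lib_helper92.HCF.GAL
set_option autoImplicit false

namespace Pool.Agent.MF

open Finset Complex Filter Topology MeasureTheory Pool.Agent.Var35 Pool.Agent.Var73 Pool.Agent.HC
open scoped ArithmeticFunction ArithmeticFunction.Moebius

lemma G1_inj (Q : ℕ) : Set.InjOn (fun x : ℕ × ℕ => (x.1 : ℤ) + ((x.2 : ℤ) - 1) * Q)
      ((range Q ×ˢ range 3 : Finset (ℕ × ℕ)) : Set (ℕ × ℕ)) := by
  rintro ⟨a, b⟩ ha ⟨c, d⟩ hc h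
  simp only [Finset.coe_product, Set.mem_prod, Finset.mem_coe, Finset.mem_range] at ha hc
  simp only at h
  have hb : b = d := by
    rcases lt_trichotomy b d with h' | h' | h'
    · exfalso
      have h1 : (b : ℤ) + 1 ≤ d := by exact_mod_cast h'
      have h2 : ((d : ℤ) - b) * Q ≥ 1 * Q := by
        apply mul_le_mul_of_nonneg_right (by linarith) (by positivity)
      have h3 : (a : ℤ) < Q := by exact_mod_cast ha.1
      have h4 : (0 : ℤ) ≤ c := by positivity
      nlinarith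
    · exact h'
    · exfalso
      have h1 : (d : ℤ) + 1 ≤ b := by exact_mod_cast h'
      have h2 : ((b : ℤ) - d) * Q ≥ 1 * Q := by
        apply mul_le_mul_of_nonneg_right (by linarith) (by positivity)
      have h3 : (c : ℤ) < Q := by exact_mod_cast hc.1
      have h4 : (0 : ℤ) ≤ a := by positivity
      nlinarith
  subst hb
  have : (a : ℤ) = c := by linarith
  have : a = c := by exact_mod_cast this
  subst this; rfl

lemma G1_cnt (R Q : ℕ) (hQ : 1 ≤ Q) (δ t : ℝ) (hδ1 : δ ≤ 1) (h1 : t ≤ 1) :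
    cnt R Q δ t ≤ ∑ l ∈ range Q, ∑ k ∈ range 3, FOL_f R Q δ t ((l : ℤ) + ((k : ℤ) - 1) * Q) := by
  have hQ0 : (0 : ℝ) < Q := by exact_mod_cast hQ
  have hQz : (0 : ℤ) < Q := by exact_mod_cast hQ
  have h2 : ∑ l ∈ range Q, ∑ k ∈ range 3, FOL_f R Q δ t ((l : ℤ) + ((k : ℤ) - 1) * Q) =
      ∑ y ∈ (range Q ×ˢ range 3).image (fun x : ℕ × ℕ => (x.1 : ℤ) + ((x.2 : ℤ) - 1) * Q),
        FOL_f R Q δ t y := by
    rw [Finset.sum_image (G1_inj Q), Finset.sum_product]
  rw [h2]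
  have h3 : cnt R Q δ t = ∑ y ∈ Icc (-(Q : ℤ)) (2 * Q - 1), FOL_f R Q δ t y := by
    unfold cnt
    have hsub : Icc (-(Q : ℤ)) (2 * Q - 1) ⊆ Icc (-(Q : ℤ)) (2 * Q) := by
      apply Finset.Icc_subset_Icc <;> linarith
    rw [← Finset.sum_subset hsub]
    · rfl
    · intro y hy hy'
      rw [Finset.mem_Icc] at hy hy'
      have hy2 : y = 2 * Q := by
        by_contra hne
        apply hy'
        exact ⟨hy.1, by omega⟩
      apply if_neg
      rintro ⟨_, h4⟩
      rw [hy2] at h4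
      push_cast at h4
      rw [mul_div_assoc, div_self hQ0.ne', mul_one, abs_le] at h4
      linarith [h4.2]
  rw [h3]
  apply Finset.sum_le_sum_of_subset_of_nonneg
  · intro y hy
    rw [Finset.mem_Icc] at hy
    rw [Finset.mem_image]
    have e1 := Int.emod_add_mul_ediv y Q
    have e2 := Int.emod_nonneg y hQz.ne'
    have e3 := Int.emod_lt_of_pos y hQz
    have e4 : -1 ≤ y / Q := by
      by_contra hlt
      have h5 : y / Q ≤ -2 := by omega
      have h6 : (Q : ℤ) * (y / Q) ≤ Q * (-2) := mul_le_mul_of_nonneg_left h5 hQz.le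
      linarith [hy.1]
    have e5 : y / Q ≤ 1 := by
      by_contra hlt
      have h5 : 2 ≤ y / Q := by omega
      have h6 : (Q : ℤ) * 2 ≤ Q * (y / Q) := mul_le_mul_of_nonneg_left h5 hQz.le
      linarith [hy.2]
    refine ⟨((y % Q).toNat, (y / Q + 1).toNat), ?_, ?_⟩
    · rw [Finset.mem_product, Finset.mem_range, Finset.mem_range]
      constructor
      · simp only
        omega
      · simp only
        omega
    · simp only
      rw [Int.toNat_of_nonneg e2, Int.toNat_of_nonneg (by omega)]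
      linarith
  · intro y _ _
    exact FOL_f_nonneg R Q δ t y

lemma G1_fold (g : ℝ → ℝ) (hc : Continuous g) (h0 : ∀ t, 0 ≤ g t) (h1 : ∀ t, g (t + 1) = g t)
    (R Q : ℕ) (hQ : 1 ≤ Q) (δ : ℝ) (hδ : 0 < δ) (hδ1 : δ ≤ 1) :
    ∫ t in (0 : ℝ)..1, g t * cnt R Q δ t ≤ ∑ l ∈ (range Q).filter (fun l : ℕ => R < den l Q),
      ∫ t in ((l : ℝ) / Q - δ / 2)..((l : ℝ) / Q + δ / 2), g t := by
  have hi : ∀ l ∈ range Q, IntervalIntegrable (fun t => ∑ k ∈ range 3,
      g t * FOL_f R Q δ t ((l : ℤ) + ((k : ℤ) - 1) * Q)) volume 0 1 := by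
    intro l _
    exact FOL_sum _ _ (fun k _ => FOL_int g hc R Q δ _)
  have hA : ∫ t in (0 : ℝ)..1, g t * cnt R Q δ t ≤ ∫ t in (0 : ℝ)..1, ∑ l ∈ range Q,
      ∑ k ∈ range 3, g t * FOL_f R Q δ t ((l : ℤ) + ((k : ℤ) - 1) * Q) := by
    apply intervalIntegral.integral_mono_on zero_le_one (gal_mul_int g hc R Q δ 0 1)
      (FOL_sum _ _ hi)
    intro t ht
    have h2 := G1_cnt R Q hQ δ t hδ1 ht.2
    calc g t * cnt R Q δ t ≤ g t * ∑ l ∈ range Q, ∑ k ∈ range 3,
          FOL_f R Q δ t ((l : ℤ) + ((k : ℤ) - 1) * Q) := mul_le_mul_of_nonneg_left h2 (h0 t)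
      _ = _ := by
          rw [Finset.mul_sum]
          refine Finset.sum_congr rfl fun l _ => ?_
          rw [Finset.mul_sum]
  refine hA.trans (le_of_eq ?_)
  rw [intervalIntegral.integral_finsetSum hi, Finset.sum_filter]
  refine Finset.sum_congr rfl fun l hl => ?_
  rw [intervalIntegral.integral_finsetSum (fun k _ => FOL_int g hc R Q δ _)]
  by_cases hR : R < den l Q
  · rw [if_pos hR]
    exact (FOL_one g hc h1 R Q hQ δ hδ hδ1 l (Finset.mem_range.mp hl) hR).symm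
  · rw [if_neg hR]
    refine Finset.sum_eq_zero fun k _ => ?_
    have : (fun t => g t * FOL_f R Q δ t ((l : ℤ) + ((k : ℤ) - 1) * Q)) = fun _ => (0 : ℝ) := by
      funext t
      unfold FOL_f
      rw [if_neg, mul_zero]
      rintro ⟨h2, _⟩
      rw [FOL_den] at h2
      exact hR h2
    rw [this]
    simp

/-- lower Sobolev inequality -/
lemma G1_sob (g g' : ℝ → ℝ) (hg : ∀ x, HasDerivAt g (g' x) x) (hc : Continuous g') (δ x : ℝ)
    (hδ : 0 < δ) :
    (1 / δ) * (∫ t in (x - δ / 2)..(x + δ / 2), g t) -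
      ∫ t in (x - δ / 2)..(x + δ / 2), |g' t| ≤ g x := by
  have h := sob (fun y => - g y) (fun y => - g' y) (fun y => (hg y).neg) hc.neg δ x hδ
  rw [intervalIntegral.integral_neg] at h
  simp only [abs_neg] at h
  linarith

/-- the lower half of the Gallagher-Sobolev inequality -/
theorem gal_low_pr (a : ℕ → ℝ) (N Z Y R : ℕ) (δ M : ℝ) (hδ : 0 < δ) (hδ1 : δ ≤ 1)
    (hM : ∀ t, 0 ≤ t → t ≤ 1 → W Z Y R δ t ≤ M) :
    (1 / δ) * (∫ t in (0 : ℝ)..1, Sq a N t * W Z Y R δ t) - M * (4 * Real.pi * N * A2 a N) ≤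
      Big a N Z Y R := by
  obtain ⟨g', hgc, hgd, hgp, hgi⟩ := sq_deriv a N
  have hSqc : Continuous (Sq a N) := by
    rw [continuous_iff_continuousAt]
    intro x
    exact (hgd x).continuousAt
  have hSq0 : ∀ t, 0 ≤ Sq a N t := fun t => by unfold Sq; positivity
  have hM0 : 0 ≤ M := le_trans (gal_W_nonneg Z Y R δ 0) (hM 0 le_rfl zero_le_one)
  have hac : Continuous (fun t => |g' t|) := hgc.abs
  have key : ∀ Q ∈ Ioc Z Y,
      (1 / δ) * ((1 / (Q : ℝ)) * (∫ t in (0 : ℝ)..1, Sq a N t * cnt R Q δ t)) -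
      (1 / (Q : ℝ)) * (∑ l ∈ (range Q).filter (fun l : ℕ => R < den l Q),
        ∫ t in ((l : ℝ) / Q - δ / 2)..((l : ℝ) / Q + δ / 2), |g' t|) ≤ (1 / (Q : ℝ)) *
      ∑ l ∈ (range Q).filter (fun l : ℕ => R < den l Q), Sq a N (l / Q) := by
    intro Q hQ
    have hQ1 : 1 ≤ Q := by
      have := (Finset.mem_Ioc.mp hQ).1
      omega
    have hQ0 : (0 : ℝ) ≤ 1 / (Q : ℝ) := by positivity
    have f1 := G1_fold (Sq a N) hSqc hSq0 (sq_basic a N).1 R Q hQ1 δ hδ hδ1
    have f3 : ∑ l ∈ (range Q).filter (fun l : ℕ => R < den l Q),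
          ((1 / δ) * (∫ t in ((l : ℝ) / Q - δ / 2)..((l : ℝ) / Q + δ / 2), Sq a N t) -
          ∫ t in ((l : ℝ) / Q - δ / 2)..((l : ℝ) / Q + δ / 2), |g' t|) ≤
        ∑ l ∈ (range Q).filter (fun l : ℕ => R < den l Q), Sq a N (l / Q) := by
      apply Finset.sum_le_sum
      intro l _
      exact G1_sob (Sq a N) g' hgd hgc δ ((l : ℝ) / Q) hδ
    rw [Finset.sum_sub_distrib, ← Finset.mul_sum] at f3
    have hd0 : (0 : ℝ) ≤ 1 / δ := by positivity
    have f4 := mul_le_mul_of_nonneg_left f1 hd0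
    have f5 := mul_le_mul_of_nonneg_left (le_trans (sub_le_sub_right f4 _) f3) hQ0
    refine le_trans (le_of_eq ?_) f5
    ring
  have key2 : ∀ Q ∈ Ioc Z Y, (1 / (Q : ℝ)) *
      (∑ l ∈ (range Q).filter (fun l : ℕ => R < den l Q),
        ∫ t in ((l : ℝ) / Q - δ / 2)..((l : ℝ) / Q + δ / 2), |g' t|) ≤
      (1 / (Q : ℝ)) * (∫ t in (0 : ℝ)..1, |g' t| * cnt R Q δ t) := by
    intro Q hQ
    have hQ1 : 1 ≤ Q := by
      have := (Finset.mem_Ioc.mp hQ).1
      omega
    have hQ0 : (0 : ℝ) ≤ 1 / (Q : ℝ) := by positivity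
    exact mul_le_mul_of_nonneg_left (fold (fun t => |g' t|) hac (fun t => abs_nonneg _)
      (fun t => by simp only [hgp]) R Q hQ1 δ hδ hδ1) hQ0
  have h2 : (1 / δ) * (∫ t in (0 : ℝ)..1, Sq a N t * W Z Y R δ t) -
      (∫ t in (0 : ℝ)..1, |g' t| * W Z Y R δ t) ≤ Big a N Z Y R := by
    have e1 := Finset.sum_le_sum key
    rw [Finset.sum_sub_distrib, ← Finset.mul_sum, gal_W_eq _ hSqc] at e1
    have e2 := Finset.sum_le_sum key2
    rw [gal_W_eq _ hac] at e2
    unfold Big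
    linarith
  have h3 : ∫ t in (0 : ℝ)..1, |g' t| * W Z Y R δ t ≤ ∫ t in (0 : ℝ)..1, |g' t| * M := by
    apply intervalIntegral.integral_mono_on zero_le_one (gal_W_int _ hac Z Y R δ)
      ((hac.mul continuous_const).intervalIntegrable _ _)
    intro t ht
    exact mul_le_mul_of_nonneg_left (hM t ht.1 ht.2) (abs_nonneg _)
  rw [intervalIntegral.integral_mul_const] at h3
  have h4 : (∫ t in (0 : ℝ)..1, |g' t|) * M ≤ M * (4 * Real.pi * N * A2 a N) := by
    rw [mul_comm]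
    exact mul_le_mul_of_nonneg_left hgi hM0
  linarith

alias gal_low := gal_low_pr

end Pool.Agent.MF
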