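import Pool.Agent.Lib_helper59.MF.Defs
import Pool.Agent.Lib_helper92.HCF.HOL
import Pool.Agent.Lib_helper92.HCF.MJR
import Pool.Agent.Lib_helper59.MFF.G4a
import Pool.Agent.Lib_helper59.MFF.G4b
/-! MF, block G5a: upper bound for the integral against the density. -/

set_option autoImplicit false

namespace Pool.Agent.MF

open Finset Complex Filter Topology MeasureTheory Pool.Agent.Var35 Pool.Agent.Var73 Pool.Agent.HC
open scoped ArithmeticFunction ArithmeticFunction.Moebius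

theorem int_up_pr (a : ℕ → ℝ) (N Z Y R : ℕ) (δ E : ℝ) (Δ : ℕ → ℝ) (hR : 2 ≤ R) (hδ : 0 < δ)
    (hE : 0 ≤ E) (hΔ0 : ∀ q ∈ Icc 1 R, 0 ≤ Δ q) (hΔ : ∀ q ∈ Icc 1 R, 2 * Δ q * q * R ≤ 1)
    (hU : ∀ t, W Z Y R δ t ≤ Y * δ + E)
    (hA : ∀ q ∈ Icc 1 R, ∀ c : ℤ, IsCoprime c (q : ℤ) → ∀ t : ℝ, |t - c / q| ≤ Δ q →
      W Z Y R δ t ≤ Y * δ - Kq Y q δ (t - c / q) + E) :
    ∫ t in (0 : ℝ)..1, Sq a N t * W Z Y R δ t ≤
      (Y * δ + E) * A2 a N - SA (Sq a N) R Δ (fun q => Kq Y q δ) := by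
  have hY : (0 : ℝ) ≤ (Y : ℝ) := Nat.cast_nonneg _
  have hfc : Continuous (Sq a N) := hol_sq_cont a N
  have hf0 : ∀ t, 0 ≤ Sq a N t := hol_sq_nonneg a N
  obtain ⟨hARi, hARe⟩ := arc_sum (Sq a N) hfc (sq_basic_pr a N).1 R hR Δ hΔ0 hΔ
    (fun q => Kq Y q δ)
    (fun q hq => (hol_kq_cont Y hY q (Finset.mem_Icc.mp hq).1 δ).measurable) (Y * δ)
    (fun q hq β => by
      obtain ⟨h1, h2⟩ := MJR_Kq_bd Y hY q (Finset.mem_Icc.mp hq).1 δ hδ.le β
      rw [abs_of_nonneg h1]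
      exact h2)
  have hpt : ∀ t, W Z Y R δ t ≤ (Y * δ + E) - AR R Δ (fun q => Kq Y q δ) t := by
    intro t
    by_cases hex : ∃ x ∈ CT R, |t - (x.2 : ℝ) / x.1| ≤ Δ x.1
    · obtain ⟨x, hx, hxt⟩ := hex
      rw [arc_one R hR Δ hΔ0 hΔ _ t x hx hxt]
      obtain ⟨h1, h2⟩ := arc_ct R (by omega) x hx
      have h3 : ((x.2 : ℤ) : ℝ) = (x.2 : ℝ) := by simp
      have h4 := hA x.1 h1 (x.2 : ℤ) h2 t (by rw [h3]; exact hxt)
      rw [h3] at h4
      linarith
    · push Not at hex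
      rw [arc_zero R Δ _ t hex]
      linarith [hU t]
  have hWi : IntervalIntegrable (fun t => Sq a N t * W Z Y R δ t) volume 0 1 := by
    refine IntervalIntegrable.continuousOn_mul (f := W Z Y R δ) ?_ hfc.continuousOn
    refine IntervalIntegrable.mono_fun (f := fun _ => (Y * δ + E : ℝ)) intervalIntegrable_const
      (hol_w_meas Z Y R δ).aestronglyMeasurable ?_
    refine Filter.Eventually.of_forall (fun t => ?_)
    show ‖W Z Y R δ t‖ ≤ ‖(Y * δ + E : ℝ)‖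
    rw [Real.norm_of_nonneg (hol_w_nonneg Z Y R δ t), Real.norm_of_nonneg (by positivity)]
    exact hU t
  have hci : IntervalIntegrable (fun t => (Y * δ + E) * Sq a N t) volume 0 1 :=
    (hfc.intervalIntegrable _ _).const_mul _
  have h5 : ∫ t in (0 : ℝ)..1, Sq a N t * W Z Y R δ t ≤
      ∫ t in (0 : ℝ)..1, ((Y * δ + E) * Sq a N t - Sq a N t * AR R Δ (fun q => Kq Y q δ) t) := by
    refine intervalIntegral.integral_mono_on zero_le_one hWi (hci.sub hARi) (fun t _ => ?_)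
    have h6 := mul_le_mul_of_nonneg_left (hpt t) (hf0 t)
    linarith
  rw [intervalIntegral.integral_sub hci hARi, intervalIntegral.integral_const_mul,
    (sq_basic_pr a N).2, hARe] at h5
  exact h5

alias int_up := int_up_pr

end Pool.Agent.MF
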