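import Pool.Agent.Lib_helper59.MF.Defs
import Pool.Agent.Lib_helper92.HCF.HOL
import Pool.Agent.Lib_helper92.HCF.MJR
import Pool.Agent.Lib_helper92.HCF.PAR
import Pool.Agent.Lib_helper59.MFF.G4a
import Pool.Agent.Lib_helper59.MFF.G4b
/-! MF, block G5b: the lower bound for the integral against the density -/

set_option autoImplicit false

namespace Pool.Agent.MF

open Finset Complex Filter Topology MeasureTheory Pool.Agent.Var35 Pool.Agent.Var73 Pool.Agent.HC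
open scoped ArithmeticFunction ArithmeticFunction.Moebius

theorem g5b_cnt (R Q : ℕ) (δ t : ℝ) : cnt R Q δ t ≤ ((Icc (-(Q : ℤ)) (2 * Q)).card : ℝ) := by
  unfold cnt
  calc ∑ l ∈ Icc (-(Q : ℤ)) (2 * Q), (if R < den l Q ∧ |(l : ℝ) / Q - t| ≤ δ / 2 then (1 : ℝ) else 0)
      ≤ ∑ _l ∈ Icc (-(Q : ℤ)) (2 * Q), (1 : ℝ) := sum_le_sum fun l _ => by split_ifs <;> norm_num
    _ = _ := by simp

theorem g5b_W (Z Y R : ℕ) (δ t : ℝ) :
    W Z Y R δ t ≤ ∑ Q ∈ Ioc Z Y, ((Icc (-(Q : ℤ)) (2 * Q)).card : ℝ) / Q := by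
  unfold W
  exact sum_le_sum fun Q _ => div_le_div_of_nonneg_right (g5b_cnt R Q δ t) (by positivity)

theorem int_low_pr (a : ℕ → ℝ) (N Z Y R : ℕ) (δ E : ℝ) (Δ : ℕ → ℝ) (hR : 2 ≤ R) (hδ : 0 < δ)
    (hE : 0 ≤ E) (hΔ0 : ∀ q ∈ Icc 1 R, 0 ≤ Δ q) (hΔ : ∀ q ∈ Icc 1 R, 2 * Δ q * q * R ≤ 1)
    (hL : ∀ t : ℝ, 0 ≤ t → t ≤ 1 → (∀ q ∈ Icc 1 R, ∀ c : ℤ, IsCoprime c (q : ℤ) →
      Δ q < |t - c / q|) → Y * δ - E ≤ W Z Y R δ t)
    (hA : ∀ q ∈ Icc 1 R, ∀ c : ℤ, IsCoprime c (q : ℤ) → ∀ t : ℝ, 0 ≤ t → t ≤ 1 →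
      |t - c / q| ≤ Δ q → Y * δ - Kq Y q δ (t - c / q) - E ≤ W Z Y R δ t) :
    (Y * δ - E) * A2 a N - SA (Sq a N) R Δ (fun q => Kq Y q δ) ≤
      ∫ t in (0 : ℝ)..1, Sq a N t * W Z Y R δ t := by
  have hY : (0 : ℝ) ≤ (Y : ℝ) := Nat.cast_nonneg _
  set f : ℝ → ℝ := Sq a N with hf
  have hfc : Continuous f := hol_sq_cont a N
  have hf0 : ∀ t, 0 ≤ f t := hol_sq_nonneg a N
  have hfp : ∀ t, f (t + 1) = f t := (sq_basic_pr a N).1
  have hWi : IntervalIntegrable (fun t => f t * W Z Y R δ t) volume 0 1 := by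
    refine IntervalIntegrable.continuousOn_mul (f := W Z Y R δ) ?_ hfc.continuousOn
    refine IntervalIntegrable.mono_fun
      (f := fun _ => (∑ Q ∈ Ioc Z Y, ((Icc (-(Q : ℤ)) (2 * Q)).card : ℝ) / Q : ℝ))
      intervalIntegrable_const (hol_w_meas Z Y R δ).aestronglyMeasurable ?_
    refine Filter.Eventually.of_forall (fun t => ?_)
    show ‖W Z Y R δ t‖ ≤ ‖(∑ Q ∈ Ioc Z Y, ((Icc (-(Q : ℤ)) (2 * Q)).card : ℝ) / Q : ℝ)‖
    rw [Real.norm_of_nonneg (hol_w_nonneg Z Y R δ t), Real.norm_of_nonneg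
      (sum_nonneg fun Q _ => by positivity)]
    exact g5b_W Z Y R δ t
  obtain ⟨hAi, hAs⟩ := arc_sum f hfc hfp R hR Δ hΔ0 hΔ (fun q => Kq Y q δ)
    (fun q hq => (hol_kq_cont Y hY q (mem_Icc.1 hq).1 δ).measurable) (Y * δ)
    (fun q hq β => by
      obtain ⟨h0, h1⟩ := MJR_Kq_bd Y hY q (mem_Icc.1 hq).1 δ hδ.le β
      rw [abs_of_nonneg h0]
      exact h1)
  have hpt : ∀ t ∈ Set.Icc (0 : ℝ) 1,
      (Y * δ - E) * f t - f t * AR R Δ (fun q => Kq Y q δ) t ≤ f t * W Z Y R δ t := by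
    intro t ht
    have h1 : Y * δ - E - AR R Δ (fun q => Kq Y q δ) t ≤ W Z Y R δ t := by
      by_cases hex : ∃ x ∈ CT R, |t - (x.2 : ℝ) / x.1| ≤ Δ x.1
      · obtain ⟨x, hx, hxt⟩ := hex
        rw [arc_one R hR Δ hΔ0 hΔ (fun q => Kq Y q δ) t x hx hxt]
        have h2 := arc_ct R (by omega) x hx
        have h3 := hA x.1 h2.1 (x.2 : ℤ) h2.2 t ht.1 ht.2 (by simpa using hxt)
        have h4 : ((x.2 : ℤ) : ℝ) = (x.2 : ℝ) := by simp
        rw [h4] at h3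
        linarith
      · push Not at hex
        rw [arc_zero R Δ (fun q => Kq Y q δ) t hex, sub_zero]
        refine hL t ht.1 ht.2 fun q hq c hc => ?_
        by_contra hcon
        obtain ⟨x, hx, hx1, hx2⟩ := arc_cover R hR Δ hΔ t ht.1 ht.2 q hq c hc (not_lt.1 hcon)
        have h5 := hex x hx
        have h6 : (c : ℝ) = (x.2 : ℝ) := by
          rw [← hx2]
          simp
        rw [hx1, ← h6] at h5
        exact hcon h5
    nlinarith [hf0 t]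
  have hI1 : IntervalIntegrable (fun t => (Y * δ - E) * f t) volume 0 1 :=
    (hfc.intervalIntegrable _ _).const_mul _
  have h7 := intervalIntegral.integral_mono_on zero_le_one (hI1.sub hAi) hWi hpt
  rw [intervalIntegral.integral_sub hI1 hAi, intervalIntegral.integral_const_mul, hAs,
    (sq_basic_pr a N).2] at h7
  exact h7

alias int_low := int_low_pr

end Pool.Agent.MF
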