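import Pool.Agent.Lib_helper59.MF.Defs
import Pool.Agent.Lib_helper92.HCF.LDU
import Pool.Agent.Lib_helper92.HCF.LDE
/-! MF : block G6a, the density, upper bounds -/

set_option autoImplicit false

namespace Pool.Agent.MF

open Finset Complex Filter Topology MeasureTheory Pool.Agent.Var35 Pool.Agent.Var73 Pool.Agent.HC
open scoped ArithmeticFunction ArithmeticFunction.Moebius

lemma g6a_logn {L : ℝ} (hL : 100 ≤ L) : 0 ≤ Real.log L := Real.log_nonneg (by linarith)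

lemma g6a_pw {L : ℝ} (hL : 100 ≤ L) (n : ℕ) (hn : 2 ≤ n) : 1 / L ^ n ≤ 1 / L ^ 2 := by
  apply one_div_le_one_div_of_le (by positivity)
  exact pow_le_pow_right₀ (by linarith) hn

lemma g6a_zinv {X L : ℝ} {Y Z T R U : ℕ} (h : Par X L Y Z T R U) :
    1 / (Z : ℝ) ≤ 2 * L ^ 5 / Y := by
  have hL0 : 0 < L := by linarith [h.hL]
  have hZ0 : (0 : ℝ) < Z := by exact_mod_cast h.hZ
  have hY0 : (0 : ℝ) < Y := lt_of_lt_of_le hZ0 (by exact_mod_cast h.hZY)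
  rw [div_le_div_iff₀ hZ0 hY0]
  calc 1 * (Y : ℝ) = 2 * L ^ 5 * ((Y : ℝ) / (2 * L ^ 5)) := by field_simp
    _ ≤ 2 * L ^ 5 * Z := by have := h.hZ2; gcongr

lemma g6a_tinv {X L : ℝ} {Y Z T R U : ℕ} (h : Par X L Y Z T R U) :
    1 / (T : ℝ) ≤ 2 * L ^ 11 / Y := by
  have hL0 : 0 < L := by linarith [h.hL]
  have hZ0 : (0 : ℝ) < Z := by exact_mod_cast h.hZ
  have hT0 : (0 : ℝ) < T := by exact_mod_cast h.hT
  have hY0 : (0 : ℝ) < Y := lt_of_lt_of_le hZ0 (by exact_mod_cast h.hZY)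
  rw [div_le_div_iff₀ hT0 hY0]
  calc 1 * (Y : ℝ) = 2 * L ^ 11 * ((Y : ℝ) / (2 * L ^ 11)) := by field_simp
    _ ≤ 2 * L ^ 11 * T := by have := h.hT2; gcongr

lemma g6a_rinv {X L : ℝ} {Y Z T R U : ℕ} (h : Par X L Y Z T R U) :
    1 / (R : ℝ) ≤ 2 * Y / (X * L ^ 8) := by
  have hL0 : 0 < L := by linarith [h.hL]
  have hX0 : 0 < X := by linarith [h.hXL]
  have hZ0 : (0 : ℝ) < Z := by exact_mod_cast h.hZ
  have hR0 : (0 : ℝ) < R := by exact_mod_cast h.hR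
  have hY0 : (0 : ℝ) < Y := lt_of_lt_of_le hZ0 (by exact_mod_cast h.hZY)
  rw [div_le_div_iff₀ hR0 (by positivity)]
  calc 1 * (X * L ^ 8) = 2 * (Y : ℝ) * (X / Y * L ^ 8 / 2) := by field_simp
    _ ≤ 2 * (Y : ℝ) * (R : ℝ) := by have := h.hR2; gcongr

lemma g6a_xy {X L : ℝ} {Y Z T R U : ℕ} (h : Par X L Y Z T R U) (n m : ℕ) (hn : n + m = 24) :
    X * L ^ n / (Y : ℝ) ^ 2 ≤ 1 / L ^ m := by
  have hL0 : 0 < L := by linarith [h.hL]
  have hZ0 : (0 : ℝ) < Z := by exact_mod_cast h.hZ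
  have hY0 : (0 : ℝ) < Y := lt_of_lt_of_le hZ0 (by exact_mod_cast h.hZY)
  rw [div_le_div_iff₀ (by positivity) (by positivity)]
  calc X * L ^ n * L ^ m = X * L ^ 24 := by rw [mul_assoc, ← pow_add, hn]
    _ ≤ 1 * (Y : ℝ) ^ 2 := by rw [one_mul]; exact h.hY2

/-- the error `2Y/(TZ)` -/
lemma g6a_e2 {X L : ℝ} {Y Z T R U : ℕ} (h : Par X L Y Z T R U) (δ : ℝ)
    (hδ : δ = 1 / (X * L ^ 6)) : 2 * (Y : ℝ) / T / Z ≤ Y * δ * (8 / L ^ 2) := by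
  have hL0 : 0 < L := by linarith [h.hL]
  have hX0 : 0 < X := by linarith [h.hXL]
  have hZ0 : (0 : ℝ) < Z := by exact_mod_cast h.hZ
  have hT0 : (0 : ℝ) < T := by exact_mod_cast h.hT
  have hY0 : (0 : ℝ) < Y := lt_of_lt_of_le hZ0 (by exact_mod_cast h.hZY)
  have hδ0 : 0 < δ := by rw [hδ]; positivity
  have hTinv := g6a_tinv h
  have hZinv := g6a_zinv h
  have hXY2 := g6a_xy h 22 2 (by norm_num)
  calc 2 * (Y : ℝ) / T / Z = 2 * Y * (1 / T) * (1 / Z) := by ring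
    _ ≤ 2 * Y * (2 * L ^ 11 / Y) * (2 * L ^ 5 / Y) := by gcongr
    _ = Y * δ * (8 * (X * L ^ 22 / (Y : ℝ) ^ 2)) := by rw [hδ]; field_simp; ring
    _ ≤ Y * δ * (8 * (1 / L ^ 2)) := by gcongr
    _ = Y * δ * (8 / L ^ 2) := by ring

/-- the error `TYδ/Z` -/
lemma g6a_e3 {X L : ℝ} {Y Z T R U : ℕ} (h : Par X L Y Z T R U) (δ : ℝ)
    (hδ : δ = 1 / (X * L ^ 6)) : (T : ℝ) * Y * δ / Z ≤ Y * δ * (2 / L ^ 2) := by
  have hL0 : 0 < L := by linarith [h.hL]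
  have hX0 : 0 < X := by linarith [h.hXL]
  have hZ0 : (0 : ℝ) < Z := by exact_mod_cast h.hZ
  have hY0 : (0 : ℝ) < Y := lt_of_lt_of_le hZ0 (by exact_mod_cast h.hZY)
  have hδ0 : 0 < δ := by rw [hδ]; positivity
  have hZinv := g6a_zinv h
  have hT1 := h.hT1
  have hLL := g6a_pw h.hL 6 (by norm_num)
  calc (T : ℝ) * Y * δ / Z = Y * δ * (T * (1 / Z)) := by ring
    _ ≤ Y * δ * ((Y / L ^ 11) * (2 * L ^ 5 / Y)) := by gcongr
    _ = Y * δ * (2 * (1 / L ^ 6)) := by field_simp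
    _ ≤ Y * δ * (2 * (1 / L ^ 2)) := by gcongr
    _ = Y * δ * (2 / L ^ 2) := by ring

/-- the error `2qY(|b|+δ/2)/Z` in an arc -/
lemma g6a_e4 {X L : ℝ} {Y Z T R U : ℕ} (h : Par X L Y Z T R U) (δ : ℝ)
    (hδ : δ = 1 / (X * L ^ 6)) (q : ℕ) (hq : 1 ≤ q) (hqR : q ≤ R) (b : ℝ)
    (hb : b ≤ L ^ 2 / (q * Y)) : 2 * (q : ℝ) * Y * (b + δ / 2) / Z ≤ Y * δ * (6 / L ^ 2) := by
  have hL0 : 0 < L := by linarith [h.hL]
  have hX0 : 0 < X := by linarith [h.hXL]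
  have hZ0 : (0 : ℝ) < Z := by exact_mod_cast h.hZ
  have hq0 : (0 : ℝ) < q := by exact_mod_cast hq
  have hqRr : (q : ℝ) ≤ R := by exact_mod_cast hqR
  have hY0 : (0 : ℝ) < Y := lt_of_lt_of_le hZ0 (by exact_mod_cast h.hZY)
  have hδ0 : 0 < δ := by rw [hδ]; positivity
  have hZinv := g6a_zinv h
  have hR1 := h.hR1
  have hXY := g6a_xy h 13 11 (by norm_num)
  have hLL := g6a_pw h.hL 11 (by norm_num)
  have hqR2 : (q : ℝ) ≤ X / Y * L ^ 8 := hqRr.trans hR1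
  calc 2 * (q : ℝ) * Y * (b + δ / 2) / Z
      = (2 * (q : ℝ) * Y * b + q * (Y * δ)) * (1 / Z) := by ring
    _ ≤ (2 * (q : ℝ) * Y * (L ^ 2 / (q * Y)) + (X / Y * L ^ 8) * (Y * δ)) * (2 * L ^ 5 / Y) := by
        gcongr
    _ = Y * δ * (6 * (X * L ^ 13 / (Y : ℝ) ^ 2)) := by rw [hδ]; field_simp; ring
    _ ≤ Y * δ * (6 * (1 / L ^ 11)) := by gcongr
    _ ≤ Y * δ * (6 * (1 / L ^ 2)) := by gcongr
    _ = Y * δ * (6 / L ^ 2) := by ring

/-- numbers -/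
lemma g6a_num {X L : ℝ} {Y Z T R U : ℕ} (h : Par X L Y Z T R U) (δ : ℝ)
    (hδ : δ = 1 / (X * L ^ 6)) (a b : ℝ) (ha : a ≤ 40) (hb : b ≤ 40) :
    Y * δ * ((a + b * Real.log L) / L ^ 2) ≤ EW Y δ L := by
  have hL0 : 0 < L := by linarith [h.hL]
  have hX0 : 0 < X := by linarith [h.hXL]
  have hlog := g6a_logn h.hL
  have hδ0 : 0 < δ := by rw [hδ]; positivity
  unfold EW
  gcongr
  nlinarith

/-- the error `(1+log(Y/Z))/R` -/
lemma g6a_e1 {X L : ℝ} {Y Z T R U : ℕ} (h : Par X L Y Z T R U) (δ : ℝ)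
    (hδ : δ = 1 / (X * L ^ 6)) :
    (1 + Real.log ((Y : ℝ) / Z)) / R ≤ Y * δ * ((4 + 10 * Real.log L) / L ^ 2) := by
  have hL0 : 0 < L := by linarith [h.hL]
  have hL1 : 1 ≤ L := by linarith [h.hL]
  have hX0 : 0 < X := by linarith [h.hXL]
  have hZ0 : (0 : ℝ) < Z := by exact_mod_cast h.hZ
  have hR0 : (0 : ℝ) < R := by exact_mod_cast h.hR
  have hZYr : (Z : ℝ) ≤ Y := by exact_mod_cast h.hZY
  have hY0 : (0 : ℝ) < Y := lt_of_lt_of_le hZ0 hZYr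
  have hδ0 : 0 < δ := by rw [hδ]; positivity
  have hRinv := g6a_rinv h
  have hYZ : (Y : ℝ) / Z ≤ 2 * L ^ 5 := by
    have h1 := g6a_zinv h
    calc (Y : ℝ) / Z = Y * (1 / Z) := by ring
      _ ≤ Y * (2 * L ^ 5 / Y) := by gcongr
      _ = 2 * L ^ 5 := by field_simp
  have hlog : Real.log ((Y : ℝ) / Z) ≤ 1 + 5 * Real.log L := by
    have h1 : Real.log ((Y : ℝ) / Z) ≤ Real.log (2 * L ^ 5) :=
      Real.log_le_log (by positivity) hYZ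
    have h2 : Real.log (2 * L ^ 5) = Real.log 2 + 5 * Real.log L := by
      rw [Real.log_mul (by norm_num) (by positivity), Real.log_pow]
      norm_num
    have h3 : Real.log 2 ≤ 1 := by
      have := Real.log_two_lt_d9
      linarith
    linarith
  have hlog1 : 0 ≤ Real.log ((Y : ℝ) / Z) := by
    apply Real.log_nonneg
    rw [le_div_iff₀ hZ0]
    linarith
  have hlogn := g6a_logn h.hL
  calc (1 + Real.log ((Y : ℝ) / Z)) / R = (1 + Real.log ((Y : ℝ) / Z)) * (1 / R) := by ring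
    _ ≤ (1 + (1 + 5 * Real.log L)) * (2 * Y / (X * L ^ 8)) := by gcongr
    _ = Y * δ * ((4 + 10 * Real.log L) / L ^ 2) := by rw [hδ]; field_simp; ring

/-- the density, upper bounds -/
theorem w_up_pr {X L : ℝ} {Y Z T R U : ℕ} (h : Par X L Y Z T R U) (δ : ℝ)
    (hδ : δ = 1 / (X * L ^ 6)) :
    (∀ t, W Z Y R δ t ≤ Y * δ + EW Y δ L) ∧
    (∀ q ∈ Icc 1 R, ∀ c : ℤ, IsCoprime c (q : ℤ) → ∀ t : ℝ, |t - c / q| ≤ L ^ 2 / (q * Y) →
      W Z Y R δ t ≤ Y * δ - Kq Y q δ (t - c / q) + EW Y δ L) := by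
  have hL0 : 0 < L := by linarith [h.hL]
  have hX0 : 0 < X := by linarith [h.hXL]
  have hδ0 : 0 < δ := by rw [hδ]; positivity
  refine ⟨fun t => ?_, fun q hq c hc t ht => ?_⟩
  · have h1 := ldu_pr Z Y R T t δ h.hT h.hTZ h.hZY h.hR hδ0
    have h2 := g6a_e1 h δ hδ
    have h3 := g6a_e2 h δ hδ
    have h4 := g6a_e3 h δ hδ
    have h5 := g6a_num h δ hδ 14 10 (by norm_num) (by norm_num)
    have h6 : (2 * (Y : ℝ) / T + T * Y * δ) / Z = 2 * (Y : ℝ) / T / Z + (T : ℝ) * Y * δ / Z := by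
      ring
    have h7 : Y * δ * ((4 + 10 * Real.log L) / L ^ 2) + Y * δ * (8 / L ^ 2)
        + Y * δ * (2 / L ^ 2) = Y * δ * ((14 + 10 * Real.log L) / L ^ 2) := by ring
    rw [h6] at h1
    linarith
  · rw [mem_Icc] at hq
    have h1 := ld_pr Z Y R q c t δ h.hZ h.hZY hq.1 (hq.2.trans h.hRZ) hc hδ0
    rw [if_neg (by omega)] at h1
    have h2 := g6a_e4 h δ hδ q hq.1 hq.2 |t - c / q| ht
    have h5 := g6a_num h δ hδ 6 0 (by norm_num) (by norm_num)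
    rw [zero_mul, add_zero] at h5
    unfold Kq
    linarith

alias w_up := w_up_pr

end Pool.Agent.MF
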