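import Pool.Agent.Lib_helper59.MF.Defs
import Pool.Agent.Lib_helper92.HCF.LDE
import Pool.Agent.Lib_helper92.HCF.FQI
set_option autoImplicit false

namespace Pool.Agent.MF

open Finset Complex Filter Topology MeasureTheory Pool.Agent.Var35 Pool.Agent.Var73 Pool.Agent.HC
open scoped ArithmeticFunction ArithmeticFunction.Moebius

/-- a harmonic sum over an arithmetic progression, lower bound -/
lemma G2_ap (q : ℕ) (hq : 1 ≤ q) (a : ℤ) (A : Finset ℕ) (lo hi : ℝ) (hlo : 0 < lo) (hlh : lo ≤ hi)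
    (hA : ∀ Q : ℕ, lo < Q → (Q : ℝ) ≤ hi → (Q : ℤ) ≡ a [ZMOD q] → Q ∈ A) :
    Real.log (hi / lo) / q - 1 / lo ≤ ∑ Q ∈ A, 1 / (Q : ℝ) := by
  have hq0 : (0 : ℝ) < q := by exact_mod_cast hq
  have hqz : (0 : ℤ) < q := by exact_mod_cast hq
  -- the first element of the progression
  obtain ⟨Q₀, hQ1, hQ2, hQ3⟩ : ∃ Q₀ : ℕ, lo < Q₀ ∧ (Q₀ : ℝ) ≤ lo + q ∧ (Q₀ : ℤ) ≡ a [ZMOD q] := by
    set u : ℤ := ⌊lo⌋ + 1 with hu
    have hu1 : lo < u := by
      rw [hu]; push_cast; exact Int.lt_floor_add_one lo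
    have hu2 : (u : ℝ) ≤ lo + 1 := by
      rw [hu]; push_cast; linarith [Int.floor_le lo]
    set w : ℤ := u + (a - u) % q with hw
    have hw0 := Int.emod_nonneg (a - u) hqz.ne'
    have hw1 := Int.emod_lt_of_pos (a - u) hqz
    have hwpos : 0 ≤ w := by
      have : (0 : ℝ) < u := lt_trans hlo hu1
      have : (0 : ℤ) < u := by exact_mod_cast this
      omega
    refine ⟨w.toNat, ?_, ?_, ?_⟩
    · have h1 : ((w.toNat : ℕ) : ℝ) = (w : ℝ) := by
        have : ((w.toNat : ℕ) : ℤ) = w := Int.toNat_of_nonneg hwpos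
        exact_mod_cast this
      rw [h1]
      have h2 : (u : ℝ) ≤ w := by exact_mod_cast (by omega : u ≤ w)
      linarith
    · have h1 : ((w.toNat : ℕ) : ℝ) = (w : ℝ) := by
        have : ((w.toNat : ℕ) : ℤ) = w := Int.toNat_of_nonneg hwpos
        exact_mod_cast this
      rw [h1]
      have h2 : (w : ℝ) ≤ u + q - 1 := by exact_mod_cast (by omega : w ≤ u + q - 1)
      linarith
    · have h1 : ((w.toNat : ℕ) : ℤ) = w := Int.toNat_of_nonneg hwpos
      rw [h1, hw]
      have h2 : u + (a - u) % q ≡ u + (a - u) [ZMOD q] := (Int.mod_modEq (a - u) q).add_left u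
      have h3 : u + (a - u) = a := by ring
      rwa [h3] at h2
  have hQ0 : (0 : ℝ) < Q₀ := lt_trans hlo hQ1
  have hstep : Real.log ((Q₀ : ℝ) / lo) ≤ q / lo := by
    have h1 : Real.log ((Q₀ : ℝ) / lo) ≤ (Q₀ : ℝ) / lo - 1 := Real.log_le_sub_one_of_pos (by positivity)
    have h2 : (Q₀ : ℝ) / lo ≤ (lo + q) / lo := by gcongr
    have h3 : (lo + q) / lo = 1 + q / lo := by field_simp
    linarith
  by_cases hh : (Q₀ : ℝ) ≤ hi
  · -- the progression up to `hi`
    set J : ℕ := ⌊(hi - Q₀) / q⌋₊ with hJ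
    have hJ1 : (J : ℝ) ≤ (hi - Q₀) / q := Nat.floor_le (div_nonneg (by linarith) hq0.le)
    have hJ2 : (hi - Q₀) / q < J + 1 := Nat.lt_floor_add_one _
    have hinj : Set.InjOn (fun j : ℕ => Q₀ + j * q) (range (J + 1)) := by
      intro i _ j _ h
      simp only at h
      have : i * q = j * q := by omega
      exact Nat.eq_of_mul_eq_mul_right hq this
    have hsub : (range (J + 1)).image (fun j : ℕ => Q₀ + j * q) ⊆ A := by
      intro x hx
      rw [Finset.mem_image] at hx
      obtain ⟨j, hj, rfl⟩ := hx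
      rw [Finset.mem_range] at hj
      apply hA
      · push_cast
        have : (0 : ℝ) ≤ (j : ℝ) * q := by positivity
        linarith
      · push_cast
        have h1 : (j : ℝ) ≤ J := by exact_mod_cast (by omega : j ≤ J)
        have h2 : (j : ℝ) * q ≤ (hi - Q₀) / q * q := mul_le_mul_of_nonneg_right (h1.trans hJ1) hq0.le
        rw [div_mul_cancel₀ _ hq0.ne'] at h2
        linarith
      · push_cast
        have h1 : (Q₀ : ℤ) + j * q ≡ Q₀ + 0 [ZMOD q] := by
          apply Int.ModEq.add_left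
          rw [Int.modEq_zero_iff_dvd]
          exact Dvd.intro_left _ rfl
        rw [add_zero] at h1
        exact h1.trans hQ3
    have hge : ∑ j ∈ range (J + 1), 1 / (((Q₀ + j * q : ℕ) : ℕ) : ℝ) ≤ ∑ Q ∈ A, 1 / (Q : ℝ) := by
      rw [← Finset.sum_image (f := fun x : ℕ => 1 / (x : ℝ)) hinj]
      apply Finset.sum_le_sum_of_subset_of_nonneg hsub
      intro x _ _
      positivity
    have htel : ∀ n : ℕ, Real.log (((Q₀ : ℝ) + n * q) / Q₀) / q ≤
        ∑ j ∈ range n, 1 / (((Q₀ + j * q : ℕ) : ℕ) : ℝ) := by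
      intro n
      induction n with
      | zero =>
        simp [hQ0.ne']
      | succ n ih =>
        rw [Finset.sum_range_succ]
        have hn : (0 : ℝ) < Q₀ + n * q := by positivity
        have h1 : Real.log (((Q₀ : ℝ) + (n + 1 : ℕ) * q) / Q₀) =
            Real.log (((Q₀ : ℝ) + n * q) / Q₀) + Real.log (1 + q / (Q₀ + n * q)) := by
          rw [← Real.log_mul (by positivity) (by positivity)]
          congr 1
          push_cast
          field_simp
          ring
        have h2 : Real.log (1 + q / ((Q₀ : ℝ) + n * q)) ≤ q / (Q₀ + n * q) := by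
          have := Real.log_le_sub_one_of_pos (x := 1 + q / ((Q₀ : ℝ) + n * q)) (by positivity)
          linarith
        rw [h1, add_div]
        have h3 : Real.log (1 + q / ((Q₀ : ℝ) + n * q)) / q ≤ 1 / (((Q₀ + n * q : ℕ) : ℕ) : ℝ) := by
          push_cast
          rw [div_le_iff₀ hq0]
          refine h2.trans (le_of_eq ?_)
          field_simp
        linarith
    have h4 := (htel (J + 1)).trans hge
    have h5 : Real.log (hi / Q₀) ≤ Real.log (((Q₀ : ℝ) + (J + 1 : ℕ) * q) / Q₀) := by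
      apply Real.log_le_log (by have : 0 < hi := lt_of_lt_of_le hQ0 hh
                                positivity)
      gcongr
      push_cast
      rw [div_lt_iff₀ hq0] at hJ2
      linarith
    have h6 : Real.log (hi / lo) = Real.log (hi / Q₀) + Real.log (Q₀ / lo) := by
      have : 0 < hi := lt_of_lt_of_le hQ0 hh
      rw [← Real.log_mul (by positivity) (by positivity)]
      congr 1
      field_simp
    have h7 : Real.log (hi / lo) / q ≤ Real.log (((Q₀ : ℝ) + (J + 1 : ℕ) * q) / Q₀) / q + 1 / lo := by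
      rw [h6, add_div]
      have e1 : Real.log (Q₀ / lo) / q ≤ 1 / lo := by
        rw [div_le_iff₀ hq0]
        refine hstep.trans (le_of_eq ?_)
        field_simp
      have e2 : Real.log (hi / Q₀) / q ≤ Real.log (((Q₀ : ℝ) + (J + 1 : ℕ) * q) / Q₀) / q := by
        gcongr
      linarith
    linarith
  · have h1 : Real.log (hi / lo) ≤ Real.log ((Q₀ : ℝ) / lo) := by
      apply Real.log_le_log (by have : 0 < hi := lt_of_lt_of_le hlo hlh
                                positivity)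
      gcongr
      linarith
    have h2 : Real.log (hi / lo) / q ≤ 1 / lo := by
      rw [div_le_iff₀ hq0]
      refine (h1.trans hstep).trans (le_of_eq ?_)
      field_simp
    have h3 : 0 ≤ ∑ Q ∈ A, 1 / (Q : ℝ) := Finset.sum_nonneg fun x _ => by positivity
    linarith

lemma G2_real (y z u v : ℝ) (h3 : u ≤ v) (h4 : z ≤ y) :
    max 0 (y - u) - max 0 (y - v) - (max 0 (z - u) - max 0 (z - v)) ≤
      max 0 (min y v - max z u) := by
  rcases le_total y u with c1 | c1
  · have c2 : y ≤ v := c1.trans h3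
    have c3 : z ≤ u := h4.trans c1
    have c4 : z ≤ v := h4.trans c2
    rw [max_eq_left (by linarith : y - u ≤ 0), max_eq_left (by linarith : y - v ≤ 0),
      max_eq_left (by linarith : z - u ≤ 0), max_eq_left (by linarith : z - v ≤ 0)]
    simp
  · rw [max_eq_right (by linarith : 0 ≤ y - u)]
    rcases le_total y v with c2 | c2
    · have c4 : z ≤ v := h4.trans c2
      rw [max_eq_left (by linarith : y - v ≤ 0), max_eq_left (by linarith : z - v ≤ 0), min_eq_left c2]
      rcases le_total z u with c3 | c3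
      · rw [max_eq_left (by linarith : z - u ≤ 0), max_eq_right c3]
        linarith [le_max_right 0 (y - u)]
      · rw [max_eq_right (by linarith : 0 ≤ z - u), max_eq_left c3]
        linarith [le_max_right 0 (y - z)]
    · rw [max_eq_right (by linarith : 0 ≤ y - v), min_eq_right c2]
      rcases le_total z u with c3 | c3
      · rw [max_eq_left (by linarith : z - u ≤ 0), max_eq_left (by linarith : z - v ≤ 0),
          max_eq_right c3]
        linarith [le_max_right 0 (v - u)]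
      · rw [max_eq_right (by linarith : 0 ≤ z - u), max_eq_left c3]
        rcases le_total z v with c4 | c4
        · rw [max_eq_left (by linarith : z - v ≤ 0)]
          linarith [le_max_right 0 (v - z)]
        · rw [max_eq_right (by linarith : 0 ≤ z - v)]
          linarith [le_max_left 0 (v - z)]

/-- the measure of an interval, in logarithmic coordinates -/
lemma G2_log (a b Z Y : ℝ) (ha : 0 < a) (hab : a ≤ b) (hZ : 0 < Z) (hZY : Z ≤ Y) :
    Real.log (max 1 (Y / a)) - Real.log (max 1 (Y / b)) -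
      (Real.log (max 1 (Z / a)) - Real.log (max 1 (Z / b))) ≤
      Real.log (max 1 (min Y b / max Z a)) := by
  have hb : 0 < b := lt_of_lt_of_le ha hab
  have hY : 0 < Y := lt_of_lt_of_le hZ hZY
  have hmax : ∀ x y : ℝ, 0 < x → 0 < y → Real.log (max 1 (x / y)) = max 0 (Real.log x - Real.log y) := by
    intro x y hx hy
    rw [← Real.log_div hx.ne' hy.ne']
    rcases le_total 1 (x / y) with h | h
    · rw [max_eq_right h, max_eq_right (Real.log_nonneg h)]
    · rw [max_eq_left h, Real.log_one, max_eq_left (Real.log_nonpos (by positivity) h)]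
  rw [hmax Y a hY ha, hmax Y b hY hb, hmax Z a hZ ha, hmax Z b hZ hb,
    hmax _ _ (lt_min hY hb) (lt_max_of_lt_left hZ)]
  have h1 : Real.log (min Y b) = min (Real.log Y) (Real.log b) := by
    rcases le_total Y b with h | h
    · rw [min_eq_left h, min_eq_left (Real.log_le_log hY h)]
    · rw [min_eq_right h, min_eq_right (Real.log_le_log hb h)]
  have h2 : Real.log (max Z a) = max (Real.log Z) (Real.log a) := by
    rcases le_total Z a with h | h
    · rw [max_eq_right h, max_eq_right (Real.log_le_log hZ h)]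
    · rw [max_eq_left h, max_eq_left (Real.log_le_log ha h)]
  rw [h1, h2]
  have h3 := Real.log_le_log ha hab
  have h4 := Real.log_le_log hZ hZY
  exact G2_real _ _ _ _ h3 h4

lemma G2_log0 (a Z Y : ℝ) (ha : 0 < a) (hZ : 0 < Z) (hZY : Z ≤ Y) :
    Real.log (max 1 (Y / a)) - Real.log (max 1 (Z / a)) ≤ Real.log (max 1 (Y / max Z a)) := by
  have hY : 0 < Y := lt_of_lt_of_le hZ hZY
  have h := G2_log a (max Y a) Z Y ha (le_max_right _ _) hZ hZY
  have h1 : Y / max Y a ≤ 1 := by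
    rw [div_le_one (lt_max_of_lt_left hY)]; exact le_max_left _ _
  have h2 : Z / max Y a ≤ 1 := by
    rw [div_le_one (lt_max_of_lt_left hY)]; exact hZY.trans (le_max_left _ _)
  rw [max_eq_left h1, max_eq_left h2, Real.log_one, min_eq_left (le_max_left _ _)] at h
  linarith

/-- the lines on one side -/
lemma G2_half (Z Y q : ℕ) (hZ : 1 ≤ Z) (hZY : Z ≤ Y) (hq : 1 ≤ q) (β₁ β₂ : ℝ)
    (hβ : β₁ ≤ β₂) (a : ℕ → ℤ) (P : Finset (ℕ × ℕ))
    (hP : ∀ Q m : ℕ, 1 ≤ m → Z < Q → Q ≤ Y → β₁ ≤ (m : ℝ) / (q * Q) →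
      (m : ℝ) / (q * Q) ≤ β₂ → (Q : ℤ) ≡ a m [ZMOD q] → (Q, m) ∈ P) :
    (Psi (max (q * Y * β₂) 0) - Psi (max (q * Y * β₁) 0)) / q -
      (Psi (max (q * Z * β₂) 0) - Psi (max (q * Z * β₁) 0)) / q - max (q * Y * β₂) 0 / Z ≤
    ∑ p ∈ P, 1 / (p.1 : ℝ) := by
  have hq0 : (0 : ℝ) < q := by exact_mod_cast hq
  have hZ0 : (0 : ℝ) < Z := by exact_mod_cast hZ
  have hZYr : (Z : ℝ) ≤ Y := by exact_mod_cast hZY
  have hY0 : (0 : ℝ) < Y := by linarith
  have hsum0 : 0 ≤ ∑ p ∈ P, 1 / (p.1 : ℝ) := Finset.sum_nonneg fun _ _ => by positivity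
  rcases le_or_gt β₂ 0 with hβ2 | hβ2
  · have e1 : max ((q : ℝ) * Y * β₂) 0 = 0 :=
      max_eq_right (mul_nonpos_of_nonneg_of_nonpos (by positivity) hβ2)
    have e2 : max ((q : ℝ) * Y * β₁) 0 = 0 :=
      max_eq_right (mul_nonpos_of_nonneg_of_nonpos (by positivity) (hβ.trans hβ2))
    have e3 : max ((q : ℝ) * Z * β₂) 0 = 0 :=
      max_eq_right (mul_nonpos_of_nonneg_of_nonpos (by positivity) hβ2)
    have e4 : max ((q : ℝ) * Z * β₁) 0 = 0 :=
      max_eq_right (mul_nonpos_of_nonneg_of_nonpos (by positivity) (hβ.trans hβ2))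
    rw [e1, e2, e3, e4]
    simpa using hsum0
  set M₂ : ℝ := q * Y * β₂ with hM2
  have hM2p : 0 < M₂ := by positivity
  have hle : ∀ x : ℝ, x ≤ Y → 0 ≤ x → ∀ β ≤ β₂, q * x * β ≤ M₂ := by
    intro x hx hx0 β hb
    rw [hM2]
    calc (q : ℝ) * x * β ≤ q * x * β₂ := mul_le_mul_of_nonneg_left hb (by positivity)
      _ ≤ q * Y * β₂ := by gcongr
  have s1 := LDE_psi_sum M₂ M₂ le_rfl hM2p
  have s2 := LDE_psi_sum (q * Y * β₁) M₂ (hle Y le_rfl hY0.le _ hβ) hM2p
  have s3 := LDE_psi_sum (q * Z * β₂) M₂ (hle Z hZYr hZ0.le _ le_rfl) hM2p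
  have s4 := LDE_psi_sum (q * Z * β₁) M₂ (hle Z hZYr hZ0.le _ hβ) hM2p
  rw [← s1, ← s2, ← s3, ← s4]
  -- the pairs, line by line
  have hline : ∀ m ∈ Icc 1 ⌊M₂⌋₊,
      (Real.log (max 1 (M₂ / m)) - Real.log (max 1 (q * Y * β₁ / m)) -
        (Real.log (max 1 (q * Z * β₂ / m)) - Real.log (max 1 (q * Z * β₁ / m)))) / q - 1 / Z ≤
      ∑ Q ∈ (P.filter (fun p => p.2 = m)).image Prod.fst, 1 / (Q : ℝ) := by
    intro m hm
    rw [Finset.mem_Icc] at hm
    have hm0 : (0 : ℝ) < m := by exact_mod_cast hm.1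
    set A : Finset ℕ := (P.filter (fun p => p.2 = m)).image Prod.fst with hA
    have hmem : ∀ Q : ℕ, Z < Q → Q ≤ Y → β₁ ≤ (m : ℝ) / (q * Q) → (m : ℝ) / (q * Q) ≤ β₂ →
        (Q : ℤ) ≡ a m [ZMOD q] → Q ∈ A := by
      intro Q h1 h2 h3 h4 h5
      rw [hA, Finset.mem_image]
      exact ⟨(Q, m), Finset.mem_filter.mpr ⟨hP Q m hm.1 h1 h2 h3 h4 h5, rfl⟩, rfl⟩
    have hA0 : 0 ≤ ∑ Q ∈ A, 1 / (Q : ℝ) := Finset.sum_nonneg fun _ _ => by positivity
    set al : ℝ := m / (q * β₂) with hal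
    have hal0 : 0 < al := by positivity
    have r1 : M₂ / m = Y / al := by rw [hM2, hal]; field_simp
    have r2 : q * Z * β₂ / m = Z / al := by rw [hal]; field_simp
    -- general step
    have hstep : ∀ hi : ℝ, 0 < hi → hi ≤ Y → (∀ Q : ℕ, 0 < Q → (Q : ℝ) ≤ hi → β₁ ≤ (m : ℝ) / (q * Q)) →
        Real.log (max 1 (hi / max (Z : ℝ) al)) / q - 1 / Z ≤ ∑ Q ∈ A, 1 / (Q : ℝ) := by
      intro hi hhi0 hhi hb
      have hlo0 : (0 : ℝ) < max (Z : ℝ) al := lt_max_of_lt_left hZ0
      rcases le_total (max (Z : ℝ) al) hi with hc | hc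
      · have h1 : 1 ≤ hi / max (Z : ℝ) al := by rw [le_div_iff₀ hlo0]; linarith
        rw [max_eq_right h1]
        have h2 := G2_ap q hq (a m) A (max (Z : ℝ) al) hi hlo0 hc (fun Q g1 g2 g3 => by
          have g4 : (Z : ℝ) < Q := lt_of_le_of_lt (le_max_left _ _) g1
          have g5 : al < Q := lt_of_le_of_lt (le_max_right _ _) g1
          have g6 : Z < Q := by exact_mod_cast g4
          have g7 : (0 : ℝ) < Q := by linarith
          refine hmem Q g6 (by exact_mod_cast g2.trans hhi) (hb Q (by omega) g2) ?_ g3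
          rw [div_le_iff₀ (by positivity)]
          rw [hal, div_lt_iff₀ (by positivity)] at g5
          linarith)
        have h3 : 1 / max (Z : ℝ) al ≤ 1 / Z := one_div_le_one_div_of_le hZ0 (le_max_left _ _)
        linarith
      · have h1 : hi / max (Z : ℝ) al ≤ 1 := by rw [div_le_iff₀ hlo0]; linarith
        rw [max_eq_left h1, Real.log_one, zero_div]
        have : (0 : ℝ) ≤ 1 / Z := by positivity
        linarith
    rcases le_or_gt β₁ 0 with hb1 | hb1
    · have e2 : q * Y * β₁ / m ≤ 1 := by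
        have : q * Y * β₁ / m ≤ 0 :=
          div_nonpos_of_nonpos_of_nonneg (mul_nonpos_of_nonneg_of_nonpos (by positivity) hb1) hm0.le
        linarith
      have e4 : q * Z * β₁ / m ≤ 1 := by
        have : q * Z * β₁ / m ≤ 0 :=
          div_nonpos_of_nonpos_of_nonneg (mul_nonpos_of_nonneg_of_nonpos (by positivity) hb1) hm0.le
        linarith
      rw [max_eq_left e2, max_eq_left e4, Real.log_one, r1, r2]
      have h1 := hstep Y hY0 le_rfl (fun Q hQ _ => hb1.trans (by positivity))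
      have h2 := G2_log0 al Z Y hal0 hZ0 hZYr
      have h3 : (Real.log (max 1 (Y / al)) - 0 - (Real.log (max 1 (Z / al)) - 0)) / q ≤
          Real.log (max 1 (Y / max (Z : ℝ) al)) / q := by
        gcongr
        linarith
      linarith
    · set b : ℝ := m / (q * β₁) with hb
      have hb0 : 0 < b := by positivity
      have hab : al ≤ b := by
        rw [hal, hb]
        gcongr
      have r3 : q * Y * β₁ / m = Y / b := by rw [hb]; field_simp
      have r4 : q * Z * β₁ / m = Z / b := by rw [hb]; field_simp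
      rw [r1, r2, r3, r4]
      have h1 := hstep (min (Y : ℝ) b) (lt_min hY0 hb0) (min_le_left _ _) (fun Q hQ hQ2 => by
        have g1 : (Q : ℝ) ≤ b := hQ2.trans (min_le_right _ _)
        have g2 : (0 : ℝ) < Q := by exact_mod_cast hQ
        rw [le_div_iff₀ (by positivity)]
        rw [hb, le_div_iff₀ (by positivity)] at g1
        linarith)
      have h2 := G2_log al b Z Y hal0 hab hZ0 hZYr
      have h3 : (Real.log (max 1 (Y / al)) - Real.log (max 1 (Y / b)) -
          (Real.log (max 1 (Z / al)) - Real.log (max 1 (Z / b)))) / q ≤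
          Real.log (max 1 (min (Y : ℝ) b / max (Z : ℝ) al)) / q := by
        gcongr
      linarith
  have htot := Finset.sum_le_sum hline
  have hfib : ∑ m ∈ Icc 1 ⌊M₂⌋₊, ∑ Q ∈ (P.filter (fun p => p.2 = m)).image Prod.fst,
      1 / (Q : ℝ) ≤ ∑ p ∈ P, 1 / (p.1 : ℝ) := by
    have h1 : ∀ m ∈ Icc 1 ⌊M₂⌋₊, ∑ Q ∈ (P.filter (fun p => p.2 = m)).image Prod.fst,
        1 / (Q : ℝ) = ∑ p ∈ P.filter (fun p => p.2 = m), 1 / (p.1 : ℝ) := by
      intro m _
      rw [Finset.sum_image]
      intro x hx y hy hxy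
      rw [Finset.mem_coe, Finset.mem_filter] at hx hy
      exact Prod.ext hxy (hx.2.trans hy.2.symm)
    rw [Finset.sum_congr rfl h1]
    have h2 : ∑ m ∈ Icc 1 ⌊M₂⌋₊, ∑ p ∈ P.filter (fun p => p.2 = m), 1 / (p.1 : ℝ) =
        ∑ p ∈ P.filter (fun p => p.2 ∈ Icc 1 ⌊M₂⌋₊), 1 / (p.1 : ℝ) := by
      rw [← Finset.sum_fiberwise_of_maps_to (s := P.filter (fun p => p.2 ∈ Icc 1 ⌊M₂⌋₊))
        (t := Icc 1 ⌊M₂⌋₊) (g := fun p => p.2) (fun p hp => (Finset.mem_filter.mp hp).2)]
      refine Finset.sum_congr rfl fun m hm => ?_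
      rw [Finset.filter_filter]
      refine Finset.sum_congr ?_ fun _ _ => rfl
      ext p
      simp only [Finset.mem_filter]
      constructor
      · rintro ⟨h3, h4⟩
        exact ⟨h3, by rw [h4]; exact hm, h4⟩
      · rintro ⟨h3, _, h4⟩
        exact ⟨h3, h4⟩
    rw [h2]
    apply Finset.sum_le_sum_of_subset_of_nonneg (Finset.filter_subset _ _)
    intro _ _ _
    positivity
  refine le_trans ?_ (htot.trans hfib)
  rw [Finset.sum_sub_distrib, ← Finset.sum_div, Finset.sum_sub_distrib, Finset.sum_sub_distrib,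
    Finset.sum_sub_distrib, Finset.sum_const, Nat.card_Icc, nsmul_eq_mul]
  have hcard : ((⌊M₂⌋₊ + 1 - 1 : ℕ) : ℝ) * (1 / Z) ≤ max M₂ 0 / Z := by
    rw [Nat.add_sub_cancel, mul_one_div]
    gcongr
    exact (Nat.floor_le hM2p.le).trans (le_max_left _ _)
  have hring : ∀ a b c d e : ℝ, (a - b - (c - d)) / q - e = (a - b) / q - (c - d) / q - e := by
    intro a b c d e; ring
  rw [hring]
  linarith

/-- a fraction of small denominator is far from `c/q` -/
lemma G2_den (l : ℤ) (Q q : ℕ) (c : ℤ) (hQ : 1 ≤ Q) (hq : 1 ≤ q) (h : l * q - c * Q ≠ 0) :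
    1 / ((den l Q : ℝ) * q) ≤ |(l : ℝ) / Q - c / q| ∧ 0 < den l Q := by
  have hq0 : (0 : ℝ) < q := by exact_mod_cast hq
  have hQ0 : (0 : ℝ) < Q := by exact_mod_cast hQ
  have hg : 0 < Int.gcd l Q := Int.gcd_pos_of_ne_zero_right _ (by exact_mod_cast (by omega : Q ≠ 0))
  have hgQ : Int.gcd l Q ∣ Q := by
    have := Int.gcd_dvd_right l Q
    exact_mod_cast this
  have hd : 0 < den l Q := by
    unfold den
    exact Nat.div_pos (Nat.le_of_dvd hQ hgQ) hg
  refine ⟨?_, hd⟩
  have hd0 : (0 : ℝ) < den l Q := by exact_mod_cast hd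
  obtain ⟨l', hl'⟩ := Int.gcd_dvd_left l Q
  have hQd : Q = Int.gcd l Q * den l Q := by
    unfold den
    exact (Nat.mul_div_cancel' hgQ).symm
  have hQd' : (Q : ℝ) = (Int.gcd l Q : ℝ) * den l Q := by exact_mod_cast hQd
  have hl'r : (l : ℝ) = (Int.gcd l Q : ℝ) * l' := by exact_mod_cast hl'
  have hg0 : (0 : ℝ) < (Int.gcd l Q : ℝ) := by exact_mod_cast hg
  have e1 : (l : ℝ) / Q - c / q = ((l' * q - c * den l Q : ℤ) : ℝ) / ((den l Q : ℝ) * q) := by
    push_cast
    rw [hQd', hl'r]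
    field_simp
  rw [e1, abs_div, abs_of_pos (mul_pos hd0 hq0)]
  apply div_le_div_of_nonneg_right _ (by positivity)
  have h1 : l' * q - c * den l Q ≠ 0 := by
    intro h0
    apply h
    have h2 : (Q : ℤ) = (Int.gcd l Q : ℤ) * den l Q := by exact_mod_cast hQd
    have h3 : l * q - c * Q = (Int.gcd l Q : ℤ) * (l' * q - c * den l Q) := by
      calc l * q - c * Q = ((Int.gcd l Q : ℤ) * l') * q - c * ((Int.gcd l Q : ℤ) * den l Q) := by
            rw [← h2, ← hl']
        _ = _ := by ring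
    rw [h3, h0, mul_zero]
  have h2 : (1 : ℤ) ≤ |l' * q - c * den l Q| := Int.one_le_abs h1
  have h3 : ((1 : ℤ) : ℝ) ≤ ((|l' * q - c * den l Q| : ℤ) : ℝ) := by exact_mod_cast h2
  rw [Int.cast_abs] at h3
  simpa using h3

/-- the lower bound for the density near a fraction -/
theorem ld_low_pr (Z Y R T q : ℕ) (c : ℤ) (t δ : ℝ) (hZ : 1 ≤ Z) (hZY : Z ≤ Y) (hR : 1 ≤ R)
    (hq : 1 ≤ q) (hqT : q ≤ T) (hc : IsCoprime c (q : ℤ)) (hδ : 0 < δ) (hδ1 : δ ≤ 1)
    (h0 : 0 ≤ t) (h1 : t ≤ 1) (ht : |t - c / q| ≤ 1 / (q * T))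
    (hRT : 1 / (T : ℝ) + T * δ / 2 < 1 / R) :
    (Fq Y q ((t - c / q) + δ / 2) - Fq Y q ((t - c / q) - δ / 2)) - Z * δ
      - 2 * q * Y * (|t - c / q| + δ / 2) / Z ≤ W Z Y R δ t := by
  classical
  have hq0 : (0 : ℝ) < q := by exact_mod_cast hq
  have hT0 : (0 : ℝ) < T := by exact_mod_cast (hq.trans hqT)
  have hR0 : (0 : ℝ) < R := by exact_mod_cast hR
  have hZ0 : (0 : ℝ) < Z := by exact_mod_cast hZ
  have hY1 : 1 ≤ Y := hZ.trans hZY
  have hY0 : (0 : ℝ) < Y := by exact_mod_cast hY1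
  set β₁ : ℝ := (t - c / q) - δ / 2 with hβ1
  set β₂ : ℝ := (t - c / q) + δ / 2 with hβ2
  have hβ : β₁ ≤ β₂ := by
    rw [hβ1, hβ2]
    linarith
  -- the set of pairs
  let T' : Finset (ℕ × ℤ) := ((Ioc Z Y) ×ˢ (Icc (-(Y : ℤ)) (2 * Y))).filter
    (fun p => p.2 ∈ Icc (-(p.1 : ℤ)) (2 * p.1) ∧ R < den p.2 p.1 ∧ |(p.2 : ℝ) / p.1 - t| ≤ δ / 2)
  have hW : W Z Y R δ t = ∑ p ∈ T', 1 / (p.1 : ℝ) := by
    unfold W cnt
    rw [Finset.sum_filter, Finset.sum_product]
    refine Finset.sum_congr rfl fun Q hQ => ?_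
    rw [Finset.mem_Ioc] at hQ
    rw [Finset.sum_div]
    have hsub : Icc (-(Q : ℤ)) (2 * Q) ⊆ Icc (-(Y : ℤ)) (2 * Y) := by
      have : (Q : ℤ) ≤ Y := by exact_mod_cast hQ.2
      apply Finset.Icc_subset_Icc <;> linarith
    rw [← Finset.sum_subset hsub]
    · refine Finset.sum_congr rfl fun l hl => ?_
      by_cases h : R < den l Q ∧ |(l : ℝ) / Q - t| ≤ δ / 2
      · rw [if_pos h, if_pos ⟨hl, h⟩]
      · rw [if_neg h, if_neg (fun h' => h h'.2), zero_div]
    · intro l _ hl
      exact if_neg (fun h' => hl h'.1)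
  -- every point of a line different from the line through the centre belongs to `T'`
  have hmemT : ∀ (Q : ℕ) (l : ℤ), Z < Q → Q ≤ Y → l * q - c * Q ≠ 0 →
      β₁ ≤ ((l * q - c * Q : ℤ) : ℝ) / (q * Q) → ((l * q - c * Q : ℤ) : ℝ) / (q * Q) ≤ β₂ →
      (Q, l) ∈ T' := by
    intro Q l g1 g2 g3 g4 g5
    have hQ1 : 1 ≤ Q := by omega
    have hQ0 : (0 : ℝ) < Q := by exact_mod_cast hQ1
    have h5 : ((l * q - c * Q : ℤ) : ℝ) / (q * Q) = (l : ℝ) / Q - c / q := by
      push_cast
      field_simp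
    rw [h5, hβ1] at g4
    rw [h5, hβ2] at g5
    have h6 : |(l : ℝ) / Q - t| ≤ δ / 2 := by
      rw [abs_le]
      constructor <;> linarith
    have h7 := abs_le.mp h6
    have h8 : -(Q : ℤ) ≤ l := by
      have h9 : -(1 : ℝ) ≤ (l : ℝ) / Q := by linarith [h7.1]
      rw [le_div_iff₀ hQ0] at h9
      have : (-(Q : ℤ) : ℝ) ≤ l := by push_cast; linarith
      exact_mod_cast this
    have h10 : l ≤ 2 * Q := by
      have h9 : (l : ℝ) / Q ≤ 2 := by linarith [h7.2]
      rw [div_le_iff₀ hQ0] at h9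
      exact_mod_cast h9
    have hQY : (Q : ℤ) ≤ Y := by exact_mod_cast g2
    have hden : R < den l Q := by
      obtain ⟨h11, h12⟩ := G2_den l Q q c hQ1 hq g3
      have hd0 : (0 : ℝ) < den l Q := by exact_mod_cast h12
      by_contra hlt
      have h13 : (den l Q : ℝ) ≤ R := by exact_mod_cast (not_lt.mp hlt)
      have h14 : |(l : ℝ) / Q - c / q| ≤ δ / 2 + 1 / (q * T) := by
        have e1 : (l : ℝ) / Q - c / q = ((l : ℝ) / Q - t) + (t - c / q) := by ring
        rw [e1]
        exact (abs_add_le _ _).trans (add_le_add h6 ht)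
      have h15 := h11.trans h14
      have h16 : 1 / (R : ℝ) ≤ q * (δ / 2 + 1 / (q * T)) := by
        calc 1 / (R : ℝ) ≤ 1 / den l Q := one_div_le_one_div_of_le hd0 h13
          _ = q * (1 / ((den l Q : ℝ) * q)) := by field_simp
          _ ≤ q * (δ / 2 + 1 / (q * T)) := mul_le_mul_of_nonneg_left h15 hq0.le
      have h17 : (q : ℝ) * (δ / 2 + 1 / (q * T)) ≤ 1 / T + T * δ / 2 := by
        have e1 : (q : ℝ) * (δ / 2 + 1 / (q * T)) = 1 / T + q * δ / 2 := by field_simp; ring
        rw [e1]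
        have : (q : ℝ) ≤ T := by exact_mod_cast hqT
        gcongr
      linarith
    simp only [T', Finset.mem_filter, Finset.mem_product, Finset.mem_Ioc, Finset.mem_Icc]
    exact ⟨⟨⟨g1, g2⟩, by linarith, by linarith⟩, ⟨h8, h10⟩, hden, h6⟩
  -- Bezout
  obtain ⟨u, v, huv⟩ := hc
  -- positive lines
  have hpos := G2_half Z Y q hZ hZY hq β₁ β₂ hβ (fun m => -(u * m))
    ((T'.filter (fun p => 0 < p.2 * q - c * p.1)).image
      (fun p : ℕ × ℤ => (p.1, (p.2 * q - c * p.1).toNat))) (by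
    intro Q m g1 g2 g3 g4 g5 g6
    have hdvd : (q : ℤ) ∣ c * Q + m := by
      have e1 : (q : ℤ) ∣ -(u * m) - Q := g6.dvd
      have e2 : c * Q + m = -(c * (-(u * m) - Q)) + q * (v * m) := by
        have : (1 : ℤ) - u * c = v * q := by linarith
        calc c * Q + m = c * Q + m * 1 := by ring
          _ = c * Q + m * (u * c + v * q) := by rw [huv]
          _ = _ := by ring
      rw [e2]
      exact dvd_add ((e1.mul_left c).neg_right) (Dvd.intro _ rfl)
    obtain ⟨l, hl⟩ := hdvd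
    have hm : l * q - c * Q = m := by linarith
    rw [Finset.mem_image]
    refine ⟨(Q, l), ?_, ?_⟩
    · rw [Finset.mem_filter]
      have hm0 : (0 : ℤ) < m := by exact_mod_cast g1
      refine ⟨hmemT Q l g2 g3 (by rw [hm]; exact hm0.ne') ?_ ?_, by rw [hm]; exact hm0⟩
      · rw [hm, Int.cast_natCast]; exact g4
      · rw [hm, Int.cast_natCast]; exact g5
    · simp only [hm]
      rw [Int.toNat_natCast])
  -- negative lines
  have hneg := G2_half Z Y q hZ hZY hq (-β₂) (-β₁) (neg_le_neg hβ) (fun m => u * m)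
    ((T'.filter (fun p => p.2 * q - c * p.1 < 0)).image
      (fun p : ℕ × ℤ => (p.1, (-(p.2 * q - c * p.1)).toNat))) (by
    intro Q m g1 g2 g3 g4 g5 g6
    have hdvd : (q : ℤ) ∣ c * Q - m := by
      have e1 : (q : ℤ) ∣ u * m - Q := g6.dvd
      have e2 : c * Q - m = -(c * (u * m - Q)) - q * (v * m) := by
        calc c * Q - m = c * Q - m * 1 := by ring
          _ = c * Q - m * (u * c + v * q) := by rw [huv]
          _ = _ := by ring
      rw [e2]
      exact dvd_sub ((e1.mul_left c).neg_right) (Dvd.intro _ rfl)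
    obtain ⟨l, hl⟩ := hdvd
    have hm : l * q - c * Q = -m := by linarith
    have hcast : ((l * q - c * Q : ℤ) : ℝ) = -(m : ℝ) := by
      rw [hm]; push_cast; rfl
    rw [Finset.mem_image]
    refine ⟨(Q, l), ?_, ?_⟩
    · rw [Finset.mem_filter]
      have hm0 : (0 : ℤ) < m := by exact_mod_cast g1
      refine ⟨hmemT Q l g2 g3 (by rw [hm]; omega) ?_ ?_, by rw [hm]; omega⟩
      · rw [hcast, neg_div]; linarith
      · rw [hcast, neg_div]; linarith
    · simp only [hm, neg_neg]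
      rw [Int.toNat_natCast])
  have himg1 : ∑ p ∈ (T'.filter (fun p => 0 < p.2 * q - c * p.1)).image
      (fun p : ℕ × ℤ => (p.1, (p.2 * q - c * p.1).toNat)), 1 / (p.1 : ℝ) ≤
      ∑ p ∈ T'.filter (fun p => 0 < p.2 * q - c * p.1), 1 / (p.1 : ℝ) := by
    have hinj : Set.InjOn (fun p : ℕ × ℤ => (p.1, (p.2 * q - c * p.1).toNat))
        (T'.filter (fun p => 0 < p.2 * q - c * p.1)) := by
      intro p hp r hr hpr
      rw [Finset.mem_coe, Finset.mem_filter] at hp hr
      obtain ⟨h0, h1⟩ := Prod.mk.inj hpr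
      have h2 : p.2 * q - c * p.1 = r.2 * q - c * r.1 := by
        have e1 := Int.toNat_of_nonneg hp.2.le
        have e2 := Int.toNat_of_nonneg hr.2.le
        rw [← e1, ← e2, h1]
      have h3 : p.2 * q = r.2 * q := by
        rw [h0] at h2
        linarith
      have hqz : (q : ℤ) ≠ 0 := by
        have : (0 : ℤ) < q := by exact_mod_cast hq
        exact this.ne'
      exact Prod.ext h0 (mul_right_cancel₀ hqz h3)
    rw [Finset.sum_image hinj]
  have himg2 : ∑ p ∈ (T'.filter (fun p => p.2 * q - c * p.1 < 0)).image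
      (fun p : ℕ × ℤ => (p.1, (-(p.2 * q - c * p.1)).toNat)), 1 / (p.1 : ℝ) ≤
      ∑ p ∈ T'.filter (fun p => p.2 * q - c * p.1 < 0), 1 / (p.1 : ℝ) := by
    have hinj : Set.InjOn (fun p : ℕ × ℤ => (p.1, (-(p.2 * q - c * p.1)).toNat))
        (T'.filter (fun p => p.2 * q - c * p.1 < 0)) := by
      intro p hp r hr hpr
      rw [Finset.mem_coe, Finset.mem_filter] at hp hr
      obtain ⟨h0, h1⟩ := Prod.mk.inj hpr
      have h2 : -(p.2 * q - c * p.1) = -(r.2 * q - c * r.1) := by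
        have e1 := Int.toNat_of_nonneg (neg_nonneg.2 hp.2.le)
        have e2 := Int.toNat_of_nonneg (neg_nonneg.2 hr.2.le)
        rw [← e1, ← e2, h1]
      have h3 : p.2 * q = r.2 * q := by
        rw [h0] at h2
        linarith
      have hqz : (q : ℤ) ≠ 0 := by
        have : (0 : ℤ) < q := by exact_mod_cast hq
        exact this.ne'
      exact Prod.ext h0 (mul_right_cancel₀ hqz h3)
    rw [Finset.sum_image hinj]
  have hsplit : ∑ p ∈ T'.filter (fun p => 0 < p.2 * q - c * p.1), 1 / (p.1 : ℝ) +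
      ∑ p ∈ T'.filter (fun p => p.2 * q - c * p.1 < 0), 1 / (p.1 : ℝ) ≤ ∑ p ∈ T', 1 / (p.1 : ℝ) := by
    rw [← Finset.sum_union]
    · apply Finset.sum_le_sum_of_subset_of_nonneg
      · exact Finset.union_subset (Finset.filter_subset _ _) (Finset.filter_subset _ _)
      · intro _ _ _
        positivity
    · rw [Finset.disjoint_left]
      intro p hp hp'
      rw [Finset.mem_filter] at hp hp'
      linarith [hp.2, hp'.2]
  have herr : max (q * Y * β₂) 0 / Z + max (q * Y * (-β₁)) 0 / Z ≤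
      2 * q * Y * (|t - c / q| + δ / 2) / Z := by
    rw [← add_div]
    apply div_le_div_of_nonneg_right _ hZ0.le
    have habs := le_abs_self (t - c / q)
    have habs' := neg_abs_le (t - c / q)
    have habs0 := abs_nonneg (t - c / q)
    have h1 : max ((q : ℝ) * Y * β₂) 0 ≤ q * Y * (|t - c / q| + δ / 2) := by
      apply max_le
      · apply mul_le_mul_of_nonneg_left _ (by positivity)
        rw [hβ2]
        linarith
      · positivity
    have h2 : max ((q : ℝ) * Y * (-β₁)) 0 ≤ q * Y * (|t - c / q| + δ / 2) := by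
      apply max_le
      · apply mul_le_mul_of_nonneg_left _ (by positivity)
        rw [hβ1]
        linarith
      · positivity
    linarith
  have hZlip := (fq_lip Z hZ0.le q hq β₁ β₂ hβ).2
  have hZd : (Z : ℝ) * (β₂ - β₁) = Z * δ := by rw [hβ1, hβ2]; ring
  rw [hZd, LDE_fq Z q hZ hq β₂, LDE_fq Z q hZ hq β₁] at hZlip
  rw [hW, LDE_fq Y q hY1 hq β₂, LDE_fq Y q hY1 hq β₁]
  have hmain : (Psi (max (q * Y * β₂) 0) - Psi (max (q * Y * β₁) 0)) / q +
      (Psi (max (q * Y * (-β₁)) 0) - Psi (max (q * Y * (-β₂)) 0)) / q =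
      (Psi (max (q * Y * β₂) 0) - Psi (max (q * Y * (-β₂)) 0)) / q -
      (Psi (max (q * Y * β₁) 0) - Psi (max (q * Y * (-β₁)) 0)) / q := by
    ring
  have hmainZ : (Psi (max (q * Z * β₂) 0) - Psi (max (q * Z * β₁) 0)) / q +
      (Psi (max (q * Z * (-β₁)) 0) - Psi (max (q * Z * (-β₂)) 0)) / q =
      (Psi (max (q * Z * β₂) 0) - Psi (max (q * Z * (-β₂)) 0)) / q -
      (Psi (max (q * Z * β₁) 0) - Psi (max (q * Z * (-β₁)) 0)) / q := by
    ring
  linarith [hpos.trans himg1, hneg.trans himg2, hsplit, herr, hmain, hmainZ, hZlip]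

alias ld_low := ld_low_pr

end Pool.Agent.MF
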