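import Pool.Agent.Lib_helper59.MF.Defs
import Pool.Agent.Lib_helper59.MFF.G2
/-! MF : block G6b, the density, lower bound in the arcs -/

set_option autoImplicit false

namespace Pool.Agent.MF

open Finset Complex Filter Topology MeasureTheory Pool.Agent.Var35 Pool.Agent.Var73 Pool.Agent.HC
open scoped ArithmeticFunction ArithmeticFunction.Moebius

lemma g6b_logn {L : ℝ} (hL : 100 ≤ L) : 0 ≤ Real.log L := Real.log_nonneg (by linarith)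

lemma g6b_pw {L : ℝ} (hL : 100 ≤ L) (n : ℕ) (hn : 2 ≤ n) : 1 / L ^ n ≤ 1 / L ^ 2 := by
  apply one_div_le_one_div_of_le (by positivity)
  exact pow_le_pow_right₀ (by linarith) hn

lemma g6b_zinv {X L : ℝ} {Y Z T R U : ℕ} (h : Par X L Y Z T R U) :
    1 / (Z : ℝ) ≤ 2 * L ^ 5 / Y := by
  have hL0 : 0 < L := by linarith [h.hL]
  have hZ0 : (0 : ℝ) < Z := by exact_mod_cast h.hZ
  have hY0 : (0 : ℝ) < Y := lt_of_lt_of_le hZ0 (by exact_mod_cast h.hZY)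
  rw [div_le_div_iff₀ hZ0 hY0]
  calc 1 * (Y : ℝ) = 2 * L ^ 5 * ((Y : ℝ) / (2 * L ^ 5)) := by field_simp
    _ ≤ 2 * L ^ 5 * Z := by have := h.hZ2; gcongr

lemma g6b_tinv {X L : ℝ} {Y Z T R U : ℕ} (h : Par X L Y Z T R U) :
    1 / (T : ℝ) ≤ 2 * L ^ 11 / Y := by
  have hL0 : 0 < L := by linarith [h.hL]
  have hZ0 : (0 : ℝ) < Z := by exact_mod_cast h.hZ
  have hT0 : (0 : ℝ) < T := by exact_mod_cast h.hT
  have hY0 : (0 : ℝ) < Y := lt_of_lt_of_le hZ0 (by exact_mod_cast h.hZY)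
  rw [div_le_div_iff₀ hT0 hY0]
  calc 1 * (Y : ℝ) = 2 * L ^ 11 * ((Y : ℝ) / (2 * L ^ 11)) := by field_simp
    _ ≤ 2 * L ^ 11 * T := by have := h.hT2; gcongr

lemma g6b_rinv {X L : ℝ} {Y Z T R U : ℕ} (h : Par X L Y Z T R U) :
    1 / (R : ℝ) ≤ 2 * Y / (X * L ^ 8) := by
  have hL0 : 0 < L := by linarith [h.hL]
  have hX0 : 0 < X := by linarith [h.hXL]
  have hZ0 : (0 : ℝ) < Z := by exact_mod_cast h.hZ
  have hR0 : (0 : ℝ) < R := by exact_mod_cast h.hR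
  have hY0 : (0 : ℝ) < Y := lt_of_lt_of_le hZ0 (by exact_mod_cast h.hZY)
  rw [div_le_div_iff₀ hR0 (by positivity)]
  calc 1 * (X * L ^ 8) = 2 * (Y : ℝ) * (X / Y * L ^ 8 / 2) := by field_simp
    _ ≤ 2 * (Y : ℝ) * (R : ℝ) := by have := h.hR2; gcongr

lemma g6b_xy {X L : ℝ} {Y Z T R U : ℕ} (h : Par X L Y Z T R U) (n m : ℕ) (hn : n + m = 24) :
    X * L ^ n / (Y : ℝ) ^ 2 ≤ 1 / L ^ m := by
  have hL0 : 0 < L := by linarith [h.hL]
  have hZ0 : (0 : ℝ) < Z := by exact_mod_cast h.hZ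
  have hY0 : (0 : ℝ) < Y := lt_of_lt_of_le hZ0 (by exact_mod_cast h.hZY)
  rw [div_le_div_iff₀ (by positivity) (by positivity)]
  calc X * L ^ n * L ^ m = X * L ^ 24 := by rw [mul_assoc, ← pow_add, hn]
    _ ≤ 1 * (Y : ℝ) ^ 2 := by rw [one_mul]; exact h.hY2

/-- the error `2Y/(TZ)` -/
lemma g6b_e2 {X L : ℝ} {Y Z T R U : ℕ} (h : Par X L Y Z T R U) (δ : ℝ)
    (hδ : δ = 1 / (X * L ^ 6)) : 2 * (Y : ℝ) / T / Z ≤ Y * δ * (8 / L ^ 2) := by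
  have hL0 : 0 < L := by linarith [h.hL]
  have hX0 : 0 < X := by linarith [h.hXL]
  have hZ0 : (0 : ℝ) < Z := by exact_mod_cast h.hZ
  have hT0 : (0 : ℝ) < T := by exact_mod_cast h.hT
  have hY0 : (0 : ℝ) < Y := lt_of_lt_of_le hZ0 (by exact_mod_cast h.hZY)
  have hδ0 : 0 < δ := by rw [hδ]; positivity
  have hTinv := g6b_tinv h
  have hZinv := g6b_zinv h
  have hXY2 := g6b_xy h 22 2 (by norm_num)
  calc 2 * (Y : ℝ) / T / Z = 2 * Y * (1 / T) * (1 / Z) := by ring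
    _ ≤ 2 * Y * (2 * L ^ 11 / Y) * (2 * L ^ 5 / Y) := by gcongr
    _ = Y * δ * (8 * (X * L ^ 22 / (Y : ℝ) ^ 2)) := by rw [hδ]; field_simp; ring
    _ ≤ Y * δ * (8 * (1 / L ^ 2)) := by gcongr
    _ = Y * δ * (8 / L ^ 2) := by ring

/-- the error `TYδ/Z` -/
lemma g6b_e3 {X L : ℝ} {Y Z T R U : ℕ} (h : Par X L Y Z T R U) (δ : ℝ)
    (hδ : δ = 1 / (X * L ^ 6)) : (T : ℝ) * Y * δ / Z ≤ Y * δ * (2 / L ^ 2) := by
  have hL0 : 0 < L := by linarith [h.hL]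
  have hX0 : 0 < X := by linarith [h.hXL]
  have hZ0 : (0 : ℝ) < Z := by exact_mod_cast h.hZ
  have hY0 : (0 : ℝ) < Y := lt_of_lt_of_le hZ0 (by exact_mod_cast h.hZY)
  have hδ0 : 0 < δ := by rw [hδ]; positivity
  have hZinv := g6b_zinv h
  have hT1 := h.hT1
  have hLL := g6b_pw h.hL 6 (by norm_num)
  calc (T : ℝ) * Y * δ / Z = Y * δ * (T * (1 / Z)) := by ring
    _ ≤ Y * δ * ((Y / L ^ 11) * (2 * L ^ 5 / Y)) := by gcongr
    _ = Y * δ * (2 * (1 / L ^ 6)) := by field_simp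
    _ ≤ Y * δ * (2 * (1 / L ^ 2)) := by gcongr
    _ = Y * δ * (2 / L ^ 2) := by ring

/-- the error `2qY(|b|+δ/2)/Z` in an arc -/
lemma g6b_e4 {X L : ℝ} {Y Z T R U : ℕ} (h : Par X L Y Z T R U) (δ : ℝ)
    (hδ : δ = 1 / (X * L ^ 6)) (q : ℕ) (hq : 1 ≤ q) (hqR : q ≤ R) (b : ℝ)
    (hb : b ≤ L ^ 2 / (q * Y)) : 2 * (q : ℝ) * Y * (b + δ / 2) / Z ≤ Y * δ * (6 / L ^ 2) := by
  have hL0 : 0 < L := by linarith [h.hL]
  have hX0 : 0 < X := by linarith [h.hXL]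
  have hZ0 : (0 : ℝ) < Z := by exact_mod_cast h.hZ
  have hq0 : (0 : ℝ) < q := by exact_mod_cast hq
  have hqRr : (q : ℝ) ≤ R := by exact_mod_cast hqR
  have hY0 : (0 : ℝ) < Y := lt_of_lt_of_le hZ0 (by exact_mod_cast h.hZY)
  have hδ0 : 0 < δ := by rw [hδ]; positivity
  have hZinv := g6b_zinv h
  have hR1 := h.hR1
  have hXY := g6b_xy h 13 11 (by norm_num)
  have hLL := g6b_pw h.hL 11 (by norm_num)
  have hqR2 : (q : ℝ) ≤ X / Y * L ^ 8 := hqRr.trans hR1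
  calc 2 * (q : ℝ) * Y * (b + δ / 2) / Z
      = (2 * (q : ℝ) * Y * b + q * (Y * δ)) * (1 / Z) := by ring
    _ ≤ (2 * (q : ℝ) * Y * (L ^ 2 / (q * Y)) + (X / Y * L ^ 8) * (Y * δ)) * (2 * L ^ 5 / Y) := by
        gcongr
    _ = Y * δ * (6 * (X * L ^ 13 / (Y : ℝ) ^ 2)) := by rw [hδ]; field_simp; ring
    _ ≤ Y * δ * (6 * (1 / L ^ 11)) := by gcongr
    _ ≤ Y * δ * (6 * (1 / L ^ 2)) := by gcongr
    _ = Y * δ * (6 / L ^ 2) := by ring

/-- numbers -/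
lemma g6b_num {X L : ℝ} {Y Z T R U : ℕ} (h : Par X L Y Z T R U) (δ : ℝ)
    (hδ : δ = 1 / (X * L ^ 6)) (a b : ℝ) (ha : a ≤ 40) (hb : b ≤ 40) :
    Y * δ * ((a + b * Real.log L) / L ^ 2) ≤ EW Y δ L := by
  have hL0 : 0 < L := by linarith [h.hL]
  have hX0 : 0 < X := by linarith [h.hXL]
  have hlog := g6b_logn h.hL
  have hδ0 : 0 < δ := by rw [hδ]; positivity
  unfold EW
  gcongr
  nlinarith

lemma g6b_del {X L : ℝ} {Y Z T R U : ℕ} (h : Par X L Y Z T R U) (δ : ℝ)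
    (hδ : δ = 1 / (X * L ^ 6)) : δ ≤ 1 := by
  have hL0 : 0 < L := by linarith [h.hL]
  have hL1 : 1 ≤ L := by linarith [h.hL]
  have hX0 : 0 < X := by linarith [h.hXL]
  have hX1 : 1 ≤ X := by linarith [h.hXL]
  rw [hδ, div_le_iff₀ (by positivity), one_mul]
  exact one_le_mul_of_one_le_of_one_le hX1 (one_le_pow₀ hL1)

/-- `R ≤ T` -/
lemma g6b_rlet {X L : ℝ} {Y Z T R U : ℕ} (h : Par X L Y Z T R U) : R ≤ T := by
  have hL0 : 0 < L := by linarith [h.hL]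
  have hL1 : 1 ≤ L := by linarith [h.hL]
  have hX0 : 0 < X := by linarith [h.hXL]
  have hZ0 : (0 : ℝ) < Z := by exact_mod_cast h.hZ
  have hY0 : (0 : ℝ) < Y := lt_of_lt_of_le hZ0 (by exact_mod_cast h.hZY)
  have h1 : (R : ℝ) ≤ T := by
    refine h.hR1.trans (le_trans ?_ h.hT2)
    have h2 : 2 ≤ L ^ 5 := by
      have := le_self_pow₀ hL1 (n := 5) (by norm_num)
      linarith [h.hL]
    have h3 := h.hY2
    rw [le_div_iff₀ (by positivity)]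
    calc X / Y * L ^ 8 * (2 * L ^ 11) = X * L ^ 19 * 2 / Y := by ring
      _ ≤ X * L ^ 19 * L ^ 5 / Y := by gcongr
      _ = X * L ^ 24 / Y := by ring
      _ ≤ (Y : ℝ) ^ 2 / Y := by gcongr
      _ = Y := by field_simp
  exact_mod_cast h1

lemma g6b_rt {X L : ℝ} {Y Z T R U : ℕ} (h : Par X L Y Z T R U) (δ : ℝ)
    (hδ : δ = 1 / (X * L ^ 6)) : 1 / (T : ℝ) + T * δ / 2 < 1 / R := by
  have hL0 : 0 < L := by linarith [h.hL]
  have hL1 : 1 ≤ L := by linarith [h.hL]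
  have hX0 : 0 < X := by linarith [h.hXL]
  have hZ0 : (0 : ℝ) < Z := by exact_mod_cast h.hZ
  have hR0 : (0 : ℝ) < R := by exact_mod_cast h.hR
  have hY0 : (0 : ℝ) < Y := lt_of_lt_of_le hZ0 (by exact_mod_cast h.hZY)
  have hδ0 : 0 < δ := by rw [hδ]; positivity
  have hTinv := g6b_tinv h
  have hT1 := h.hT1
  have hR1 := h.hR1
  have hXY := g6b_xy h 19 5 (by norm_num)
  have h5 : 1 / L ^ 5 ≤ 1 / 100 := by
    apply one_div_le_one_div_of_le (by norm_num)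
    exact le_trans h.hL (le_self_pow₀ hL1 (by norm_num))
  have h9 : 1 / L ^ 9 ≤ 1 / 100 := by
    apply one_div_le_one_div_of_le (by norm_num)
    exact le_trans h.hL (le_self_pow₀ hL1 (by norm_num))
  have hpos : 0 < (Y : ℝ) / (X * L ^ 8) := by positivity
  have h3 : (Y : ℝ) / (X * L ^ 8) ≤ 1 / R := by
    rw [div_le_div_iff₀ (by positivity) hR0]
    calc (Y : ℝ) * R ≤ Y * (X / Y * L ^ 8) := by gcongr
      _ = 1 * (X * L ^ 8) := by field_simp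
  calc 1 / (T : ℝ) + T * δ / 2 ≤ 2 * L ^ 11 / Y + (Y / L ^ 11) * δ / 2 := by gcongr
    _ = (Y : ℝ) / (X * L ^ 8) * (2 * (X * L ^ 19 / (Y : ℝ) ^ 2) + 1 / 2 * (1 / L ^ 9)) := by
        rw [hδ]; field_simp
    _ ≤ (Y : ℝ) / (X * L ^ 8) * (2 * (1 / L ^ 5) + 1 / 2 * (1 / L ^ 9)) := by gcongr
    _ ≤ (Y : ℝ) / (X * L ^ 8) * (2 * (1 / 100) + 1 / 2 * (1 / 100)) := by gcongr
    _ < (Y : ℝ) / (X * L ^ 8) * 1 := by
        apply mul_lt_mul_of_pos_left _ hpos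
        norm_num
    _ ≤ 1 / R := by rw [mul_one]; exact h3

/-- the error `Zδ` -/
lemma g6b_zd {X L : ℝ} {Y Z T R U : ℕ} (h : Par X L Y Z T R U) (δ : ℝ)
    (hδ : δ = 1 / (X * L ^ 6)) : (Z : ℝ) * δ ≤ Y * δ * (1 / L ^ 2) := by
  have hL0 : 0 < L := by linarith [h.hL]
  have hX0 : 0 < X := by linarith [h.hXL]
  have hδ0 : 0 < δ := by rw [hδ]; positivity
  have hZ1 := h.hZ1
  have hLL := g6b_pw h.hL 5 (by norm_num)
  calc (Z : ℝ) * δ ≤ (Y / L ^ 5) * δ := by gcongr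
    _ = Y * δ * (1 / L ^ 5) := by ring
    _ ≤ Y * δ * (1 / L ^ 2) := by gcongr

/-- the density, lower bound in the arcs -/
theorem w_low_arc_pr {X L : ℝ} {Y Z T R U : ℕ} (h : Par X L Y Z T R U) (δ : ℝ)
    (hδ : δ = 1 / (X * L ^ 6)) :
    ∀ q ∈ Icc 1 R, ∀ c : ℤ, IsCoprime c (q : ℤ) → ∀ t : ℝ, 0 ≤ t → t ≤ 1 →
      |t - c / q| ≤ L ^ 2 / (q * Y) → Y * δ - Kq Y q δ (t - c / q) - EW Y δ L ≤ W Z Y R δ t := by
  have hL0 : 0 < L := by linarith [h.hL]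
  have hL1 : 1 ≤ L := by linarith [h.hL]
  have hX0 : 0 < X := by linarith [h.hXL]
  have hδ0 : 0 < δ := by rw [hδ]; positivity
  have hT0 : (0 : ℝ) < T := by exact_mod_cast h.hT
  have hZ0 : (0 : ℝ) < Z := by exact_mod_cast h.hZ
  have hY0 : (0 : ℝ) < Y := lt_of_lt_of_le hZ0 (by exact_mod_cast h.hZY)
  intro q hq c hc t h0 h1 ht
  rw [mem_Icc] at hq
  have hq0 : (0 : ℝ) < q := by exact_mod_cast hq.1
  have hδ1 := g6b_del h δ hδ
  have hRT := g6b_rt h δ hδ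
  have hqT : q ≤ T := hq.2.trans (g6b_rlet h)
  have hb : |t - c / q| ≤ 1 / (q * T) := by
    refine ht.trans ?_
    rw [div_le_div_iff₀ (by positivity) (by positivity)]
    have h2 : (T : ℝ) * L ^ 11 ≤ Y := by
      have := h.hT1
      rwa [le_div_iff₀ (by positivity)] at this
    have h3 : L ^ 2 ≤ L ^ 11 := pow_le_pow_right₀ hL1 (by norm_num)
    calc L ^ 2 * (q * T) ≤ L ^ 11 * (q * T) := by gcongr
      _ = q * (T * L ^ 11) := by ring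
      _ ≤ q * Y := by gcongr
      _ = 1 * (q * Y) := by ring
  have h2 := ld_low Z Y R T q c t δ h.hZ h.hZY h.hR hq.1 hqT hc hδ0 hδ1 h0 h1 hb hRT
  have h3 := g6b_e4 h δ hδ q hq.1 hq.2 |t - c / q| ht
  have h4 := g6b_zd h δ hδ
  have h5 := g6b_num h δ hδ 7 0 (by norm_num) (by norm_num)
  rw [zero_mul, add_zero] at h5
  have h7 : Y * δ * (6 / L ^ 2) + Y * δ * (1 / L ^ 2) = Y * δ * (7 / L ^ 2) := by ring
  unfold Kq
  linarith

alias w_low_arc := w_low_arc_pr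

end Pool.Agent.MF
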