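import Pool.Agent.Lib_helper59.MF.Defs
import Pool.Agent.Lib_helper92.HCF.FQI
set_option autoImplicit false

namespace Pool.Agent.MF

open Finset Complex Filter Topology MeasureTheory Pool.Agent.Var35 Pool.Agent.Var73 Pool.Agent.HC
open scoped ArithmeticFunction ArithmeticFunction.Moebius

/-- the missing density -/
noncomputable def g3R (Y : ℝ) (q : ℕ) (s : ℝ) : ℝ := Y - rho Y q s

theorem g3_int (Y : ℝ) (hY : 0 ≤ Y) (q : ℕ) (hq : 1 ≤ q) (a b : ℝ) :
    IntervalIntegrable (g3R Y q) volume a b :=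
  intervalIntegrable_const.sub (fqi_int Y hY q hq a b)

theorem g3_even (Y : ℝ) (q : ℕ) (s : ℝ) : g3R Y q (-s) = g3R Y q s := by
  unfold g3R
  rw [fqi_rho_even]

theorem g3_kq (Y : ℝ) (hY : 0 ≤ Y) (q : ℕ) (hq : 1 ≤ q) (δ β : ℝ) (hδ : 0 < δ) :
    Kq Y q δ β = ∫ s in (β - δ / 2)..(β + δ / 2), g3R Y q s := by
  have h1 := fq_int Y hY q hq (β - δ / 2) (β + δ / 2) (by linarith)
  unfold Kq g3R
  rw [h1.2, intervalIntegral.integral_sub intervalIntegrable_const h1.1,
    intervalIntegral.integral_const, smul_eq_mul]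
  ring

theorem g3_nonneg (Y : ℝ) (hY : 0 ≤ Y) (q : ℕ) (hq : 1 ≤ q) (s : ℝ) : 0 ≤ g3R Y q s := by
  have h := fqi_bound Y hY q hq s
  rw [Real.norm_of_nonneg hY] at h
  have := (le_abs_self (rho Y q s)).trans h
  unfold g3R
  linarith

theorem g3_le (Y : ℝ) (q : ℕ) (s : ℝ) : g3R Y q s ≤ Y := by
  have h0 : 0 ≤ rho Y q s := by
    unfold rho
    positivity
  unfold g3R
  linarith

theorem g3_tail (Y : ℝ) (q : ℕ) (hq : 1 ≤ q) (s : ℝ) (hs : s ≠ 0) :
    g3R Y q s ≤ 1 / (q * |s|) := by
  have hq0 : (0 : ℝ) < q := by exact_mod_cast hq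
  have hs0 : 0 < |s| := abs_pos.mpr hs
  unfold g3R rho
  rw [sub_le_iff_le_add, ← add_div, le_div_iff₀ (by positivity)]
  have := Nat.lt_floor_add_one ((q : ℝ) * Y * |s|)
  nlinarith

/-- the missing mass away from the centre -/
theorem kq_tail_pr (Y : ℝ) (hY : 0 < Y) (q : ℕ) (hq : 1 ≤ q) (δ β : ℝ) (hδ : 0 < δ) (h : δ ≤ |β|) :
    Kq Y q δ β ≤ 2 * δ / (q * |β|) := by
  have hq0 : (0 : ℝ) < q := by exact_mod_cast hq
  have hb : 0 < |β| := by linarith
  rw [g3_kq Y hY.le q hq δ β hδ]
  have h1 : ∫ s in (β - δ / 2)..(β + δ / 2), g3R Y q s ≤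
      ∫ _s in (β - δ / 2)..(β + δ / 2), 2 / (q * |β|) := by
    refine intervalIntegral.integral_mono_on (by linarith) (g3_int Y hY.le q hq _ _)
      intervalIntegrable_const fun s hs => ?_
    have h2 : |β| / 2 ≤ |s| := by
      have h3 : |β - s| ≤ δ / 2 := by
        rw [abs_le]
        constructor <;> linarith [hs.1, hs.2]
      have h4 : |β| ≤ |β - s| + |s| := by
        calc |β| = |(β - s) + s| := by ring_nf
          _ ≤ _ := abs_add_le _ _
      linarith
    have hs0 : s ≠ 0 := by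
      intro h0
      rw [h0, abs_zero] at h2
      linarith
    refine (g3_tail Y q hq s hs0).trans ?_
    have hs1 : 0 < |s| := abs_pos.mpr hs0
    rw [div_le_div_iff₀ (by positivity) (by positivity)]
    nlinarith
  refine h1.trans (le_of_eq ?_)
  rw [intervalIntegral.integral_const, smul_eq_mul]
  ring

/-- the missing mass for large denominators -/
theorem kq_large_pr (Y : ℝ) (hY : 0 < Y) (q : ℕ) (hq : 1 ≤ q) (δ β : ℝ) (hδ : 0 < δ)
    (h : 2 ≤ q * Y * δ) :
    Kq Y q δ β ≤ 2 / q * (2 + Real.log (q * Y * δ)) := by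
  have hq0 : (0 : ℝ) < q := by exact_mod_cast hq
  have hlog : 0 ≤ Real.log (q * Y * δ) := Real.log_nonneg (by linarith)
  by_cases hb : δ ≤ |β|
  · refine (kq_tail_pr Y hY q hq δ β hδ hb).trans ?_
    have hb0 : 0 < |β| := by linarith
    have h1 : 2 * δ / (q * |β|) ≤ 2 / q := by
      rw [div_le_div_iff₀ (by positivity) hq0]
      nlinarith
    refine h1.trans ?_
    have : 0 < 2 / (q : ℝ) := by positivity
    nlinarith
  · push Not at hb
    rw [g3_kq Y hY.le q hq δ β hδ]
    have hbb := abs_lt.mp hb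
    have hI := g3_int Y hY.le q hq
    -- enlarge the interval
    have h1 : ∫ s in (β - δ / 2)..(β + δ / 2), g3R Y q s ≤
        ∫ s in (-(3 * δ / 2))..(3 * δ / 2), g3R Y q s := by
      refine intervalIntegral.integral_mono_interval (by linarith) (by linarith) (by linarith)
        (Filter.Eventually.of_forall fun s => g3_nonneg Y hY.le q hq s) (hI _ _)
    have h2 : ∫ s in (-(3 * δ / 2))..(3 * δ / 2), g3R Y q s =
        2 * ∫ s in (0 : ℝ)..(3 * δ / 2), g3R Y q s := by
      rw [← intervalIntegral.integral_add_adjacent_intervals (hI (-(3 * δ / 2)) 0)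
        (hI 0 (3 * δ / 2))]
      have h3 : ∫ s in (-(3 * δ / 2))..(0 : ℝ), g3R Y q s =
          ∫ s in (0 : ℝ)..(3 * δ / 2), g3R Y q s := by
        have h4 := intervalIntegral.integral_comp_neg (a := 0) (b := 3 * δ / 2) (g3R Y q)
        rw [neg_zero] at h4
        rw [← h4]
        refine intervalIntegral.integral_congr fun s _ => g3_even Y q s
      rw [h3]
      ring
    set a : ℝ := 1 / (q * Y) with ha
    have ha0 : 0 < a := by positivity
    have haδ : a ≤ 3 * δ / 2 := by
      rw [ha, div_le_iff₀ (by positivity)]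
      nlinarith
    have h3 : ∫ s in (0 : ℝ)..(3 * δ / 2), g3R Y q s ≤ 1 / q * (2 + Real.log (q * Y * δ)) := by
      rw [← intervalIntegral.integral_add_adjacent_intervals (hI 0 a) (hI a (3 * δ / 2))]
      have h4 : ∫ s in (0 : ℝ)..a, g3R Y q s ≤ ∫ _s in (0 : ℝ)..a, Y :=
        intervalIntegral.integral_mono_on ha0.le (hI _ _) intervalIntegrable_const
          fun s _ => g3_le Y q s
      have h5 : ∫ _s in (0 : ℝ)..a, Y = 1 / q := by
        rw [intervalIntegral.integral_const, smul_eq_mul, sub_zero, ha]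
        field_simp
      have hinv : IntervalIntegrable (fun s : ℝ => 1 / (q : ℝ) * s⁻¹) volume a (3 * δ / 2) := by
        refine (intervalIntegral.intervalIntegrable_inv (fun s hs => ?_) continuousOn_id).const_mul _
        rw [Set.uIcc_of_le haδ] at hs
        exact (lt_of_lt_of_le ha0 hs.1).ne'
      have h6 : ∫ s in a..(3 * δ / 2), g3R Y q s ≤ ∫ s in a..(3 * δ / 2), 1 / (q : ℝ) * s⁻¹ := by
        refine intervalIntegral.integral_mono_on haδ (hI _ _) hinv fun s hs => ?_
        have hs0 : 0 < s := lt_of_lt_of_le ha0 hs.1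
        have := g3_tail Y q hq s hs0.ne'
        rw [abs_of_pos hs0] at this
        refine this.trans (le_of_eq ?_)
        field_simp
      have h7 : ∫ s in a..(3 * δ / 2), 1 / (q : ℝ) * s⁻¹ =
          1 / q * Real.log (3 * δ / 2 / a) := by
        rw [intervalIntegral.integral_const_mul, integral_inv_of_pos ha0 (by positivity)]
      have h8 : Real.log (3 * δ / 2 / a) ≤ 1 + Real.log (q * Y * δ) := by
        have e1 : 3 * δ / 2 / a = (3 / 2) * (q * Y * δ) := by
          rw [ha]
          field_simp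
        rw [e1, Real.log_mul (by norm_num) (by positivity)]
        have : Real.log (3 / 2) ≤ 3 / 2 - 1 := Real.log_le_sub_one_of_pos (by norm_num)
        linarith
      have h9 : 1 / (q : ℝ) * Real.log (3 * δ / 2 / a) ≤ 1 / q * (1 + Real.log (q * Y * δ)) := by
        gcongr
      calc _ ≤ 1 / (q : ℝ) + 1 / q * (1 + Real.log (q * Y * δ)) := by linarith
        _ = _ := by ring
    calc ∫ s in (β - δ / 2)..(β + δ / 2), g3R Y q s
        ≤ 2 * ∫ s in (0 : ℝ)..(3 * δ / 2), g3R Y q s := by rw [← h2]; exact h1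
      _ ≤ 2 * (1 / q * (2 + Real.log (q * Y * δ))) := by linarith
      _ = _ := by ring

alias kq_tail := kq_tail_pr

alias kq_large := kq_large_pr

end Pool.Agent.MF
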