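import Pool.Agent.Lib_helper59.MF.Defs
import Pool.Agent.Lib_helper59.MFF.G2
import Pool.Agent.Lib_helper59.MFF.G3
/-! MF : block G6c, the density, lower bound outside of the arcs -/

set_option autoImplicit false

namespace Pool.Agent.MF

open Finset Complex Filter Topology MeasureTheory Pool.Agent.Var35 Pool.Agent.Var73 Pool.Agent.HC
open scoped ArithmeticFunction ArithmeticFunction.Moebius

lemma g6c_logn {L : ℝ} (hL : 100 ≤ L) : 0 ≤ Real.log L := Real.log_nonneg (by linarith)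

lemma g6c_pw {L : ℝ} (hL : 100 ≤ L) (n : ℕ) (hn : 2 ≤ n) : 1 / L ^ n ≤ 1 / L ^ 2 := by
  apply one_div_le_one_div_of_le (by positivity)
  exact pow_le_pow_right₀ (by linarith) hn

lemma g6c_zinv {X L : ℝ} {Y Z T R U : ℕ} (h : Par X L Y Z T R U) :
    1 / (Z : ℝ) ≤ 2 * L ^ 5 / Y := by
  have hL0 : 0 < L := by linarith [h.hL]
  have hZ0 : (0 : ℝ) < Z := by exact_mod_cast h.hZ
  have hY0 : (0 : ℝ) < Y := lt_of_lt_of_le hZ0 (by exact_mod_cast h.hZY)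
  rw [div_le_div_iff₀ hZ0 hY0]
  calc 1 * (Y : ℝ) = 2 * L ^ 5 * ((Y : ℝ) / (2 * L ^ 5)) := by field_simp
    _ ≤ 2 * L ^ 5 * Z := by have := h.hZ2; gcongr

lemma g6c_tinv {X L : ℝ} {Y Z T R U : ℕ} (h : Par X L Y Z T R U) :
    1 / (T : ℝ) ≤ 2 * L ^ 11 / Y := by
  have hL0 : 0 < L := by linarith [h.hL]
  have hZ0 : (0 : ℝ) < Z := by exact_mod_cast h.hZ
  have hT0 : (0 : ℝ) < T := by exact_mod_cast h.hT
  have hY0 : (0 : ℝ) < Y := lt_of_lt_of_le hZ0 (by exact_mod_cast h.hZY)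
  rw [div_le_div_iff₀ hT0 hY0]
  calc 1 * (Y : ℝ) = 2 * L ^ 11 * ((Y : ℝ) / (2 * L ^ 11)) := by field_simp
    _ ≤ 2 * L ^ 11 * T := by have := h.hT2; gcongr

lemma g6c_rinv {X L : ℝ} {Y Z T R U : ℕ} (h : Par X L Y Z T R U) :
    1 / (R : ℝ) ≤ 2 * Y / (X * L ^ 8) := by
  have hL0 : 0 < L := by linarith [h.hL]
  have hX0 : 0 < X := by linarith [h.hXL]
  have hZ0 : (0 : ℝ) < Z := by exact_mod_cast h.hZ
  have hR0 : (0 : ℝ) < R := by exact_mod_cast h.hR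
  have hY0 : (0 : ℝ) < Y := lt_of_lt_of_le hZ0 (by exact_mod_cast h.hZY)
  rw [div_le_div_iff₀ hR0 (by positivity)]
  calc 1 * (X * L ^ 8) = 2 * (Y : ℝ) * (X / Y * L ^ 8 / 2) := by field_simp
    _ ≤ 2 * (Y : ℝ) * (R : ℝ) := by have := h.hR2; gcongr

lemma g6c_xy {X L : ℝ} {Y Z T R U : ℕ} (h : Par X L Y Z T R U) (n m : ℕ) (hn : n + m = 24) :
    X * L ^ n / (Y : ℝ) ^ 2 ≤ 1 / L ^ m := by
  have hL0 : 0 < L := by linarith [h.hL]
  have hZ0 : (0 : ℝ) < Z := by exact_mod_cast h.hZ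
  have hY0 : (0 : ℝ) < Y := lt_of_lt_of_le hZ0 (by exact_mod_cast h.hZY)
  rw [div_le_div_iff₀ (by positivity) (by positivity)]
  calc X * L ^ n * L ^ m = X * L ^ 24 := by rw [mul_assoc, ← pow_add, hn]
    _ ≤ 1 * (Y : ℝ) ^ 2 := by rw [one_mul]; exact h.hY2

/-- the error `2Y/(TZ)` -/
lemma g6c_e2 {X L : ℝ} {Y Z T R U : ℕ} (h : Par X L Y Z T R U) (δ : ℝ)
    (hδ : δ = 1 / (X * L ^ 6)) : 2 * (Y : ℝ) / T / Z ≤ Y * δ * (8 / L ^ 2) := by
  have hL0 : 0 < L := by linarith [h.hL]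
  have hX0 : 0 < X := by linarith [h.hXL]
  have hZ0 : (0 : ℝ) < Z := by exact_mod_cast h.hZ
  have hT0 : (0 : ℝ) < T := by exact_mod_cast h.hT
  have hY0 : (0 : ℝ) < Y := lt_of_lt_of_le hZ0 (by exact_mod_cast h.hZY)
  have hδ0 : 0 < δ := by rw [hδ]; positivity
  have hTinv := g6c_tinv h
  have hZinv := g6c_zinv h
  have hXY2 := g6c_xy h 22 2 (by norm_num)
  calc 2 * (Y : ℝ) / T / Z = 2 * Y * (1 / T) * (1 / Z) := by ring
    _ ≤ 2 * Y * (2 * L ^ 11 / Y) * (2 * L ^ 5 / Y) := by gcongr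
    _ = Y * δ * (8 * (X * L ^ 22 / (Y : ℝ) ^ 2)) := by rw [hδ]; field_simp; ring
    _ ≤ Y * δ * (8 * (1 / L ^ 2)) := by gcongr
    _ = Y * δ * (8 / L ^ 2) := by ring

/-- the error `TYδ/Z` -/
lemma g6c_e3 {X L : ℝ} {Y Z T R U : ℕ} (h : Par X L Y Z T R U) (δ : ℝ)
    (hδ : δ = 1 / (X * L ^ 6)) : (T : ℝ) * Y * δ / Z ≤ Y * δ * (2 / L ^ 2) := by
  have hL0 : 0 < L := by linarith [h.hL]
  have hX0 : 0 < X := by linarith [h.hXL]
  have hZ0 : (0 : ℝ) < Z := by exact_mod_cast h.hZ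
  have hY0 : (0 : ℝ) < Y := lt_of_lt_of_le hZ0 (by exact_mod_cast h.hZY)
  have hδ0 : 0 < δ := by rw [hδ]; positivity
  have hZinv := g6c_zinv h
  have hT1 := h.hT1
  have hLL := g6c_pw h.hL 6 (by norm_num)
  calc (T : ℝ) * Y * δ / Z = Y * δ * (T * (1 / Z)) := by ring
    _ ≤ Y * δ * ((Y / L ^ 11) * (2 * L ^ 5 / Y)) := by gcongr
    _ = Y * δ * (2 * (1 / L ^ 6)) := by field_simp
    _ ≤ Y * δ * (2 * (1 / L ^ 2)) := by gcongr
    _ = Y * δ * (2 / L ^ 2) := by ring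

/-- the error `2qY(|b|+δ/2)/Z` in an arc -/
lemma g6c_e4 {X L : ℝ} {Y Z T R U : ℕ} (h : Par X L Y Z T R U) (δ : ℝ)
    (hδ : δ = 1 / (X * L ^ 6)) (q : ℕ) (hq : 1 ≤ q) (hqR : q ≤ R) (b : ℝ)
    (hb : b ≤ L ^ 2 / (q * Y)) : 2 * (q : ℝ) * Y * (b + δ / 2) / Z ≤ Y * δ * (6 / L ^ 2) := by
  have hL0 : 0 < L := by linarith [h.hL]
  have hX0 : 0 < X := by linarith [h.hXL]
  have hZ0 : (0 : ℝ) < Z := by exact_mod_cast h.hZ
  have hq0 : (0 : ℝ) < q := by exact_mod_cast hq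
  have hqRr : (q : ℝ) ≤ R := by exact_mod_cast hqR
  have hY0 : (0 : ℝ) < Y := lt_of_lt_of_le hZ0 (by exact_mod_cast h.hZY)
  have hδ0 : 0 < δ := by rw [hδ]; positivity
  have hZinv := g6c_zinv h
  have hR1 := h.hR1
  have hXY := g6c_xy h 13 11 (by norm_num)
  have hLL := g6c_pw h.hL 11 (by norm_num)
  have hqR2 : (q : ℝ) ≤ X / Y * L ^ 8 := hqRr.trans hR1
  calc 2 * (q : ℝ) * Y * (b + δ / 2) / Z
      = (2 * (q : ℝ) * Y * b + q * (Y * δ)) * (1 / Z) := by ring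
    _ ≤ (2 * (q : ℝ) * Y * (L ^ 2 / (q * Y)) + (X / Y * L ^ 8) * (Y * δ)) * (2 * L ^ 5 / Y) := by
        gcongr
    _ = Y * δ * (6 * (X * L ^ 13 / (Y : ℝ) ^ 2)) := by rw [hδ]; field_simp; ring
    _ ≤ Y * δ * (6 * (1 / L ^ 11)) := by gcongr
    _ ≤ Y * δ * (6 * (1 / L ^ 2)) := by gcongr
    _ = Y * δ * (6 / L ^ 2) := by ring

/-- numbers -/
lemma g6c_num {X L : ℝ} {Y Z T R U : ℕ} (h : Par X L Y Z T R U) (δ : ℝ)
    (hδ : δ = 1 / (X * L ^ 6)) (a b : ℝ) (ha : a ≤ 40) (hb : b ≤ 40) :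
    Y * δ * ((a + b * Real.log L) / L ^ 2) ≤ EW Y δ L := by
  have hL0 : 0 < L := by linarith [h.hL]
  have hX0 : 0 < X := by linarith [h.hXL]
  have hlog := g6c_logn h.hL
  have hδ0 : 0 < δ := by rw [hδ]; positivity
  unfold EW
  gcongr
  nlinarith

lemma g6c_del {X L : ℝ} {Y Z T R U : ℕ} (h : Par X L Y Z T R U) (δ : ℝ)
    (hδ : δ = 1 / (X * L ^ 6)) : δ ≤ 1 := by
  have hL0 : 0 < L := by linarith [h.hL]
  have hL1 : 1 ≤ L := by linarith [h.hL]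
  have hX0 : 0 < X := by linarith [h.hXL]
  have hX1 : 1 ≤ X := by linarith [h.hXL]
  rw [hδ, div_le_iff₀ (by positivity), one_mul]
  exact one_le_mul_of_one_le_of_one_le hX1 (one_le_pow₀ hL1)

/-- `R ≤ T` -/
lemma g6c_rlet {X L : ℝ} {Y Z T R U : ℕ} (h : Par X L Y Z T R U) : R ≤ T := by
  have hL0 : 0 < L := by linarith [h.hL]
  have hL1 : 1 ≤ L := by linarith [h.hL]
  have hX0 : 0 < X := by linarith [h.hXL]
  have hZ0 : (0 : ℝ) < Z := by exact_mod_cast h.hZ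
  have hY0 : (0 : ℝ) < Y := lt_of_lt_of_le hZ0 (by exact_mod_cast h.hZY)
  have h1 : (R : ℝ) ≤ T := by
    refine h.hR1.trans (le_trans ?_ h.hT2)
    have h2 : 2 ≤ L ^ 5 := by
      have := le_self_pow₀ hL1 (n := 5) (by norm_num)
      linarith [h.hL]
    have h3 := h.hY2
    rw [le_div_iff₀ (by positivity)]
    calc X / Y * L ^ 8 * (2 * L ^ 11) = X * L ^ 19 * 2 / Y := by ring
      _ ≤ X * L ^ 19 * L ^ 5 / Y := by gcongr
      _ = X * L ^ 24 / Y := by ring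
      _ ≤ (Y : ℝ) ^ 2 / Y := by gcongr
      _ = Y := by field_simp
  exact_mod_cast h1

lemma g6c_rt {X L : ℝ} {Y Z T R U : ℕ} (h : Par X L Y Z T R U) (δ : ℝ)
    (hδ : δ = 1 / (X * L ^ 6)) : 1 / (T : ℝ) + T * δ / 2 < 1 / R := by
  have hL0 : 0 < L := by linarith [h.hL]
  have hL1 : 1 ≤ L := by linarith [h.hL]
  have hX0 : 0 < X := by linarith [h.hXL]
  have hZ0 : (0 : ℝ) < Z := by exact_mod_cast h.hZ
  have hR0 : (0 : ℝ) < R := by exact_mod_cast h.hR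
  have hY0 : (0 : ℝ) < Y := lt_of_lt_of_le hZ0 (by exact_mod_cast h.hZY)
  have hδ0 : 0 < δ := by rw [hδ]; positivity
  have hTinv := g6c_tinv h
  have hT1 := h.hT1
  have hR1 := h.hR1
  have hXY := g6c_xy h 19 5 (by norm_num)
  have h5 : 1 / L ^ 5 ≤ 1 / 100 := by
    apply one_div_le_one_div_of_le (by norm_num)
    exact le_trans h.hL (le_self_pow₀ hL1 (by norm_num))
  have h9 : 1 / L ^ 9 ≤ 1 / 100 := by
    apply one_div_le_one_div_of_le (by norm_num)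
    exact le_trans h.hL (le_self_pow₀ hL1 (by norm_num))
  have hpos : 0 < (Y : ℝ) / (X * L ^ 8) := by positivity
  have h3 : (Y : ℝ) / (X * L ^ 8) ≤ 1 / R := by
    rw [div_le_div_iff₀ (by positivity) hR0]
    calc (Y : ℝ) * R ≤ Y * (X / Y * L ^ 8) := by gcongr
      _ = 1 * (X * L ^ 8) := by field_simp
  calc 1 / (T : ℝ) + T * δ / 2 ≤ 2 * L ^ 11 / Y + (Y / L ^ 11) * δ / 2 := by gcongr
    _ = (Y : ℝ) / (X * L ^ 8) * (2 * (X * L ^ 19 / (Y : ℝ) ^ 2) + 1 / 2 * (1 / L ^ 9)) := by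
        rw [hδ]; field_simp
    _ ≤ (Y : ℝ) / (X * L ^ 8) * (2 * (1 / L ^ 5) + 1 / 2 * (1 / L ^ 9)) := by gcongr
    _ ≤ (Y : ℝ) / (X * L ^ 8) * (2 * (1 / 100) + 1 / 2 * (1 / 100)) := by gcongr
    _ < (Y : ℝ) / (X * L ^ 8) * 1 := by
        apply mul_lt_mul_of_pos_left _ hpos
        norm_num
    _ ≤ 1 / R := by rw [mul_one]; exact h3

/-- the error `Zδ` -/
lemma g6c_zd {X L : ℝ} {Y Z T R U : ℕ} (h : Par X L Y Z T R U) (δ : ℝ)
    (hδ : δ = 1 / (X * L ^ 6)) : (Z : ℝ) * δ ≤ Y * δ * (1 / L ^ 2) := by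
  have hL0 : 0 < L := by linarith [h.hL]
  have hX0 : 0 < X := by linarith [h.hXL]
  have hδ0 : 0 < δ := by rw [hδ]; positivity
  have hZ1 := h.hZ1
  have hLL := g6c_pw h.hL 5 (by norm_num)
  calc (Z : ℝ) * δ ≤ (Y / L ^ 5) * δ := by gcongr
    _ = Y * δ * (1 / L ^ 5) := by ring
    _ ≤ Y * δ * (1 / L ^ 2) := by gcongr

/-- `(2 + log v)/v` is decreasing -/
lemma g6c_mono {u v : ℝ} (hu : 1 ≤ u) (huv : u ≤ v) :
    (2 + Real.log v) / v ≤ (2 + Real.log u) / u := by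
  have hu0 : 0 < u := by linarith
  have hv0 : 0 < v := by linarith
  have h1 : Real.log v = Real.log u + Real.log (v / u) := by
    rw [Real.log_div hv0.ne' hu0.ne']; ring
  have h2 : Real.log (v / u) ≤ v / u - 1 := Real.log_le_sub_one_of_pos (by positivity)
  have h3 : 0 ≤ Real.log u := Real.log_nonneg hu
  rw [div_le_div_iff₀ hv0 hu0, h1]
  have h4 : (v / u - 1) * u = v - u := by field_simp
  have h5 : Real.log (v / u) * u ≤ v - u := by rw [← h4]; gcongr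
  nlinarith

/-- the density, lower bound outside of the arcs -/
theorem w_low_out_pr {X L : ℝ} {Y Z T R U : ℕ} (h : Par X L Y Z T R U) (δ : ℝ)
    (hδ : δ = 1 / (X * L ^ 6)) :
    ∀ t : ℝ, 0 ≤ t → t ≤ 1 → (∀ q ∈ Icc 1 R, ∀ c : ℤ, IsCoprime c (q : ℤ) →
      L ^ 2 / (q * Y) < |t - c / q|) → Y * δ - EW Y δ L ≤ W Z Y R δ t := by
  have hL0 : 0 < L := by linarith [h.hL]
  have hL1 : 1 ≤ L := by linarith [h.hL]
  have hX0 : 0 < X := by linarith [h.hXL]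
  have hδ0 : 0 < δ := by rw [hδ]; positivity
  have hT0 : (0 : ℝ) < T := by exact_mod_cast h.hT
  have hZ0 : (0 : ℝ) < Z := by exact_mod_cast h.hZ
  have hR0 : (0 : ℝ) < R := by exact_mod_cast h.hR
  have hY0 : (0 : ℝ) < Y := lt_of_lt_of_le hZ0 (by exact_mod_cast h.hZY)
  intro t h0 h1 hout
  obtain ⟨r, hr1, hr2⟩ := Real.exists_rat_abs_sub_le_and_den_le t (n := T) h.hT
  have hq : 1 ≤ r.den := r.den_pos
  have hq0 : (0 : ℝ) < r.den := by exact_mod_cast hq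
  have hqT : (r.den : ℝ) ≤ T := by exact_mod_cast hr2
  have hrr : (r : ℝ) = (r.num : ℝ) / r.den := by
    rw [← Rat.cast_def]
  have hc : IsCoprime r.num (r.den : ℤ) := by
    rw [Int.isCoprime_iff_gcd_eq_one]
    have := r.reduced
    rw [Nat.Coprime] at this
    rw [Int.gcd, Int.natAbs_natCast]
    exact this
  have hδ1 := g6c_del h δ hδ
  have hRT := g6c_rt h δ hδ
  have hb : |t - r.num / r.den| ≤ 1 / (r.den * T) := by
    rw [← hrr]
    refine hr1.trans ?_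
    apply one_div_le_one_div_of_le (by positivity)
    nlinarith
  have h2 := ld_low Z Y R T r.den r.num t δ h.hZ h.hZY h.hR hq hr2 hc hδ0 hδ1 h0 h1 hb hRT
  have h4 := g6c_zd h δ hδ
  -- the error in the formula
  have h3 : 2 * (r.den : ℝ) * Y * (|t - r.num / r.den| + δ / 2) / Z ≤
      Y * δ * (10 / L ^ 2) := by
    have e2 := g6c_e2 h δ hδ
    have e3 := g6c_e3 h δ hδ
    calc 2 * (r.den : ℝ) * Y * (|t - r.num / r.den| + δ / 2) / Z
        ≤ 2 * (r.den : ℝ) * Y * (1 / (r.den * T) + δ / 2) / Z := by gcongr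
      _ = 2 * (Y : ℝ) / T / Z + (r.den : ℝ) * Y * δ / Z := by field_simp
      _ ≤ 2 * (Y : ℝ) / T / Z + (T : ℝ) * Y * δ / Z := by gcongr
      _ ≤ Y * δ * (8 / L ^ 2) + Y * δ * (2 / L ^ 2) := by linarith
      _ = Y * δ * (10 / L ^ 2) := by ring
  have hK : Kq Y r.den δ (t - r.num / r.den) ≤ Y * δ * ((8 + 8 * Real.log L) / L ^ 2) := by
    by_cases hqR : r.den ≤ R
    · have hqRr : (r.den : ℝ) ≤ R := by exact_mod_cast hqR
      have h5 := hout r.den (mem_Icc.2 ⟨hq, hqR⟩) r.num hc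
      have h6 : δ ≤ |t - r.num / r.den| := by
        refine le_trans ?_ h5.le
        rw [hδ, div_le_div_iff₀ (by positivity) (by positivity)]
        have hR1 := h.hR1
        calc 1 * ((r.den : ℝ) * Y) ≤ 1 * ((X / Y * L ^ 8) * Y) := by
              gcongr
              exact hqRr.trans hR1
          _ = L ^ 2 * (X * L ^ 6) := by field_simp
      have h7 := kq_tail Y hY0 r.den hq δ (t - r.num / r.den) hδ0 h6
      refine h7.trans ?_
      have h8 : L ^ 2 / Y ≤ r.den * |t - r.num / r.den| := by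
        calc L ^ 2 / Y = r.den * (L ^ 2 / (r.den * Y)) := by field_simp
          _ ≤ r.den * |t - r.num / r.den| := by gcongr
      have hlog := g6c_logn h.hL
      calc 2 * δ / (r.den * |t - r.num / r.den|) ≤ 2 * δ / (L ^ 2 / Y) := by gcongr
        _ = Y * δ * (2 / L ^ 2) := by field_simp
        _ ≤ Y * δ * ((8 + 8 * Real.log L) / L ^ 2) := by
            gcongr
            nlinarith
    · push Not at hqR
      have hqRr : (R : ℝ) ≤ r.den := by exact_mod_cast hqR.le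
      have hv : L ^ 2 / 2 ≤ r.den * Y * δ := by
        have hR2 := h.hR2
        calc L ^ 2 / 2 = (X / Y * L ^ 8 / 2) * Y * δ := by rw [hδ]; field_simp
          _ ≤ r.den * Y * δ := by
            gcongr
            exact hR2.trans hqRr
      have hL2 : 1 ≤ L ^ 2 / 2 := by nlinarith [h.hL]
      have hv2 : 2 ≤ r.den * Y * δ := by
        refine le_trans ?_ hv
        nlinarith [h.hL]
      have h7 := kq_large Y hY0 r.den hq δ (t - r.num / r.den) hδ0 hv2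
      refine h7.trans ?_
      have h8 := g6c_mono hL2 hv
      have h9 : Real.log (L ^ 2 / 2) ≤ 2 * Real.log L := by
        rw [Real.log_div (by positivity) (by norm_num), Real.log_pow]
        have := Real.log_nonneg (show (1 : ℝ) ≤ 2 by norm_num)
        push_cast
        linarith
      have hv0 : 0 < r.den * Y * δ := by positivity
      calc 2 / (r.den : ℝ) * (2 + Real.log (r.den * Y * δ))
          = 2 * (Y * δ) * ((2 + Real.log (r.den * Y * δ)) / (r.den * Y * δ)) := by field_simp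
        _ ≤ 2 * (Y * δ) * ((2 + Real.log (L ^ 2 / 2)) / (L ^ 2 / 2)) := by gcongr
        _ ≤ 2 * (Y * δ) * ((2 + 2 * Real.log L) / (L ^ 2 / 2)) := by gcongr
        _ = Y * δ * ((8 + 8 * Real.log L) / L ^ 2) := by field_simp; ring
  have h5 := g6c_num h δ hδ 19 8 (by norm_num) (by norm_num)
  have h7 : Y * δ * (10 / L ^ 2) + Y * δ * (1 / L ^ 2)
      + Y * δ * ((8 + 8 * Real.log L) / L ^ 2) = Y * δ * ((19 + 8 * Real.log L) / L ^ 2) := by ring
  unfold Kq at hK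
  linarith

alias w_low_out := w_low_out_pr

end Pool.Agent.MF
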