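import Pool.Agent.Lib_helper59.MF.Defs
import Pool.Agent.Lib_helper92.HCF.FQI
/-! MF, block G7a. -/

set_option autoImplicit false

namespace Pool.Agent.MF

open Finset Complex Filter Topology MeasureTheory Pool.Agent.Var35 Pool.Agent.Var73 Pool.Agent.HC
open scoped ArithmeticFunction ArithmeticFunction.Moebius

lemma g7a_prod (H : ℝ → ℝ → ℝ) (hm : Measurable (Function.uncurry H)) (B a b c d : ℝ)
    (hB : ∀ x ∈ Set.Icc a b, ∀ y ∈ Set.Icc c d, |H x y| ≤ B) :
    Integrable (Function.uncurry H)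
      ((volume.restrict (Set.Ioc a b)).prod (volume.restrict (Set.Ioc c d))) := by
  refine Integrable.mono' (g := fun _ => B) (integrable_const _) hm.aestronglyMeasurable ?_
  rw [Measure.prod_restrict]
  refine (ae_restrict_iff' (measurableSet_Ioc.prod measurableSet_Ioc)).mpr ?_
  refine Filter.Eventually.of_forall (fun z hz => ?_)
  exact hB z.1 (Set.Ioc_subset_Icc_self hz.1) z.2 (Set.Ioc_subset_Icc_self hz.2)

lemma g7a_swap (H : ℝ → ℝ → ℝ) (hm : Measurable (Function.uncurry H)) (B a b c d : ℝ)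
    (hab : a ≤ b) (hcd : c ≤ d)
    (hB : ∀ x ∈ Set.Icc a b, ∀ y ∈ Set.Icc c d, |H x y| ≤ B) :
    ∫ x in a..b, ∫ y in c..d, H x y = ∫ y in c..d, ∫ x in a..b, H x y := by
  rw [intervalIntegral.integral_of_le hab, intervalIntegral.integral_of_le hcd]
  simp_rw [intervalIntegral.integral_of_le hab, intervalIntegral.integral_of_le hcd]
  exact MeasureTheory.integral_integral_swap (g7a_prod H hm B a b c d hB)

lemma g7a_int (H : ℝ → ℝ → ℝ) (hm : Measurable (Function.uncurry H)) (B a b c d : ℝ)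
    (hab : a ≤ b) (hcd : c ≤ d)
    (hB : ∀ x ∈ Set.Icc a b, ∀ y ∈ Set.Icc c d, |H x y| ≤ B) :
    IntervalIntegrable (fun x => ∫ y in c..d, H x y) volume a b := by
  rw [intervalIntegrable_iff_integrableOn_Ioc_of_le hab]
  simp_rw [intervalIntegral.integral_of_le hcd]
  exact (g7a_prod H hm B a b c d hB).integral_prod_left

lemma g7a_bd (F : ℝ → ℝ) (hF : Continuous F) (a b : ℝ) :
    ∃ B : ℝ, 0 ≤ B ∧ ∀ x ∈ Set.Icc a b, |F x| ≤ B := by
  obtain ⟨B, hB⟩ := isCompact_Icc.exists_bound_of_continuousOn (f := F) (s := Set.Icc a b)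
    hF.continuousOn
  exact ⟨max B 0, le_max_right _ _, fun x hx => (hB x hx).trans (le_max_left _ _)⟩

/-- the shift -/
lemma g7a_shift (F F' : ℝ → ℝ) (hF : ∀ x, HasDerivAt F (F' x) x) (hc : Continuous F')
    (Δ δ v : ℝ) (hδ : 0 < δ) (hΔ : δ ≤ Δ) (hv : |v| ≤ δ / 2) :
    ∫ s in (-Δ + v)..(Δ + v), |F (s - v) - F s| ≤
      (δ / 2) * ∫ β in (-(Δ + δ))..(Δ + δ), |F' β| := by
  have hFc : Continuous F := continuous_iff_continuousAt.mpr fun x => (hF x).continuousAt
  have hv1 := (abs_le.mp hv).1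
  have hv2 := (abs_le.mp hv).2
  have h1 : ∀ s, |F (s - v) - F s| ≤ |v| * ∫ θ in (0 : ℝ)..1, |F' (s - v * θ)| := by
    intro s
    have hd : ∀ θ : ℝ, HasDerivAt (fun θ : ℝ => F (s - v * θ)) (F' (s - v * θ) * (-v)) θ := by
      intro θ
      have h2 : HasDerivAt (fun θ : ℝ => s - v * θ) (-v) θ := by
        simpa using ((hasDerivAt_id θ).const_mul v).const_sub s
      exact (hF (s - v * θ)).comp θ h2
    have hcc : Continuous (fun θ : ℝ => F' (s - v * θ) * (-v)) := by fun_prop
    have h3 := intervalIntegral.integral_eq_sub_of_hasDerivAt (a := (0 : ℝ)) (b := 1)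
      (fun θ _ => hd θ) (hcc.intervalIntegrable _ _)
    have h4 : F (s - v) - F s = ∫ θ in (0 : ℝ)..1, F' (s - v * θ) * (-v) := by
      rw [h3]
      simp
    rw [h4, intervalIntegral.integral_mul_const, abs_mul, abs_neg, mul_comm]
    refine mul_le_mul_of_nonneg_left ?_ (abs_nonneg _)
    exact intervalIntegral.abs_integral_le_integral_abs zero_le_one
  have hab : -Δ + v ≤ Δ + v := by linarith
  obtain ⟨B, hB0, hB⟩ := g7a_bd F' hc (-(Δ + δ)) (Δ + δ)
  have hHm : Measurable (Function.uncurry (fun s θ : ℝ => |F' (s - v * θ)|)) := by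
    have : Continuous (Function.uncurry (fun s θ : ℝ => |F' (s - v * θ)|)) := by
      unfold Function.uncurry
      fun_prop
    exact this.measurable
  have hvθ : ∀ θ ∈ Set.Icc (0 : ℝ) 1, |v * θ| ≤ δ / 2 := by
    intro θ hθ
    rw [abs_mul, abs_of_nonneg hθ.1]
    calc |v| * θ ≤ |v| * 1 := mul_le_mul_of_nonneg_left hθ.2 (abs_nonneg _)
      _ ≤ _ := by linarith
  have hHB : ∀ s ∈ Set.Icc (-Δ + v) (Δ + v), ∀ θ ∈ Set.Icc (0 : ℝ) 1,
      |(fun s θ : ℝ => |F' (s - v * θ)|) s θ| ≤ B := by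
    intro s hs θ hθ
    have h5 := abs_le.mp (hvθ θ hθ)
    simp only [abs_abs]
    exact hB _ ⟨by linarith [hs.1, h5.2], by linarith [hs.2, h5.1]⟩
  have hI : IntervalIntegrable (fun s => ∫ θ in (0 : ℝ)..1, |F' (s - v * θ)|) volume
      (-Δ + v) (Δ + v) :=
    g7a_int _ hHm B _ _ _ _ hab zero_le_one hHB
  have h2 : ∫ s in (-Δ + v)..(Δ + v), |F (s - v) - F s| ≤
      ∫ s in (-Δ + v)..(Δ + v), |v| * ∫ θ in (0 : ℝ)..1, |F' (s - v * θ)| := by
    refine intervalIntegral.integral_mono_on hab ?_ (hI.const_mul _) (fun s _ => h1 s)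
    have : Continuous (fun s => |F (s - v) - F s|) := by fun_prop
    exact this.intervalIntegrable _ _
  refine h2.trans ?_
  rw [intervalIntegral.integral_const_mul,
    g7a_swap _ hHm B _ _ _ _ hab zero_le_one hHB]
  set M : ℝ := ∫ β in (-(Δ + δ))..(Δ + δ), |F' β| with hM
  have hM0 : 0 ≤ M := intervalIntegral.integral_nonneg (by linarith) (fun _ _ => abs_nonneg _)
  have h6 : ∫ θ in (0 : ℝ)..1, ∫ s in (-Δ + v)..(Δ + v), |F' (s - v * θ)| ≤ M := by
    have h7 : ∀ θ ∈ Set.Icc (0 : ℝ) 1, ∫ s in (-Δ + v)..(Δ + v), |F' (s - v * θ)| ≤ M := by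
      intro θ hθ
      have h5 := abs_le.mp (hvθ θ hθ)
      rw [intervalIntegral.integral_comp_sub_right (fun s => |F' s|)]
      refine intervalIntegral.integral_mono_interval (by linarith) (by linarith) (by linarith) ?_
        (hc.abs.intervalIntegrable _ _)
      exact Filter.Eventually.of_forall (fun s => abs_nonneg _)
    have h8 : ∫ θ in (0 : ℝ)..1, ∫ s in (-Δ + v)..(Δ + v), |F' (s - v * θ)| ≤
        ∫ θ in (0 : ℝ)..1, M := by
      refine intervalIntegral.integral_mono_on zero_le_one ?_ intervalIntegrable_const h7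
      have hm2 : Measurable (Function.uncurry (fun θ s : ℝ => |F' (s - v * θ)|)) := by
        have : Continuous (Function.uncurry (fun θ s : ℝ => |F' (s - v * θ)|)) := by
          unfold Function.uncurry
          fun_prop
        exact this.measurable
      exact g7a_int _ hm2 B _ _ _ _ zero_le_one hab (fun θ hθ s hs => hHB s hs θ hθ)
    simpa using h8
  calc |v| * _ ≤ |v| * M := mul_le_mul_of_nonneg_left h6 (abs_nonneg _)
    _ ≤ _ := mul_le_mul_of_nonneg_right hv hM0

lemma g7a_R (Y : ℝ) (hY : 0 < Y) (q : ℕ) (hq : 1 ≤ q) (s : ℝ) :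
    Y - rho Y q s = Y * kk (q * Y * |s|) := by
  have hq0 : (0 : ℝ) < q := by exact_mod_cast hq
  unfold rho kk
  rcases eq_or_ne s 0 with h | h
  · subst h
    simp
  · have h1 : 0 < |s| := abs_pos.2 h
    field_simp

lemma g7a_R_bd (Y : ℝ) (hY : 0 < Y) (q : ℕ) (hq : 1 ≤ q) (s Δ : ℝ) (hΔ : 0 < Δ)
    (hs : Δ / 2 ≤ |s|) : Y - rho Y q s ≤ 2 / (q * Δ) := by
  have hq0 : (0 : ℝ) < q := by exact_mod_cast hq
  have h1 : 0 < |s| := by linarith
  have h2 : q * Y * |s| - 1 ≤ (⌊(q : ℝ) * Y * |s|⌋₊ : ℝ) := by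
    have := Nat.lt_floor_add_one ((q : ℝ) * Y * |s|)
    linarith
  have h3 : Y - rho Y q s ≤ 1 / (q * |s|) := by
    unfold rho
    rw [sub_le_iff_le_add, ← add_div, le_div_iff₀ (by positivity)]
    calc Y * (q * |s|) = q * Y * |s| := by ring
      _ ≤ _ := by linarith
  refine h3.trans ?_
  rw [div_le_div_iff₀ (by positivity) (by positivity)]
  have : q * (Δ / 2) ≤ q * |s| := mul_le_mul_of_nonneg_left hs hq0.le
  nlinarith

theorem kd_one_pr (F F' : ℝ → ℝ) (hF : ∀ x, HasDerivAt F (F' x) x) (hc : Continuous F')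
    (h0 : ∀ x, 0 ≤ F x) (q : ℕ) (hq : 1 ≤ q) (Y δ Δ : ℝ) (hY : 0 < Y) (hδ : 0 < δ) (hΔ : δ ≤ Δ) :
    |(1 / δ) * (∫ β in (-Δ)..Δ, F β * Kq Y q δ β) -
      Y * ∫ β in (-Δ)..Δ, F β * kk (q * Y * |β|)| ≤
      Y * δ * (∫ β in (-(Δ + δ))..(Δ + δ), |F' β|) +
        2 / (q * Δ) * ∫ β in (-(Δ + δ))..(Δ + δ), F β := by
  have hq0 : (0 : ℝ) < q := by exact_mod_cast hq
  have hΔ0 : 0 < Δ := by linarith
  have hFc : Continuous F := continuous_iff_continuousAt.mpr fun x => (hF x).continuousAt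
  set R : ℝ → ℝ := fun s => Y - rho Y q s with hR
  have hRm : Measurable R := measurable_const.sub (fqi_meas Y q)
  have hrho0 : ∀ s, 0 ≤ rho Y q s := fun s => by
    unfold rho
    positivity
  have hR0 : ∀ s, 0 ≤ R s := fun s => by
    have h1 := fqi_bound Y hY.le q hq s
    rw [Real.norm_of_nonneg (hrho0 s), Real.norm_of_nonneg hY.le] at h1
    simp only [hR]
    linarith
  have hRY : ∀ s, R s ≤ Y := fun s => by
    have := hrho0 s
    simp only [hR]
    linarith
  have hRi : ∀ (G : ℝ → ℝ), Continuous G → ∀ a b : ℝ,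
      IntervalIntegrable (fun s => G s * R s) volume a b := fun G hG a b => by
    have h1 : IntervalIntegrable (fun s => |G s| * Y) volume a b :=
      (hG.abs.mul continuous_const).intervalIntegrable _ _
    refine h1.mono_fun (hG.measurable.mul hRm).aestronglyMeasurable ?_
    refine Filter.Eventually.of_forall (fun s => ?_)
    show ‖G s * R s‖ ≤ ‖|G s| * Y‖
    rw [norm_mul, norm_mul, Real.norm_of_nonneg (hR0 s), Real.norm_of_nonneg hY.le,
      Real.norm_eq_abs, Real.norm_eq_abs, abs_abs]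
    exact mul_le_mul_of_nonneg_left (hRY s) (abs_nonneg _)
  -- the kernel as an integral
  have hK : ∀ β, Kq Y q δ β = ∫ v in (-(δ / 2))..(δ / 2), R (β + v) := fun β => by
    have h1 := (fq_int Y hY.le q hq (β - δ / 2) (β + δ / 2) (by linarith))
    unfold Kq
    rw [h1.2, intervalIntegral.integral_comp_add_left (fun s => R s) β]
    simp only [hR]
    rw [intervalIntegral.integral_sub intervalIntegrable_const]
    · rw [intervalIntegral.integral_const, smul_eq_mul]
      have e1 : β + -(δ / 2) = β - δ / 2 := by ring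
      rw [e1]
      ring
    · have e1 : β + -(δ / 2) = β - δ / 2 := by ring
      rw [e1]
      exact h1.1
  obtain ⟨B, hB0, hB⟩ := g7a_bd F hFc (-Δ) Δ
  have hm1 : Measurable (Function.uncurry (fun β v : ℝ => F β * R (β + v))) := by
    exact (hFc.measurable.comp measurable_fst).mul
      (hRm.comp (measurable_fst.add measurable_snd))
  have hm2 : Measurable (Function.uncurry (fun v β : ℝ => F β * R (β + v))) := by
    exact (hFc.measurable.comp measurable_snd).mul
      (hRm.comp (measurable_snd.add measurable_fst))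
  have hbd : ∀ β ∈ Set.Icc (-Δ) Δ, ∀ v ∈ Set.Icc (-(δ / 2)) (δ / 2),
      |F β * R (β + v)| ≤ B * Y := by
    intro β hβ v _
    rw [abs_mul, abs_of_nonneg (hR0 _)]
    exact mul_le_mul (hB β hβ) (hRY _) (hR0 _) hB0
  set J : ℝ → ℝ := fun v => ∫ β in (-Δ)..Δ, F β * R (β + v) with hJ
  have hswap : ∫ β in (-Δ)..Δ, F β * Kq Y q δ β = ∫ v in (-(δ / 2))..(δ / 2), J v := by
    have h1 : ∀ β, F β * Kq Y q δ β = ∫ v in (-(δ / 2))..(δ / 2), F β * R (β + v) := fun β => by
      rw [hK, intervalIntegral.integral_const_mul]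
    simp_rw [h1]
    exact g7a_swap _ hm1 (B * Y) _ _ _ _ (by linarith) (by linarith) hbd
  have hJi : IntervalIntegrable J volume (-(δ / 2)) (δ / 2) :=
    g7a_int _ hm2 (B * Y) _ _ _ _ (by linarith) (by linarith) (fun v hv β hβ => hbd β hβ v hv)
  have hI0 : Y * ∫ β in (-Δ)..Δ, F β * kk (q * Y * |β|) = ∫ β in (-Δ)..Δ, F β * R β := by
    rw [← intervalIntegral.integral_const_mul]
    refine intervalIntegral.integral_congr (fun β _ => ?_)
    simp only [hR]
    rw [g7a_R Y hY q hq β]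
    ring
  set I0 : ℝ := ∫ β in (-Δ)..Δ, F β * R β with hI0d
  set M1 : ℝ := ∫ β in (-(Δ + δ))..(Δ + δ), |F' β| with hM1
  set M0 : ℝ := ∫ β in (-(Δ + δ))..(Δ + δ), F β with hM0
  have hM1p : 0 ≤ M1 := intervalIntegral.integral_nonneg (by linarith) (fun _ _ => abs_nonneg _)
  have hM0p : 0 ≤ M0 := intervalIntegral.integral_nonneg (by linarith) (fun _ _ => h0 _)
  -- edges
  have hedge : ∀ x y : ℝ, x ≤ y → -(Δ + δ) ≤ x → y ≤ Δ + δ → (∀ s ∈ Set.Icc x y, Δ / 2 ≤ |s|) →
      0 ≤ ∫ s in x..y, F s * R s ∧ ∫ s in x..y, F s * R s ≤ 2 / (q * Δ) * M0 := by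
    intro x y hxy hx hy hs
    refine ⟨intervalIntegral.integral_nonneg hxy (fun s _ => mul_nonneg (h0 s) (hR0 s)), ?_⟩
    have h1 : ∫ s in x..y, F s * R s ≤ ∫ s in x..y, 2 / (q * Δ) * F s := by
      refine intervalIntegral.integral_mono_on hxy (hRi F hFc _ _)
        ((continuous_const.mul hFc).intervalIntegrable _ _) (fun s hs' => ?_)
      rw [mul_comm]
      exact mul_le_mul_of_nonneg_right (g7a_R_bd Y hY q hq s Δ hΔ0 (hs s hs')) (h0 s)
    refine h1.trans ?_
    rw [intervalIntegral.integral_const_mul]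
    refine mul_le_mul_of_nonneg_left ?_ (by positivity)
    refine intervalIntegral.integral_mono_interval hx hxy hy ?_ (hFc.intervalIntegrable _ _)
    exact Filter.Eventually.of_forall h0
  have hin : ∀ v, |v| ≤ δ / 2 → |J v - I0| ≤ Y * (δ / 2) * M1 + 2 / (q * Δ) * M0 := by
    intro v hv
    have hv1 := (abs_le.mp hv).1
    have hv2 := (abs_le.mp hv).2
    have h1 : J v = ∫ s in (-Δ + v)..(Δ + v), F (s - v) * R s := by
      simp only [hJ]
      rw [← intervalIntegral.integral_comp_add_right (fun s => F (s - v) * R s) v]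
      simp only [add_sub_cancel_right]
    have hc2 : Continuous (fun s => F (s - v) - F s) := by fun_prop
    have hc3 : Continuous (fun s => F (s - v)) := by fun_prop
    have h2 : J v - I0 = (∫ s in (-Δ + v)..(Δ + v), (F (s - v) - F s) * R s) +
        ((∫ s in (-Δ + v)..(Δ + v), F s * R s) - I0) := by
      rw [h1]
      have h3 : ∫ s in (-Δ + v)..(Δ + v), (F (s - v) - F s) * R s =
          (∫ s in (-Δ + v)..(Δ + v), F (s - v) * R s) - ∫ s in (-Δ + v)..(Δ + v), F s * R s := by
        rw [← intervalIntegral.integral_sub (hRi _ hc3 _ _) (hRi _ hFc _ _)]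
        refine intervalIntegral.integral_congr (fun s _ => ?_)
        ring
      rw [h3]
      ring
    have h4 : |∫ s in (-Δ + v)..(Δ + v), (F (s - v) - F s) * R s| ≤ Y * (δ / 2) * M1 := by
      have hab : -Δ + v ≤ Δ + v := by linarith
      calc |∫ s in (-Δ + v)..(Δ + v), (F (s - v) - F s) * R s|
          ≤ ∫ s in (-Δ + v)..(Δ + v), |(F (s - v) - F s) * R s| :=
            intervalIntegral.abs_integral_le_integral_abs hab
        _ ≤ ∫ s in (-Δ + v)..(Δ + v), Y * |F (s - v) - F s| := by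
            refine intervalIntegral.integral_mono_on hab (hRi _ hc2 _ _).abs
              ((continuous_const.mul hc2.abs).intervalIntegrable _ _) (fun s _ => ?_)
            rw [abs_mul, abs_of_nonneg (hR0 s), mul_comm]
            exact mul_le_mul_of_nonneg_right (hRY s) (abs_nonneg _)
        _ = Y * ∫ s in (-Δ + v)..(Δ + v), |F (s - v) - F s| := by
            rw [intervalIntegral.integral_const_mul]
        _ ≤ Y * ((δ / 2) * M1) :=
            mul_le_mul_of_nonneg_left (g7a_shift F F' hF hc Δ δ v hδ hΔ hv) hY.le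
        _ = _ := by ring
    have h5 : |(∫ s in (-Δ + v)..(Δ + v), F s * R s) - I0| ≤ 2 / (q * Δ) * M0 := by
      have h6 : (∫ s in (-Δ + v)..(Δ + v), F s * R s) - I0 =
          (∫ s in Δ..(Δ + v), F s * R s) - ∫ s in (-Δ)..(-Δ + v), F s * R s := by
        have e1 := intervalIntegral.integral_add_adjacent_intervals
          (hRi F hFc (-Δ) (-Δ + v)) (hRi F hFc (-Δ + v) (Δ + v))
        have e2 := intervalIntegral.integral_add_adjacent_intervals
          (hRi F hFc (-Δ) Δ) (hRi F hFc Δ (Δ + v))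
        rw [hI0d]
        linarith
      rw [h6]
      rcases le_total 0 v with hv0 | hv0
      · have a1 := hedge Δ (Δ + v) (by linarith) (by linarith) (by linarith)
          (fun s hs => le_trans (by linarith [hs.1]) (le_abs_self s))
        have a2 := hedge (-Δ) (-Δ + v) (by linarith) (by linarith) (by linarith)
          (fun s hs => le_trans (by linarith [hs.2]) (neg_le_abs s))
        rw [abs_le]
        constructor <;> linarith [a1.1, a1.2, a2.1, a2.2]
      · have a1 := hedge (Δ + v) Δ (by linarith) (by linarith) (by linarith)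
          (fun s hs => le_trans (by linarith [hs.1]) (le_abs_self s))
        have a2 := hedge (-Δ + v) (-Δ) (by linarith) (by linarith) (by linarith)
          (fun s hs => le_trans (by linarith [hs.2]) (neg_le_abs s))
        rw [intervalIntegral.integral_symm (Δ + v) Δ, intervalIntegral.integral_symm (-Δ + v) (-Δ),
          abs_le]
        constructor <;> linarith [a1.1, a1.2, a2.1, a2.2]
    rw [h2]
    exact (abs_add_le _ _).trans (add_le_add h4 h5)
  -- conclusion
  rw [hswap, hI0]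
  have h7 : (1 / δ) * (∫ v in (-(δ / 2))..(δ / 2), J v) - I0 =
      (1 / δ) * ∫ v in (-(δ / 2))..(δ / 2), (J v - I0) := by
    rw [intervalIntegral.integral_sub hJi intervalIntegrable_const,
      intervalIntegral.integral_const, smul_eq_mul]
    field_simp
    ring
  rw [h7, abs_mul, abs_of_pos (by positivity : 0 < 1 / δ)]
  have h8 : |∫ v in (-(δ / 2))..(δ / 2), (J v - I0)| ≤
      (Y * (δ / 2) * M1 + 2 / (q * Δ) * M0) * |δ / 2 - -(δ / 2)| := by
    rw [← Real.norm_eq_abs (∫ v in (-(δ / 2))..(δ / 2), (J v - I0))]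
    refine intervalIntegral.norm_integral_le_of_norm_le_const (fun v hv => ?_)
    rw [Set.uIoc_of_le (by linarith)] at hv
    exact hin v (abs_le.mpr ⟨hv.1.le, hv.2⟩)
  have h9 : |δ / 2 - -(δ / 2)| = δ := by
    rw [show δ / 2 - -(δ / 2) = δ by ring, abs_of_pos hδ]
  rw [h9] at h8
  have h10 : (1 / δ) * |∫ v in (-(δ / 2))..(δ / 2), (J v - I0)| ≤
      Y * (δ / 2) * M1 + 2 / (q * Δ) * M0 := by
    rw [one_div, inv_mul_le_iff₀ hδ]
    linarith
  refine h10.trans ?_
  have : 0 ≤ Y * (δ / 2) * M1 := by positivity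
  nlinarith [this]

alias kd_one := kd_one_pr

end Pool.Agent.MF
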