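import Pool.Agent.Lib_helper59.MF.Defs
import Pool.Agent.Lib_helper59.MFF.G4b
import Pool.Agent.Lib_helper59.MFF.G7a
/-! MF, block G7b. -/

set_option autoImplicit false

namespace Pool.Agent.MF

open Finset Complex Filter Topology MeasureTheory Pool.Agent.Var35 Pool.Agent.Var73 Pool.Agent.HC
open scoped ArithmeticFunction ArithmeticFunction.Moebius

lemma g7b_cs_deriv (f f' : ℝ → ℝ) (hf : ∀ x, HasDerivAt f (f' x) x) (q : ℕ) (x : ℝ) :
    HasDerivAt (CS f q) (CS f' q x) x := by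
  unfold CS
  refine HasDerivAt.fun_sum (fun c _ => ?_)
  have h1 : HasDerivAt (fun β : ℝ => (c : ℝ) / q + β) 1 x := by
    simpa using (hasDerivAt_id x).const_add ((c : ℝ) / q)
  have h2 := (hf ((c : ℝ) / q + x)).comp x h1
  rw [mul_one] at h2
  exact h2

lemma g7b_cs_cont (f : ℝ → ℝ) (hf : Continuous f) (q : ℕ) : Continuous (CS f q) := by
  unfold CS
  refine continuous_finsetSum _ (fun c _ => ?_)
  exact hf.comp (continuous_const.add continuous_id)

theorem kd_diff_pr (f f' : ℝ → ℝ) (hf : ∀ x, HasDerivAt f (f' x) x) (hc : Continuous f')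
    (hp : ∀ x, f (x + 1) = f x) (hp' : ∀ x, f' (x + 1) = f' x) (h0 : ∀ x, 0 ≤ f x)
    (R : ℕ) (hR : 2 ≤ R) (Y δ κ : ℝ) (hY : 0 < Y) (hδ : 0 < δ) (Δ : ℕ → ℝ)
    (hΔ0 : ∀ q ∈ Icc 1 R, δ ≤ Δ q) (hΔ : ∀ q ∈ Icc 1 R, 2 * (Δ q + δ) * q * R ≤ 1)
    (hκ : ∀ q ∈ Icc 1 R, 2 / (q * Y * Δ q) ≤ κ) :
    |(1 / δ) * SA f R Δ (fun q => Kq Y q δ) - Y * SA f R Δ (fun q β => kk (q * Y * |β|))| ≤
      Y * δ * (∫ t in (0 : ℝ)..1, |f' t|) + 2 * Y * κ * ∫ t in (0 : ℝ)..1, f t := by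
  have hfc : Continuous f := continuous_iff_continuousAt.mpr fun x => (hf x).continuousAt
  have hi0 : 0 ≤ ∫ t in (0 : ℝ)..1, f t :=
    intervalIntegral.integral_nonneg zero_le_one (fun t _ => h0 t)
  have hκ0 : 0 ≤ κ := by
    have h1 : (1 : ℕ) ∈ Icc 1 R := mem_Icc.mpr ⟨le_rfl, by omega⟩
    refine le_trans ?_ (hκ 1 h1)
    have := hΔ0 1 h1
    have h2 : 0 < Δ 1 := by linarith
    positivity
  -- one denominator
  have hone : ∀ q ∈ Icc 1 R,
      |(1 / δ) * (∫ β in (-(Δ q))..(Δ q), CS f q β * Kq Y q δ β) -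
        Y * ∫ β in (-(Δ q))..(Δ q), CS f q β * kk (q * Y * |β|)| ≤
      Y * δ * (∫ β in (-(Δ q + δ))..(Δ q + δ), CS (fun t => |f' t|) q β) +
        Y * κ * ∫ β in (-(Δ q + δ))..(Δ q + δ), CS f q β := by
    intro q hq
    have hq1 : 1 ≤ q := (mem_Icc.mp hq).1
    have hq0 : (0 : ℝ) < q := by exact_mod_cast hq1
    have hd := hΔ0 q hq
    have hD0 : 0 < Δ q := by linarith
    have h1 := kd_one (CS f q) (CS f' q) (g7b_cs_deriv f f' hf q) (g7b_cs_cont f' hc q)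
      (fun x => Finset.sum_nonneg (fun c _ => h0 _)) q hq1 Y δ (Δ q) hY hδ hd
    refine h1.trans (add_le_add ?_ ?_)
    · refine mul_le_mul_of_nonneg_left ?_ (by positivity)
      refine intervalIntegral.integral_mono_on (by linarith)
        ((g7b_cs_cont f' hc q).abs.intervalIntegrable _ _)
        ((g7b_cs_cont (fun t => |f' t|) hc.abs q).intervalIntegrable _ _) (fun β _ => ?_)
      unfold CS
      exact Finset.abs_sum_le_sum_abs _ _
    · refine mul_le_mul_of_nonneg_right ?_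
        (intervalIntegral.integral_nonneg (by linarith)
          (fun x _ => Finset.sum_nonneg (fun c _ => h0 _)))
      have h2 := hκ q hq
      have h3 : 2 / (q * Δ q) = Y * (2 / (q * Y * Δ q)) := by
        field_simp
      rw [h3]
      exact mul_le_mul_of_nonneg_left h2 hY.le
  have hsum : |(1 / δ) * SA f R Δ (fun q => Kq Y q δ) -
      Y * SA f R Δ (fun q β => kk (q * Y * |β|))| ≤
      ∑ q ∈ Icc 1 R, (Y * δ * (∫ β in (-(Δ q + δ))..(Δ q + δ), CS (fun t => |f' t|) q β) +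
        Y * κ * ∫ β in (-(Δ q + δ))..(Δ q + δ), CS f q β) := by
    unfold SA
    rw [Finset.mul_sum, Finset.mul_sum, ← Finset.sum_sub_distrib]
    exact (Finset.abs_sum_le_sum_abs _ _).trans (Finset.sum_le_sum hone)
  refine hsum.trans ?_
  rw [Finset.sum_add_distrib, ← Finset.mul_sum, ← Finset.mul_sum]
  have hD1 : ∀ q ∈ Icc 1 R, 0 ≤ Δ q + δ := fun q hq => by linarith [hΔ0 q hq]
  have a1 := arc_le (fun t => |f' t|) hc.abs (fun t => by simp only [hp']) (fun t => abs_nonneg _)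
    R hR (fun q => Δ q + δ) hD1 hΔ
  have a2 := arc_le f hfc hp h0 R hR (fun q => Δ q + δ) hD1 hΔ
  have b1 := mul_le_mul_of_nonneg_left a1 (by positivity : 0 ≤ Y * δ)
  have b2 := mul_le_mul_of_nonneg_left a2 (by positivity : 0 ≤ Y * κ)
  have b3 : 0 ≤ Y * κ * ∫ t in (0 : ℝ)..1, f t := by positivity
  linarith

alias kd_diff := kd_diff_pr

end Pool.Agent.MF
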