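import Pool.Agent.Lib_helper59.MF.Defs
import Pool.Agent.Lib_helper92.HCF.GAL
import Pool.Agent.Lib_helper92.HCF.PAR
import Pool.Agent.Lib_helper92.HCF.DIA
import Pool.Agent.Lib_helper59.MFF.G1
import Pool.Agent.Lib_helper59.MFF.G5a
import Pool.Agent.Lib_helper59.MFF.G5b
import Pool.Agent.Lib_helper59.MFF.G6a
import Pool.Agent.Lib_helper59.MFF.G6b
import Pool.Agent.Lib_helper59.MFF.G6c
import Pool.Agent.Lib_helper59.MFF.G7b
import Pool.Agent.Lib_helper59.MFF.G8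
/-! MF, block G9 : the exact large sieve for the Farey fractions of large denominator. -/

set_option autoImplicit false

namespace Pool.Agent.MF

open Finset Complex Filter Topology MeasureTheory Pool.Agent.Var35 Pool.Agent.Var73 Pool.Agent.HC
open scoped ArithmeticFunction ArithmeticFunction.Moebius

/-- the main inequality for given parameters -/
theorem g9_main {X L : ℝ} {Y Z T R U : ℕ} (h : Par X L Y Z T R U)
    (hA : A2 Lam ⌊X⌋₊ ≤ X * L) :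
    |Big Lam ⌊X⌋₊ Z Y R - Y * A2 Lam ⌊X⌋₊ +
      Y * SA (Sq Lam ⌊X⌋₊) R (fun q => Y / (2 * q * (X * L ^ 8))) (fun q β => kk (q * Y * |β|))| ≤
      X * Y * ((85 + 40 * Real.log L) / L) := by
  have hPar := h
  obtain ⟨hX, hL, hXL, hYX, hY2, hY, hZ1, hZ2, hT1, hT2, hR1, hR2, hU1, hU2, hZ, hT, hR, hU, hZY,
    hTZ, hRZ⟩ := h
  have hL1 : 1 ≤ L := by linarith
  have hL0 : 0 < L := by linarith
  have hX0 : 0 < X := by linarith
  have hZ0 : (0 : ℝ) < Z := by exact_mod_cast hZ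
  have hR0 : (0 : ℝ) < R := by exact_mod_cast hR
  have hZYr : (Z : ℝ) ≤ Y := by exact_mod_cast hZY
  have hY0 : (0 : ℝ) < Y := by linarith
  have hlogL : 0 ≤ Real.log L := Real.log_nonneg hL1
  have hlogL2 : Real.log L ≤ L - 1 := Real.log_le_sub_one_of_pos hL0
  obtain ⟨δ, hδ⟩ : ∃ δ, δ = 1 / (X * L ^ 6) := ⟨_, rfl⟩
  have hδ0 : 0 < δ := by rw [hδ]; positivity
  have hδ1 : δ ≤ 1 := by
    rw [hδ, div_le_iff₀ (by positivity), one_mul]
    have h1 : 1 ≤ L ^ 6 := one_le_pow₀ hL1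
    nlinarith
  obtain ⟨Δ, hΔ⟩ : ∃ Δ : ℕ → ℝ, Δ = (fun q : ℕ => L ^ 2 / ((q : ℝ) * (Y : ℝ))) := ⟨_, rfl⟩
  have hR2' : 2 ≤ R := by
    have h1 : (1 : ℝ) ≤ X / Y := by rw [le_div_iff₀ hY0]; linarith
    have h2 : (100 : ℝ) ≤ L ^ 8 := le_trans hL (le_self_pow₀ hL1 (by norm_num))
    have h3 : (2 : ℝ) ≤ R := by nlinarith
    exact_mod_cast h3
  have hXY : X * L ^ 10 / (Y : ℝ) ^ 2 ≤ 1 / L ^ 14 := by
    rw [div_le_div_iff₀ (by positivity) (by positivity)]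
    calc X * L ^ 10 * L ^ 14 = X * L ^ 24 := by ring
      _ ≤ 1 * (Y : ℝ) ^ 2 := by rw [one_mul]; exact hY2
  have hL14 : 1 / L ^ 14 ≤ 1 / 100 :=
    one_div_le_one_div_of_le (by norm_num) (le_trans hL (le_self_pow₀ hL1 (by norm_num)))
  have hq0 : ∀ q ∈ Icc 1 R, (0 : ℝ) < q := by
    intro q hq
    rw [mem_Icc] at hq
    exact_mod_cast hq.1
  have hqR : ∀ q ∈ Icc 1 R, (q : ℝ) ≤ R := by
    intro q hq
    rw [mem_Icc] at hq
    exact_mod_cast hq.2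
  have hΔpos : ∀ q ∈ Icc 1 R, 0 < Δ q := by
    intro q hq
    have := hq0 q hq
    rw [hΔ]; positivity
  have hδΔ : ∀ q ∈ Icc 1 R, δ ≤ Δ q := by
    intro q hq
    have h1 := hq0 q hq
    have h2 := hqR q hq
    rw [hδ, hΔ]
    simp only
    rw [div_le_div_iff₀ (by positivity) (by positivity), one_mul]
    calc (q : ℝ) * Y ≤ (X / Y * L ^ 8) * Y := by
          apply mul_le_mul_of_nonneg_right (h2.trans hR1) hY0.le
      _ = L ^ 2 * (X * L ^ 6) := by field_simp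
  have hΔq : ∀ q ∈ Icc 1 R, 2 * (Δ q + δ) * q * R ≤ 1 := by
    intro q hq
    have h1 := hq0 q hq
    have h2 := hqR q hq
    have e1 : 2 * Δ q * q * R ≤ 2 * (X * L ^ 10 / (Y : ℝ) ^ 2) := by
      calc 2 * Δ q * q * R = 2 * L ^ 2 / Y * R := by rw [hΔ]; field_simp
        _ ≤ 2 * L ^ 2 / Y * (X / Y * L ^ 8) := by gcongr
        _ = 2 * (X * L ^ 10 / (Y : ℝ) ^ 2) := by field_simp
    have e2 : 2 * δ * q * R ≤ 2 * (X * L ^ 10 / (Y : ℝ) ^ 2) := by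
      calc 2 * δ * q * R ≤ 2 * δ * (X / Y * L ^ 8) * (X / Y * L ^ 8) := by
            gcongr
            exact h2.trans hR1
        _ = 2 * (X * L ^ 10 / (Y : ℝ) ^ 2) := by rw [hδ]; field_simp
    have e3 : 2 * (Δ q + δ) * q * R = 2 * Δ q * q * R + 2 * δ * q * R := by ring
    rw [e3]
    linarith
  have hΔq' : ∀ q ∈ Icc 1 R, 2 * Δ q * q * R ≤ 1 := by
    intro q hq
    have h1 := hq0 q hq
    have e3 : 2 * (Δ q + δ) * q * R = 2 * Δ q * q * R + 2 * δ * q * R := by ring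
    have e4 : 0 ≤ 2 * δ * q * R := by positivity
    have := hΔq q hq
    linarith
  have hE0 : 0 ≤ EW Y δ L := by unfold EW; positivity
  obtain ⟨hUp1, hUp2⟩ := w_up hPar δ hδ
  have hg := gal_pr Lam ⌊X⌋₊ Z Y R δ (Y * δ + EW Y δ L) hδ0 hδ1 (fun t _ _ => hUp1 t)
  have hg' := gal_low Lam ⌊X⌋₊ Z Y R δ (Y * δ + EW Y δ L) hδ0 hδ1 (fun t _ _ => hUp1 t)
  have hiu := int_up Lam ⌊X⌋₊ Z Y R δ (EW Y δ L) Δ hR2' hδ0 hE0 (fun q hq => (hΔpos q hq).le) hΔq'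
    hUp1 (by rw [hΔ]; exact hUp2)
  have hil := int_low Lam ⌊X⌋₊ Z Y R δ (EW Y δ L) Δ hR2' hδ0 hE0 (fun q hq => (hΔpos q hq).le) hΔq'
    (by rw [hΔ]; exact w_low_out hPar δ hδ) (by rw [hΔ]; exact w_low_arc hPar δ hδ)
  obtain ⟨hper, hint⟩ := sq_basic_pr Lam ⌊X⌋₊
  obtain ⟨g', hgc, hgd, hgp, hgi⟩ := sq_deriv_pr Lam ⌊X⌋₊
  have hSq0 : ∀ t, 0 ≤ Sq Lam ⌊X⌋₊ t := fun t => by unfold Sq; positivity
  have hSqc : Continuous (Sq Lam ⌊X⌋₊) := by
    rw [continuous_iff_continuousAt]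
    intro x
    exact (hgd x).continuousAt
  have hkd := kd_diff (Sq Lam ⌊X⌋₊) g' hgd hgc hper hgp hSq0 R hR2' Y δ (2 / L ^ 2) hY0 hδ0 Δ
    hδΔ hΔq (by
      intro q hq
      have h1 := hq0 q hq
      rw [hΔ]
      apply le_of_eq
      field_simp)
  have hext := sa_ext (Sq Lam ⌊X⌋₊) hSqc hper hSq0 R hR2' Y (1 / L ^ 2) hY0 Δ
    (fun q => Y / (2 * q * (X * L ^ 8)))
    (by
      intro q hq
      refine ⟨hΔpos q hq, ?_⟩
      have h1 := hq0 q hq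
      rw [hΔ]
      simp only
      rw [div_le_div_iff₀ (by positivity) (by positivity)]
      have h3 : 2 * (X * L ^ 10) ≤ (Y : ℝ) ^ 2 := by
        rw [div_le_iff₀ (by positivity)] at hXY
        nlinarith [sq_nonneg (Y : ℝ)]
      calc L ^ 2 * (2 * q * (X * L ^ 8)) = q * (2 * (X * L ^ 10)) := by ring
        _ ≤ q * (Y : ℝ) ^ 2 := by gcongr
        _ = Y * (q * Y) := by ring)
    (by
      intro q hq
      have h1 := hq0 q hq
      calc 2 * ((Y : ℝ) / (2 * q * (X * L ^ 8))) * q * R = Y / (X * L ^ 8) * R := by field_simp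
        _ ≤ Y / (X * L ^ 8) * (X / Y * L ^ 8) := by gcongr
        _ = 1 := by field_simp)
    (by
      intro q hq
      have h1 := hq0 q hq
      rw [hΔ]
      apply le_of_eq
      field_simp)
  rw [hint] at hkd hext
  obtain ⟨A, hAd⟩ : ∃ A, A = A2 Lam ⌊X⌋₊ := ⟨_, rfl⟩
  have hA0 : 0 ≤ A := by rw [hAd]; unfold A2; positivity
  rw [← hAd] at hg hg' hiu hil hkd hext hA hgi ⊢
  obtain ⟨I, hI⟩ : ∃ I, I = ∫ t in (0 : ℝ)..1, Sq Lam ⌊X⌋₊ t * W Z Y R δ t := ⟨_, rfl⟩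
  rw [← hI] at hg hg' hiu hil
  obtain ⟨K1, hK1⟩ : ∃ K1, K1 = SA (Sq Lam ⌊X⌋₊) R Δ (fun q => Kq Y q δ) := ⟨_, rfl⟩
  rw [← hK1] at hiu hil hkd
  obtain ⟨K2, hK2⟩ : ∃ K2, K2 = SA (Sq Lam ⌊X⌋₊) R Δ (fun q β => kk (q * Y * |β|)) := ⟨_, rfl⟩
  rw [← hK2] at hkd hext
  obtain ⟨K3, hK3⟩ : ∃ K3, K3 = SA (Sq Lam ⌊X⌋₊) R (fun q => Y / (2 * q * (X * L ^ 8)))
    (fun q β => kk (q * Y * |β|)) := ⟨_, rfl⟩
  rw [← hK3] at hext ⊢
  have hN : ((⌊X⌋₊ : ℕ) : ℝ) ≤ X := Nat.floor_le hX0.le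
  -- the bounds of the errors
  have hpi : Real.pi ≤ 3.15 := Real.pi_lt_d2.le
  have hpi0 : 0 < Real.pi := Real.pi_pos
  have hEW : EW Y δ L ≤ Y * δ := by
    unfold EW
    have : 40 * (1 + Real.log L) / L ^ 2 ≤ 1 := by
      rw [div_le_one (by positivity)]
      nlinarith
    calc (Y : ℝ) * δ * (40 * (1 + Real.log L) / L ^ 2) ≤ Y * δ * 1 := by gcongr
      _ = Y * δ := mul_one _
  have b0 : 4 * Real.pi * (⌊X⌋₊ : ℕ) * A ≤ 12.6 * X * (X * L) := by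
    calc 4 * Real.pi * (⌊X⌋₊ : ℕ) * A ≤ 4 * 3.15 * X * (X * L) := by gcongr
      _ = 12.6 * X * (X * L) := by ring
  have hAB : 0 ≤ 4 * Real.pi * (⌊X⌋₊ : ℕ) * A := by positivity
  have b1 : (Y * δ + EW Y δ L) * (4 * Real.pi * (⌊X⌋₊ : ℕ) * A) ≤ X * Y * (26 / L) := by
    calc (Y * δ + EW Y δ L) * (4 * Real.pi * (⌊X⌋₊ : ℕ) * A)
        ≤ (Y * δ + Y * δ) * (12.6 * X * (X * L)) := by gcongr
      _ = X * Y * (25.2 / L ^ 5) := by rw [hδ]; field_simp; norm_num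
      _ ≤ X * Y * (26 / L) := by
        have : L ≤ L ^ 5 := le_self_pow₀ hL1 (by norm_num)
        gcongr
        norm_num
  have b2 : Y * δ * (4 * Real.pi * (⌊X⌋₊ : ℕ) * A) ≤ X * Y * (13 / L) := by
    calc Y * δ * (4 * Real.pi * (⌊X⌋₊ : ℕ) * A)
        ≤ Y * δ * (12.6 * X * (X * L)) := by gcongr
      _ = X * Y * (12.6 / L ^ 5) := by rw [hδ]; field_simp
      _ ≤ X * Y * (13 / L) := by
        have : L ≤ L ^ 5 := le_self_pow₀ hL1 (by norm_num)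
        gcongr
        norm_num
  have b3 : EW Y δ L / δ * A ≤ X * Y * (40 * (1 + Real.log L) / L) := by
    unfold EW
    calc (Y : ℝ) * δ * (40 * (1 + Real.log L) / L ^ 2) / δ * A
        ≤ (Y : ℝ) * δ * (40 * (1 + Real.log L) / L ^ 2) / δ * (X * L) := by gcongr
      _ = X * Y * (40 * (1 + Real.log L) / L) := by field_simp
  have b4 : 2 * Y * (2 / L ^ 2) * A ≤ X * Y * (4 / L) := by
    calc 2 * (Y : ℝ) * (2 / L ^ 2) * A ≤ 2 * (Y : ℝ) * (2 / L ^ 2) * (X * L) := by gcongr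
      _ = X * Y * (4 / L) := by field_simp; norm_num
  have b5 : Y * (1 / L ^ 2 * A) ≤ X * Y * (1 / L) := by
    calc (Y : ℝ) * (1 / L ^ 2 * A) ≤ (Y : ℝ) * (1 / L ^ 2 * (X * L)) := by gcongr
      _ = X * Y * (1 / L) := by field_simp
  have b6 : Y * δ * (∫ t in (0 : ℝ)..1, |g' t|) ≤ X * Y * (13 / L) := by
    refine le_trans ?_ b2
    gcongr
  have iu : 1 / δ * I ≤ (Y + EW Y δ L / δ) * A - 1 / δ * K1 := by
    calc 1 / δ * I ≤ 1 / δ * ((Y * δ + EW Y δ L) * A - K1) := by gcongr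
      _ = (Y + EW Y δ L / δ) * A - 1 / δ * K1 := by field_simp
  have il : (Y - EW Y δ L / δ) * A - 1 / δ * K1 ≤ 1 / δ * I := by
    calc (Y - EW Y δ L / δ) * A - 1 / δ * K1 = 1 / δ * ((Y * δ - EW Y δ L) * A - K1) := by
          field_simp
      _ ≤ 1 / δ * I := by gcongr
  rw [abs_le] at hkd hext
  obtain ⟨k1, k2⟩ := hkd
  obtain ⟨k3, k4⟩ := hext
  have k5 : Y * (K3 - K2) ≤ X * Y * (1 / L) := le_trans (by gcongr) b5
  have k6 : -(X * Y * (1 / L)) ≤ Y * (K3 - K2) := by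
    have : -(Y * (1 / L ^ 2 * A)) ≤ Y * (K3 - K2) := by
      rw [← mul_neg]
      gcongr
    linarith
  have htot : X * Y * ((85 + 40 * Real.log L) / L) = X * Y * (26 / L) + X * Y * (13 / L) +
      X * Y * (40 * (1 + Real.log L) / L) + X * Y * (4 / L) + X * Y * (1 / L) + X * Y * (1 / L) := by
    field_simp
    ring
  have hpos : 0 ≤ X * Y * (1 / L) := by positivity
  rw [abs_le, htot]
  constructor
  · nlinarith
  · nlinarith

/-- the exact large sieve for the Farey fractions of large denominator -/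
theorem stageA_pr (η : ℝ) (hη : 0 < η) : ∃ C : ℝ, ∀ (X : ℝ) (Y Z T U : ℕ), C ≤ X →
    Par X (Real.log X) Y Z T (RR X Y) U →
    |Big Lam ⌊X⌋₊ Z Y (RR X Y) - Y * A2 Lam ⌊X⌋₊ +
      Y * SA (Sq Lam ⌊X⌋₊) (RR X Y) (wd X Y) (fun q β => kk (q * Y * |β|))| ≤ η * X * Y := by
  obtain ⟨X₀, hX₀⟩ := diag_pr 1 one_pos
  refine ⟨max X₀ (Real.exp ((85 / η) ^ 2)), fun X Y Z T U hC h => ?_⟩
  have hC1 : X₀ ≤ X := (le_max_left _ _).trans hC
  have hC2 : Real.exp ((85 / η) ^ 2) ≤ X := (le_max_right _ _).trans hC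
  have hX0 : 0 < X := lt_of_lt_of_le (Real.exp_pos _) hC2
  have hA : A2 Lam ⌊X⌋₊ ≤ X * Real.log X := by
    have := hX₀ X hC1
    linarith
  have hm := g9_main h hA
  have hL : (85 / η) ^ 2 ≤ Real.log X := by
    rw [Real.le_log_iff_exp_le hX0]
    exact hC2
  have hY0 : (0 : ℝ) ≤ Y := by positivity
  have hL100 : 100 ≤ Real.log X := h.hL
  obtain ⟨L, hLd⟩ : ∃ L, L = Real.log X := ⟨_, rfl⟩
  refine hm.trans ?_
  rw [← hLd] at hL hL100 ⊢
  have hL0 : 0 < L := by linarith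
  have hlog : Real.log L ≤ 2 * Real.sqrt L - 2 := by
    have h1 : Real.log L = 2 * Real.log (Real.sqrt L) := by
      rw [Real.log_sqrt hL0.le]; ring
    have h2 := Real.log_le_sub_one_of_pos (Real.sqrt_pos.mpr hL0)
    linarith
  have hs : Real.sqrt L * Real.sqrt L = L := Real.mul_self_sqrt hL0.le
  have hs0 : 0 < Real.sqrt L := Real.sqrt_pos.mpr hL0
  have hs1 : 85 / η ≤ Real.sqrt L := Real.le_sqrt_of_sq_le hL
  have hs2 : 85 ≤ η * Real.sqrt L := by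
    rw [div_le_iff₀ hη] at hs1
    linarith
  have hs3 : 1 ≤ Real.sqrt L := by
    rw [Real.one_le_sqrt]; linarith
  have key : (85 + 40 * Real.log L) / L ≤ η := by
    rw [div_le_iff₀ hL0]
    calc 85 + 40 * Real.log L ≤ 85 * Real.sqrt L := by linarith
      _ ≤ η * Real.sqrt L * Real.sqrt L := by gcongr
      _ = η * L := by rw [mul_assoc, hs]
  calc X * Y * ((85 + 40 * Real.log L) / L) ≤ X * Y * η := by gcongr
    _ = η * X * Y := by ring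

alias stageA := stageA_pr

end Pool.Agent.MF
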