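import Pool.Agent.Lib_helper59.MF.Defs
import Pool.Agent.Lib_helper92.HCF.PHS
import Pool.Agent.Lib_helper59.MFF.G8
import Pool.Agent.Lib_helper59.MFF.X4
set_option autoImplicit false

namespace Pool.Agent.MF

open Finset Complex Filter Topology MeasureTheory Pool.Agent.Var35 Pool.Agent.Var73 Pool.Agent.HC
open scoped ArithmeticFunction ArithmeticFunction.Moebius

lemma x5a_mp_nonneg (q : ℕ) : 0 ≤ mp q := by
  unfold mp
  split_ifs
  · positivity
  · exact le_rfl

lemma x5a_kk (q : ℕ) (hq : 1 ≤ q) (x : ℝ) (hx : 0 < x) :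
    mp q * kk (q / x) ≤ x * (mp q / q) := by
  have hq0 : (0 : ℝ) < q := by exact_mod_cast hq
  have h := (kk_basic (q / x) (by positivity)).2.2 (by positivity)
  rw [one_div_div] at h
  calc mp q * kk (q / x) ≤ mp q * (x / q) := mul_le_mul_of_nonneg_left h (x5a_mp_nonneg q)
    _ = x * (mp q / q) := by ring

theorem tt_crude_pr : ∃ C : ℝ, 1 ≤ C ∧ ∀ x : ℝ, 0 < x → ∀ R : ℕ,
    ∑ q ∈ Icc 1 R, mp q * kk (q / x) ≤ C * (1 + max 0 (Real.log x)) := by
  obtain ⟨C₁, hC₁, h₁⟩ := phi_sum_pr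
  obtain ⟨C₂, hC₂, h₂⟩ := mp_far
  refine ⟨C₁ + C₂ + 1, by linarith, fun x hx R => ?_⟩
  have hsplit : ∀ y : ℝ, ∑ q ∈ Icc 1 R, mp q * kk (q / x) =
      ∑ q ∈ (Icc 1 R).filter (fun q : ℕ => y < q), mp q * kk (q / x) +
      ∑ q ∈ (Icc 1 R).filter (fun q : ℕ => ¬ y < q), mp q * kk (q / x) :=
    fun y => (Finset.sum_filter_add_sum_filter_not (Icc 1 R) (fun q : ℕ => y < q) _).symm
  have far : ∀ y : ℝ, 1 ≤ y → x ≤ y →
      ∑ q ∈ (Icc 1 R).filter (fun q : ℕ => y < q), mp q * kk (q / x) ≤ C₂ := by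
    intro y hy hxy
    have e1 : ∑ q ∈ (Icc 1 R).filter (fun q : ℕ => y < q), mp q * kk (q / x) ≤
        ∑ q ∈ (Icc 1 R).filter (fun q : ℕ => y < q), x * (mp q / q) := by
      apply Finset.sum_le_sum
      intro q hq
      exact x5a_kk q (mem_Icc.mp (mem_filter.mp hq).1).1 x hx
    have e2 : ∑ q ∈ (Icc 1 R).filter (fun q : ℕ => y < q), x * (mp q / q) ≤ x * (C₂ / y) := by
      rw [← Finset.mul_sum]
      exact mul_le_mul_of_nonneg_left (h₂ y hy R) hx.le
    have e3 : x * (C₂ / y) ≤ C₂ := by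
      rw [← mul_div_assoc, div_le_iff₀ (by linarith)]
      nlinarith
    linarith
  by_cases hx1 : 1 ≤ x
  · have hlog : 0 ≤ Real.log x := Real.log_nonneg hx1
    rw [max_eq_right hlog, hsplit x]
    have hf1 : 1 ≤ ⌊x⌋₊ := by
      rw [Nat.one_le_floor_iff]
      exact hx1
    have near : ∑ q ∈ (Icc 1 R).filter (fun q : ℕ => ¬ x < q), mp q * kk (q / x) ≤
        C₁ * (1 + Real.log x) := by
      have e1 : ∑ q ∈ (Icc 1 R).filter (fun q : ℕ => ¬ x < q), mp q * kk (q / x) ≤
          ∑ q ∈ (Icc 1 R).filter (fun q : ℕ => ¬ x < q), mp q := by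
        apply Finset.sum_le_sum
        intro q _
        have h := (kk_basic (q / x) (by positivity)).2.1
        have := mul_le_mul_of_nonneg_left h (x5a_mp_nonneg q)
        linarith
      have e2 : ∑ q ∈ (Icc 1 R).filter (fun q : ℕ => ¬ x < q), mp q ≤
          ∑ q ∈ Icc 1 ⌊x⌋₊, mp q := by
        apply Finset.sum_le_sum_of_subset_of_nonneg
        · intro q hq
          rw [mem_filter, mem_Icc, not_lt] at hq
          rw [mem_Icc]
          exact ⟨hq.1.1, Nat.le_floor hq.2⟩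
        · intro q _ _
          exact x5a_mp_nonneg q
      have e3 := (h₁ ⌊x⌋₊ hf1).2
      have e4 : Real.log ⌊x⌋₊ ≤ Real.log x := by
        apply Real.log_le_log
        · exact_mod_cast hf1
        · exact Nat.floor_le hx.le
      have e5 : C₁ * (1 + Real.log ⌊x⌋₊) ≤ C₁ * (1 + Real.log x) := by gcongr
      linarith
    have := far x hx1 le_rfl
    nlinarith
  · push Not at hx1
    have hlog : Real.log x ≤ 0 := Real.log_nonpos hx.le hx1.le
    rw [max_eq_left hlog, hsplit 1]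
    have near : ∑ q ∈ (Icc 1 R).filter (fun q : ℕ => ¬ (1 : ℝ) < q), mp q * kk (q / x) ≤ 1 := by
      have e1 : ∑ q ∈ (Icc 1 R).filter (fun q : ℕ => ¬ (1 : ℝ) < q), mp q * kk (q / x) ≤
          ∑ q ∈ (Icc 1 R).filter (fun q : ℕ => ¬ (1 : ℝ) < q), mp q := by
        apply Finset.sum_le_sum
        intro q _
        have h := (kk_basic (q / x) (by positivity)).2.1
        have := mul_le_mul_of_nonneg_left h (x5a_mp_nonneg q)
        linarith
      have e2 : ∑ q ∈ (Icc 1 R).filter (fun q : ℕ => ¬ (1 : ℝ) < q), mp q ≤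
          ∑ q ∈ ({1} : Finset ℕ), mp q := by
        apply Finset.sum_le_sum_of_subset_of_nonneg
        · intro q hq
          rw [mem_filter, mem_Icc, not_lt] at hq
          rw [mem_singleton]
          have : q ≤ 1 := by exact_mod_cast hq.2
          omega
        · intro q _ _
          exact x5a_mp_nonneg q
      have e3 : ∑ q ∈ ({1} : Finset ℕ), mp q = 1 := by
        rw [sum_singleton]
        unfold mp
        simp
      linarith
    have := far 1 le_rfl hx1.le
    linarith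

alias tt_crude := tt_crude_pr

end Pool.Agent.MF
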