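import Pool.Agent.Lib_helper59.MF.Defs
import Pool.Agent.Lib_helper92.HCF.TTL
import Pool.Agent.Lib_helper59.MFF.G8
import Pool.Agent.Lib_helper59.MFF.X4
/-! MF : block X5b (helper37) -/

set_option autoImplicit false

namespace Pool.Agent.MF

open Finset Complex Filter Topology MeasureTheory Pool.Agent.Var35 Pool.Agent.Var73 Pool.Agent.HC
open scoped ArithmeticFunction ArithmeticFunction.Moebius

theorem x5b_mp_nonneg (q : ℕ) : 0 ≤ mp q := by
  unfold mp
  split_ifs
  · positivity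
  · exact le_rfl

theorem x5b_gamma (J : ℕ) (hJ : 1 ≤ J) :
    Real.log J - ∑ j ∈ Icc 1 J, (1 : ℝ) / j ≤ -Real.eulerMascheroniConstant := by
  have h := Real.eulerMascheroniConstant_lt_eulerMascheroniSeq' J
  unfold Real.eulerMascheroniSeq' at h
  rw [if_neg (by omega)] at h
  have h2 : ((harmonic J : ℚ) : ℝ) = ∑ j ∈ Icc 1 J, (1 : ℝ) / j := by
    rw [harmonic_eq_sum_Icc]
    push_cast
    refine Finset.sum_congr rfl fun j _ => ?_
    rw [one_div]
  rw [h2] at h
  linarith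

theorem tt_up_pr (η : ℝ) (hη : 0 < η) : ∃ x₀ : ℝ, 1 ≤ x₀ ∧ ∀ x, x₀ ≤ x → ∀ R : ℕ,
    ∑ q ∈ Icc 1 R, mp q * kk (q / x) ≤
      Real.log x + c1 + 1 - Real.eulerMascheroniConstant + η := by
  obtain ⟨C, hC1, hC⟩ := mp_far
  obtain ⟨J, hJ⟩ := exists_nat_ge (max 1 (3 * C / η))
  have hJ1 : (1 : ℝ) ≤ J := (le_max_left _ _).trans hJ
  have hJ1' : 1 ≤ J := by exact_mod_cast hJ1
  have hJ0 : (0 : ℝ) < J := by linarith
  have hCJ : C / J ≤ η / 3 := by
    have h1 : 3 * C / η ≤ J := (le_max_right _ _).trans hJ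
    rw [div_le_iff₀ hη] at h1
    rw [div_le_div_iff₀ hJ0 (by norm_num)]
    linarith
  have hlim := tt_lim_pr J hJ1'
  have hev := hlim.eventually_lt_const (u := c1 + Real.log J - ∑ j ∈ Icc 1 J, (1 : ℝ) / j + 1 +
    η / 3) (by linarith)
  obtain ⟨x₁, hx₁⟩ := Filter.eventually_atTop.1 hev
  refine ⟨max 1 x₁, le_max_left _ _, ?_⟩
  intro x hx R
  have hx1 : 1 ≤ x := (le_max_left _ _).trans hx
  have hx0 : 0 < x := by linarith
  have hT := hx₁ x ((le_max_right _ _).trans hx)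
  have hg := x5b_gamma J hJ1'
  have hJx : 1 ≤ (J : ℝ) * x := by nlinarith
  have hfar : ∑ q ∈ (Icc 1 R).filter (fun q : ℕ => (J : ℝ) * x < q), mp q * kk (q / x) ≤ η / 3 := by
    have h1 : ∑ q ∈ (Icc 1 R).filter (fun q : ℕ => (J : ℝ) * x < q), mp q * kk (q / x) ≤
        ∑ q ∈ (Icc 1 R).filter (fun q : ℕ => (J : ℝ) * x < q), x * (mp q / q) := by
      refine Finset.sum_le_sum fun q hq => ?_
      rw [mem_filter, mem_Icc] at hq
      have hq0 : (0 : ℝ) < q := by exact_mod_cast hq.1.1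
      have h2 := (kk_basic (q / x) (by positivity)).2.2 (by positivity)
      have h3 : 1 / ((q : ℝ) / x) = x / q := by
        rw [one_div_div]
      rw [h3] at h2
      calc mp q * kk (q / x) ≤ mp q * (x / q) := mul_le_mul_of_nonneg_left h2 (x5b_mp_nonneg q)
        _ = x * (mp q / q) := by ring
    rw [← Finset.mul_sum] at h1
    have h2 := hC ((J : ℝ) * x) hJx R
    have h3 : x * (C / ((J : ℝ) * x)) = C / J := by field_simp
    have h4 := mul_le_mul_of_nonneg_left h2 hx0.le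
    rw [h3] at h4
    linarith
  have hnear : ∑ q ∈ (Icc 1 R).filter (fun q : ℕ => ¬ (J : ℝ) * x < q), mp q * kk (q / x) ≤
      TT J x := by
    unfold TT
    refine Finset.sum_le_sum_of_subset_of_nonneg ?_ ?_
    · intro q hq
      rw [mem_filter, mem_Icc, not_lt] at hq
      rw [mem_Icc]
      exact ⟨hq.1.1, Nat.le_floor hq.2⟩
    · intro q _ _
      exact mul_nonneg (x5b_mp_nonneg q) (kk_basic (q / x) (by positivity)).1
  rw [← Finset.sum_filter_add_sum_filter_not (Icc 1 R) (fun q : ℕ => (J : ℝ) * x < q)]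
  linarith

alias tt_up := tt_up_pr

end Pool.Agent.MF
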