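import Pool.Agent.Lib_helper59.MF.Defs
import Pool.Agent.Lib_helper92.HCF.MTE
import Pool.Agent.Lib_helper59.MFF.X5a
import Pool.Agent.Lib_helper59.MFF.X5b
set_option autoImplicit false

namespace Pool.Agent.MF

open Finset Complex Filter Topology MeasureTheory Pool.Agent.Var35 Pool.Agent.Var73 Pool.Agent.HC
open scoped ArithmeticFunction ArithmeticFunction.Moebius

lemma x6_int {x : ℝ} (hx : 0 < x) :
    IntegrableOn (fun u : ℝ => u ^ (-(3 / 2) : ℝ)) (Set.Ioi x) ∧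
    ∫ u in Set.Ioi x, u ^ (-(3 / 2) : ℝ) = 2 * x ^ (-(1 / 2) : ℝ) := by
  constructor
  · exact integrableOn_Ioi_rpow_of_lt (by norm_num) hx
  · rw [integral_Ioi_rpow_of_lt (by norm_num) hx]
    have : (-(3 / 2) : ℝ) + 1 = -(1 / 2) := by norm_num
    rw [this]
    ring

lemma x6_log {u R₀ : ℝ} (hu : 0 < u) (hR : 0 < R₀) :
    Real.log u - Real.log R₀ ≤ 2 * (u ^ (1 / 2 : ℝ) * R₀ ^ (-(1 / 2) : ℝ)) := by
  have h1 : 0 < u ^ (1 / 2 : ℝ) * R₀ ^ (-(1 / 2) : ℝ) := by positivity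
  have h := Real.log_le_sub_one_of_pos h1
  rw [Real.log_mul (by positivity) (by positivity), Real.log_rpow hu, Real.log_rpow hR] at h
  linarith

/-- the main inequality -/
lemma x6_main {R : ℕ} {x₀ R₀ B L K M : ℝ} (hx₀ : 1 ≤ x₀) (hR₀ : 1 ≤ R₀)
    (hL : L = Real.log R₀) (hM : 0 ≤ M)
    (hT : ∀ x, x₀ ≤ x → ∑ q ∈ Icc 1 R, mp q * kk (q / x) ≤ Real.log x + K)
    (hT' : ∀ x, 0 < x → x ≤ x₀ → ∑ q ∈ Icc 1 R, mp q * kk (q / x) ≤ M) :
    (∫ u in Set.Ioc 0 B, sc u * ∑ q ∈ Icc 1 R, mp q * kk (q / R₀ * u)) ≤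
      (L + K) / 2 - (1 - Real.eulerMascheroniConstant - Real.log (2 * Real.pi)) / 2 +
      (M + |K|) * (R₀ / x₀)⁻¹ + 4 * (R₀ ^ (-(1 / 2) : ℝ) * (R₀ / x₀) ^ (-(1 / 2) : ℝ)) := by
  have hR₀' : 0 < R₀ := by linarith
  have hx₀' : 0 < x₀ := by linarith
  have hV : 0 < R₀ / x₀ := by positivity
  set V := R₀ / x₀ with hVd
  set F : ℝ → ℝ := fun u => ∑ q ∈ Icc 1 R, mp q * kk (q / R₀ * u) with hF
  have hF0 : ∀ u, 0 ≤ F u := fun u =>
    sum_nonneg fun q _ => mul_nonneg (mte_mp_nonneg q) (mte_kk_nonneg _)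
  have hFi : IntegrableOn (fun u => sc u * F u) (Set.Ioi 0) := mte_F_int R R₀
  have hFT : ∀ u, 0 < u → F u = ∑ q ∈ Icc 1 R, mp q * kk (q / (R₀ / u)) := by
    intro u hu
    rw [hF]
    refine sum_congr rfl fun q _ => ?_
    congr 2
    field_simp
  set g4 : ℝ → ℝ := Set.indicator (Set.Ioi V) (fun u => (M + |K|) * u ^ (-2 : ℝ)) with hg4
  set g5 : ℝ → ℝ := Set.indicator (Set.Ioi V)
    (fun u => (2 * R₀ ^ (-(1 / 2) : ℝ)) * u ^ (-(3 / 2) : ℝ)) with hg5
  have i0 : IntegrableOn (fun u => (L + K) * sc u - sc u * Real.log u) (Set.Ioi 0) :=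
    (sc_int.1.const_mul _).sub sc_log.1
  have i4 : IntegrableOn g4 (Set.Ioi 0) := by
    rw [hg4, integrableOn_indicator_iff measurableSet_Ioi]
    exact IntegrableOn.mono_set ((mte_inv_int hV).1.const_mul _) Set.inter_subset_left
  have i5 : IntegrableOn g5 (Set.Ioi 0) := by
    rw [hg5, integrableOn_indicator_iff measurableSet_Ioi]
    exact IntegrableOn.mono_set ((x6_int hV).1.const_mul _) Set.inter_subset_left
  have hpt : ∀ u ∈ Set.Ioi (0 : ℝ), sc u * F u ≤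
      ((L + K) * sc u - sc u * Real.log u) + g4 u + g5 u := by
    intro u hu
    have hu' : 0 < u := hu
    have hsc0 := mte_sc_nonneg u
    by_cases h1 : u ≤ V
    · have e4 : g4 u = 0 := by
        rw [hg4, Set.indicator_of_notMem]; simpa using h1
      have e5 : g5 u = 0 := by
        rw [hg5, Set.indicator_of_notMem]; simpa using h1
      have h2 : x₀ ≤ R₀ / u := by
        rw [le_div_iff₀ hu', mul_comm]
        rwa [hVd, le_div_iff₀ hx₀'] at h1
      have h3 := hT _ h2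
      rw [← hFT u hu', Real.log_div hR₀'.ne' hu'.ne', ← hL] at h3
      have h4 := mul_le_mul_of_nonneg_left h3 hsc0
      rw [e4, e5]
      linarith
    · push Not at h1
      have e4 : g4 u = (M + |K|) * u ^ (-2 : ℝ) := by
        rw [hg4, Set.indicator_of_mem]; exact h1
      have e5 : g5 u = (2 * R₀ ^ (-(1 / 2) : ℝ)) * u ^ (-(3 / 2) : ℝ) := by
        rw [hg5, Set.indicator_of_mem]; exact h1
      have h2 : R₀ / u ≤ x₀ := by
        rw [div_le_iff₀ hu', mul_comm]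
        rw [hVd, div_lt_iff₀ hx₀'] at h1
        exact h1.le
      have h3 := hT' _ (by positivity) h2
      rw [← hFT u hu'] at h3
      have h4 := x6_log hu' hR₀'
      rw [← hL] at h4
      have h5 := mte_sc_le_inv hu'
      have h6 : -|K| ≤ K := neg_abs_le K
      have h7 : F u ≤ (L + K - Real.log u) + ((M + |K|) +
          2 * (u ^ (1 / 2 : ℝ) * R₀ ^ (-(1 / 2) : ℝ))) := by linarith
      have h8 := mul_le_mul_of_nonneg_left h7 hsc0
      have h9 : 0 ≤ (M + |K|) + 2 * (u ^ (1 / 2 : ℝ) * R₀ ^ (-(1 / 2) : ℝ)) := by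
        have := abs_nonneg K
        positivity
      have h10 := mul_le_mul_of_nonneg_right h5 h9
      have h11 : u ^ (-2 : ℝ) * u ^ (1 / 2 : ℝ) = u ^ (-(3 / 2) : ℝ) := by
        rw [← Real.rpow_add hu']; norm_num
      have h12 : u ^ (-2 : ℝ) * ((M + |K|) + 2 * (u ^ (1 / 2 : ℝ) * R₀ ^ (-(1 / 2) : ℝ))) =
          g4 u + g5 u := by
        rw [e4, e5, ← h11]; ring
      rw [h12] at h10
      linarith
  have hint := setIntegral_mono_on hFi ((i0.add i4).add i5) measurableSet_Ioi hpt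
  have hsub : (∫ u in Set.Ioc 0 B, sc u * F u) ≤ ∫ u in Set.Ioi 0, sc u * F u := by
    refine setIntegral_mono_set hFi ?_ ?_
    · exact Eventually.of_forall fun u => mul_nonneg (mte_sc_nonneg u) (hF0 u)
    · exact (Set.Ioc_subset_Ioi_self).eventuallyLE
  simp only [Pi.add_apply] at hint
  refine (hsub.trans hint).trans (le_of_eq ?_)
  have s1 := integral_add (i0.add i4) i5
  have s2 := integral_add i0 i4
  simp only [Pi.add_apply] at s1 s2
  rw [s1, s2]
  have v0 : ∫ u in Set.Ioi (0 : ℝ), ((L + K) * sc u - sc u * Real.log u) =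
      (L + K) / 2 - (1 - Real.eulerMascheroniConstant - Real.log (2 * Real.pi)) / 2 := by
    rw [integral_sub (sc_int.1.const_mul _) sc_log.1, integral_const_mul, sc_int.2, sc_log.2]
    ring
  have v4 : ∫ u in Set.Ioi (0 : ℝ), g4 u = (M + |K|) * V⁻¹ := by
    rw [hg4, setIntegral_indicator measurableSet_Ioi,
      Set.inter_eq_self_of_subset_right (Set.Ioi_subset_Ioi hV.le), integral_const_mul,
      (mte_inv_int hV).2]
  have v5 : ∫ u in Set.Ioi (0 : ℝ), g5 u =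
      4 * (R₀ ^ (-(1 / 2) : ℝ) * V ^ (-(1 / 2) : ℝ)) := by
    rw [hg5, setIntegral_indicator measurableSet_Ioi,
      Set.inter_eq_self_of_subset_right (Set.Ioi_subset_Ioi hV.le), integral_const_mul,
      (x6_int hV).2]
    ring
  rw [v0, v4, v5]

/-- upper bound for the main term -/
theorem mt_up_pr (η : ℝ) (hη : 0 < η) : ∃ C : ℝ, 1 ≤ C ∧ ∀ R₀ B : ℝ, C ≤ R₀ → 0 ≤ B → ∀ R : ℕ,
    ∑ q ∈ Icc 1 R, mp q * (2 * ∫ u in (0 : ℝ)..B, sc u * kk (q / R₀ * u)) ≤
      Real.log R₀ + c1 + Real.log (2 * Real.pi) + η := by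
  obtain ⟨x₀, hx₀, hT⟩ := tt_up (η / 2) (by positivity)
  obtain ⟨C₁, hC₁, hT'⟩ := tt_crude
  have hx₀' : 0 < x₀ := by linarith
  have hlx : 0 ≤ Real.log x₀ := Real.log_nonneg hx₀
  set K := c1 + 1 - Real.eulerMascheroniConstant + η / 2 with hK
  set M := C₁ * (1 + Real.log x₀) with hM
  have hM0 : 0 ≤ M := by positivity
  set D := 2 * (M + |K|) * x₀ + 8 * x₀ ^ (1 / 2 : ℝ) with hD
  have hD0 : 0 ≤ D := by
    have := abs_nonneg K
    positivity
  refine ⟨max 1 (D / (η / 2)), le_max_left _ _, fun R₀ B hR₀ hB R => ?_⟩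
  have hR1 : 1 ≤ R₀ := (le_max_left _ _).trans hR₀
  have hR0 : 0 < R₀ := by linarith
  have hR2 : D / (η / 2) ≤ R₀ := (le_max_right _ _).trans hR₀
  have main := x6_main (R := R) (x₀ := x₀) (R₀ := R₀) (B := B) (L := Real.log R₀) (K := K) (M := M)
    hx₀ hR1 rfl hM0 (fun x hx => by
      have := hT x hx R
      rw [hK]; linarith)
    (fun x hx hxx => by
      refine (hT' x hx R).trans ?_
      rw [hM]
      apply mul_le_mul_of_nonneg_left _ (by linarith)
      have : max 0 (Real.log x) ≤ Real.log x₀ := max_le hlx (Real.log_le_log hx hxx)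
      linarith)
  rw [mte_sum R R₀ B hB]
  have e1 : (R₀ / x₀)⁻¹ = x₀ / R₀ := inv_div _ _
  have e2 : R₀ ^ (-(1 / 2) : ℝ) * (R₀ / x₀) ^ (-(1 / 2) : ℝ) = x₀ ^ (1 / 2 : ℝ) / R₀ := by
    rw [Real.div_rpow hR0.le hx₀'.le, Real.rpow_neg hx₀'.le, div_inv_eq_mul, ← mul_assoc,
      ← Real.rpow_add hR0]
    have : (-(1 / 2) : ℝ) + -(1 / 2) = -1 := by norm_num
    rw [this, Real.rpow_neg_one]
    field_simp
  rw [e1, e2] at main
  have h3 : D / R₀ ≤ η / 2 := by
    rw [div_le_iff₀ hR0]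
    rw [div_le_iff₀ (by positivity)] at hR2
    linarith
  have h4 : D / R₀ = 2 * ((M + |K|) * (x₀ / R₀)) + 8 * (x₀ ^ (1 / 2 : ℝ) / R₀) := by
    rw [hD]; ring
  rw [h4] at h3
  have h5 : Real.log R₀ + K - (1 - Real.eulerMascheroniConstant - Real.log (2 * Real.pi)) =
      Real.log R₀ + c1 + Real.log (2 * Real.pi) + η / 2 := by
    rw [hK]; ring
  linarith

alias mt_up := mt_up_pr

end Pool.Agent.MF
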