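import Pool.Agent.Lib_helper59.MF.Defs
import Pool.Agent.Lib_helper92.HCF.SCA
import Pool.Agent.Lib_helper92.HCF.MTE
import Pool.Agent.Lib_helper59.MFF.G8
import Pool.Agent.Lib_helper59.MFF.X6
set_option autoImplicit false

namespace Pool.Agent.MF

open Finset Complex Filter Topology MeasureTheory Pool.Agent.Var35 Pool.Agent.Var73 Pool.Agent.HC
open scoped ArithmeticFunction ArithmeticFunction.Moebius

theorem x7_mp_nonneg (q : ℕ) : 0 ≤ mp q := by
  unfold mp
  split_ifs <;> positivity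

theorem x7_sc_nonneg (u : ℝ) : 0 ≤ sc u := by
  unfold sc
  positivity

theorem x7_int (c : ℝ) (hc : 0 ≤ c) {B : ℝ} (hB : 0 ≤ B) :
    IntervalIntegrable (fun u : ℝ => sc u * kk (c * u)) volume 0 B := by
  rw [intervalIntegrable_iff_integrableOn_Ioc_of_le hB]
  apply MeasureTheory.Measure.integrableOn_of_bounded (M := 1)
  · rw [Real.volume_Ioc]
    exact ENNReal.ofReal_ne_top
  · exact (SCA_meas c).aestronglyMeasurable
  · filter_upwards [ae_restrict_mem measurableSet_Ioc] with u hu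
    rw [Real.norm_eq_abs]
    exact SCA_bound c hc u hu.1.le

/-- the integral is a monotone function of the upper limit -/
theorem x7_mono (c : ℝ) (hc : 0 ≤ c) {B B' : ℝ} (hB : 0 ≤ B) (hBB : B ≤ B') :
    ∫ u in (0 : ℝ)..B, sc u * kk (c * u) ≤ ∫ u in (0 : ℝ)..B', sc u * kk (c * u) := by
  apply intervalIntegral.integral_mono_interval le_rfl hB hBB
  · filter_upwards [ae_restrict_mem measurableSet_Ioc] with u hu
    exact mul_nonneg (x7_sc_nonneg u) (kk_basic _ (mul_nonneg hc hu.1.le)).1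
  · exact x7_int c hc (hB.trans hBB)

/-- the integral over an arc -/
theorem x7_arc (X : ℝ) (Y q : ℕ) (hX : 0 < X) (hY : 0 < (Y : ℝ)) (hL : 0 < Real.log X)
    (hq : 1 ≤ q) :
    Y * (∫ β in (-(wd X Y q))..(wd X Y q), kk (q * Y * |β|) * ‖Ic X β‖ ^ 2) =
      X * Y * (2 * ∫ u in (0 : ℝ)..(Y / (2 * q * Real.log X ^ 8)), sc u * kk (q / (X / Y) * u)) := by
  have hq0 : (0 : ℝ) < q := by exact_mod_cast hq
  have hw : 0 ≤ wd X Y q := by unfold wd; positivity
  have h := ic_scale_pr X Y q hq (wd X Y q) hX hY hw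
  have e1 : (q : ℝ) * Y / X = q / (X / Y) := by field_simp
  have e2 : X * wd X Y q = Y / (2 * q * Real.log X ^ 8) := by
    unfold wd
    field_simp
  rw [e1, e2] at h
  rw [← h, ← intervalIntegral.integral_const_mul]
  apply intervalIntegral.integral_congr
  intro β _
  have e3 : (Y : ℝ) - rho Y q β = Y * kk (q * Y * |β|) := by
    unfold rho kk
    rcases eq_or_ne β 0 with rfl | hβ
    · simp
    · have : 0 < |β| := abs_pos.mpr hβ
      field_simp
  simp only
  rw [e3]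
  ring

theorem mainterm_pr (η : ℝ) (hη : 0 < η) : ∃ C : ℝ, 1 ≤ C ∧ ∀ (X : ℝ) (Y Z T U : ℕ), C ≤ X →
    C * Y ≤ X → Par X (Real.log X) Y Z T (RR X Y) U →
    |Y * ∑ q ∈ Icc 1 (RR X Y), mp q * (∫ β in (-(wd X Y q))..(wd X Y q),
        kk (q * Y * |β|) * ‖Ic X β‖ ^ 2) -
      X * Y * (Real.log (X / Y) + c1 + Real.log (2 * Real.pi))| ≤ η * X * Y := by
  obtain ⟨C1, hC1, h1⟩ := mt_pr η hη
  obtain ⟨C2, hC2, h2⟩ := mt_up η hη
  refine ⟨max (max C1 C2) (Real.exp (4 * C1)), ?_, fun X Y Z T U hX hCY hP => ?_⟩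
  · exact hC1.trans ((le_max_left _ _).trans (le_max_left _ _))
  set L := Real.log X with hLdef
  have hL : 100 ≤ L := hP.hL
  have hL0 : 0 < L := by linarith
  have hX0 : 0 < X := by linarith [hP.hXL]
  have hY1 : (1 : ℝ) ≤ Y := le_trans (one_le_pow₀ (by linarith)) hP.hY
  have hY0 : (0 : ℝ) < Y := by linarith
  have hLC : 4 * C1 ≤ L := by
    have h3 : Real.exp (4 * C1) ≤ X := (le_max_right _ _).trans hX
    rw [hLdef]
    exact (Real.le_log_iff_exp_le hX0).mpr h3
  set R₀ : ℝ := X / Y with hR₀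
  have hR₀0 : 0 < R₀ := by positivity
  have hR1 : C1 ≤ R₀ := by
    rw [hR₀, le_div_iff₀ hY0]
    exact (mul_le_mul_of_nonneg_right ((le_max_left _ _).trans (le_max_left _ _)) hY0.le).trans hCY
  have hR2 : C2 ≤ R₀ := by
    rw [hR₀, le_div_iff₀ hY0]
    exact (mul_le_mul_of_nonneg_right ((le_max_right _ _).trans (le_max_left _ _)) hY0.le).trans hCY
  have hlR : Real.log R₀ ≤ L := by
    apply Real.log_le_log hR₀0
    rw [hR₀]
    exact div_le_self hX0.le hY1
  have hL8 : C1 * (1 + Real.log R₀) ≤ L ^ 8 / 2 := by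
    have t1 : C1 * (1 + Real.log R₀) ≤ C1 * (2 * L) :=
      mul_le_mul_of_nonneg_left (by linarith) (by linarith)
    have t2 : C1 * (2 * L) ≤ L * L / 2 := by nlinarith
    have t3 : L * L ≤ L ^ 8 := by
      calc L * L = L ^ 2 := by ring
        _ ≤ L ^ 8 := pow_le_pow_right₀ (by linarith) (by norm_num)
    linarith
  set R : ℕ := RR X Y with hRdef
  have hRpos : 1 ≤ R := hP.hR
  have hR0 : (0 : ℝ) < R := by exact_mod_cast hRpos
  -- the sum
  set f : ℕ → ℝ → ℝ := fun q B => mp q * (2 * ∫ u in (0 : ℝ)..B, sc u * kk (q / R₀ * u)) with hf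
  have hsum : (Y : ℝ) * ∑ q ∈ Icc 1 R, mp q * (∫ β in (-(wd X Y q))..(wd X Y q),
        kk (q * Y * |β|) * ‖Ic X β‖ ^ 2) =
      X * Y * ∑ q ∈ Icc 1 R, f q (Y / (2 * q * L ^ 8)) := by
    rw [Finset.mul_sum, Finset.mul_sum]
    refine Finset.sum_congr rfl fun q hq => ?_
    rw [Finset.mem_Icc] at hq
    have h3 := x7_arc X Y q hX0 hY0 hL0 hq.1
    rw [hf]
    simp only
    rw [mul_left_comm, h3]
    ring
  have hfm : ∀ (q : ℕ) (B B' : ℝ), 0 ≤ B → B ≤ B' → f q B ≤ f q B' := by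
    intro q B B' hB hBB
    rw [hf]
    simp only
    have := x7_mono (q / R₀) (by positivity) hB hBB
    have hm := x7_mp_nonneg q
    gcongr
  -- upper bound
  have hup : ∑ q ∈ Icc 1 R, f q (Y / (2 * q * L ^ 8)) ≤
      Real.log R₀ + c1 + Real.log (2 * Real.pi) + η := by
    have h3 : ∑ q ∈ Icc 1 R, f q (Y / (2 * q * L ^ 8)) ≤
        ∑ q ∈ Icc 1 R, f q (Y / (2 * L ^ 8)) := by
      refine Finset.sum_le_sum fun q hq => hfm q _ _ (by positivity) ?_
      rw [Finset.mem_Icc] at hq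
      have hq1 : (1 : ℝ) ≤ q := by exact_mod_cast hq.1
      apply div_le_div_of_nonneg_left hY0.le (by positivity)
      have : 0 < L ^ 8 := by positivity
      nlinarith
    exact h3.trans (h2 R₀ (Y / (2 * L ^ 8)) hR2 (by positivity) R)
  -- lower bound
  have hlow : Real.log R₀ + c1 + Real.log (2 * Real.pi) - η ≤
      ∑ q ∈ Icc 1 R, f q (Y / (2 * q * L ^ 8)) := by
    have hB : C1 * (1 + Real.log R₀) ≤ Y / (2 * R * L ^ 8) := by
      refine hL8.trans ?_
      have t1 : (R : ℝ) ≤ X / Y * L ^ 8 := hP.hR1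
      rw [le_div_iff₀ (by positivity)]
      have t2 : L ^ 8 / 2 * (2 * R * L ^ 8) ≤ L ^ 8 / 2 * (2 * (X / Y * L ^ 8) * L ^ 8) := by
        gcongr
      have t3 : L ^ 8 / 2 * (2 * (X / Y * L ^ 8) * L ^ 8) = X * L ^ 24 / Y := by
        field_simp
      have t4 : X * L ^ 24 / Y ≤ Y := by
        rw [div_le_iff₀ hY0]
        have := hP.hY2
        nlinarith
      linarith
    have hRR : C1 * R₀ * (1 + Real.log R₀) ≤ R := by
      have t1 := hP.hR2
      calc C1 * R₀ * (1 + Real.log R₀) = R₀ * (C1 * (1 + Real.log R₀)) := by ring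
        _ ≤ R₀ * (L ^ 8 / 2) := mul_le_mul_of_nonneg_left hL8 hR₀0.le
        _ = X / Y * L ^ 8 / 2 := by rw [hR₀]; ring
        _ ≤ R := t1
    refine (h1 R₀ _ hR1 hB R hRR).trans ?_
    refine Finset.sum_le_sum fun q hq => hfm q _ _ (by positivity) ?_
    rw [Finset.mem_Icc] at hq
    have hq1 : (1 : ℝ) ≤ q := by exact_mod_cast hq.1
    have hqR : (q : ℝ) ≤ R := by exact_mod_cast hq.2
    apply div_le_div_of_nonneg_left hY0.le (by positivity)
    gcongr
  rw [hsum, ← mul_sub, abs_mul, abs_of_pos (by positivity : 0 < X * Y)]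
  have hab : |∑ q ∈ Icc 1 R, f q (Y / (2 * q * L ^ 8)) -
      (Real.log R₀ + c1 + Real.log (2 * Real.pi))| ≤ η := by
    rw [abs_le]
    constructor <;> linarith
  calc X * Y * _ ≤ X * Y * η := mul_le_mul_of_nonneg_left hab (by positivity)
    _ = η * X * Y := by ring

alias mainterm := mainterm_pr

end Pool.Agent.MF
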