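import Pool.Agent.Lib_helper59.MF.Defs
import Pool.Agent.Lib_helper92.HCF.CQS
set_option autoImplicit false

namespace Pool.Agent.MF

open Finset Complex Filter Topology MeasureTheory Pool.Agent.Var35 Pool.Agent.Var73 Pool.Agent.HC
open scoped ArithmeticFunction ArithmeticFunction.Moebius

theorem x8b_log (Y : ℕ) (hY : 1 ≤ Y) :
    ∑ Q ∈ Icc 1 Y, Real.log Q ≤ Y * Real.log Y - Y + Real.log Y + 1 := by
  induction Y, hY using Nat.le_induction with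
  | base => simp
  | succ Y hY ih =>
    rw [Finset.sum_Icc_succ_top (by omega)]
    have hY0 : (0 : ℝ) < Y := by exact_mod_cast hY
    have h1 : 1 / ((Y : ℝ) + 1) ≤ Real.log (Y + 1) - Real.log Y := by
      rw [← Real.log_div (by positivity) hY0.ne']
      have := Real.one_sub_inv_le_log_of_pos (x := ((Y : ℝ) + 1) / Y) (by positivity)
      refine le_trans (le_of_eq ?_) this
      field_simp
      ring
    have h2 : 1 ≤ ((Y : ℝ) + 1) * (Real.log (Y + 1) - Real.log Y) := by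
      have := mul_le_mul_of_nonneg_left h1 (by positivity : (0 : ℝ) ≤ (Y : ℝ) + 1)
      rwa [mul_one_div_cancel (by positivity)] at this
    push_cast
    nlinarith

theorem x8b_sum (η : ℝ) (hη : 0 < η) : ∃ (K : ℝ) (Y₀ : ℕ), ∀ Y : ℕ, Y₀ ≤ Y →
    Y * (∑' p : Nat.Primes, Real.log (p : ℕ) / ((p : ℕ) * ((p : ℕ) - 1) : ℝ) - η) - K ≤
      ∑ Q ∈ Icc 1 Y, ∑ p ∈ Q.primeFactors, Real.log p / ((p : ℝ) - 1) := by
  obtain ⟨s, hs⟩ : ∃ s : Finset Nat.Primes,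
      ∑' p : Nat.Primes, Real.log (p : ℕ) / ((p : ℕ) * ((p : ℕ) - 1) : ℝ) - η <
        ∑ p ∈ s, Real.log (p : ℕ) / ((p : ℕ) * ((p : ℕ) - 1) : ℝ) := by
    have h1 := ww_log.1.hasSum
    have h2 := h1.eventually (lt_mem_nhds (sub_lt_self _ hη))
    exact h2.exists
  refine ⟨∑ p ∈ s, Real.log (p : ℕ) / (((p : ℕ) : ℝ) - 1), s.sup (fun p => (p : ℕ)), fun Y hY => ?_⟩
  have h1 : ∑ Q ∈ Icc 1 Y, ∑ p ∈ Q.primeFactors, Real.log p / ((p : ℝ) - 1) =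
      ∑ p ∈ (Icc 1 Y).filter Nat.Prime, ∑ Q ∈ (Icc 1 Y).filter (fun Q => p ∣ Q),
        Real.log p / ((p : ℝ) - 1) := by
    apply Finset.sum_comm'
    intro Q p
    simp only [mem_Icc, Nat.mem_primeFactors, mem_filter]
    constructor
    · rintro ⟨⟨h1, h2⟩, h3, h4, h5⟩
      exact ⟨⟨⟨h1, h2⟩, h4⟩, ⟨h3.one_lt.le, (Nat.le_of_dvd (by omega) h4).trans h2⟩, h3⟩
    · rintro ⟨⟨⟨h1, h2⟩, h3⟩, h4, h5⟩
      exact ⟨⟨h1, h2⟩, h5, h3, by omega⟩
  have hcard : ∀ p : ℕ, ((Icc 1 Y).filter (fun Q => p ∣ Q)).card = Y / p := by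
    intro p
    have := Nat.Ioc_filter_dvd_card_eq_div Y p
    rw [← this]
    congr 1
  have hnn : ∀ p : ℕ, p.Prime → 0 ≤ Real.log p / ((p : ℝ) - 1) := by
    intro p hp
    have : (1 : ℝ) < p := by exact_mod_cast hp.one_lt
    exact div_nonneg (Real.log_nonneg this.le) (by linarith)
  have h2 : ∑ p ∈ s, ((Y / (p : ℕ) : ℕ) : ℝ) * (Real.log (p : ℕ) / (((p : ℕ) : ℝ) - 1)) ≤
      ∑ Q ∈ Icc 1 Y, ∑ p ∈ Q.primeFactors, Real.log p / ((p : ℝ) - 1) := by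
    rw [h1]
    have h3 : ∑ p ∈ s, ((Y / (p : ℕ) : ℕ) : ℝ) * (Real.log (p : ℕ) / (((p : ℕ) : ℝ) - 1)) =
        ∑ p ∈ s.image (fun p : Nat.Primes => (p : ℕ)), ((Y / p : ℕ) : ℝ) * (Real.log p / ((p : ℝ) - 1)) := by
      rw [Finset.sum_image]
      intro a _ b _ hab
      exact Subtype.ext hab
    rw [h3]
    have h4 : ∑ p ∈ (Icc 1 Y).filter Nat.Prime, ∑ Q ∈ (Icc 1 Y).filter (fun Q => p ∣ Q),
        Real.log p / ((p : ℝ) - 1) =
        ∑ p ∈ (Icc 1 Y).filter Nat.Prime, ((Y / p : ℕ) : ℝ) * (Real.log p / ((p : ℝ) - 1)) := by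
      refine Finset.sum_congr rfl fun p _ => ?_
      rw [Finset.sum_const, nsmul_eq_mul, hcard]
    rw [h4]
    apply Finset.sum_le_sum_of_subset_of_nonneg
    · intro p hp
      rw [Finset.mem_image] at hp
      obtain ⟨a, ha, rfl⟩ := hp
      rw [Finset.mem_filter, Finset.mem_Icc]
      exact ⟨⟨a.2.one_lt.le, le_trans (Finset.le_sup (f := fun p : Nat.Primes => (p : ℕ)) ha) hY⟩, a.2⟩
    · intro p hp _
      rw [Finset.mem_filter] at hp
      exact mul_nonneg (Nat.cast_nonneg _) (hnn p hp.2)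
  refine le_trans ?_ h2
  have h5 : ∀ p ∈ s, (Y : ℝ) * (Real.log (p : ℕ) / ((p : ℕ) * ((p : ℕ) - 1) : ℝ)) -
      Real.log (p : ℕ) / (((p : ℕ) : ℝ) - 1) ≤
      ((Y / (p : ℕ) : ℕ) : ℝ) * (Real.log (p : ℕ) / (((p : ℕ) : ℝ) - 1)) := by
    intro p _
    have hp0 : (0 : ℝ) < (p : ℕ) := by exact_mod_cast p.2.pos
    have e1 : (Y : ℝ) / (p : ℕ) - 1 ≤ ((Y / (p : ℕ) : ℕ) : ℝ) := by
      have e2 : Y < (p : ℕ) * (Y / (p : ℕ) + 1) := Nat.lt_mul_div_succ Y p.2.pos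
      have e3 : (Y : ℝ) < (p : ℕ) * (((Y / (p : ℕ) : ℕ) : ℝ) + 1) := by exact_mod_cast e2
      have e4 : (Y : ℝ) / (p : ℕ) < ((Y / (p : ℕ) : ℕ) : ℝ) + 1 := by
        rw [div_lt_iff₀ hp0, mul_comm]
        exact e3
      linarith
    have e5 := mul_le_mul_of_nonneg_right e1 (hnn p p.2)
    refine le_trans (le_of_eq ?_) e5
    rw [sub_mul, one_mul, div_mul_div_comm, mul_div_assoc]
  have h6 := Finset.sum_le_sum h5
  rw [Finset.sum_sub_distrib, ← Finset.mul_sum] at h6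
  have hYn : (0 : ℝ) ≤ Y := Nat.cast_nonneg _
  have h7 := mul_le_mul_of_nonneg_left hs.le hYn
  linarith

theorem cq_up_pr (η : ℝ) (hη : 0 < η) : ∃ Y₀ : ℕ, ∀ Y : ℕ, Y₀ ≤ Y →
    ∑ Q ∈ Icc 1 Y, (Real.log Q - CQ Q) ≤
      Y * (Real.log Y - 1 - c1 - Real.log (2 * Real.pi)) + η * Y := by
  obtain ⟨K, Y1, h1⟩ := x8b_sum (η / 2) (by linarith)
  -- `log Y + 1 + K ≤ η / 2 * Y` eventually
  have hev : ∀ᶠ y : ℝ in atTop, Real.log y + (1 + K) ≤ η / 2 * y := by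
    have e1 : ∀ᶠ y : ℝ in atTop, Real.log y ≤ η / 4 * y := by
      have := (Real.isLittleO_log_id_atTop.def (by linarith : (0 : ℝ) < η / 4))
      filter_upwards [this, eventually_gt_atTop (0 : ℝ)] with y hy hy0
      rw [id, Real.norm_of_nonneg hy0.le] at hy
      exact (le_abs_self _).trans hy
    filter_upwards [e1, eventually_ge_atTop ((1 + K) / (η / 4))] with y h2 h3
    rw [div_le_iff₀ (by linarith)] at h3
    linarith
  obtain ⟨y0, hy0⟩ := eventually_atTop.mp hev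
  obtain ⟨Y2, hY2⟩ := exists_nat_ge y0
  refine ⟨max (max Y1 Y2) 1, fun Y hY => ?_⟩
  have hY1 : Y1 ≤ Y := ((le_max_left _ _).trans (le_max_left _ _)).trans hY
  have hY2' : Y2 ≤ Y := ((le_max_right _ _).trans (le_max_left _ _)).trans hY
  have hY3 : 1 ≤ Y := (le_max_right _ _).trans hY
  have a1 := h1 Y hY1
  have a2 := x8b_log Y hY3
  have a3 := hy0 Y (hY2.trans (by exact_mod_cast hY2'))
  have h3 : ∑ Q ∈ Icc 1 Y, (Real.log Q - CQ Q) = ∑ Q ∈ Icc 1 Y, Real.log Q -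
      (Y * (Real.eulerMascheroniConstant + Real.log (2 * Real.pi)) +
        ∑ Q ∈ Icc 1 Y, ∑ p ∈ Q.primeFactors, Real.log p / ((p : ℝ) - 1)) := by
    unfold CQ
    rw [Finset.sum_sub_distrib, Finset.sum_add_distrib, Finset.sum_const, nsmul_eq_mul]
    simp
  rw [h3]
  unfold c1
  linarith

alias cq_up := cq_up_pr

end Pool.Agent.MF
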