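import Pool.Agent.Lib_helper59.MF.Defs
import Pool.Agent.Lib_helper92.HCF.DIA
import Pool.Agent.Lib_helper92.HCF.CQS
import Pool.Agent.Lib_helper92.HCF.IDN
import Pool.Agent.Lib_helper92.HCF.FIA
import Pool.Agent.Lib_helper59.MFF.C5a
import Pool.Agent.Lib_helper59.MFF.C5b
import Pool.Agent.Lib_helper59.MFF.F1a
import Pool.Agent.Lib_helper59.MFF.G9
import Pool.Agent.Lib_helper59.MFF.X3
import Pool.Agent.Lib_helper59.MFF.X7
import Pool.Agent.Lib_helper59.MFF.X8a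
import Pool.Agent.Lib_helper59.MFF.X8b
set_option autoImplicit false

namespace Pool.Agent.MF

open Finset Complex Filter Topology MeasureTheory Pool.Agent.Var35 Pool.Agent.Var73 Pool.Agent.HC
open scoped ArithmeticFunction ArithmeticFunction.Moebius

theorem mean_formula_pr (η : ℝ) (hη : 0 < η) : ∃ C : ℝ, ∀ (X : ℝ) (Y : ℕ), C ≤ X →
    Real.sqrt X * Real.log X ^ 12 ≤ Y → C * Y ≤ X →
    |∑ Q ∈ Icc 1 Y, (GX X Q - LX X Q (X / Q * Real.log X ^ 8) - X * (Real.log Q - CQ Q)) +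
      DD X Y| ≤ η * X * Y := by
  set ε := η / 8 with hε
  have hε0 : 0 < ε := by rw [hε]; linarith
  obtain ⟨C1, h1⟩ := stageA ε hε0
  obtain ⟨C2, h2⟩ := xsum ε hε0
  obtain ⟨C3, hC3, h3⟩ := mainterm ε hε0
  obtain ⟨C4, h4⟩ := chi_low ε hε0
  obtain ⟨C5, h5⟩ := chi_up ε hε0
  obtain ⟨C6, h6⟩ := diag ε hε0
  obtain ⟨C7, h7⟩ := diag_low ε hε0
  obtain ⟨Y0, h8⟩ := cq_up ε hε0
  obtain ⟨C9, h9⟩ := par_exists
  set C := max (max (max (max C1 C2) (max C3 C4)) (max (max C5 C6) (max C7 C9)))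
    (max 3 ((Y0 : ℝ) ^ 2 + 3)) with hC
  have c1' : C1 ≤ C := by rw [hC]; simp
  have c2' : C2 ≤ C := by rw [hC]; simp
  have c3' : C3 ≤ C := by rw [hC]; simp
  have c4' : C4 ≤ C := by rw [hC]; simp
  have c5' : C5 ≤ C := by rw [hC]; simp
  have c6' : C6 ≤ C := by rw [hC]; simp
  have c7' : C7 ≤ C := by rw [hC]; simp
  have c9' : C9 ≤ C := by rw [hC]; simp
  have cY' : (Y0 : ℝ) ^ 2 + 3 ≤ C := le_trans (le_max_right _ _) (le_max_right _ _)
  have c30 : 3 ≤ C := le_trans (le_max_left _ _) (le_max_right _ _)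
  clear_value C
  refine ⟨C, fun X Y hX hY hCY => ?_⟩
  have hYn : (0 : ℝ) ≤ Y := Nat.cast_nonneg _
  have hX3 : (3 : ℝ) ≤ X := c30.trans hX
  have hXp : 0 < X := by linarith
  have hYX : (Y : ℝ) ≤ X := by
    refine le_trans (le_mul_of_one_le_left hYn ?_) hCY
    linarith
  obtain ⟨Z, T, U, hP⟩ := h9 X Y (c9'.trans hX) hY hYX
  have hlog : 1 ≤ Real.log X := by
    rw [Real.le_log_iff_exp_le hXp]
    linarith [Real.exp_one_lt_d9]
  -- `Y` is large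
  have hY2 : X ≤ (Y : ℝ) ^ 2 := by
    have e1 := hP.hY2
    have e2 : 1 ≤ Real.log X ^ 24 := one_le_pow₀ hlog
    calc X = X * 1 := (mul_one X).symm
      _ ≤ X * Real.log X ^ 24 := by gcongr
      _ ≤ (Y : ℝ) ^ 2 := e1
  have hY0Y : Y0 ≤ Y := by
    by_contra hlt
    push Not at hlt
    have e1 : (Y : ℝ) ≤ Y0 := by exact_mod_cast hlt.le
    have e2 : (Y : ℝ) ^ 2 ≤ (Y0 : ℝ) ^ 2 := by gcongr
    linarith [cY'.trans hX]
  have hY0 : (0 : ℝ) < Y := by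
    rcases hYn.lt_or_eq with h | h
    · exact h
    · rw [← h] at hY2
      norm_num at hY2
      linarith
  have hY1 : 1 ≤ Y := by
    have : 0 < Y := by exact_mod_cast hY0
    omega
  -- the inputs
  have a1 := h1 X Y Z T U (c1'.trans hX) hP
  have a2 := h2 X Y Z T U (c2'.trans hX) hP
  have a3 := h3 X Y Z T U (c3'.trans hX) ((mul_le_mul_of_nonneg_right c3' hYn).trans hCY) hP
  have a4 := h4 X Y Z T U (c4'.trans hX) ((mul_le_mul_of_nonneg_right c4' hYn).trans hCY) hP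
  have a5 := h5 X Y Z T U (c5'.trans hX) hP
  have a6 := h6 X (c6'.trans hX)
  have a7 := h7 X (c7'.trans hX)
  have a8 := h8 Y hY0Y
  have a9 := cq_sum Y hY1
  -- the identity
  have hid : ∑ Q ∈ Icc 1 Y, (GX X Q - LX X Q (X / Q * Real.log X ^ 8) -
      X * (Real.log Q - CQ Q)) = ∑ Q ∈ Icc 1 Y, HH X Q (X / Q * Real.log X ^ 8) -
        X * ∑ Q ∈ Icc 1 Y, (Real.log Q - CQ Q) := by
    rw [Finset.sum_sub_distrib, Finset.mul_sum]
    congr 1
    apply Finset.sum_congr rfl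
    intro Q hQ
    rw [Finset.mem_Icc] at hQ
    have hQ0 : (0 : ℝ) < Q := by exact_mod_cast hQ.1
    have hQY : (Q : ℝ) ≤ Y := by exact_mod_cast hQ.2
    apply gx_ident X Q hQ.1
    have e1 : 1 ≤ X / Q := by
      rw [le_div_iff₀ hQ0]
      linarith
    have e2 : 1 ≤ Real.log X ^ 8 := one_le_pow₀ hlog
    calc (1 : ℝ) = 1 * 1 := by ring
      _ ≤ X / Q * Real.log X ^ 8 := mul_le_mul e1 e2 (by norm_num) (by positivity)
  have hlogdiv : Real.log (X / Y) = Real.log X - Real.log Y := Real.log_div hXp.ne' hY0.ne'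
  rw [hlogdiv] at a3
  rw [abs_le] at a1 a2 a3
  obtain ⟨b1, b1'⟩ := a1
  obtain ⟨b2, b2'⟩ := a2
  obtain ⟨b3, b3'⟩ := a3
  have b6 : (Y : ℝ) * A2 Lam ⌊X⌋₊ ≤ Y * (X * Real.log X - X + ε * X) :=
    mul_le_mul_of_nonneg_left a6 hYn
  have b7 : Y * (X * Real.log X - X - ε * X) ≤ (Y : ℝ) * A2 Lam ⌊X⌋₊ :=
    mul_le_mul_of_nonneg_left a7 hYn
  have b8 : X * ∑ Q ∈ Icc 1 Y, (Real.log Q - CQ Q) ≤
      X * (Y * (Real.log Y - 1 - c1 - Real.log (2 * Real.pi)) + ε * Y) :=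
    mul_le_mul_of_nonneg_left a8 hXp.le
  have b9 : X * (Y * (Real.log Y - 1 - c1 - Real.log (2 * Real.pi))) ≤
      X * ∑ Q ∈ Icc 1 Y, (Real.log Q - CQ Q) := mul_le_mul_of_nonneg_left a9 hXp.le
  have hηε : η * X * Y = 8 * (ε * (X * Y)) := by rw [hε]; ring
  have hεXY : ε * X * Y = ε * (X * Y) := by ring
  rw [hεXY] at b1 b1' b2 b2' b3 b3' a4 a5
  rw [hid, abs_le, hηε]
  have hnn : 0 ≤ ε * (X * Y) := by positivity
  constructor <;> linarith [b1, b2, b3]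

alias mean_formula := mean_formula_pr

end Pool.Agent.MF
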