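import Pool.Agent.Lib_helper59.MF.Defs
import Pool.Agent.Lib_helper92.HCF.DIA
set_option autoImplicit false

namespace Pool.Agent.MF

open Finset Complex Filter Topology MeasureTheory Pool.Agent.Var35 Pool.Agent.Var73 Pool.Agent.HC
open scoped ArithmeticFunction ArithmeticFunction.Moebius

/-- summation by parts -/
theorem x8a_abel (n₀ : ℕ) (hn₀ : 1 ≤ n₀) (c : ℝ)
    (h : ∀ N : ℕ, n₀ ≤ N → psi (N : ℝ) * (Real.log (N + 1) - Real.log N) ≤ c) (N : ℕ)
    (hN : n₀ ≤ N) :
    psi (N : ℝ) * Real.log N - ∑ n ∈ Icc 1 N, Lam n * Real.log n ≤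
      psi (n₀ : ℝ) * Real.log n₀ + c * ((N : ℝ) - n₀) := by
  induction N, hN using Nat.le_induction with
  | base =>
    have h1 : 0 ≤ ∑ n ∈ Icc 1 n₀, Lam n * Real.log n := by
      apply Finset.sum_nonneg
      intro n hn
      rw [Finset.mem_Icc] at hn
      exact mul_nonneg ArithmeticFunction.vonMangoldt_nonneg
        (Real.log_nonneg (by exact_mod_cast hn.1))
    rw [sub_self, mul_zero, add_zero]
    linarith
  | succ N hN ih =>
    rw [diag_psi_succ, Finset.sum_Icc_succ_top (by omega)]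
    have h1 := h N hN
    push_cast
    nlinarith

theorem x8a_A2 (N : ℕ) (hN : 1 ≤ N) :
    ∑ n ∈ Icc 1 N, Lam n * Real.log n - 2 * Real.sqrt N * Real.log N * Real.log N ≤ A2 Lam N := by
  have hN1 : (1 : ℝ) ≤ N := by exact_mod_cast hN
  have hl : 0 ≤ Real.log N := Real.log_nonneg hN1
  have h1 : ∑ n ∈ Icc 1 N, Lam n * Real.log n ≤ A2 Lam N +
      ∑ n ∈ (Icc 1 N).filter (fun n => ¬ n.Prime), Lam n * Real.log N := by
    unfold A2
    rw [Finset.sum_filter, ← Finset.sum_add_distrib]
    apply Finset.sum_le_sum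
    intro n hn
    rw [Finset.mem_Icc] at hn
    have hn0 : (0 : ℝ) < n := by exact_mod_cast (by omega : 0 < n)
    have hle : Real.log n ≤ Real.log N := Real.log_le_log hn0 (by exact_mod_cast hn.2)
    have hL : 0 ≤ Lam n := ArithmeticFunction.vonMangoldt_nonneg
    by_cases hp : n.Prime
    · rw [if_neg (by simpa using hp), add_zero, sq]
      have : Lam n = Real.log n := ArithmeticFunction.vonMangoldt_apply_prime hp
      rw [this]
    · rw [if_pos hp]
      have := mul_le_mul_of_nonneg_left hle hL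
      have h2 := sq_nonneg (Lam n)
      linarith
  have h2 : ∑ n ∈ (Icc 1 N).filter (fun n => ¬ n.Prime), Lam n * Real.log N ≤
      2 * Real.sqrt N * Real.log N * Real.log N := by
    rw [← Finset.sum_mul]
    apply mul_le_mul_of_nonneg_right _ hl
    have h3 := Chebyshev.psi_sub_theta_eq_sum_not_prime (N : ℝ)
    have h4 := Chebyshev.psi_sub_theta_le hN1
    rw [h3, Nat.floor_natCast] at h4
    exact h4
  linarith

theorem diag_low_pr (η : ℝ) (hη : 0 < η) : ∃ X₀ : ℝ, ∀ X : ℝ, X₀ ≤ X →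
    X * Real.log X - X - η * X ≤ A2 Lam ⌊X⌋₊ := by
  obtain ⟨C, hC, hpnt⟩ := pnt_strong 2
  set ε : ℝ := η / 8 with hε
  have hε0 : 0 < ε := by rw [hε]; linarith
  set n₀ : ℕ := 2 + ⌈Real.exp (1 + C / ε)⌉₊ with hn₀
  have hn2 : 2 ≤ n₀ := by omega
  have hne : Real.exp (1 + C / ε) ≤ n₀ := by
    have := Nat.le_ceil (Real.exp (1 + C / ε))
    rw [hn₀]; push_cast
    linarith
  have hlog : ∀ N : ℕ, n₀ ≤ N → 1 + C / ε ≤ Real.log N := by
    intro N hN
    have h1 : Real.exp (1 + C / ε) ≤ N := le_trans hne (by exact_mod_cast hN)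
    have h2 := Real.log_le_log (Real.exp_pos _) h1
    rwa [Real.log_exp] at h2
  have hCε : 0 < C / ε := by positivity
  have hq : ∀ N : ℕ, n₀ ≤ N → C / Real.log N ≤ ε := by
    intro N hN
    have h1 := hlog N hN
    have h2 : 0 < Real.log N := by linarith
    rw [div_le_iff₀ h2]
    have h3 : C / ε ≤ Real.log N := by linarith
    rw [div_le_iff₀ hε0] at h3
    linarith
  have hpsi : ∀ N : ℕ, n₀ ≤ N → |psi (N : ℝ) - N| ≤ ε * N / Real.log N := by
    intro N hN
    have h1 := hlog N hN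
    have h2 : 0 < Real.log N := by linarith
    have h3 : (2 : ℝ) ≤ N := by exact_mod_cast le_trans hn2 hN
    refine le_trans (hpnt N h3) ?_
    have h4 := hq N hN
    have h5 : C * N / Real.log N ^ 2 = (C / Real.log N) * N / Real.log N := by
      field_simp
    rw [h5]
    apply div_le_div_of_nonneg_right _ h2.le
    exact mul_le_mul_of_nonneg_right h4 (by linarith)
  have hstep : ∀ N : ℕ, n₀ ≤ N →
      psi (N : ℝ) * (Real.log (N + 1) - Real.log N) ≤ 1 + ε := by
    intro N hN
    have h1 := hlog N hN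
    have hl1 : 1 ≤ Real.log N := by linarith
    have hN2 : (2 : ℝ) ≤ N := by exact_mod_cast le_trans hn2 hN
    have h2 : psi (N : ℝ) ≤ (1 + ε) * N := by
      have h3 := hpsi N hN
      have h4 : ε * N / Real.log N ≤ ε * N := div_le_self (by positivity) hl1
      have h5 := (abs_le.mp (h3.trans h4)).2
      linarith
    have h6 : Real.log (N + 1) - Real.log N ≤ 1 / N := by
      rw [← Real.log_div (by positivity) (by positivity)]
      have := Real.log_le_sub_one_of_pos (x := ((N : ℝ) + 1) / N) (by positivity)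
      refine this.trans (le_of_eq ?_)
      field_simp
      ring
    have h7 : 0 ≤ Real.log ((N : ℝ) + 1) - Real.log N := by
      have := Real.log_le_log (by linarith : (0 : ℝ) < N) (by linarith : (N : ℝ) ≤ (N : ℝ) + 1)
      linarith
    calc psi (N : ℝ) * (Real.log (N + 1) - Real.log N)
        ≤ (1 + ε) * N * (1 / N) := mul_le_mul h2 h6 h7 (by positivity)
      _ = 1 + ε := by field_simp
  -- large `X`
  have hev1 : ∀ᶠ x : ℝ in atTop, 2 * Real.sqrt x * Real.log x * Real.log x ≤ ε * x := by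
    have h1 : (fun x : ℝ => Real.log x) =o[atTop] fun x : ℝ => x ^ (1 / 8 : ℝ) :=
      isLittleO_log_rpow_atTop (by norm_num)
    have h2 := h1.def (by norm_num : (0 : ℝ) < 1)
    have h3 : Tendsto (fun x : ℝ => x ^ (1 / 4 : ℝ)) atTop atTop := tendsto_rpow_atTop (by norm_num)
    filter_upwards [h2, h3.eventually_ge_atTop (2 / ε), eventually_ge_atTop (1 : ℝ)]
      with x h4 h5 h6
    have hx0 : 0 < x := by linarith
    have h7 : Real.log x ≤ x ^ (1 / 8 : ℝ) := by
      rw [one_mul, Real.norm_eq_abs, Real.norm_of_nonneg (Real.rpow_nonneg hx0.le _)] at h4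
      exact (le_abs_self _).trans h4
    have h8 : 0 ≤ Real.log x := Real.log_nonneg h6
    have h9 : 2 ≤ ε * x ^ (1 / 4 : ℝ) := by
      rw [div_le_iff₀ hε0] at h5
      linarith
    calc 2 * Real.sqrt x * Real.log x * Real.log x
        ≤ 2 * Real.sqrt x * x ^ (1 / 8 : ℝ) * x ^ (1 / 8 : ℝ) := by gcongr
      _ = 2 * x ^ (3 / 4 : ℝ) := by
          rw [Real.sqrt_eq_rpow, mul_assoc, mul_assoc, ← Real.rpow_add hx0, ← Real.rpow_add hx0]
          norm_num
      _ ≤ (ε * x ^ (1 / 4 : ℝ)) * x ^ (3 / 4 : ℝ) := by gcongr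
      _ = ε * x := by
          rw [mul_assoc, ← Real.rpow_add hx0]
          norm_num
  have hev2 : ∀ᶠ x : ℝ in atTop, Real.log x + psi (n₀ : ℝ) * Real.log n₀ ≤ ε * x := by
    have h1 := (Real.isLittleO_log_id_atTop.def (by linarith : (0 : ℝ) < ε / 2))
    filter_upwards [h1, eventually_ge_atTop (1 : ℝ),
      eventually_ge_atTop (psi (n₀ : ℝ) * Real.log n₀ / (ε / 2))] with x h2 h3 h4
    rw [id, Real.norm_of_nonneg (by linarith : (0 : ℝ) ≤ x)] at h2
    rw [div_le_iff₀ (by linarith)] at h4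
    have := (le_abs_self _).trans h2
    linarith
  obtain ⟨x1, hx1⟩ := eventually_atTop.mp hev1
  obtain ⟨x2, hx2⟩ := eventually_atTop.mp hev2
  refine ⟨max (max (x1 + 1) x2) (n₀ + 1), fun X hX => ?_⟩
  have a1 : x1 + 1 ≤ X := ((le_max_left _ _).trans (le_max_left _ _)).trans hX
  have a2 : x2 ≤ X := ((le_max_right _ _).trans (le_max_left _ _)).trans hX
  have a3 : (n₀ : ℝ) + 1 ≤ X := (le_max_right _ _).trans hX
  have hn2r : (2 : ℝ) ≤ n₀ := by exact_mod_cast hn2
  have hX0 : 0 ≤ X := by linarith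
  set N : ℕ := ⌊X⌋₊ with hNdef
  have hNn : n₀ ≤ N := Nat.le_floor (by linarith)
  have hNX : (N : ℝ) ≤ X := Nat.floor_le hX0
  have hXN : X < N + 1 := Nat.lt_floor_add_one X
  have hN1 : 1 ≤ N := by omega
  have hN1r : (1 : ℝ) ≤ N := by exact_mod_cast hN1
  have b1 := hx1 N (by linarith)
  have b2 := hx2 X a2
  have b3 := x8a_A2 N hN1
  have b4 := x8a_abel n₀ (by omega) (1 + ε) hstep N hNn
  have hlN := hlog N hNn
  have hlN0 : 0 < Real.log N := by linarith
  have b5 : N * Real.log N - ε * N ≤ psi (N : ℝ) * Real.log N := by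
    have h1 := (abs_le.mp (hpsi N hNn)).1
    have h2 : N - ε * N / Real.log N ≤ psi (N : ℝ) := by linarith
    have h3 := mul_le_mul_of_nonneg_right h2 hlN0.le
    have e : (N - ε * N / Real.log N) * Real.log N = N * Real.log N - ε * N := by
      field_simp
    linarith
  -- from `N` to `X`
  have b6 : X * Real.log X - X ≤ N * Real.log N - N + Real.log X := by
    have hN0 : (0 : ℝ) < N := by linarith
    have hXp : 0 < X := by linarith
    have h1 : N * (Real.log X - Real.log N) ≤ X - N := by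
      rw [← Real.log_div hXp.ne' hN0.ne']
      have := Real.log_le_sub_one_of_pos (x := X / N) (by positivity)
      have h2 := mul_le_mul_of_nonneg_left this hN0.le
      have e : (N : ℝ) * (X / N - 1) = X - N := by field_simp
      linarith
    have h2 : 0 ≤ Real.log X := Real.log_nonneg (by linarith)
    have h3 : (X - N) * Real.log X ≤ 1 * Real.log X :=
      mul_le_mul_of_nonneg_right (by linarith) h2
    nlinarith
  have b7 : ε * N ≤ ε * X := mul_le_mul_of_nonneg_left hNX hε0.le
  have b8 : 0 ≤ (1 + ε) * (n₀ : ℝ) := by positivity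
  have b9 : η * X = 8 * (ε * X) := by rw [hε]; ring
  have b10 : 0 ≤ ε * X := by positivity
  nlinarith [b1, b2, b3, b4, b5, b6, b7, b8]

alias diag_low := diag_low_pr

end Pool.Agent.MF
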